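import Mathlib
import Pool.Agent.Helper127.FF.Defs

set_option autoImplicit false

namespace Pool.Agent.Helper127.FF.A5a


theorem a5_card : Nat.card (alternatingGroup (Fin 5)) = 60 := by
  rw [nat_card_alternatingGroup, Nat.card_eq_fintype_card, Fintype.card_fin]
  rfl

theorem a5_sylow_card {G : Type} [Group G] [Finite G] (h60 : Nat.card G ∣ 60)
    (h5 : 5 ∣ Nat.card G) (P : Sylow 5 G) : Nat.card P = 5 := by
  have : Fact (Nat.Prime 5) := ⟨by norm_num⟩
  obtain ⟨n, hn⟩ := IsPGroup.iff_card.mp P.isPGroup'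
  have h1 : 5 ^ 1 ∣ Nat.card P := P.pow_dvd_card_of_pow_dvd_card (by simpa using h5)
  have h2 : Nat.card P ∣ 60 := dvd_trans (P : Subgroup G).card_subgroup_dvd_card h60
  rw [hn] at h1 h2 ⊢
  have h3 : 1 ≤ n := (Nat.pow_dvd_pow_iff_le_right (by norm_num)).1 h1
  have h4 : n < 2 := by
    by_contra hcon
    push Not at hcon
    have h5' : 5 ^ 2 ∣ 60 := dvd_trans (pow_dvd_pow 5 hcon) h2
    norm_num at h5'
  have h5' : n = 1 := by omega
  rw [h5', pow_one]

theorem a5_case2 (S : Subgroup (alternatingGroup (Fin 5))) (hS : S ≠ ⊤)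
    (htr : ∀ a b : Fin 5, ∃ g ∈ S, (g : Equiv.Perm (Fin 5)) a = b) :
    ∃ P : Sylow 5 (alternatingGroup (Fin 5)),
      S ≤ Subgroup.normalizer ((P : Subgroup (alternatingGroup (Fin 5))) : Set _) := by
  have : Fact (Nat.Prime 5) := ⟨by norm_num⟩
  have hpre : MulAction.IsPretransitive S (Fin 5) := ⟨fun a b => by
    obtain ⟨g, hg, h⟩ := htr a b
    exact ⟨⟨g, hg⟩, h⟩⟩
  have h5 : 5 ∣ Nat.card S := by
    have h1 := MulAction.index_stabilizer_of_transitive S (0 : Fin 5)
    rw [Nat.card_eq_fintype_card, Fintype.card_fin] at h1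
    have h2 := Subgroup.index_dvd_card (MulAction.stabilizer S (0 : Fin 5))
    rwa [h1] at h2
  have h60 : Nat.card S ∣ 60 := by
    have := Subgroup.card_subgroup_dvd_card S
    rwa [a5_card] at this
  have hmul : Nat.card S * S.index = 60 := by rw [S.card_mul_index]; exact a5_card
  have hne60 : Nat.card S ≠ 60 := by
    intro h
    apply hS
    exact Subgroup.eq_top_of_card_eq S (by rw [h, a5_card])
  have hne30 : Nat.card S ≠ 30 := by
    intro h
    have hidx : S.index = 2 := by rw [h] at hmul; omega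
    have hn := Subgroup.normal_of_index_eq_two hidx
    rcases hn.eq_bot_or_eq_top with h1 | h1
    · rw [h1] at h; simp at h
    · exact hS h1
  obtain ⟨m, hm⟩ := id h5
  have hm12 : m ∣ 12 := by
    rw [hm] at h60
    exact Nat.dvd_of_mul_dvd_mul_left (by norm_num : 0 < 5) (by simpa using h60)
  have hm12' : m ≠ 12 := by rintro rfl; exact hne60 (by rw [hm])
  have hm6 : m ≠ 6 := by rintro rfl; exact hne30 (by rw [hm])
  have hmle : m ≤ 12 := Nat.le_of_dvd (by norm_num) hm12
  have hm4 : m ≤ 4 := by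
    interval_cases m <;> first | omega | (exfalso; revert hm12; decide)
  let P : Sylow 5 S := default
  have hPc : Nat.card P = 5 := a5_sylow_card h60 h5 P
  have hidx : (P : Subgroup S).index = m := by
    have h1 := (P : Subgroup S).card_mul_index
    have h2 : Nat.card (P : Subgroup S) = 5 := hPc
    rw [h2, hm] at h1
    omega
  have hmod := card_sylow_modEq_one 5 S
  have hdvd : Nat.card (Sylow 5 S) ∣ m := by
    have := P.card_dvd_index
    rwa [hidx] at this
  have hm0 : 0 < m := by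
    rcases Nat.eq_zero_or_pos m with h | h
    · rw [h] at hm
      have := Nat.card_pos (α := S)
      omega
    · exact h
  have hle : Nat.card (Sylow 5 S) ≤ 4 := (Nat.le_of_dvd hm0 hdvd).trans hm4
  have hone : Nat.card (Sylow 5 S) = 1 := by
    unfold Nat.ModEq at hmod
    omega
  obtain ⟨hsub, -⟩ := Nat.card_eq_one_iff_unique.1 hone
  have hnorm : (P : Subgroup S).Normal := Sylow.normal_of_subsingleton P
  set Q : Subgroup (alternatingGroup (Fin 5)) := (P : Subgroup S).map S.subtype with hQ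
  have hQc : Nat.card Q = 5 := by
    refine Eq.trans ?_ hPc
    exact (Nat.card_congr ((P : Subgroup S).equivMapOfInjective S.subtype
      S.subtype_injective).toEquiv).symm
  have hfac : 5 ^ (Nat.card (alternatingGroup (Fin 5))).factorization 5 = 5 := by
    have R : Sylow 5 (alternatingGroup (Fin 5)) := default
    rw [← R.card_eq_multiplicity]
    apply a5_sylow_card
    · rw [a5_card]
    · rw [a5_card]; norm_num
  refine ⟨Sylow.ofCard Q (by rw [hQc, hfac]), ?_⟩
  rw [Sylow.coe_ofCard]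
  have hconj : ∀ g ∈ S, ∀ h ∈ Q, g * h * g⁻¹ ∈ Q := by
    intro g hg h hh
    rw [hQ, Subgroup.mem_map] at hh ⊢
    obtain ⟨p, hp, rfl⟩ := hh
    exact ⟨⟨g, hg⟩ * p * (⟨g, hg⟩)⁻¹, hnorm.conj_mem p hp ⟨g, hg⟩, rfl⟩
  intro g hg
  rw [Subgroup.mem_normalizer_iff]
  intro h
  constructor
  · exact hconj g hg h
  · intro hh
    have := hconj g⁻¹ (S.inv_mem hg) _ hh
    have e : g⁻¹ * (g * h * g⁻¹) * g⁻¹⁻¹ = h := by group
    rwa [e] at this

theorem a5_case1 (S : Subgroup (alternatingGroup (Fin 5))) (a b : Fin 5)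
    (hab : ∀ g ∈ S, (g : Equiv.Perm (Fin 5)) a ≠ b) :
    ∃ T : Finset (Fin 5), T.Nonempty ∧ T.card ≤ 2 ∧
      ∀ g ∈ S, ∀ c ∈ T, (g : Equiv.Perm (Fin 5)) c ∈ T := by
  classical
  set T0 : Finset (Fin 5) := Finset.univ.filter
    (fun c => ∃ g ∈ S, (g : Equiv.Perm (Fin 5)) a = c) with hT0
  have ha : a ∈ T0 := by
    rw [hT0, Finset.mem_filter]
    exact ⟨Finset.mem_univ _, 1, S.one_mem, rfl⟩
  have hb : b ∉ T0 := by
    rw [hT0, Finset.mem_filter]
    rintro ⟨-, g, hg, h⟩
    exact hab g hg h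
  have hinv : ∀ g ∈ S, ∀ c ∈ T0, (g : Equiv.Perm (Fin 5)) c ∈ T0 := by
    intro g hg c hc
    rw [hT0, Finset.mem_filter] at hc ⊢
    obtain ⟨-, g', hg', rfl⟩ := hc
    exact ⟨Finset.mem_univ _, g * g', S.mul_mem hg hg', rfl⟩
  by_cases hcard : T0.card ≤ 2
  · exact ⟨T0, ⟨a, ha⟩, hcard, hinv⟩
  · refine ⟨T0ᶜ, ⟨b, by simpa using hb⟩, ?_, ?_⟩
    · rw [Finset.card_compl, Fintype.card_fin]
      omega
    · intro g hg c hc
      rw [Finset.mem_compl] at hc ⊢
      intro hcon
      apply hc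
      have h1 := hinv g⁻¹ (S.inv_mem hg) _ hcon
      have h2 : ((g⁻¹ : alternatingGroup (Fin 5)) : Equiv.Perm (Fin 5))
          ((g : Equiv.Perm (Fin 5)) c) = c := by
        rw [Subgroup.coe_inv]
        exact Equiv.symm_apply_apply _ _
      rwa [h2] at h1

/-- maximal subgroups of the alternating group of degree five -/
theorem a5_max (S : Subgroup (alternatingGroup (Fin 5))) (hS : S ≠ ⊤) :
    (∃ i : Fin 5, ∀ g ∈ S, (g : Equiv.Perm (Fin 5)) i = i) ∨
    (∃ i j : Fin 5, i ≠ j ∧ ∀ g ∈ S, ((g : Equiv.Perm (Fin 5)) i = i ∧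
        (g : Equiv.Perm (Fin 5)) j = j) ∨ ((g : Equiv.Perm (Fin 5)) i = j ∧
        (g : Equiv.Perm (Fin 5)) j = i)) ∨
    (∃ P : Sylow 5 (alternatingGroup (Fin 5)),
      S ≤ Subgroup.normalizer ((P : Subgroup (alternatingGroup (Fin 5))) : Set _)) := by
  by_cases htr : ∀ a b : Fin 5, ∃ g ∈ S, (g : Equiv.Perm (Fin 5)) a = b
  · exact Or.inr (Or.inr (a5_case2 S hS htr))
  · push Not at htr
    obtain ⟨a, b, hab⟩ := htr
    obtain ⟨T, hne, hcard, hinv⟩ := a5_case1 S a b hab
    have hpos := hne.card_pos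
    have h12 : T.card = 1 ∨ T.card = 2 := by omega
    rcases h12 with h | h
    · left
      obtain ⟨i, rfl⟩ := Finset.card_eq_one.1 h
      exact ⟨i, fun g hg => by simpa using hinv g hg i (by simp)⟩
    · right; left
      obtain ⟨i, j, hij, rfl⟩ := Finset.card_eq_two.1 h
      refine ⟨i, j, hij, fun g hg => ?_⟩
      have h1 := hinv g hg i (by simp)
      have h2 := hinv g hg j (by simp)
      simp only [Finset.mem_insert, Finset.mem_singleton] at h1 h2
      have hinj := (g : Equiv.Perm (Fin 5)).injective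
      rcases h1 with h1 | h1 <;> rcases h2 with h2 | h2
      · exact absurd (hinj (h1.trans h2.symm)) hij
      · exact Or.inl ⟨h1, h2⟩
      · exact Or.inr ⟨h1, h2⟩
      · exact absurd (hinj (h1.trans h2.symm)) hij

end Pool.Agent.Helper127.FF.A5a
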