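import Mathlib
import Pool.Agent.Helper127.FF.Defs

set_option autoImplicit false

namespace Pool.Agent.Helper127.FF.A5c


theorem card_prime_image_ne (G : Type) [Group G] [TopologicalSpace G]
    (h0 : ∀ (K : Type) [Group K] [Finite K], Nat.card (CH G K) ≠ 0)
    (Q : Type) [Group Q] [Finite Q] :
    Nat.card {ψ : CH G Q // ψ.1 ≠ 1} = Nat.card (CH G Q) - 1 := by
  classical
  have hfin : Finite (CH G Q) := (Nat.card_ne_zero.mp (h0 Q)).2
  have hopen : IsOpen (((1 : G →* Q).ker : Subgroup G) : Set G) := by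
    have : ((1 : G →* Q).ker : Subgroup G) = ⊤ := by
      ext g
      simp [MonoidHom.mem_ker]
    rw [this]
    exact isOpen_univ
  let a : CH G Q := ⟨1, hopen⟩
  have h1 : Nat.card {ψ : CH G Q // ψ.1 ≠ 1} = Nat.card {ψ : CH G Q // ψ ≠ a} := by
    refine Nat.card_congr (Equiv.subtypeEquivRight fun ψ => ?_)
    constructor
    · intro h h2
      exact h (congrArg Subtype.val h2)
    · intro h h2
      exact h (Subtype.ext h2)
  have h2 : Nat.card (Option {ψ : CH G Q // ψ ≠ a}) = Nat.card (CH G Q) :=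
    Nat.card_congr (Equiv.optionSubtypeNe a)
  rw [Finite.card_option] at h2
  omega

/-- homomorphisms with image of prime order -/
theorem card_prime_image
    (G : Type) [Group G] [TopologicalSpace G]
    (h0 : ∀ (K : Type) [Group K] [Finite K], Nat.card (CH G K) ≠ 0)
    (q : ℕ) (hq : q.Prime) (K : Type) [Group K] [Finite K] :
    Nat.card {φ : CH G K // Nat.card φ.1.range = q} =
      Nat.card {S : Subgroup K // Nat.card S = q} *
        (Nat.card (CH G (Multiplicative (ZMod q))) - 1) := by
  classical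
  have : Fact q.Prime := ⟨hq⟩
  have : NeZero q := ⟨hq.ne_zero⟩
  have : Finite (Multiplicative (ZMod q)) := inferInstanceAs (Finite (ZMod q))
  have hcard : Nat.card (Multiplicative (ZMod q)) = q := by
    rw [Nat.card_congr Multiplicative.toAdd, Nat.card_zmod]
  have hpr : Fact (Nat.card (Multiplicative (ZMod q))).Prime := ⟨by rw [hcard]; exact hq⟩
  rw [← card_prime_image_ne G h0 (Multiplicative (ZMod q)), ← Nat.card_prod]
  symm
  have he : ∀ S : {S : Subgroup K // Nat.card S = q},
      Nonempty (S.1 ≃* Multiplicative (ZMod q)) := by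
    rintro ⟨S, hS⟩
    exact ⟨mulEquivOfPrimeCardEq (p := q) hS hcard⟩
  let e : ∀ S : {S : Subgroup K // Nat.card S = q}, S.1 ≃* Multiplicative (ZMod q) :=
    fun S => (he S).some
  let f : ({S : Subgroup K // Nat.card S = q}) → (Multiplicative (ZMod q) →* K) :=
    fun S => S.1.subtype.comp (e S).symm.toMonoidHom
  have hfinj : ∀ S, Function.Injective (f S) := fun S =>
    (Subgroup.subtype_injective S.1).comp (e S).symm.injective
  have hfran : ∀ S, (f S).range = S.1 := by
    intro S
    ext x
    constructor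
    · rintro ⟨y, rfl⟩
      exact ((e S).symm y).2
    · intro hx
      exact ⟨e S ⟨x, hx⟩, by simp [f]⟩
  have hsurj : ∀ ψ : G →* Multiplicative (ZMod q), ψ ≠ 1 → Function.Surjective ψ := by
    intro ψ hψ
    rw [← MonoidHom.range_eq_top]
    rcases Subgroup.eq_bot_or_eq_top_of_prime_card ψ.range with h | h
    · exact absurd (MonoidHom.range_eq_bot_iff.mp h) hψ
    · exact h
  have hran : ∀ (S : {S : Subgroup K // Nat.card S = q}) (ψ : G →* Multiplicative (ZMod q)),
      ψ ≠ 1 → ((f S).comp ψ).range = S.1 := by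
    intro S ψ hψ
    rw [MonoidHom.range_comp, MonoidHom.range_eq_top.mpr (hsurj ψ hψ), ← MonoidHom.range_eq_map,
      hfran]
  have hker : ∀ (S : {S : Subgroup K // Nat.card S = q}) (ψ : G →* Multiplicative (ZMod q)),
      ((f S).comp ψ).ker = ψ.ker := by
    intro S ψ
    ext g
    rw [MonoidHom.mem_ker, MonoidHom.mem_ker, MonoidHom.comp_apply]
    constructor
    · intro h
      exact hfinj S (by rw [h, map_one])
    · intro h
      rw [h, map_one]
  refine Nat.card_eq_of_bijective (fun p : {S : Subgroup K // Nat.card S = q} ×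
      {ψ : CH G (Multiplicative (ZMod q)) // ψ.1 ≠ 1} =>
      (⟨⟨(f p.1).comp p.2.1.1, by rw [hker]; exact p.2.1.2⟩, by
        show Nat.card ((f p.1).comp p.2.1.1).range = q
        rw [hran p.1 p.2.1.1 p.2.2]
        exact p.1.2⟩ : {φ : CH G K // Nat.card φ.1.range = q})) ⟨?_, ?_⟩
  · rintro ⟨S, ψ⟩ ⟨S', ψ'⟩ h
    have h1 : (f S).comp ψ.1.1 = (f S').comp ψ'.1.1 :=
      congrArg (fun t : {φ : CH G K // Nat.card φ.1.range = q} => t.1.1) h
    have hS : S = S' := by
      apply Subtype.ext
      rw [← hran S ψ.1.1 ψ.2, ← hran S' ψ'.1.1 ψ'.2, h1]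
    subst hS
    have h2 : ψ = ψ' := by
      apply Subtype.ext
      apply Subtype.ext
      ext g
      exact hfinj S (DFunLike.congr_fun h1 g)
    rw [h2]
  · rintro ⟨φ, hφ⟩
    let S : {S : Subgroup K // Nat.card S = q} := ⟨φ.1.range, hφ⟩
    let ψ : G →* Multiplicative (ZMod q) := (e S).toMonoidHom.comp φ.1.rangeRestrict
    have hcomp : (f S).comp ψ = φ.1 := by
      ext g
      simp only [f, ψ, MonoidHom.comp_apply]
      have : (e S).symm.toMonoidHom ((e S).toMonoidHom (φ.1.rangeRestrict g)) =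
          φ.1.rangeRestrict g := (e S).symm_apply_apply _
      rw [this]
      rfl
    have hne : ψ ≠ 1 := by
      intro h
      rw [h] at hcomp
      have h3 : φ.1 = 1 := by
        rw [← hcomp]
        ext g
        simp
      rw [h3, MonoidHom.range_one] at hφ
      simp only [Subgroup.card_bot] at hφ
      exact hq.one_lt.ne hφ
    have hop : IsOpen (ψ.ker : Set G) := by
      rw [← hker S ψ, hcomp]
      exact φ.2
    refine ⟨(S, ⟨⟨ψ, hop⟩, hne⟩), ?_⟩
    apply Subtype.ext
    apply Subtype.ext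
    exact hcomp

end Pool.Agent.Helper127.FF.A5c
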