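import Mathlib
import Pool.Agent.Helper127.FF.Defs

set_option autoImplicit false

namespace Pool.Agent.Helper127.FF.A5n1


theorem a5_c2 : (Finset.univ.filter
    (fun g : alternatingGroup (Fin 5) => g ^ 2 = 1 ∧ g ≠ 1)).card = 15 := by decide +kernel
theorem a5_c3 : (Finset.univ.filter
    (fun g : alternatingGroup (Fin 5) => g ^ 3 = 1 ∧ g ≠ 1)).card = 20 := by decide +kernel

theorem card_sub (G : Type) [Group G] [Finite G] (q : ℕ) (hq : q.Prime) :
    Nat.card {g : G // g ^ q = 1 ∧ g ≠ 1} =
      Nat.card {S : Subgroup G // Nat.card S = q} * (q - 1) := by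
  classical
  haveI : Fact q.Prime := ⟨hq⟩
  let f : {g : G // g ^ q = 1 ∧ g ≠ 1} → {S : Subgroup G // Nat.card S = q} :=
    fun g => ⟨Subgroup.zpowers g.1, by
      rw [Nat.card_zpowers]; exact orderOf_eq_prime g.2.1 g.2.2⟩
  have hfib : ∀ S : {S : Subgroup G // Nat.card S = q}, Nat.card {x // f x = S} = q - 1 := by
    intro S
    have hmem : ∀ x : {x // f x = S}, x.1.1 ∈ S.1 := by
      intro x
      have h : Subgroup.zpowers x.1.1 = S.1 := congrArg Subtype.val x.2
      rw [← h]
      exact Subgroup.mem_zpowers _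
    have hpow : ∀ x : {x : S.1 // x ≠ 1}, (x.1 : G) ^ q = 1 := by
      intro x
      have h : x.1 ^ Nat.card S.1 = 1 := pow_card_eq_one'
      rw [S.2] at h
      have := congrArg Subtype.val h
      simpa using this
    have hne : ∀ x : {x : S.1 // x ≠ 1}, (x.1 : G) ≠ 1 := by
      intro x h
      exact x.2 (Subtype.ext h)
    have hz : ∀ x : {x : S.1 // x ≠ 1}, Subgroup.zpowers (x.1 : G) = S.1 := by
      intro x
      apply Subgroup.eq_of_le_of_card_ge
      · rw [Subgroup.zpowers_le]; exact x.1.2
      · rw [Nat.card_zpowers, orderOf_eq_prime (hpow x) (hne x), S.2]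
    let e : {x // f x = S} ≃ {x : S.1 // x ≠ 1} :=
      { toFun := fun x => ⟨⟨x.1.1, hmem x⟩, fun h => x.1.2.2 (congrArg Subtype.val h)⟩
        invFun := fun x => ⟨⟨x.1, hpow x, hne x⟩, Subtype.ext (hz x)⟩
        left_inv := fun x => by apply Subtype.ext; apply Subtype.ext; rfl
        right_inv := fun x => by apply Subtype.ext; apply Subtype.ext; rfl }
    haveI : Fintype S.1 := Fintype.ofFinite _
    rw [Nat.card_congr e, Nat.card_eq_fintype_card, Fintype.card_subtype, Finset.filter_ne',
      Finset.card_erase_of_mem (Finset.mem_univ _), Finset.card_univ, ← Nat.card_eq_fintype_card, S.2]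
  haveI : Fintype {S : Subgroup G // Nat.card S = q} := Fintype.ofFinite _
  rw [← Nat.card_congr (Equiv.sigmaFiberEquiv f), Nat.card_sigma, Finset.sum_congr rfl (fun S _ => hfib S),
    Finset.sum_const, Finset.card_univ, smul_eq_mul, ← Nat.card_eq_fintype_card]

/-- subgroups of prime order of the alternating group of degree five -/
theorem a5_subgroups :
    Nat.card {S : Subgroup (alternatingGroup (Fin 5)) // Nat.card S = 2} = 15 ∧
    Nat.card {S : Subgroup (alternatingGroup (Fin 5)) // Nat.card S = 3} = 10 := by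
  have h2 := card_sub (alternatingGroup (Fin 5)) 2 Nat.prime_two
  have h3 := card_sub (alternatingGroup (Fin 5)) 3 Nat.prime_three
  rw [Nat.card_eq_fintype_card, Fintype.card_subtype, a5_c2] at h2
  rw [Nat.card_eq_fintype_card, Fintype.card_subtype, a5_c3] at h3
  omega

end Pool.Agent.Helper127.FF.A5n1
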