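import Mathlib
import Pool.Agent.Helper127.FF.Defs

set_option autoImplicit false

namespace Pool.Agent.Helper127.FF.A5n2


theorem card_prime_sub562 (M : Type) [Group M] [Finite M] (q : ℕ) [hq : Fact q.Prime] :
    Nat.card {S : Subgroup M // Nat.card S = q} * (q - 1) =
      Nat.card {g : M // orderOf g = q} := by
  classical
  have : Fintype M := Fintype.ofFinite M
  have hgen : ∀ (S : Subgroup M), Nat.card S = q → ∀ x : S, x ≠ 1 →
      orderOf (x : M) = q ∧ Subgroup.zpowers (x : M) = S := by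
    intro S hS x hx
    have h1 : orderOf (x : M) ∣ q := by
      rw [Subgroup.orderOf_coe, ← hS]
      exact orderOf_dvd_natCard x
    have h2 : orderOf (x : M) ≠ 1 := by
      rw [Subgroup.orderOf_coe]
      intro h
      exact hx (orderOf_eq_one_iff.1 h)
    have h3 : orderOf (x : M) = q := ((Nat.dvd_prime hq.1).1 h1).resolve_left h2
    refine ⟨h3, ?_⟩
    apply Subgroup.eq_of_le_of_card_ge
    · rw [Subgroup.zpowers_le]; exact x.2
    · rw [hS, Nat.card_zpowers, h3]
  let f : (Σ S : {S : Subgroup M // Nat.card S = q}, {x : S.1 // x ≠ 1}) →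
      {g : M // orderOf g = q} := fun p => ⟨((p.2.1 : p.1.1) : M), (hgen p.1.1 p.1.2 p.2.1 p.2.2).1⟩
  have hf : Function.Bijective f := by
    constructor
    · rintro ⟨⟨S, hS⟩, ⟨x, hx⟩⟩ ⟨⟨T, hT⟩, ⟨y, hy⟩⟩ h
      have hxy : (x : M) = (y : M) := congrArg Subtype.val h
      have hST : S = T := by
        rw [← (hgen S hS x hx).2, ← (hgen T hT y hy).2, hxy]
      subst hST
      have : x = y := Subtype.ext hxy
      subst this
      rfl
    · rintro ⟨g, hg⟩
      refine ⟨⟨⟨Subgroup.zpowers g, by rw [Nat.card_zpowers, hg]⟩,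
        ⟨⟨g, Subgroup.mem_zpowers g⟩, ?_⟩⟩, rfl⟩
      intro h
      have h1 : g = 1 := congrArg Subtype.val h
      rw [h1, orderOf_one] at hg
      exact hq.1.one_lt.ne hg
  have hc := Nat.card_eq_of_bijective f hf
  rw [← hc, Nat.card_sigma]
  have : ∀ S : {S : Subgroup M // Nat.card S = q}, Nat.card {x : S.1 // x ≠ 1} = q - 1 := by
    intro S
    have h0 : Nat.card {x : S.1 // x ≠ 1} = Nat.card S.1 - 1 := by
      rw [Nat.card_eq_fintype_card, Nat.card_eq_fintype_card, Fintype.card_subtype_compl]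
      simp
    rw [h0, S.2]
  rw [Finset.sum_congr rfl (fun S _ => this S)]
  simp [Nat.card_eq_fintype_card]

theorem cnt2_562 : ∀ i : Fin 5, Fintype.card {g : Equiv.Perm (Fin 5) //
    (Equiv.Perm.sign g = 1 ∧ g i = i) ∧ (g ^ 2 = 1 ∧ g ≠ 1)} = 3 := by decide +kernel

theorem cnt3_562 : ∀ i : Fin 5, Fintype.card {g : Equiv.Perm (Fin 5) //
    (Equiv.Perm.sign g = 1 ∧ g i = i) ∧ (g ^ 3 = 1 ∧ g ≠ 1)} = 8 := by decide +kernel

theorem cnt1_562 : ∀ i : Fin 5, Fintype.card {g : Equiv.Perm (Fin 5) //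
    (Equiv.Perm.sign g = 1 ∧ g i = i) ∧ True} = 12 := by decide +kernel

theorem comm562 : ∀ i : Fin 5, ∀ g : Equiv.Perm (Fin 5), g i = i → Equiv.Perm.sign g = 1 →
    ∀ h : Equiv.Perm (Fin 5), h i = i → Equiv.Perm.sign h = 1 →
      (g * h * g⁻¹ * h⁻¹) ^ 2 = 1 := by decide +kernel

theorem ab562 : ∀ i : Fin 5, ∀ g : Equiv.Perm (Fin 5), g i = i → g ^ 2 = 1 →
    Equiv.Perm.sign g = 1 → ∀ h : Equiv.Perm (Fin 5), h i = i → h ^ 2 = 1 →
      Equiv.Perm.sign h = 1 → g * h = h * g := by decide +kernel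

/-- point stabilisers in the alternating group of degree five -/
theorem a5_point (i : Fin 5) (M : Subgroup (alternatingGroup (Fin 5)))
    (hM : ∀ g, g ∈ M ↔ (g : Equiv.Perm (Fin 5)) i = i) :
    Nat.card M = 12 ∧ Nat.card {S : Subgroup M // Nat.card S = 2} = 3 ∧
    Nat.card {S : Subgroup M // Nat.card S = 3} = 4 ∧ Group.IsSolvable M := by
  classical
  have hcount : ∀ (p : Equiv.Perm (Fin 5) → Prop) [DecidablePred p] (P : M → Prop),
      (∀ g : M, P g ↔ p ((g : alternatingGroup (Fin 5)) : Equiv.Perm (Fin 5))) →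
      Nat.card {g : M // P g} =
        Fintype.card {g : Equiv.Perm (Fin 5) // (Equiv.Perm.sign g = 1 ∧ g i = i) ∧ p g} := by
    intro p _ P hP
    rw [← Nat.card_eq_fintype_card]
    refine Nat.card_congr ⟨fun g => ⟨((g.1 : alternatingGroup (Fin 5)) : Equiv.Perm (Fin 5)),
      ⟨⟨Equiv.Perm.mem_alternatingGroup.1 g.1.1.2, (hM _).1 g.1.2⟩, (hP _).1 g.2⟩⟩,
      fun g => ⟨⟨⟨g.1, Equiv.Perm.mem_alternatingGroup.2 g.2.1.1⟩, (hM _).2 g.2.1.2⟩,
        (hP _).2 g.2.2⟩, fun g => rfl, fun g => rfl⟩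
  have h2 : Nat.card {g : M // orderOf g = 2} = 3 := by
    have : Fact (Nat.Prime 2) := ⟨Nat.prime_two⟩
    rw [hcount (fun g => g ^ 2 = 1 ∧ g ≠ 1) _ (fun g => by
      rw [orderOf_eq_prime_iff]
      simp only [Subtype.ext_iff, ne_eq, Subgroup.coe_pow, Subgroup.coe_one])]
    exact cnt2_562 i
  have h3 : Nat.card {g : M // orderOf g = 3} = 8 := by
    have : Fact (Nat.Prime 3) := ⟨Nat.prime_three⟩
    rw [hcount (fun g => g ^ 3 = 1 ∧ g ≠ 1) _ (fun g => by
      rw [orderOf_eq_prime_iff]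
      simp only [Subtype.ext_iff, ne_eq, Subgroup.coe_pow, Subgroup.coe_one])]
    exact cnt3_562 i
  have h12 : Nat.card M = 12 := by
    have h := hcount (fun _ => True) (fun _ => True) (fun g => Iff.rfl)
    have h' : Nat.card {g : M // True} = Nat.card M :=
      Nat.card_congr (Equiv.subtypeUnivEquiv (fun _ => trivial))
    rw [← h', h]
    exact cnt1_562 i
  refine ⟨h12, ?_, ?_, ?_⟩
  · have : Fact (Nat.Prime 2) := ⟨Nat.prime_two⟩
    have h := card_prime_sub562 M 2
    rw [h2] at h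
    omega
  · have : Fact (Nat.Prime 3) := ⟨Nat.prime_three⟩
    have h := card_prime_sub562 M 3
    rw [h3] at h
    omega
  · have hfix : ∀ g : M, ((g : alternatingGroup (Fin 5)) : Equiv.Perm (Fin 5)) i = i :=
      fun g => (hM _).1 g.2
    have hsgn : ∀ g : M, Equiv.Perm.sign ((g : alternatingGroup (Fin 5)) : Equiv.Perm (Fin 5)) = 1 :=
      fun g => Equiv.Perm.mem_alternatingGroup.1 g.1.2
    have hsq : ∀ g : M, g ^ 2 = 1 →
        ((g : alternatingGroup (Fin 5)) : Equiv.Perm (Fin 5)) ^ 2 = 1 := by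
      intro g hg
      have h1 := congrArg (fun x : M => ((x : alternatingGroup (Fin 5)) : Equiv.Perm (Fin 5))) hg
      simpa using h1
    have hcm : ∀ g h : M, g ^ 2 = 1 → h ^ 2 = 1 → g * h = h * g := by
      intro g h hg hh
      apply Subtype.ext
      apply Subtype.ext
      exact ab562 i _ (hfix g) (hsq g hg) (hsgn g) _ (hfix h) (hsq h hh) (hsgn h)
    let W : Subgroup M :=
      { carrier := {g | g ^ 2 = 1}
        mul_mem' := by
          intro a b ha hb
          have hab : Commute a b := hcm a b ha hb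
          show (a * b) ^ 2 = 1
          rw [hab.mul_pow]
          rw [show a ^ 2 = 1 from ha, show b ^ 2 = 1 from hb, one_mul]
        one_mem' := by simp
        inv_mem' := by
          intro a ha
          show (a⁻¹) ^ 2 = 1
          rw [inv_pow, show a ^ 2 = 1 from ha, inv_one] }
    have h1 : derivedSeries M 1 ≤ W := by
      rw [derivedSeries_succ, derivedSeries_zero, Subgroup.commutator_le]
      intro g _ h _
      change (g * h * g⁻¹ * h⁻¹) ^ 2 = 1
      apply Subtype.ext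
      apply Subtype.ext
      have := comm562 i _ (hfix g) (hsgn g) _ (hfix h) (hsgn h)
      simpa using this
    have h2' : derivedSeries M 2 = ⊥ := by
      rw [eq_bot_iff, derivedSeries_succ]
      refine le_trans (Subgroup.commutator_mono h1 h1) ?_
      rw [Subgroup.commutator_le]
      intro g hg h hh
      rw [Subgroup.mem_bot, commutatorElement_eq_one_iff_mul_comm]
      exact hcm g h hg hh
    exact (Group.isSolvable_def M).2 ⟨2, h2'⟩

end Pool.Agent.Helper127.FF.A5n2
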