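import Mathlib
import Pool.Agent.Helper127.FF.Defs

set_option autoImplicit false

namespace Pool.Agent.Helper127.FF.A5n3


theorem ff_c1 : ∀ i j : Fin 5, i ≠ j → (Finset.univ.filter (fun g : alternatingGroup (Fin 5) =>
      ((g : Equiv.Perm (Fin 5)) i = i ∧ (g : Equiv.Perm (Fin 5)) j = j) ∨
      ((g : Equiv.Perm (Fin 5)) i = j ∧ (g : Equiv.Perm (Fin 5)) j = i))).card = 6 := by
  decide +kernel

theorem ff_c2 : ∀ i j : Fin 5, i ≠ j → (Finset.univ.filter (fun g : alternatingGroup (Fin 5) =>
      (((g : Equiv.Perm (Fin 5)) i = i ∧ (g : Equiv.Perm (Fin 5)) j = j) ∨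
      ((g : Equiv.Perm (Fin 5)) i = j ∧ (g : Equiv.Perm (Fin 5)) j = i)) ∧
      (g ^ 2 = 1 ∧ g ≠ 1))).card = 3 := by
  decide +kernel

theorem ff_sub2 (G : Type) [Group G] [Finite G] :
    Nat.card {S : Subgroup G // Nat.card S = 2} = Nat.card {g : G // orderOf g = 2} := by
  have hp : ∀ g : G, orderOf g = 2 → g ^ (2:ℤ) = 1 := by
    intro g hg
    have h1 : g ^ 2 = 1 := by rw [← hg]; exact pow_orderOf_eq_one g
    exact_mod_cast h1
  refine (Nat.card_congr (Equiv.ofBijective
    (fun g : {g : G // orderOf g = 2} =>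
      (⟨Subgroup.zpowers g.1, by rw [Nat.card_zpowers]; exact g.2⟩ :
        {S : Subgroup G // Nat.card S = 2})) ⟨?_, ?_⟩)).symm
  · rintro ⟨g, hg⟩ ⟨h, hh⟩ heq
    have heq' : Subgroup.zpowers g = Subgroup.zpowers h := congrArg Subtype.val heq
    have hm : h ∈ Subgroup.zpowers g := by
      rw [heq']
      exact Subgroup.mem_zpowers h
    obtain ⟨k, hk⟩ := Subgroup.mem_zpowers_iff.mp hm
    have hh1 : h ≠ 1 := by
      intro h1
      rw [h1, orderOf_one] at hh
      norm_num at hh
    rcases Int.even_or_odd' k with ⟨m, hm | hm⟩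
    · exfalso
      apply hh1
      rw [← hk, hm, zpow_mul, hp g hg, one_zpow]
    · apply Subtype.ext
      show g = h
      rw [← hk, hm, zpow_add, zpow_mul, hp g hg, one_zpow, one_mul, zpow_one]
  · rintro ⟨S, hS⟩
    have hne : S ≠ ⊥ := by
      rintro rfl
      rw [Subgroup.card_bot] at hS
      norm_num at hS
    obtain ⟨a, ha⟩ := Subgroup.ne_bot_iff_exists_ne_one.mp hne
    have hord : orderOf (a : G) = 2 := by
      have h1 : orderOf a ∣ 2 := by
        rw [← hS]
        exact orderOf_dvd_natCard a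
      rw [Subgroup.orderOf_coe]
      rcases (Nat.dvd_prime Nat.prime_two).mp h1 with h | h
      · exact absurd (orderOf_eq_one_iff.mp h) ha
      · exact h
    refine ⟨⟨a, hord⟩, ?_⟩
    apply Subtype.ext
    show Subgroup.zpowers (a : G) = S
    refine Subgroup.eq_of_le_of_card_ge ?_ ?_
    · rw [Subgroup.zpowers_le]
      exact a.2
    · rw [Nat.card_zpowers, hord, hS]

theorem ff_sub3 (G : Type) [Group G] [Finite G] (h6 : Nat.card G = 6) :
    Nat.card {S : Subgroup G // Nat.card S = 3} = 1 := by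
  rw [Nat.card_eq_one_iff_unique]
  constructor
  · constructor
    have key : ∀ S T : Subgroup G, Nat.card S = 3 → Nat.card T = 3 → T ≤ S := by
      intro S T hS hT t ht
      have hidx : S.index = 2 := by
        have := S.card_mul_index
        rw [hS, h6] at this
        omega
      have h3 : t ^ 3 = 1 := by
        have h4 : (⟨t, ht⟩ : T) ^ Nat.card T = 1 := pow_card_eq_one'
        rw [hT] at h4
        have h5 := congrArg Subtype.val h4
        simpa using h5
      have h6' : t = (t ^ 2) ^ 2 := by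
        calc t = t ^ 3 * t := by rw [h3, one_mul]
          _ = (t ^ 2) ^ 2 := by group
      rw [h6']
      exact Subgroup.sq_mem_of_index_two hidx _
    rintro ⟨S, hS⟩ ⟨T, hT⟩
    exact Subtype.ext (le_antisymm (key T S hT hS) (key S T hS hT))
  · have : Fact (Nat.Prime 3) := ⟨Nat.prime_three⟩
    obtain ⟨g, hg⟩ := exists_prime_orderOf_dvd_card' (G := G) 3 (by rw [h6]; norm_num)
    exact ⟨⟨Subgroup.zpowers g, by rw [Nat.card_zpowers]; exact hg⟩⟩

/-- stabilisers of 2-sets in the alternating group of degree five -/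
theorem a5_pair (i j : Fin 5) (hij : i ≠ j) (M : Subgroup (alternatingGroup (Fin 5)))
    (hM : ∀ g, g ∈ M ↔ (((g : Equiv.Perm (Fin 5)) i = i ∧ (g : Equiv.Perm (Fin 5)) j = j) ∨
      ((g : Equiv.Perm (Fin 5)) i = j ∧ (g : Equiv.Perm (Fin 5)) j = i))) :
    Nat.card M = 6 ∧ Nat.card {S : Subgroup M // Nat.card S = 2} = 3 ∧
    Nat.card {S : Subgroup M // Nat.card S = 3} = 1 ∧ Group.IsSolvable M := by
  have h6 : Nat.card M = 6 := by
    rw [← ff_c1 i j hij]
    refine Nat.subtype_card _ ?_
    intro g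
    rw [Finset.mem_filter, hM g]
    simp
  refine ⟨h6, ?_, ff_sub3 M h6, ?_⟩
  · rw [ff_sub2, ← ff_c2 i j hij]
    have : Fact (Nat.Prime 2) := ⟨Nat.prime_two⟩
    have h1 : Nat.card {g : M // orderOf g = 2} =
        Nat.card {g : alternatingGroup (Fin 5) // g ∈ M ∧ (g ^ 2 = 1 ∧ g ≠ 1)} := by
      refine Nat.card_congr ((Equiv.subtypeEquivRight ?_).trans
        (Equiv.subtypeSubtypeEquivSubtypeInter (fun g => g ∈ M) (fun g => g ^ 2 = 1 ∧ g ≠ 1)))
      intro g
      rw [orderOf_eq_prime_iff]
      constructor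
      · rintro ⟨h1, h2⟩
        refine ⟨?_, ?_⟩
        · have := congrArg Subtype.val h1
          simpa using this
        · intro h3
          exact h2 (Subtype.ext h3)
      · rintro ⟨h1, h2⟩
        refine ⟨?_, ?_⟩
        · apply Subtype.ext
          simpa using h1
        · intro h3
          apply h2
          rw [h3]
          rfl
    rw [h1]
    refine Nat.subtype_card _ ?_
    intro g
    rw [Finset.mem_filter, hM g]
    simp
  · have : IsZGroup M := IsZGroup.of_squarefree (by
      rw [h6]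
      have : (6:ℕ) = 2 * 3 := by norm_num
      rw [this, Nat.squarefree_mul (by norm_num)]
      exact ⟨Nat.prime_two.squarefree, Nat.prime_three.squarefree⟩)
    infer_instance

end Pool.Agent.Helper127.FF.A5n3
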