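import Mathlib
import Pool.Agent.Helper127.FF.Defs

set_option autoImplicit false

namespace Pool.Agent.Helper127.FF.A5n4



open scoped Nat in
theorem a5_card60 : Nat.card (alternatingGroup (Fin 5)) = 60 := by
  rw [nat_card_alternatingGroup, Nat.card_eq_fintype_card, Fintype.card_fin]
  rfl

theorem fac60 : (60 : ℕ).factorization 5 = 1 := by decide +kernel

theorem fac10 : (10 : ℕ).factorization 2 = 1 := by decide +kernel

theorem a5_no_ten : ∀ g : alternatingGroup (Fin 5), g ^ 10 = 1 → g ^ 5 = 1 ∨ g ^ 2 = 1 := by
  decide +kernel

/-- Sylow 5-normalisers in the alternating group of degree five -/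
theorem a5_sylow : Nat.card (Sylow 5 (alternatingGroup (Fin 5))) = 6 ∧
    ∀ P : Sylow 5 (alternatingGroup (Fin 5)), ∀ M : Subgroup (alternatingGroup (Fin 5)),
      M = Subgroup.normalizer ((P : Subgroup (alternatingGroup (Fin 5))) : Set _) →
      Nat.card M = 10 ∧ Nat.card {S : Subgroup M // Nat.card S = 2} = 5 ∧
      Nat.card {S : Subgroup M // Nat.card S = 3} = 0 ∧ Group.IsSolvable M := by
  haveI : Fact (Nat.Prime 5) := ⟨by norm_num⟩
  haveI : Fact (Nat.Prime 2) := ⟨by norm_num⟩
  have hP5 : ∀ P : Sylow 5 (alternatingGroup (Fin 5)),
      Nat.card (P : Subgroup (alternatingGroup (Fin 5))) = 5 := by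
    intro P
    have := P.card_eq_multiplicity
    rw [a5_card60, fac60, pow_one] at this
    exact this
  have hn : Nat.card (Sylow 5 (alternatingGroup (Fin 5))) = 6 := by
    have hmod := card_sylow_modEq_one 5 (alternatingGroup (Fin 5))
    obtain ⟨P⟩ : Nonempty (Sylow 5 (alternatingGroup (Fin 5))) := inferInstance
    have hidx : (P : Subgroup (alternatingGroup (Fin 5))).index = 12 := by
      have := (P : Subgroup (alternatingGroup (Fin 5))).card_mul_index
      rw [a5_card60, hP5 P] at this
      omega
    have hdvd := P.card_dvd_index
    rw [hidx] at hdvd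
    have hne : Nat.card (Sylow 5 (alternatingGroup (Fin 5))) ≠ 1 := by
      intro h1
      haveI : Subsingleton (Sylow 5 (alternatingGroup (Fin 5))) :=
        (Nat.card_eq_one_iff_unique.1 h1).1
      have hnorm : (P : Subgroup (alternatingGroup (Fin 5))).Normal := P.normal_of_subsingleton
      have hs : IsSimpleGroup (alternatingGroup (Fin 5)) := alternatingGroup.isSimpleGroup_five
      rcases hs.eq_bot_or_eq_top_of_normal _ hnorm with h | h
      · have h2 := hP5 P
        rw [h, Subgroup.card_bot] at h2
        omega
      · have h2 := hP5 P
        rw [h, Subgroup.card_top, a5_card60] at h2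
        omega
    have hle : Nat.card (Sylow 5 (alternatingGroup (Fin 5))) ≤ 12 := Nat.le_of_dvd (by norm_num) hdvd
    generalize Nat.card (Sylow 5 (alternatingGroup (Fin 5))) = k at *
    unfold Nat.ModEq at hmod
    interval_cases k <;> omega
  refine ⟨hn, ?_⟩
  intro P M hM
  have hM10 : Nat.card M = 10 := by
    have h1 := P.card_eq_index_normalizer
    rw [hn] at h1
    have h2 := M.card_mul_index
    rw [a5_card60] at h2
    have h3 : M.index = 6 := by rw [hM]; exact h1.symm
    rw [h3] at h2
    omega
  refine ⟨hM10, ?_, ?_, ?_⟩
  · have hT2 : ∀ T : Sylow 2 M, Nat.card (T : Subgroup M) = 2 := by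
      intro T
      have := T.card_eq_multiplicity
      rw [hM10, fac10, pow_one] at this
      exact this
    have e : {S : Subgroup M // Nat.card S = 2} ≃ Sylow 2 M :=
      { toFun := fun S => Sylow.ofCard S.1 (by rw [hM10, fac10, pow_one]; exact S.2)
        invFun := fun T => ⟨(T : Subgroup M), hT2 T⟩
        left_inv := fun S => Subtype.ext rfl
        right_inv := fun T => Sylow.ext rfl }
    rw [Nat.card_congr e]
    obtain ⟨T⟩ : Nonempty (Sylow 2 M) := inferInstance
    have hidx : (T : Subgroup M).index = 5 := by
      have := (T : Subgroup M).card_mul_index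
      rw [hM10, hT2 T] at this
      omega
    have hdvd := T.card_dvd_index
    rw [hidx] at hdvd
    rcases (Nat.dvd_prime (by norm_num)).1 hdvd with h1 | h5
    · exfalso
      haveI : Subsingleton (Sylow 2 M) := (Nat.card_eq_one_iff_unique.1 h1).1
      have hnorm : (T : Subgroup M).Normal := T.normal_of_subsingleton
      -- the involution
      have hTn : Nontrivial (T : Subgroup M) := by
        have : 1 < Nat.card (T : Subgroup M) := by rw [hT2 T]; norm_num
        exact Finite.one_lt_card_iff_nontrivial.1 this
      obtain ⟨t, ht⟩ := exists_ne (1 : (T : Subgroup M))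
      have hT1 : ∀ s : (T : Subgroup M), s = 1 ∨ s = t := by
        intro s
        by_contra hcon
        push Not at hcon
        have h3 : Nat.card (T : Subgroup M) ≥ 3 := by
          have hinj : Function.Injective
              (![1, t, s] : Fin 3 → (T : Subgroup M)) := by
            intro i j hij
            fin_cases i <;> fin_cases j <;> simp at hij ⊢
            · exact ht hij.symm
            · exact hcon.1 hij.symm
            · exact ht hij
            · exact hcon.2 hij.symm
            · exact hcon.1 hij
            · exact hcon.2 hij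
          have := Nat.card_le_card_of_injective _ hinj
          simpa using this
        rw [hT2 T] at h3
        omega
      have hcentral : ∀ m : M, m * (t : M) = (t : M) * m := by
        intro m
        have h1 : m * (t : M) * m⁻¹ ∈ (T : Subgroup M) := hnorm.conj_mem _ t.2 m
        rcases hT1 ⟨_, h1⟩ with h | h
        · exfalso
          have h2 : m * (t : M) * m⁻¹ = 1 := congrArg Subtype.val h
          apply ht
          have h3 : (t : M) = 1 := by
            have : m * (t : M) = m := by
              rw [mul_inv_eq_one] at h2
              exact h2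
            simpa using this
          exact Subtype.ext h3
        · have h2 : m * (t : M) * m⁻¹ = t := congrArg Subtype.val h
          rw [mul_inv_eq_iff_eq_mul] at h2
          exact h2
      have htt : (t : M) ^ 2 = 1 := by
        have : t ^ Nat.card (T : Subgroup M) = 1 := pow_card_eq_one'
        rw [hT2 T] at this
        exact congrArg Subtype.val this
      have htne : (t : M) ≠ 1 := fun h => ht (Subtype.ext h)
      -- an element of order five
      have hPn : Nontrivial (P : Subgroup (alternatingGroup (Fin 5))) := by
        have : 1 < Nat.card (P : Subgroup (alternatingGroup (Fin 5))) := by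
          rw [hP5 P]; norm_num
        exact Finite.one_lt_card_iff_nontrivial.1 this
      obtain ⟨y, hy⟩ := exists_ne (1 : (P : Subgroup (alternatingGroup (Fin 5))))
      have hy5 : (y : alternatingGroup (Fin 5)) ^ 5 = 1 := by
        have : y ^ Nat.card (P : Subgroup (alternatingGroup (Fin 5))) = 1 := pow_card_eq_one'
        rw [hP5 P] at this
        exact congrArg Subtype.val this
      have hyne : (y : alternatingGroup (Fin 5)) ≠ 1 := fun h => hy (Subtype.ext h)
      have hyM : (y : alternatingGroup (Fin 5)) ∈ M := by
        rw [hM]
        exact Subgroup.le_normalizer y.2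
      have hcomm : Commute ((t : M) : alternatingGroup (Fin 5)) (y : alternatingGroup (Fin 5)) := by
        have := congrArg Subtype.val (hcentral ⟨y, hyM⟩)
        exact this.symm
      have ht2' : ((t : M) : alternatingGroup (Fin 5)) ^ 2 = 1 := congrArg Subtype.val htt
      have htne' : ((t : M) : alternatingGroup (Fin 5)) ≠ 1 := fun h => htne (Subtype.ext h)
      generalize ((t : M) : alternatingGroup (Fin 5)) = a at *
      generalize (y : alternatingGroup (Fin 5)) = b at *
      have ha4 : a ^ 4 = 1 := by
        calc a ^ 4 = (a ^ 2) ^ 2 := by rw [← pow_mul]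
          _ = 1 := by rw [ht2', one_pow]
      have h10 : (a * b) ^ 10 = 1 := by
        rw [hcomm.mul_pow]
        have e1 : a ^ 10 = 1 := by
          calc a ^ 10 = (a ^ 2) ^ 5 := by rw [← pow_mul]
            _ = 1 := by rw [ht2', one_pow]
        have e2 : b ^ 10 = 1 := by
          calc b ^ 10 = (b ^ 5) ^ 2 := by rw [← pow_mul]
            _ = 1 := by rw [hy5, one_pow]
        rw [e1, e2, one_mul]
      rcases a5_no_ten _ h10 with h | h
      · rw [hcomm.mul_pow, hy5, mul_one, pow_succ, ha4, one_mul] at h
        exact htne' h
      · rw [hcomm.mul_pow, ht2', one_mul] at h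
        apply hyne
        have : b = b ^ 5 * (b ^ 2)⁻¹ * (b ^ 2)⁻¹ := by group
        rw [this, hy5, h]
        simp
    · exact h5
  · have : IsEmpty {S : Subgroup M // Nat.card S = 3} := by
      refine ⟨fun S => ?_⟩
      have h := S.1.card_subgroup_dvd_card
      rw [S.2, hM10] at h
      omega
    exact Nat.card_of_isEmpty
  · have hz : IsZGroup M := IsZGroup.of_squarefree (by
      rw [hM10]
      decide +kernel)
    infer_instance


end Pool.Agent.Helper127.FF.A5n4
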