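import Mathlib
import Pool.Agent.Helper127.FF.Defs

set_option autoImplicit false

namespace Pool.Agent.Helper127.FF.A5u


/-- enlarge the target -/
def CHinc {G K : Type} [Group G] [TopologicalSpace G] [Group K] (M : Subgroup K) (ψ : CH G M) :
    CH G K :=
  ⟨M.subtype.comp ψ.1, by
    have h : (M.subtype.comp ψ.1).ker = ψ.1.ker := by
      ext g
      simp only [MonoidHom.mem_ker, MonoidHom.comp_apply]
      constructor
      · intro hg
        exact Subtype.ext hg
      · intro hg
        rw [hg, map_one]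
    rw [h]
    exact ψ.2⟩

/-- union bound over subgroups containing every proper subgroup -/
theorem card_le_sum
    (G : Type) [Group G] [TopologicalSpace G]
    (h0 : ∀ (K : Type) [Group K] [Finite K], Nat.card (CH G K) ≠ 0)
    (K : Type) [Group K] [Finite K] (hns : ∀ φ : CH G K, ¬ Function.Surjective φ.1)
    (I : Type) [Fintype I] (M : I → Subgroup K) (hM : ∀ S : Subgroup K, S ≠ ⊤ → ∃ i, S ≤ M i)
    (P : ℕ → Prop) [DecidablePred P] :
    Nat.card (CH G K) ≤ Nat.card {φ : CH G K // P (Nat.card φ.1.range)} +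
      ∑ i, Nat.card {φ : CH G (M i) // ¬ P (Nat.card φ.1.range)} := by
  haveI hfK : Finite (CH G K) := Nat.finite_of_card_ne_zero (h0 K)
  haveI hfM : ∀ i, Finite (CH G (M i)) := fun i => Nat.finite_of_card_ne_zero (h0 (M i))
  rw [← Nat.card_sigma, ← Nat.card_sum]
  refine Nat.card_le_card_of_surjective
    (fun z : {φ : CH G K // P (Nat.card φ.1.range)} ⊕
        (Σ i, {φ : CH G (M i) // ¬ P (Nat.card φ.1.range)}) =>
      match z with
      | Sum.inl φ => φ.1
      | Sum.inr ⟨i, ψ⟩ => CHinc (M i) ψ.1) ?_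
  intro φ
  by_cases hP : P (Nat.card φ.1.range)
  · exact ⟨Sum.inl ⟨φ, hP⟩, rfl⟩
  · have hne : φ.1.range ≠ ⊤ := by
      intro h
      exact hns φ (MonoidHom.range_eq_top.1 h)
    obtain ⟨i, hi⟩ := hM _ hne
    obtain ⟨ψ, hψ⟩ : ∃ ψ : G →* M i, (M i).subtype.comp ψ = φ.1 :=
      ⟨φ.1.codRestrict (M i) (fun g => hi ⟨g, rfl⟩), by ext g; rfl⟩
    have hker : ψ.ker = φ.1.ker := by
      ext g
      rw [← hψ]
      simp only [MonoidHom.mem_ker, MonoidHom.comp_apply]
      constructor
      · intro hg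
        rw [hg, map_one]
      · intro hg
        exact Subtype.ext hg
    have hcard : Nat.card ψ.range = Nat.card φ.1.range := by
      have h1 : φ.1.range = ψ.range.map (M i).subtype := by
        rw [← hψ, MonoidHom.range_comp]
      rw [h1]
      exact Nat.card_congr
        (Subgroup.equivMapOfInjective ψ.range (M i).subtype (Subgroup.subtype_injective _)).toEquiv
    refine ⟨Sum.inr ⟨i, ⟨⟨ψ, by rw [hker]; exact φ.2⟩, ?_⟩⟩, ?_⟩
    · show ¬ P (Nat.card ψ.range)
      rw [hcard]
      exact hP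
    · exact Subtype.ext hψ


end Pool.Agent.Helper127.FF.A5u
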