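import Mathlib
import Pool.Agent.Helper127.FF.Defs

set_option autoImplicit false

namespace Pool.Agent.Helper127.FF.BB

/-- `A` is an orbit (of size one or two) of the image of `φ` -/
def IsBlock {G X : Type} [Group G] [TopologicalSpace G] (φ : CH G (Equiv.Perm X))
    (A : Finset X) : Prop :=
  (∀ g x, φ.1 g x ∈ A ↔ x ∈ A) ∧ (A.card = 2 → ∃ g, ∃ x ∈ A, φ.1 g x ≠ x)

/-- number of transitive homomorphisms to the symmetric group of a one or two element set -/
noncomputable def tr (G : Type) [Group G] [TopologicalSpace G] (k : ℕ) : ℕ :=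
  if k = 1 then 1 else Nat.card (CH G (Equiv.Perm (Fin 2))) - 1



theorem ker_comp_e {G K K' : Type} [Group G] [Group K] [Group K'] (e : K →* K')
    (he : Function.Injective e) (φ : G →* K) : (e.comp φ).ker = φ.ker := by
  ext g
  rw [MonoidHom.mem_ker, MonoidHom.mem_ker, MonoidHom.comp_apply]
  constructor
  · intro h; exact he (by rw [h, map_one])
  · intro h; rw [h, map_one]

theorem card_CH_congr {G K K' : Type} [Group G] [TopologicalSpace G] [Group K] [Group K']
    (e : K ≃* K') : Nat.card (CH G K) = Nat.card (CH G K') := by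
  refine Nat.card_congr ?_
  exact {
    toFun := fun φ => ⟨e.toMonoidHom.comp φ.1, by rw [ker_comp_e _ e.injective]; exact φ.2⟩
    invFun := fun φ => ⟨e.symm.toMonoidHom.comp φ.1, by
      rw [ker_comp_e _ e.symm.injective]; exact φ.2⟩
    left_inv := fun φ => by
      apply Subtype.ext; apply MonoidHom.ext; intro g
      exact e.symm_apply_apply _
    right_inv := fun φ => by
      apply Subtype.ext; apply MonoidHom.ext; intro g
      exact e.apply_symm_apply _ }

theorem card_CH_perm {G : Type} [Group G] [TopologicalSpace G] (Y Z : Type) [Finite Y] [Finite Z]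
    (h : Nat.card Y = Nat.card Z) : Nat.card (CH G (Equiv.Perm Y)) = Nat.card (CH G (Equiv.Perm Z)) := by
  obtain ⟨e⟩ := Finite.card_eq.mp h
  exact card_CH_congr (Equiv.permCongrHom e)

theorem card_fix (G : Type) [Group G] [TopologicalSpace G] (X : Type) [Fintype X] [DecidableEq X]
    (A : Finset X) :
    Nat.card {φ : CH G (Equiv.Perm X) // ∀ g, ∀ x ∈ A, φ.1 g x = x} =
      Nat.card (CH G (Equiv.Perm ((A : Set X)ᶜ : Set X))) := by
  classical
  symm
  have hinj : Function.Injective (Equiv.Perm.ofSubtype (p := fun x => x ∈ ((A : Set X)ᶜ : Set X))) :=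
    Equiv.Perm.ofSubtype_injective
  refine Nat.card_congr (Equiv.ofBijective (fun ψ => ⟨⟨(Equiv.Perm.ofSubtype (p := fun x => x ∈ ((A : Set X)ᶜ : Set X))).comp ψ.1, ?_⟩, ?_⟩) ⟨?_, ?_⟩)
  · rw [ker_comp_e _ hinj]; exact ψ.2
  · intro g x hx
    exact Equiv.Perm.ofSubtype_apply_of_not_mem _ (by simpa using hx)
  · intro ψ ψ' h
    apply Subtype.ext
    apply MonoidHom.ext
    intro g
    have h1 := congrArg (fun z => z.1.1 g) h
    exact hinj h1
  · intro φ
    have hmem : ∀ g x, φ.1.1 g x ∈ ((A : Set X)ᶜ : Set X) ↔ x ∈ ((A : Set X)ᶜ : Set X) := by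
      intro g x
      rw [Set.mem_compl_iff, Set.mem_compl_iff, not_iff_not, Finset.mem_coe, Finset.mem_coe]
      constructor
      · intro h
        have h2 := φ.2 g _ h
        have := (φ.1.1 g).injective h2
        rwa [this] at h
      · intro h; rw [φ.2 g x h]; exact h
    have hof : ∀ g, Equiv.Perm.ofSubtype ((φ.1.1 g).subtypePerm (p := fun x => x ∈ ((A : Set X)ᶜ : Set X)) (hmem g)) = φ.1.1 g := by
      intro g
      apply Equiv.Perm.ofSubtype_subtypePerm
      intro x hx
      rw [Set.mem_compl_iff, Finset.mem_coe]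
      intro hA
      exact hx (φ.2 g x hA)
    let ψ : G →* Equiv.Perm ((A : Set X)ᶜ : Set X) :=
      { toFun := fun g => (φ.1.1 g).subtypePerm (p := fun x => x ∈ ((A : Set X)ᶜ : Set X)) (hmem g)
        map_one' := by
          apply hinj
          rw [hof, map_one, map_one]
        map_mul' := by
          intro g g'
          apply hinj
          refine (hof (g * g')).trans ?_
          rw [map_mul φ.1.1]
          rw [map_mul, hof, hof] }
    have hcomp : (Equiv.Perm.ofSubtype (p := fun x => x ∈ ((A : Set X)ᶜ : Set X))).comp ψ = φ.1.1 := by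
      apply MonoidHom.ext
      intro g
      exact hof g
    refine ⟨⟨ψ, ?_⟩, ?_⟩
    · rw [← ker_comp_e _ hinj ψ, hcomp]; exact φ.1.2
    · apply Subtype.ext
      apply Subtype.ext
      exact hcomp

theorem block_count
    (G : Type) [Group G] [TopologicalSpace G] [IsTopologicalGroup G]
    (h0 : ∀ (K : Type) [Group K] [Finite K], Nat.card (CH G K) ≠ 0)
    (hsplit : ∀ (X : Type) [Finite X] (A : Set X),
      Nat.card {φ : CH G (Equiv.Perm X) // ∀ g x, φ.1 g x ∈ A ↔ x ∈ A} =
      Nat.card (CH G (Equiv.Perm A)) * Nat.card (CH G (Equiv.Perm (Aᶜ : Set X))))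
    (X : Type) [Fintype X] [DecidableEq X] (A : Finset X) (hA : A.card = 1 ∨ A.card = 2) :
    Nat.card {φ : CH G (Equiv.Perm X) // IsBlock φ A} =
      tr G A.card * Nat.card (CH G (Equiv.Perm (Fin (Fintype.card X - A.card)))) := by
  classical
  have hfinA : Nat.card (A : Set X) = A.card := by simp
  have hc : Nat.card (CH G (Equiv.Perm ((A : Set X)ᶜ : Set X))) =
      Nat.card (CH G (Equiv.Perm (Fin (Fintype.card X - A.card)))) := by
    apply card_CH_perm
    rw [Nat.card_fin, Nat.card_coe_set_eq, Set.ncard_compl, Set.ncard_coe_finset, Nat.card_eq_fintype_card]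
  have hsp := hsplit X (A : Set X)
  rw [hc] at hsp
  rcases hA with hA | hA
  · have h1 : Nat.card (CH G (Equiv.Perm (A : Set X))) = 1 := by
      have hsub : Subsingleton (Equiv.Perm (A : Set X)) := by
        have : Subsingleton (A : Set X) := by
          rw [← Finite.card_le_one_iff_subsingleton, hfinA, hA]
        infer_instance
      have hs2 : Subsingleton (CH G (Equiv.Perm (A : Set X))) :=
        ⟨fun a b => Subtype.ext (MonoidHom.ext fun g => Subsingleton.elim _ _)⟩
      have hne := h0 (Equiv.Perm (A : Set X))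
      have hfin : Finite (CH G (Equiv.Perm (A : Set X))) := Nat.finite_of_card_ne_zero hne
      have := Finite.card_le_one_iff_subsingleton.mpr hs2
      omega
    rw [h1] at hsp
    have htr : tr G A.card = 1 := by unfold tr; rw [if_pos hA]
    rw [htr, ← hsp]
    refine Nat.card_congr (Equiv.subtypeEquivRight fun φ => ?_)
    unfold IsBlock
    constructor
    · intro h; exact fun g x => by rw [Finset.mem_coe, Finset.mem_coe]; exact h.1 g x
    · intro h
      refine ⟨fun g x => by have := h g x; rwa [Finset.mem_coe, Finset.mem_coe] at this, ?_⟩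
      intro h2; omega
  · have h1 : Nat.card (CH G (Equiv.Perm (A : Set X))) = Nat.card (CH G (Equiv.Perm (Fin 2))) := by
      apply card_CH_perm
      rw [hfinA, hA, Nat.card_fin]
    rw [h1] at hsp
    have htr : tr G A.card = Nat.card (CH G (Equiv.Perm (Fin 2))) - 1 := by
      unfold tr; rw [if_neg (by omega)]
    have hfix := card_fix G X A
    rw [hc] at hfix
    have hfin : Finite (CH G (Equiv.Perm X)) := Nat.finite_of_card_ne_zero (h0 _)
    have hadd : Nat.card {φ : CH G (Equiv.Perm X) // ∀ g x, φ.1 g x ∈ (A : Set X) ↔ x ∈ (A : Set X)} =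
        Nat.card {φ : CH G (Equiv.Perm X) // IsBlock φ A} +
        Nat.card {φ : CH G (Equiv.Perm X) // ∀ g, ∀ x ∈ A, φ.1 g x = x} := by
      rw [← Nat.card_sum]
      refine Nat.card_congr (Equiv.trans (Equiv.subtypeEquivRight fun φ => ?_) (subtypeOrEquiv _ _ ?_))
      · unfold IsBlock
        constructor
        · intro h
          by_cases hf : ∀ g, ∀ x ∈ A, φ.1 g x = x
          · exact Or.inr hf
          · left
            refine ⟨fun g x => by have := h g x; rwa [Finset.mem_coe, Finset.mem_coe] at this, ?_⟩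
            intro _
            push Not at hf
            exact hf
        · rintro (h | h)
          · exact fun g x => by rw [Finset.mem_coe, Finset.mem_coe]; exact h.1 g x
          · intro g x
            rw [Finset.mem_coe, Finset.mem_coe]
            constructor
            · intro h3
              have h2 := h g _ h3
              have := (φ.1 g).injective h2
              rwa [this] at h3
            · intro h3; rw [h g x h3]; exact h3
      · rw [Pi.disjoint_iff]
        intro φ
        rw [Prop.disjoint_iff]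
        by_contra hcon
        obtain ⟨hb, hf⟩ := hcon
        obtain ⟨g, x, hx, hgx⟩ := hb.2 hA
        exact hgx (hf g x hx)
    rw [htr, Nat.sub_mul, one_mul]
    omega





/-- restriction of an action to an invariant subset -/
def restr_l457 {G X : Type} [Group G] (p : X → Prop) (φ : G →* Equiv.Perm X)
    (h : ∀ g x, p (φ g x) ↔ p x) : G →* Equiv.Perm {x // p x} where
  toFun g := (φ g).subtypePerm (h g)
  map_one' := by
    ext x
    simp
  map_mul' g k := by
    ext x
    show φ (g * k) x.1 = φ g (φ k x.1)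
    rw [map_mul]
    rfl

theorem restr_apply_l457 {G X : Type} [Group G] (p : X → Prop) (φ : G →* Equiv.Perm X)
    (h : ∀ g x, p (φ g x) ↔ p x) (g : G) (x : {x // p x}) :
    (restr_l457 p φ h g x).1 = φ g x.1 := rfl

theorem restr_open_l457 {G X : Type} [Group G] [TopologicalSpace G] [IsTopologicalGroup G]
    (p : X → Prop) (φ : G →* Equiv.Perm X) (hφ : IsOpen (φ.ker : Set G))
    (h : ∀ g x, p (φ g x) ↔ p x) : IsOpen ((restr_l457 p φ h).ker : Set G) := by
  refine Subgroup.isOpen_mono ?_ hφ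
  intro g hg
  rw [MonoidHom.mem_ker] at hg ⊢
  ext x
  rw [restr_apply_l457, hg]
  rfl

theorem bij_l457 {G X : Type} [Group G] [TopologicalSpace G] [IsTopologicalGroup G]
    [Fintype X] [DecidableEq X] (A B : Finset X) (hAB : Disjoint A B) :
    Nat.card {φ : CH G (Equiv.Perm X) // IsBlock φ A ∧ IsBlock φ B} =
    Nat.card ({ψ : CH G (Equiv.Perm {x // x ∈ A}) // IsBlock ψ Finset.univ} ×
      {χ : CH G (Equiv.Perm {x // ¬ x ∈ A}) // IsBlock χ (B.subtype (fun x => ¬ x ∈ A))}) := by
  classical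
  have hcB : (B.subtype (fun x => ¬ x ∈ A)).card = B.card := by
    rw [Finset.card_subtype]
    congr 1
    apply Finset.filter_true_of_mem
    intro x hx hxA
    exact (Finset.disjoint_left.mp hAB) hxA hx
  have hcA : (Finset.univ : Finset {x // x ∈ A}).card = A.card := by
    rw [Finset.card_univ, Fintype.card_coe]
  have hr1 : ∀ (φ : CH G (Equiv.Perm X)) (h : ∀ g x, φ.1 g x ∈ A ↔ x ∈ A),
      ∀ g x, (fun x => ¬ x ∈ A) (φ.1 g x) ↔ (fun x => ¬ x ∈ A) x :=
    fun φ h g x => not_congr (h g x)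
  let F : {φ : CH G (Equiv.Perm X) // IsBlock φ A ∧ IsBlock φ B} →
    ({ψ : CH G (Equiv.Perm {x // x ∈ A}) // IsBlock ψ Finset.univ} ×
      {χ : CH G (Equiv.Perm {x // ¬ x ∈ A}) // IsBlock χ (B.subtype (fun x => ¬ x ∈ A))}) :=
    fun φ => ⟨⟨⟨restr_l457 (fun x => x ∈ A) φ.1.1 φ.2.1.1,
        restr_open_l457 _ _ φ.1.2 _⟩, by
          refine ⟨fun g x => by simp, fun hc => ?_⟩
          rw [hcA] at hc
          obtain ⟨g, x, hx, hne⟩ := φ.2.1.2 hc
          exact ⟨g, ⟨x, hx⟩, Finset.mem_univ _, fun he => hne (congrArg Subtype.val he)⟩⟩,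
      ⟨⟨restr_l457 (fun x => ¬ x ∈ A) φ.1.1 (hr1 φ.1 φ.2.1.1),
        restr_open_l457 _ _ φ.1.2 _⟩, by
          refine ⟨fun g x => ?_, fun hc => ?_⟩
          · rw [Finset.mem_subtype, Finset.mem_subtype]
            exact φ.2.2.1 g x.1
          · rw [hcB] at hc
            obtain ⟨g, x, hx, hne⟩ := φ.2.2.2 hc
            have hxA : ¬ x ∈ A := fun h => (Finset.disjoint_left.mp hAB) h hx
            exact ⟨g, ⟨x, hxA⟩, Finset.mem_subtype.mpr hx,
              fun he => hne (congrArg Subtype.val he)⟩⟩⟩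
  apply Nat.card_eq_of_bijective F
  constructor
  · intro φ φ' he
    have h1 := congrArg (fun z => z.1.1.1) he
    have h2 := congrArg (fun z => z.2.1.1) he
    apply Subtype.ext
    apply Subtype.ext
    ext g x
    by_cases hx : x ∈ A
    · have h3 := DFunLike.congr_fun (DFunLike.congr_fun h1 g) ⟨x, hx⟩
      exact congrArg Subtype.val h3
    · have h3 := DFunLike.congr_fun (DFunLike.congr_fun h2 g) ⟨x, hx⟩
      exact congrArg Subtype.val h3
  · rintro ⟨⟨⟨ψ, hψo⟩, hψ⟩, ⟨⟨χ, hχo⟩, hχ⟩⟩
    set θ : G →* Equiv.Perm X := (Equiv.Perm.subtypeCongrHom (fun x => x ∈ A)).comp (ψ.prod χ)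
      with hθ
    have hθA : ∀ g (x : X) (hx : x ∈ A), θ g x = (ψ g ⟨x, hx⟩).1 := by
      intro g x hx
      exact Equiv.Perm.subtypeCongr.left_apply (ψ g) (χ g) hx
    have hθB : ∀ g (x : X) (hx : ¬ x ∈ A), θ g x = (χ g ⟨x, hx⟩).1 := by
      intro g x hx
      exact Equiv.Perm.subtypeCongr.right_apply (ψ g) (χ g) hx
    have hθo : IsOpen (θ.ker : Set G) := by
      have h1 : IsOpen ((ψ.ker ⊓ χ.ker : Subgroup G) : Set G) := by
        rw [Subgroup.coe_inf]
        exact hψo.inter hχo
      refine Subgroup.isOpen_mono ?_ h1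
      intro g hg
      obtain ⟨hg1, hg2⟩ := Subgroup.mem_inf.mp hg
      rw [MonoidHom.mem_ker] at hg1 hg2 ⊢
      ext x
      by_cases hx : x ∈ A
      · rw [hθA g x hx, hg1]
        rfl
      · rw [hθB g x hx, hg2]
        rfl
    have hinv : ∀ g x, θ g x ∈ A ↔ x ∈ A := by
      intro g x
      by_cases hx : x ∈ A
      · rw [hθA g x hx]
        exact ⟨fun _ => hx, fun _ => (ψ g ⟨x, hx⟩).2⟩
      · rw [hθB g x hx]
        exact ⟨fun h => absurd h (χ g ⟨x, hx⟩).2, fun h => absurd h hx⟩
    have hbA : IsBlock (⟨θ, hθo⟩ : CH G (Equiv.Perm X)) A := by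
      refine ⟨hinv, fun hc => ?_⟩
      rw [← hcA] at hc
      obtain ⟨g, x, _, hne⟩ := hψ.2 hc
      refine ⟨g, x.1, x.2, fun he => hne ?_⟩
      apply Subtype.ext
      rw [← he]
      exact (hθA g x.1 x.2).symm
    have hbB : IsBlock (⟨θ, hθo⟩ : CH G (Equiv.Perm X)) B := by
      refine ⟨fun g x => ?_, fun hc => ?_⟩
      · show θ g x ∈ B ↔ x ∈ B
        by_cases hx : x ∈ A
        · have h1 : x ∉ B := (Finset.disjoint_left.mp hAB) hx
          have h2 : θ g x ∉ B := (Finset.disjoint_left.mp hAB) ((hinv g x).mpr hx)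
          exact ⟨fun h => absurd h h2, fun h => absurd h h1⟩
        · rw [hθB g x hx]
          have h3 := hχ.1 g ⟨x, hx⟩
          rw [Finset.mem_subtype, Finset.mem_subtype] at h3
          exact h3
      · rw [← hcB] at hc
        obtain ⟨g, x, hx, hne⟩ := hχ.2 hc
        refine ⟨g, x.1, Finset.mem_subtype.mp hx, fun he => hne ?_⟩
        apply Subtype.ext
        rw [← he]
        exact (hθB g x.1 x.2).symm
    refine ⟨⟨⟨θ, hθo⟩, hbA, hbB⟩, ?_⟩
    refine Prod.ext (Subtype.ext (Subtype.ext ?_)) (Subtype.ext (Subtype.ext ?_))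
    · ext g x
      exact hθA g x.1 x.2
    · ext g x
      exact hθB g x.1 x.2

theorem card_CH_fin0_l457 (G : Type) [Group G] [TopologicalSpace G] :
    Nat.card (CH G (Equiv.Perm (Fin 0))) = 1 := by
  rw [Nat.card_eq_one_iff_unique]
  constructor
  · constructor
    intro a b
    apply Subtype.ext
    ext g x
    exact x.elim0
  · refine ⟨⟨1, ?_⟩⟩
    rw [MonoidHom.ker_one]
    exact isOpen_univ

theorem block_count_two
    (G : Type) [Group G] [TopologicalSpace G] [IsTopologicalGroup G]
    (h0 : ∀ (K : Type) [Group K] [Finite K], Nat.card (CH G K) ≠ 0)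
    (hsplit : ∀ (X : Type) [Finite X] (A : Set X),
      Nat.card {φ : CH G (Equiv.Perm X) // ∀ g x, φ.1 g x ∈ A ↔ x ∈ A} =
      Nat.card (CH G (Equiv.Perm A)) * Nat.card (CH G (Equiv.Perm (Aᶜ : Set X))))
    (hblock : ∀ (X : Type) [Fintype X] [DecidableEq X] (A : Finset X),
      A.card = 1 ∨ A.card = 2 → Nat.card {φ : CH G (Equiv.Perm X) // IsBlock φ A} =
      tr G A.card * Nat.card (CH G (Equiv.Perm (Fin (Fintype.card X - A.card)))))
    (X : Type) [Fintype X] [DecidableEq X] (A B : Finset X) (hA : A.card = 1 ∨ A.card = 2)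
    (hB : B.card = 1 ∨ B.card = 2) (hAB : Disjoint A B) :
    Nat.card {φ : CH G (Equiv.Perm X) // IsBlock φ A ∧ IsBlock φ B} =
      tr G A.card * tr G B.card *
        Nat.card (CH G (Equiv.Perm (Fin (Fintype.card X - A.card - B.card)))) := by
  classical
  rw [bij_l457 A B hAB, Nat.card_prod]
  have hcB : (B.subtype (fun x => ¬ x ∈ A)).card = B.card := by
    rw [Finset.card_subtype]
    congr 1
    apply Finset.filter_true_of_mem
    intro x hx hxA
    exact (Finset.disjoint_left.mp hAB) hxA hx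
  have hcA : (Finset.univ : Finset {x // x ∈ A}).card = A.card := by
    rw [Finset.card_univ, Fintype.card_coe]
  have hY : Fintype.card {x // ¬ x ∈ A} = Fintype.card X - A.card := by
    rw [Fintype.card_subtype_compl, Fintype.card_coe]
  have e1 := hblock {x // x ∈ A} Finset.univ (by rw [hcA]; exact hA)
  rw [hcA, Fintype.card_coe, Nat.sub_self, card_CH_fin0_l457, mul_one] at e1
  have e2 := hblock {x // ¬ x ∈ A} (B.subtype (fun x => ¬ x ∈ A)) (by rw [hcB]; exact hB)
  rw [hcB, hY] at e2
  rw [e1, e2, mul_assoc]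


open Finset in
/-- Bonferroni inequality -/
theorem bonferroni_gen (Φ : Type) [Fintype Φ] (p a1 a2 a11 a12 a22 : ℕ)
    (R : Φ → Finset (Fin p) → Prop)
    (h1 : ∀ A : Finset (Fin p), A.card = 1 →
      Nat.card {φ // R φ A} = a1)
    (h2 : ∀ A : Finset (Fin p), A.card = 2 →
      Nat.card {φ // R φ A} = a2)
    (hd : ∀ φ (A B : Finset (Fin p)), (A.card = 1 ∨ A.card = 2) → (B.card = 1 ∨ B.card = 2) →
      A ≠ B → R φ A → R φ B → Disjoint A B)
    (h11 : ∀ A B : Finset (Fin p), A.card = 1 → B.card = 1 → Disjoint A B →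
      Nat.card {φ // R φ A ∧ R φ B} = a11)
    (h12 : ∀ A B : Finset (Fin p), A.card = 1 → B.card = 2 → Disjoint A B →
      Nat.card {φ // R φ A ∧ R φ B} = a12)
    (h22 : ∀ A B : Finset (Fin p), A.card = 2 → B.card = 2 → Disjoint A B →
      Nat.card {φ // R φ A ∧ R φ B} = a22) :
    2 * (p * a1 + p.choose 2 * a2) ≤ 2 * Nat.card Φ +
      (p * ((p - 1).choose 1 * a11 + (p - 1).choose 2 * a12) +
        p.choose 2 * ((p - 2).choose 1 * a12 + (p - 2).choose 2 * a22)) := by
  classical
  obtain ⟨S1, hS1⟩ : ∃ S1 : Finset (Finset (Fin p)), S1 = powersetCard 1 univ := ⟨_, rfl⟩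
  obtain ⟨S2, hS2⟩ : ∃ S2 : Finset (Finset (Fin p)), S2 = powersetCard 2 univ := ⟨_, rfl⟩
  have m1 : ∀ A, A ∈ S1 ↔ A.card = 1 := by intro A; rw [hS1]; simp [mem_powersetCard]
  have m2 : ∀ A, A ∈ S2 ↔ A.card = 2 := by intro A; rw [hS2]; simp [mem_powersetCard]
  have hdis : Disjoint S1 S2 := by
    rw [Finset.disjoint_left]
    intro A h1 h2
    rw [m1] at h1
    rw [m2] at h2
    omega
  obtain ⟨S, hS⟩ : ∃ S : Finset (Finset (Fin p)), S = S1 ∪ S2 := ⟨_, rfl⟩
  have mS : ∀ A, A ∈ S ↔ (A.card = 1 ∨ A.card = 2) := by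
    intro A; rw [hS, mem_union, m1, m2]
  have hcnt : ∀ (A : Finset (Fin p)) (b : ℕ),
      ((powersetCard b (univ : Finset (Fin p))).filter (fun B => Disjoint A B)).card =
        (p - A.card).choose b := by
    intro A b
    have e : (powersetCard b (univ : Finset (Fin p))).filter (fun B => Disjoint A B) =
        powersetCard b Aᶜ := by
      ext B
      rw [mem_filter, mem_powersetCard, mem_powersetCard, Finset.subset_compl_iff_disjoint_left]
      constructor
      · rintro ⟨⟨_, h⟩, h'⟩; exact ⟨h', h⟩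
      · rintro ⟨h', h⟩; exact ⟨⟨subset_univ _, h⟩, h'⟩
    rw [e, card_powersetCard, card_compl, Fintype.card_fin]
  have hN : ∀ P : Φ → Prop, ∑ φ, (if P φ then 1 else 0) = Nat.card {φ // P φ} := by
    intro P
    rw [Nat.card_eq_fintype_card, Fintype.card_subtype, Finset.card_filter]
  obtain ⟨s, hs⟩ : ∃ s : Φ → ℕ, s = fun φ => (S.filter (fun A => R φ A)).card := ⟨_, rfl⟩
  have hq : ∀ φ, 2 * s φ ≤ 2 + s φ * (s φ - 1) := by
    intro φ
    generalize s φ = t
    rcases t with _ | _ | _ | t
    · simp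
    · simp
    · simp
    · have : t + 3 - 1 = t + 2 := by omega
      show 2 * (t + 3) ≤ 2 + (t + 3) * (t + 3 - 1)
      rw [this]
      nlinarith
  have hsub : ∀ φ, s φ * (s φ - 1) ≤
      ∑ A ∈ S, ∑ B ∈ S.filter (fun B => Disjoint A B), (if R φ A ∧ R φ B then 1 else 0) := by
    intro φ
    have e1 : ∀ A ∈ S, (∑ B ∈ S.filter (fun B => Disjoint A B),
        (if R φ A ∧ R φ B then 1 else 0)) =
        if R φ A then ((S.filter (fun B => Disjoint A B)).filter (fun B => R φ B)).card else 0 := by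
      intro A _
      by_cases h : R φ A
      · rw [if_pos h, Finset.card_filter]
        exact Finset.sum_congr rfl fun B _ => by simp [h]
      · rw [if_neg h]
        exact Finset.sum_eq_zero fun B _ => by simp [h]
    rw [Finset.sum_congr rfl e1, ← Finset.sum_filter]
    calc s φ * (s φ - 1) = ∑ _A ∈ S.filter (fun A => R φ A), (s φ - 1) := by
          rw [Finset.sum_const, smul_eq_mul, hs]
      _ ≤ _ := by
          apply Finset.sum_le_sum
          intro A hA
          have e2 : s φ - 1 = ((S.filter (fun A => R φ A)).erase A).card := by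
            rw [Finset.card_erase_of_mem hA, hs]
          rw [e2]
          apply Finset.card_le_card
          intro B hB
          rw [mem_erase, mem_filter] at hB
          rw [mem_filter] at hA
          rw [mem_filter, mem_filter]
          exact ⟨⟨hB.2.1, hd φ A B ((mS A).1 hA.1) ((mS B).1 hB.2.1) (Ne.symm hB.1) hA.2 hB.2.2⟩,
            hB.2.2⟩
  have hsum1 : ∑ φ, s φ = S1.card * a1 +
      S2.card * (a2) := by
    have e1 : ∀ φ, s φ = ∑ A ∈ S, if R φ A then 1 else 0 := by
      intro φ; rw [hs]; exact Finset.card_filter _ _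
    rw [Finset.sum_congr rfl (fun φ _ => e1 φ), Finset.sum_comm, hS, Finset.sum_union hdis]
    congr 1
    · rw [Finset.sum_congr rfl (fun A hA => (hN (fun φ => R φ A)).trans (h1 A ((m1 A).1 hA))),
        Finset.sum_const, smul_eq_mul]
    · rw [Finset.sum_congr rfl (fun A hA => (hN (fun φ => R φ A)).trans (h2 A ((m2 A).1 hA))),
        Finset.sum_const, smul_eq_mul]
  have hsum2 : ∑ φ, ∑ A ∈ S, ∑ B ∈ S.filter (fun B => Disjoint A B),
        (if R φ A ∧ R φ B then 1 else 0) =
      S1.card * ((p - 1).choose 1 * a11 +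
        (p - 1).choose 2 * (a12)) +
      S2.card * ((p - 2).choose 1 * (a12) +
        (p - 2).choose 2 * (a22)) := by
    rw [Finset.sum_comm]
    have e0 : ∀ A ∈ S, ∑ φ, ∑ B ∈ S.filter (fun B => Disjoint A B),
        (if R φ A ∧ R φ B then 1 else 0) =
        (∑ B ∈ S1.filter (fun B => Disjoint A B), Nat.card {φ // R φ A ∧ R φ B}) +
        ∑ B ∈ S2.filter (fun B => Disjoint A B), Nat.card {φ // R φ A ∧ R φ B} := by
      intro A _
      rw [Finset.sum_comm, hS, Finset.filter_union, Finset.sum_union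
        (Finset.disjoint_filter_filter hdis)]
      have hN2 : ∀ B : Finset (Fin p), (∑ φ, if R φ A ∧ R φ B then 1 else 0) =
          Nat.card {φ // R φ A ∧ R φ B} := by
        intro B
        rw [← hN (fun φ => R φ A ∧ R φ B)]
        refine Finset.sum_congr rfl fun φ _ => ?_
        by_cases h : R φ A ∧ R φ B
        · rw [if_pos h, if_pos h]
        · rw [if_neg h, if_neg h]
      rw [Finset.sum_congr rfl (fun B _ => hN2 B)]
      congr 1
      exact Finset.sum_congr rfl (fun B _ => hN2 B)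
    rw [Finset.sum_congr rfl e0]
    conv_lhs => rw [hS]
    rw [Finset.sum_union hdis]
    congr 1
    · have e1 : ∀ A ∈ S1,
          (∑ B ∈ S1.filter (fun B => Disjoint A B), Nat.card {φ // R φ A ∧ R φ B}) +
          ∑ B ∈ S2.filter (fun B => Disjoint A B), Nat.card {φ // R φ A ∧ R φ B} =
          (p - 1).choose 1 * a11 +
            (p - 1).choose 2 * (a12) := by
        intro A hA
        have hA1 := (m1 A).1 hA
        congr 1
        · rw [Finset.sum_congr rfl (fun B hB => h11 A B hA1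
            ((m1 B).1 (mem_filter.1 hB).1) (mem_filter.1 hB).2), Finset.sum_const, smul_eq_mul,
            hS1, hcnt, hA1]
        · rw [Finset.sum_congr rfl (fun B hB => h12 A B hA1
            ((m2 B).1 (mem_filter.1 hB).1) (mem_filter.1 hB).2), Finset.sum_const, smul_eq_mul,
            hS2, hcnt, hA1]
      rw [Finset.sum_congr rfl e1, Finset.sum_const, smul_eq_mul]
    · have e1 : ∀ A ∈ S2,
          (∑ B ∈ S1.filter (fun B => Disjoint A B), Nat.card {φ // R φ A ∧ R φ B}) +
          ∑ B ∈ S2.filter (fun B => Disjoint A B), Nat.card {φ // R φ A ∧ R φ B} =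
          (p - 2).choose 1 * (a12) +
            (p - 2).choose 2 * (a22) := by
        intro A hA
        have hA1 := (m2 A).1 hA
        congr 1
        · rw [Finset.sum_congr rfl (fun B hB => show Nat.card {φ // R φ A ∧ R φ B} =
              a12 by
              rw [← h12 B A ((m1 B).1 (mem_filter.1 hB).1) hA1 (mem_filter.1 hB).2.symm]
              simp only [and_comm]), Finset.sum_const, smul_eq_mul,
            hS1, hcnt, hA1]
        · rw [Finset.sum_congr rfl (fun B hB => h22 A B hA1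
            ((m2 B).1 (mem_filter.1 hB).1) (mem_filter.1 hB).2), Finset.sum_const, smul_eq_mul,
            hS2, hcnt, hA1]
      rw [Finset.sum_congr rfl e1, Finset.sum_const, smul_eq_mul]
  have hmain : 2 * ∑ φ, s φ ≤ 2 * Nat.card Φ + ∑ φ, ∑ A ∈ S,
      ∑ B ∈ S.filter (fun B => Disjoint A B), (if R φ A ∧ R φ B then 1 else 0) := by
    calc 2 * ∑ φ, s φ = ∑ φ, 2 * s φ := by rw [Finset.mul_sum]
      _ ≤ ∑ φ, (2 + ∑ A ∈ S, ∑ B ∈ S.filter (fun B => Disjoint A B),
          (if R φ A ∧ R φ B then 1 else 0)) :=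
          Finset.sum_le_sum fun φ _ => (hq φ).trans (Nat.add_le_add_left (hsub φ) 2)
      _ = _ := by
          rw [Finset.sum_add_distrib, Finset.sum_const, Finset.card_univ, smul_eq_mul,
            Nat.card_eq_fintype_card, mul_comm]
  rw [hsum1, hsum2, hS1, hS2, card_powersetCard, card_powersetCard, Finset.card_univ,
    Fintype.card_fin, Nat.choose_one_right] at hmain
  exact hmain

/-- numerical inequality -/
theorem bonf_num (p m : ℕ) (hp5 : 5 ≤ p) (hm : 2 ≤ m) (X : ℕ)
    (h : 2 * (p * (Nat.factorial (p - 1)) ^ m +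
          p.choose 2 * ((2 ^ m - 1) * (Nat.factorial (p - 2)) ^ m)) ≤
      2 * X + (p * ((p - 1).choose 1 * (Nat.factorial (p - 2)) ^ m +
          (p - 1).choose 2 * ((2 ^ m - 1) * (Nat.factorial (p - 3)) ^ m)) +
        p.choose 2 * ((p - 2).choose 1 * ((2 ^ m - 1) * (Nat.factorial (p - 3)) ^ m) +
          (p - 2).choose 2 * ((2 ^ m - 1) ^ 2 * (Nat.factorial (p - 4)) ^ m)))) :
    p * (Nat.factorial (p - 1)) ^ m < X := by
  obtain ⟨q, rfl⟩ : ∃ q, p = q + 5 := ⟨p - 5, by omega⟩
  have e1 : q + 5 - 1 = q + 4 := by omega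
  have e2 : q + 5 - 2 = q + 3 := by omega
  have e3 : q + 5 - 3 = q + 2 := by omega
  have e4 : q + 5 - 4 = q + 1 := by omega
  rw [e1, e2, e3, e4] at h
  rw [e1]
  obtain ⟨c, hc⟩ : ∃ c, 2 ^ m = c + 1 := ⟨2 ^ m - 1, by
    have := Nat.one_le_two_pow (n := m); omega⟩
  have hc' : 2 ^ m - 1 = c := by omega
  rw [hc'] at h
  have hc3 : 3 ≤ c := by
    have h4 : 2 ^ 2 ≤ 2 ^ m := Nat.pow_le_pow_right (by norm_num) hm
    omega
  have c1 : (q + 4).choose 1 = q + 4 := Nat.choose_one_right _
  have c2 : (q + 3).choose 1 = q + 3 := Nat.choose_one_right _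
  have two : ∀ n : ℕ, 2 * (n + 1).choose 2 = (n + 1) * n := by
    intro n
    induction n with
    | zero => simp
    | succ k ih =>
      have : (k + 1 + 1).choose 2 = (k + 1).choose 1 + (k + 1).choose 2 := Nat.choose_succ_succ _ _
      rw [this, Nat.choose_one_right, mul_add, ih]
      ring
  have d1 := two (q + 4)
  have d2 := two (q + 3)
  have d3 := two (q + 2)
  have g2 : Nat.factorial (q + 2) = (q + 2) * Nat.factorial (q + 1) := Nat.factorial_succ _
  have g3 : Nat.factorial (q + 3) = (q + 3) * ((q + 2) * Nat.factorial (q + 1)) := by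
    rw [← g2]; exact Nat.factorial_succ _
  rw [c1, c2] at h
  rw [g3, g2, mul_pow, mul_pow] at h
  have hf : 0 < (Nat.factorial (q + 1)) ^ m := pow_pos (Nat.factorial_pos _) _
  have hA : 3 * (q + 3) ≤ (q + 3) ^ m := by
    obtain ⟨r, rfl⟩ : ∃ r, m = r + 1 := ⟨m - 1, by omega⟩
    rw [pow_succ]
    refine Nat.mul_le_mul_right _ ?_
    calc 3 ≤ q + 3 := by omega
      _ = (q + 3) ^ 1 := (pow_one _).symm
      _ ≤ (q + 3) ^ r := Nat.pow_le_pow_right (by omega) (by omega)
  have hB : (q + 2) * (c + 1) ≤ 2 * (q + 2) ^ m := by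
    rw [← hc]
    obtain ⟨r, rfl⟩ : ∃ r, m = r + 1 := ⟨m - 1, by omega⟩
    rw [pow_succ, pow_succ]
    have : 2 ^ r ≤ (q + 2) ^ r := Nat.pow_le_pow_left (by omega) r
    nlinarith
  generalize (Nat.factorial (q + 1)) ^ m = f at h hf
  generalize (Nat.factorial (q + 4)) ^ m = F1 at h ⊢
  generalize (q + 3) ^ m = A at h hA
  generalize (q + 2) ^ m = B at h hB
  have d1' : 2 * (q + 5).choose 2 = (q + 5) * (q + 4) := two (q + 4)
  have d2' : 2 * (q + 4).choose 2 = (q + 4) * (q + 3) := two (q + 3)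
  have d3' : 2 * (q + 3).choose 2 = (q + 3) * (q + 2) := two (q + 2)
  generalize (q + 5).choose 2 = C at h d1'
  generalize (q + 4).choose 2 = D at h d2'
  generalize (q + 3).choose 2 = E at h d3'
  by_contra hcon
  push Not at hcon
  -- key inequality
  have key : (q + 3) * (q + 2) * c ^ 2 + 4 * (q + 3) * c * B < 4 * (c - 1) * A * B := by
    obtain ⟨t, rfl⟩ : ∃ t, c = t + 1 := ⟨c - 1, by omega⟩
    rw [Nat.add_sub_cancel]
    have hBpos : 0 < B := by nlinarith
    have k1 : 4 * t * (3 * (q + 3)) * B ≤ 4 * t * A * B := by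
      refine Nat.mul_le_mul_right _ (Nat.mul_le_mul_left _ hA)
    have k2 : 8 * (t + 1) * (q + 3) * B ≤ 4 * t * (3 * (q + 3)) * B := by
      refine Nat.mul_le_mul_right _ ?_
      nlinarith
    have k3 : 2 * (t + 1) * (q + 3) * ((q + 2) * (t + 1 + 1)) ≤ 2 * (t + 1) * (q + 3) * (2 * B) :=
      Nat.mul_le_mul_left _ hB
    nlinarith [mul_pos (show 0 < q + 3 by omega) (show 0 < q + 2 by omega)]
  have h8 : 4 * (((q + 5) * (q + 4)) * (c * (A * (B * f)))) ≤
      4 * (((q + 5) * (q + 4)) * (A * (B * f))) + 4 * (((q + 5) * (q + 4)) * (q + 3) * c * (B * f))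
        + ((q + 5) * (q + 4)) * ((q + 3) * (q + 2)) * (c ^ 2 * f) := by
    have t1 : 4 * (((q + 5) * (q + 4)) * (c * (A * (B * f)))) = 8 * (C * (c * (A * (B * f)))) := by
      rw [← d1']; ring
    have t2 : 4 * (((q + 5) * (q + 4)) * (q + 3) * c * (B * f)) =
        4 * ((q + 5) * (D * (c * (B * f)))) + 4 * (C * ((q + 3) * (c * (B * f)))) := by
      have a1 : 4 * ((q + 5) * (D * (c * (B * f)))) = 2 * ((q + 5) * ((2 * D) * (c * (B * f)))) := by ring
      have a2 : 4 * (C * ((q + 3) * (c * (B * f)))) = 2 * ((2 * C) * ((q + 3) * (c * (B * f)))) := by ring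
      rw [a1, a2, d1', d2']; ring
    have t3 : ((q + 5) * (q + 4)) * ((q + 3) * (q + 2)) * (c ^ 2 * f) = 4 * (C * (E * (c ^ 2 * f))) := by
      rw [← d1', ← d3']; ring
    rw [t1, t2, t3]
    linarith [h, hcon]
  have hP : 0 < (q + 5) * (q + 4) := by positivity
  have h9 : 4 * (c * (A * (B * f))) ≤
      4 * (A * (B * f)) + 4 * ((q + 3) * c * (B * f)) + ((q + 3) * (q + 2)) * (c ^ 2 * f) := by
    refine Nat.le_of_mul_le_mul_left ?_ hP
    linarith [h8]
  have h10 : 4 * (c * (A * B)) ≤ 4 * (A * B) + 4 * ((q + 3) * c * B) + ((q + 3) * (q + 2)) * c ^ 2 := by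
    refine Nat.le_of_mul_le_mul_right ?_ hf
    linarith [h9]
  obtain ⟨t, rfl⟩ : ∃ t, c = t + 1 := ⟨c - 1, by omega⟩
  rw [Nat.add_sub_cancel] at key
  nlinarith [key, h10]

theorem block_fix {G X : Type} [Group G] [TopologicalSpace G] [DecidableEq X]
    (φ : CH G (Equiv.Perm X)) (B : Finset X) (hB : B.card = 1 ∨ B.card = 2) (h : IsBlock φ B)
    (x : X) (hx : x ∈ B) (hfix : ∀ g, φ.1 g x = x) : B = {x} := by
  rcases hB with hB | hB
  · obtain ⟨a, rfl⟩ := Finset.card_eq_one.mp hB
    simp only [Finset.mem_singleton] at hx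
    rw [hx]
  · exfalso
    obtain ⟨g, y, hy, hgy⟩ := h.2 hB
    obtain ⟨a, b, hab, rfl⟩ := Finset.card_eq_two.mp hB
    have h3 := (h.1 g y).mpr hy
    have hinj : ∀ u v, φ.1 g u = φ.1 g v → u = v := fun u v e => (φ.1 g).injective e
    have hxg := hfix g
    have hxy : y ≠ x := by
      rintro rfl
      exact hgy hxg
    have hgx : φ.1 g y ≠ x := by
      intro e
      exact hxy (hinj _ _ (e.trans hxg.symm))
    simp only [Finset.mem_insert, Finset.mem_singleton] at hx hy h3
    rcases hx with rfl | rfl <;> rcases hy with rfl | rfl <;> rcases h3 with h3 | h3 <;>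
      simp_all

theorem block_disj {G X : Type} [Group G] [TopologicalSpace G] [DecidableEq X]
    (φ : CH G (Equiv.Perm X)) (A B : Finset X) (hA : A.card = 1 ∨ A.card = 2)
    (hB : B.card = 1 ∨ B.card = 2) (hAB : A ≠ B) (h : IsBlock φ A) (h' : IsBlock φ B) :
    Disjoint A B := by
  by_contra hd
  rw [Finset.not_disjoint_iff] at hd
  obtain ⟨x, hxA, hxB⟩ := hd
  by_cases hfix : ∀ g, φ.1 g x = x
  · exact hAB ((block_fix φ A hA h x hxA hfix).trans (block_fix φ B hB h' x hxB hfix).symm)
  · push Not at hfix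
    obtain ⟨g, hg⟩ := hfix
    -- both are equal to `{x, φ g x}`
    have hA' : A = {x, φ.1 g x} := by
      symm
      apply Finset.eq_of_subset_of_card_le
      · intro y hy
        simp only [Finset.mem_insert, Finset.mem_singleton] at hy
        rcases hy with rfl | rfl
        · exact hxA
        · exact (h.1 g x).mpr hxA
      · rw [Finset.card_pair (Ne.symm hg)]
        omega
    have hB' : B = {x, φ.1 g x} := by
      symm
      apply Finset.eq_of_subset_of_card_le
      · intro y hy
        simp only [Finset.mem_insert, Finset.mem_singleton] at hy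
        rcases hy with rfl | rfl
        · exact hxB
        · exact (h'.1 g x).mpr hxB
      · rw [Finset.card_pair (Ne.symm hg)]
        omega
    exact hAB (hA'.trans hB'.symm)

/-- lower bound for homomorphisms to the symmetric group of prime degree, from values in smaller
degrees -/
theorem perm_lower_gen
    (G : Type) [Group G] [TopologicalSpace G] [IsTopologicalGroup G]
    (h0 : ∀ (K : Type) [Group K] [Finite K], Nat.card (CH G K) ≠ 0)
    (hsplit : ∀ (X : Type) [Finite X] (A : Set X),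
      Nat.card {φ : CH G (Equiv.Perm X) // ∀ g x, φ.1 g x ∈ A ↔ x ∈ A} =
      Nat.card (CH G (Equiv.Perm A)) * Nat.card (CH G (Equiv.Perm (Aᶜ : Set X))))
    (p m : ℕ) (hp5 : 5 ≤ p) (hm : 2 ≤ m)
    (hk : ∀ k : ℕ, k < p → Nat.card (CH G (Equiv.Perm (Fin k))) = (Nat.factorial k) ^ m) :
    p * (Nat.factorial (p - 1)) ^ m < Nat.card (CH G (Equiv.Perm (Fin p))) := by
  classical
  have : Finite (CH G (Equiv.Perm (Fin p))) := Nat.finite_of_card_ne_zero (h0 _)
  let _ := Fintype.ofFinite (CH G (Equiv.Perm (Fin p)))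
  have htr1 : tr G 1 = 1 := by simp [tr]
  have htr2 : tr G 2 = 2 ^ m - 1 := by
    simp [tr, hk 2 (by omega)]
  have hb : ∀ (X : Type) [Fintype X] [DecidableEq X] (A : Finset X),
      A.card = 1 ∨ A.card = 2 → Nat.card {φ : CH G (Equiv.Perm X) // IsBlock φ A} =
      tr G A.card * Nat.card (CH G (Equiv.Perm (Fin (Fintype.card X - A.card)))) :=
    fun X _ _ A hA => block_count G h0 hsplit X A hA
  have hb2 := block_count_two G h0 hsplit hb
  apply bonf_num p m hp5 hm
  apply bonferroni_gen (CH G (Equiv.Perm (Fin p))) p ((Nat.factorial (p - 1)) ^ m)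
    ((2 ^ m - 1) * (Nat.factorial (p - 2)) ^ m) ((Nat.factorial (p - 2)) ^ m)
    ((2 ^ m - 1) * (Nat.factorial (p - 3)) ^ m) ((2 ^ m - 1) ^ 2 * (Nat.factorial (p - 4)) ^ m)
    (fun φ A => IsBlock φ A)
  · intro A hA
    rw [hb (Fin p) A (Or.inl hA), hA, htr1, one_mul, Fintype.card_fin, hk _ (by omega)]
  · intro A hA
    rw [hb (Fin p) A (Or.inr hA), hA, htr2, Fintype.card_fin, hk _ (by omega)]
  · intro φ A B hA hB hAB h h'
    exact block_disj φ A B hA hB hAB h h'
  · intro A B hA hB hAB
    rw [hb2 (Fin p) A B (Or.inl hA) (Or.inl hB) hAB, hA, hB, htr1, Fintype.card_fin,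
      hk _ (by omega), one_mul, one_mul, Nat.sub_sub]
  · intro A B hA hB hAB
    rw [hb2 (Fin p) A B (Or.inl hA) (Or.inr hB) hAB, hA, hB, htr1, htr2, Fintype.card_fin,
      hk _ (by omega), one_mul, Nat.sub_sub]
  · intro A B hA hB hAB
    rw [hb2 (Fin p) A B (Or.inr hA) (Or.inr hB) hAB, hA, hB, htr2, Fintype.card_fin,
      hk _ (by omega), Nat.sub_sub, ← sq]

end Pool.Agent.Helper127.FF.BB
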