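import Mathlib
import Pool.Agent.Helper127.FF.Defs

set_option autoImplicit false

namespace Pool.Agent.Helper127.FF.C2


/-- if the Sylow subgroups have prime order, the pairs (subgroup, normalising element) are at least
as many as the elements -/
theorem pairs_sylow (p : ℕ) [Fact p.Prime] (K : Type) [Group K] [Finite K]
    (hK : ∀ P : Sylow p K, Nat.card P = p) :
    Nat.card K ≤ Nat.card {z : K × Subgroup K // Nat.card z.2 = p ∧
        z.1 ∈ Subgroup.normalizer (z.2 : Set K)} := by
  classical
  obtain ⟨P0⟩ : Nonempty (Sylow p K) := inferInstance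
  have : Finite (Subgroup K) := inferInstance
  have : Finite (Sylow p K) := inferInstance
  have hN : ∀ P : Sylow p K, Nat.card (Sylow p K) * Nat.card (Subgroup.normalizer ((P : Subgroup K) : Set K))
      = Nat.card K := by
    intro P
    rw [P.card_eq_index_normalizer]
    exact Subgroup.index_mul_card _
  have hc : Nat.card ((P : Sylow p K) × (Subgroup.normalizer ((P : Subgroup K) : Set K))) = Nat.card K := by
    letI : Fintype (Sylow p K) := Fintype.ofFinite _
    rw [Nat.card_sigma]
    have hpos : 0 < Nat.card (Sylow p K) := Nat.card_pos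
    have : ∀ P : Sylow p K, Nat.card (Subgroup.normalizer ((P : Subgroup K) : Set K)) =
        Nat.card (Subgroup.normalizer ((P0 : Subgroup K) : Set K)) := by
      intro P
      exact Nat.eq_of_mul_eq_mul_left hpos ((hN P).trans (hN P0).symm)
    rw [Finset.sum_congr rfl (fun P _ => this P), Finset.sum_const, smul_eq_mul, ← hN P0]
    congr 1
    rw [Nat.card_eq_fintype_card, Finset.card_univ]
  rw [← hc]
  refine Nat.card_le_card_of_injective
    (fun z => (⟨((z.2 : K), (z.1 : Subgroup K)), hK z.1, z.2.2⟩ : {z : K × Subgroup K // Nat.card z.2 = p ∧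
        z.1 ∈ Subgroup.normalizer (z.2 : Set K)})) ?_
  rintro ⟨P, x⟩ ⟨Q, y⟩ h
  have h1 := congrArg (fun w => w.1.1) h
  have h2 := congrArg (fun w => w.1.2) h
  simp only at h1 h2
  have h3 : P = Q := Sylow.ext h2
  subst h3
  have : x = y := Subtype.ext h1
  rw [this]

theorem perm_sylow (p : ℕ) [Fact p.Prime] (P : Sylow p (Equiv.Perm (Fin p))) :
    Nat.card P = p := by
  have hp : p.Prime := Fact.out
  rw [P.card_eq_multiplicity, Nat.card_eq_fintype_card, Fintype.card_perm, Fintype.card_fin]
  have h1 : p.factorial = p * (p-1).factorial := (Nat.mul_factorial_pred hp.ne_zero).symm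
  have h2 : ¬ p ∣ (p-1).factorial := by
    rw [hp.dvd_factorial]
    have := hp.pos
    omega
  have h3 : p.factorial.factorization p = 1 := by
    rw [h1, Nat.factorization_mul hp.ne_zero (Nat.factorial_ne_zero _), Finsupp.add_apply,
      hp.factorization_self, Nat.factorization_eq_zero_of_not_dvd h2]
  rw [h3, pow_one]

end Pool.Agent.Helper127.FF.C2
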