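import Mathlib
import Pool.Agent.Helper127.FF.Defs

set_option autoImplicit false

namespace Pool.Agent.Helper127.FF.C4


theorem a5_pow (m : ℕ) : (60 : ℕ) ^ (m + 1) = 60 * ((2 ^ m) ^ 2 * 3 ^ m * 5 ^ m) := by
  rw [pow_succ, show (60 : ℕ) = 2 ^ 2 * 3 * 5 by norm_num, mul_pow, mul_pow, ← pow_mul, ← pow_mul,
    mul_comm 2 m]
  ring

theorem a5_bounds (m : ℕ) (hm : 2 ≤ m) : 4 ≤ 2 ^ m ∧ 9 ≤ 3 ^ m ∧ 25 ≤ 5 ^ m := by
  refine ⟨?_, ?_, ?_⟩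
  · calc 4 = 2 ^ 2 := by norm_num
      _ ≤ 2 ^ m := Nat.pow_le_pow_right (by norm_num) hm
  · calc 9 = 3 ^ 2 := by norm_num
      _ ≤ 3 ^ m := Nat.pow_le_pow_right (by norm_num) hm
  · calc 25 = 5 ^ 2 := by norm_num
      _ ≤ 5 ^ m := Nat.pow_le_pow_right (by norm_num) hm

/-- numerical inequality for the alternating group of degree five, first case -/
theorem a5_num1 (m : ℕ) (hm : 2 ≤ m) (x y : ℕ)
    (hx : x ≤ (1 + (15 * (2 - 1) + 10 * (3 ^ m - 1))) +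
      (5 * (2 ^ 2 * 3 ^ m - (1 + (3 * (2 - 1) + 4 * (3 ^ m - 1)))) +
      (10 * (2 * 3 ^ m - (1 + (3 * (2 - 1) + 1 * (3 ^ m - 1)))) +
       6 * (2 * 5 - (1 + (5 * (2 - 1) + 0 * (3 ^ m - 1)))))))
    (hy : y ≤ (1 + (15 * (2 ^ m - 1) + 10 * (3 - 1))) +
      (5 * ((2 ^ m) ^ 2 * 3 - (1 + (3 * (2 ^ m - 1) + 4 * (3 - 1)))) +
      (10 * (2 ^ m * 3 - (1 + (3 * (2 ^ m - 1) + 1 * (3 - 1)))) +
       6 * (2 ^ m * 5 ^ m - (1 + (5 * (2 ^ m - 1) + 0 * (3 - 1))))))) :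
    x * y ≠ 60 ^ (m + 1) := by
  obtain ⟨ha, ht, hf⟩ := a5_bounds m hm
  rw [a5_pow]
  generalize (2 : ℕ) ^ m = a at *
  generalize (3 : ℕ) ^ m = t at *
  generalize (5 : ℕ) ^ m = f at *
  have h1 : x ≤ 20 * t := by
    norm_num at hx
    omega
  have hA : 4 * a ≤ a ^ 2 := by nlinarith
  have hF : 25 * a ≤ a * f := by nlinarith
  have h2 : y ≤ 15 * a ^ 2 + 6 * (a * f) := by
    generalize a ^ 2 = A at *
    generalize a * f = B at *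
    omega
  have h3 : x * y ≤ (20 * t) * (15 * a ^ 2 + 6 * (a * f)) := Nat.mul_le_mul h1 h2
  have h4 : (20 * t) * (15 * a ^ 2 + 6 * (a * f)) < 60 * (a ^ 2 * t * f) := by
    obtain ⟨a', rfl⟩ := Nat.exists_eq_add_of_le ha
    obtain ⟨t', rfl⟩ := Nat.exists_eq_add_of_le ht
    obtain ⟨f', rfl⟩ := Nat.exists_eq_add_of_le hf
    ring_nf
    nlinarith [Nat.zero_le (a' * t' * f'), Nat.zero_le (a' * t'), Nat.zero_le (a' * f'),
      Nat.zero_le (t' * f'), Nat.zero_le (a' ^ 2 * t' * f'), Nat.zero_le (a' ^ 2 * t'),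
      Nat.zero_le (a' ^ 2 * f'), Nat.zero_le (a' ^ 2)]
  omega

/-- numerical inequality for the alternating group of degree five, second case -/
theorem a5_num2 (m : ℕ) (hm : 2 ≤ m) (x y : ℕ)
    (hx : x ≤ (1 + (15 * (2 - 1) + 10 * (3 ^ m - 1))) +
      (5 * (2 ^ 2 * 3 ^ m - (1 + (3 * (2 - 1) + 4 * (3 ^ m - 1)))) +
      (10 * (2 * 3 ^ m - (1 + (3 * (2 - 1) + 1 * (3 ^ m - 1)))) +
       6 * (2 * 5 ^ m - (1 + (5 * (2 - 1) + 0 * (3 ^ m - 1)))))))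
    (hy : y ≤ (1 + (15 * (2 ^ m - 1) + 10 * (3 - 1))) +
      (5 * ((2 ^ m) ^ 2 * 3 - (1 + (3 * (2 ^ m - 1) + 4 * (3 - 1)))) +
      (10 * (2 ^ m * 3 - (1 + (3 * (2 ^ m - 1) + 1 * (3 - 1)))) +
       6 * (2 ^ m * 5 - (1 + (5 * (2 ^ m - 1) + 0 * (3 - 1))))))) :
    x * y ≠ 60 ^ (m + 1) := by
  obtain ⟨ha, ht, hf⟩ := a5_bounds m hm
  rw [a5_pow]
  generalize (2 : ℕ) ^ m = a at *
  generalize (3 : ℕ) ^ m = t at *
  generalize (5 : ℕ) ^ m = f at *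
  have h1 : x ≤ 20 * t + 12 * f := by
    norm_num at hx
    omega
  have hA : 4 * a ≤ a ^ 2 := by nlinarith
  have h2 : y ≤ 15 * a ^ 2 := by
    generalize a ^ 2 = A at *
    omega
  have h3 : x * y ≤ (20 * t + 12 * f) * (15 * a ^ 2) := Nat.mul_le_mul h1 h2
  have h4 : (20 * t + 12 * f) * (15 * a ^ 2) < 60 * (a ^ 2 * t * f) := by
    obtain ⟨a', rfl⟩ := Nat.exists_eq_add_of_le ha
    obtain ⟨t', rfl⟩ := Nat.exists_eq_add_of_le ht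
    obtain ⟨f', rfl⟩ := Nat.exists_eq_add_of_le hf
    ring_nf
    nlinarith [Nat.zero_le (a' * t' * f'), Nat.zero_le (a' * t'), Nat.zero_le (a' * f'),
      Nat.zero_le (t' * f'), Nat.zero_le (a' ^ 2 * t' * f'), Nat.zero_le (a' ^ 2 * t'),
      Nat.zero_le (a' ^ 2 * f'), Nat.zero_le (a' ^ 2)]
  omega

end Pool.Agent.Helper127.FF.C4
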