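import Mathlib
import Pool.Agent.Helper127.FF.Defs

set_option autoImplicit false

namespace Pool.Agent.Helper127.FF.J1_coprod


theorem coprod_fin_aux1 {G K : Type} [Group G] [TopologicalSpace G] [IsTopologicalGroup G]
    [Group K] [TopologicalSpace K] [IsTopologicalGroup K] [DiscreteTopology K]
    (φ : G →* K) (h : IsOpen (φ.ker : Set G)) : Continuous φ := by
  apply continuous_of_continuousAt_one φ
  rw [ContinuousAt, map_one, nhds_discrete K, Filter.tendsto_pure]
  have h1 : (φ.ker : Set G) ∈ nhds (1 : G) := h.mem_nhds (one_mem _)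
  filter_upwards [h1] with x hx
  exact hx

theorem coprod_fin_aux2 {G K : Type} [Group G] [TopologicalSpace G]
    [Group K] [TopologicalSpace K] [DiscreteTopology K]
    (φ : G →* K) (h : Continuous φ) : IsOpen (φ.ker : Set G) := by
  have h1 : (φ.ker : Set G) = φ ⁻¹' {1} := by
    ext x
    simp [MonoidHom.mem_ker]
  rw [h1]
  exact (isOpen_discrete _).preimage h

theorem coprod_fin
    (G : Type) [Group G] [TopologicalSpace G] [IsTopologicalGroup G] [CompactSpace G]
    [T2Space G] [TotallyDisconnectedSpace G]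
    (H : Type) [Group H] [TopologicalSpace H] [IsTopologicalGroup H] [CompactSpace H]
    [T2Space H] [TotallyDisconnectedSpace H]
    (P : Type) [Group P] [TopologicalSpace P] [IsTopologicalGroup P] [CompactSpace P]
    [T2Space P] [TotallyDisconnectedSpace P]
    (iG : ContinuousMonoidHom G P) (iH : ContinuousMonoidHom H P)
    (hU : ∀ (K : Type) [Group K] [TopologicalSpace K] [IsTopologicalGroup K] [CompactSpace K]
          [T2Space K] [TotallyDisconnectedSpace K]
          (f : ContinuousMonoidHom G K) (g : ContinuousMonoidHom H K),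
          ∃! φ : ContinuousMonoidHom P K, (∀ x, φ (iG x) = f x) ∧ (∀ y, φ (iH y) = g y))
    (K : Type) [Group K] [Finite K] (f : CH G K) (g : CH H K) :
    ∃! φ : CH P K, (∀ x, φ.1 (iG x) = f.1 x) ∧ (∀ y, φ.1 (iH y) = g.1 y) := by
  letI : TopologicalSpace K := ⊥
  haveI : DiscreteTopology K := ⟨rfl⟩
  haveI : IsTopologicalGroup K := inferInstance
  haveI : CompactSpace K := inferInstance
  haveI : T2Space K := inferInstance
  haveI : TotallyDisconnectedSpace K := inferInstance
  let F : ContinuousMonoidHom G K := ⟨f.1, coprod_fin_aux1 f.1 f.2⟩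
  let F' : ContinuousMonoidHom H K := ⟨g.1, coprod_fin_aux1 g.1 g.2⟩
  obtain ⟨φ, ⟨h1, h2⟩, h3⟩ := hU K F F'
  refine ⟨⟨φ.toMonoidHom, coprod_fin_aux2 φ.toMonoidHom φ.continuous_toFun⟩, ⟨fun x => h1 x,
    fun y => h2 y⟩, ?_⟩
  rintro ⟨ψ, hψ⟩ ⟨k1, k2⟩
  have h4 := h3 ⟨ψ, coprod_fin_aux1 ψ hψ⟩ ⟨fun x => k1 x, fun y => k2 y⟩
  apply Subtype.ext
  have h5 := congrArg ContinuousMonoidHom.toMonoidHom h4
  exact h5

end Pool.Agent.Helper127.FF.J1_coprod
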