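import Mathlib
import Pool.Agent.Helper127.FF.Defs

set_option autoImplicit false

namespace Pool.Agent.Helper127.FF.J2_free


theorem free_fin
    (P : Type) [Group P] [TopologicalSpace P] [IsTopologicalGroup P] [CompactSpace P]
    [T2Space P] [TotallyDisconnectedSpace P] (n : ℕ) (ι : Fin n → P)
    (hF : ∀ (K : Type) [Group K] [TopologicalSpace K] [IsTopologicalGroup K] [CompactSpace K]
          [T2Space K] [TotallyDisconnectedSpace K] (f : Fin n → K),
          ∃! φ : ContinuousMonoidHom P K, ∀ i, φ (ι i) = f i)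
    (K : Type) [Group K] [Finite K] (f : Fin n → K) :
    ∃! φ : CH P K, ∀ i, φ.1 (ι i) = f i := by
  classical
  letI : TopologicalSpace K := ⊥
  haveI : DiscreteTopology K := ⟨rfl⟩
  obtain ⟨φ, hφ, huniq⟩ := hF K f
  have hopen : IsOpen ((φ.toMonoidHom).ker : Set P) := by
    have h1 : ((φ.toMonoidHom).ker : Set P) = φ ⁻¹' {1} := by
      ext x
      exact MonoidHom.mem_ker
    rw [h1]
    exact (isOpen_discrete _).preimage φ.continuous_toFun
  refine ⟨⟨φ.toMonoidHom, hopen⟩, hφ, ?_⟩
  intro ψ hψ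
  have hc : Continuous ψ.1 := by
    apply continuous_of_continuousAt_one
    show Filter.Tendsto _ _ _
    rw [map_one, nhds_discrete K, Filter.tendsto_pure]
    have h2 := ψ.2.mem_nhds (show (1:P) ∈ (ψ.1.ker : Set P) from one_mem _)
    exact Filter.mem_of_superset h2 (fun x hx => MonoidHom.mem_ker.1 hx)
  have h3 := huniq ⟨ψ.1, hc⟩ hψ
  apply Subtype.ext
  show ψ.1 = φ.toMonoidHom
  rw [← h3]

end Pool.Agent.Helper127.FF.J2_free
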