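import Mathlib
import Pool.Agent.Helper127.FF.Defs

set_option autoImplicit false

namespace Pool.Agent.Helper127.FF.J3_counts


/-- pull back along a continuous homomorphism -/
def J3_pull {G P K : Type} [Group G] [TopologicalSpace G] [Group P] [TopologicalSpace P]
    [Group K] (i : G →* P) (hi : Continuous i) (φ : CH P K) : CH G K :=
  ⟨φ.1.comp i, φ.2.preimage hi⟩

/-- the trivial homomorphism -/
def J3_triv (G K : Type) [Group G] [TopologicalSpace G] [Group K] : CH G K :=
  ⟨1, by
    rw [MonoidHom.ker_one]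
    exact isOpen_univ⟩

theorem J3_lift_triv {G A B : Type} [Group G] [TopologicalSpace G] [Group A] [Group B]
    (π : A →* B) : Nat.card (Lift π (J3_triv G B)) = Nat.card (CH G π.ker) := by
  apply Nat.card_congr
  have hval : ∀ ψ : Lift π (J3_triv G B), ∀ g, ψ.1.1 g ∈ π.ker := by
    intro ψ g
    rw [MonoidHom.mem_ker]
    exact DFunLike.congr_fun ψ.2 g
  refine
    { toFun := fun ψ => ⟨ψ.1.1.codRestrict π.ker (hval ψ), ?_⟩
      invFun := fun φ => ⟨⟨π.ker.subtype.comp φ.1, ?_⟩, ?_⟩
      left_inv := fun ψ => by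
        apply Subtype.ext
        apply Subtype.ext
        ext g
        rfl
      right_inv := fun φ => by
        apply Subtype.ext
        ext g
        rfl }
  · have h : ((ψ.1.1.codRestrict π.ker (hval ψ)).ker : Set G) = (ψ.1.1.ker : Set G) := by
      ext g
      simp only [SetLike.mem_coe, MonoidHom.mem_ker]
      rw [Subtype.ext_iff]
      rfl
    rw [h]
    exact ψ.1.2
  · have h : ((π.ker.subtype.comp φ.1).ker : Set G) = (φ.1.ker : Set G) := by
      ext g
      simp only [SetLike.mem_coe, MonoidHom.mem_ker]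
      rw [Subtype.ext_iff]
      rfl
    rw [h]
    exact φ.2
  · ext g
    exact (φ.1 g).2

section
variable {P : Type} [Group P] [TopologicalSpace P] {n : ℕ} (ι : Fin n → P)
    (hf : ∀ (K : Type) [Group K] [Finite K] (f : Fin n → K),
      ∃! φ : CH P K, ∀ i, φ.1 (ι i) = f i)
include hf

/-- composition with a homomorphism of finite groups keeps the kernel open -/
theorem J3_comp {A B : Type} [Group A] [Finite A] [Group B] [Finite B] (π : A →* B)
    (ψ : CH P A) : IsOpen (((π.comp ψ.1).ker : Subgroup P) : Set P) := by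
  obtain ⟨φ', hφ', _⟩ := hf B (fun i => π (ψ.1 (ι i)))
  let Θ : CH P (A × B) := ⟨ψ.1.prod φ'.1, by
    have h : ((ψ.1.prod φ'.1).ker : Set P) = (ψ.1.ker : Set P) ∩ (φ'.1.ker : Set P) := by
      ext x
      simp [MonoidHom.mem_ker, Prod.ext_iff]
    rw [h]
    exact ψ.2.inter φ'.2⟩
  let Φ : CH P (A × B) := ⟨((MonoidHom.id A).prod π).comp ψ.1, by
    have h : ((((MonoidHom.id A).prod π).comp ψ.1).ker : Set P) = (ψ.1.ker : Set P) := by
      ext x
      simp only [SetLike.mem_coe, MonoidHom.mem_ker]
      constructor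
      · intro hx
        exact congrArg Prod.fst hx
      · intro hx
        change (ψ.1 x, π (ψ.1 x)) = 1
        rw [hx, map_one]
        rfl
    rw [h]
    exact ψ.2⟩
  obtain ⟨χ, _, hu⟩ := hf (A × B) (fun i => (ψ.1 (ι i), π (ψ.1 (ι i))))
  have h1 : Θ = χ := hu Θ (fun i => by
    change (ψ.1 (ι i), φ'.1 (ι i)) = _
    rw [hφ' i])
  have h2 : Φ = χ := hu Φ (fun i => rfl)
  have h3 : Φ.1 = Θ.1 := by rw [h2, h1]
  have h4 : π.comp ψ.1 = φ'.1 := by
    ext x
    exact congrArg Prod.snd (DFunLike.congr_fun h3 x)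
  rw [h4]
  exact φ'.2

theorem J3_card_hom (K : Type) [Group K] [Finite K] :
    Nat.card (CH P K) = Nat.card K ^ n := by
  have hb : Function.Bijective (fun (φ : CH P K) (i : Fin n) => φ.1 (ι i)) := by
    constructor
    · intro φ φ' h
      obtain ⟨χ, _, hu⟩ := hf K (fun i => φ.1 (ι i))
      rw [hu φ (fun i => rfl), hu φ' (fun i => (congrFun h i).symm)]
    · intro f
      obtain ⟨χ, hχ, _⟩ := hf K f
      exact ⟨χ, funext hχ⟩
  rw [Nat.card_congr (Equiv.ofBijective _ hb), Nat.card_fun, Nat.card_fin]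

theorem J3_card_lift {A B : Type} [Group A] [Finite A] [Group B] [Finite B] (π : A →* B)
    (hπ : Function.Surjective π) (φ : CH P B) :
    Nat.card (Lift π φ) = Nat.card π.ker ^ n := by
  let F : Lift π φ → {x : Fin n → A // ∀ i, π (x i) = φ.1 (ι i)} := fun ψ =>
    ⟨fun i => ψ.1.1 (ι i), fun i => DFunLike.congr_fun ψ.2 (ι i)⟩
  have hb : Function.Bijective F := by
    constructor
    · intro ψ ψ' h
      obtain ⟨χ, _, hu⟩ := hf A (fun i => ψ.1.1 (ι i))
      have h' : ∀ i, ψ'.1.1 (ι i) = ψ.1.1 (ι i) := fun i =>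
        (congrFun (congrArg Subtype.val h) i).symm
      apply Subtype.ext
      rw [hu ψ.1 (fun i => rfl), hu ψ'.1 h']
    · rintro ⟨x, hx⟩
      obtain ⟨χ, hχ, _⟩ := hf A x
      have hχ' : ∀ i, χ.1 (ι i) = x i := hχ
      have h1 : (⟨π.comp χ.1, J3_comp ι hf π χ⟩ : CH P B) = φ := by
        obtain ⟨ρ, _, hu⟩ := hf B (fun i => φ.1 (ι i))
        rw [hu φ (fun i => rfl)]
        apply hu
        intro i
        change π (χ.1 (ι i)) = _
        rw [hχ' i, hx i]
      refine ⟨⟨χ, congrArg Subtype.val h1⟩, ?_⟩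
      apply Subtype.ext
      funext i
      exact hχ' i
  rw [Nat.card_congr (Equiv.ofBijective F hb),
    Nat.card_congr (Equiv.subtypePiEquivPi (p := fun i a => π a = φ.1 (ι i))), Nat.card_pi]
  have : ∀ i ∈ (Finset.univ : Finset (Fin n)), Nat.card {b : A // π b = φ.1 (ι i)} =
      Nat.card π.ker := by
    intro i _
    exact Nat.card_congr (MonoidHom.fiberEquivKerOfSurjective hπ (φ.1 (ι i)))
  rw [Finset.prod_congr rfl this, Finset.prod_const, Finset.card_univ, Fintype.card_fin]

end

theorem counts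
    (G H P : Type) [Group G] [TopologicalSpace G] [Group H] [TopologicalSpace H]
    [Group P] [TopologicalSpace P] (n : ℕ)
    (iG : G →* P) (iH : H →* P) (hiG : Continuous iG) (hiH : Continuous iH)
    (hc : ∀ (K : Type) [Group K] [Finite K] (f : CH G K) (g : CH H K),
      ∃! φ : CH P K, (∀ x, φ.1 (iG x) = f.1 x) ∧ (∀ y, φ.1 (iH y) = g.1 y))
    (ι : Fin n → P)
    (hf : ∀ (K : Type) [Group K] [Finite K] (f : Fin n → K),
      ∃! φ : CH P K, ∀ i, φ.1 (ι i) = f i) :
    (∀ (K : Type) [Group K] [Finite K],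
      Nat.card (CH G K) * Nat.card (CH H K) = Nat.card K ^ n) ∧ Unif G ∧ Unif H := by
  have hE : ∀ (K : Type) [Group K] [Finite K], Function.Bijective
      (fun φ : CH P K => (J3_pull iG hiG φ, J3_pull iH hiH φ)) := by
    intro K _ _
    constructor
    · intro φ φ' h
      obtain ⟨χ, _, hu⟩ := hc K (J3_pull iG hiG φ) (J3_pull iH hiH φ)
      have e1 : φ = χ := hu φ ⟨fun x => rfl, fun y => rfl⟩
      have e2 : φ' = χ := hu φ' ⟨fun x => by
          have := congrArg Prod.fst h
          exact (DFunLike.congr_fun (congrArg Subtype.val this) x).symm, fun y => by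
          have := congrArg Prod.snd h
          exact (DFunLike.congr_fun (congrArg Subtype.val this) y).symm⟩
      rw [e1, e2]
    · rintro ⟨f, g⟩
      obtain ⟨χ, hχ, _⟩ := hc K f g
      refine ⟨χ, ?_⟩
      apply Prod.ext
      · apply Subtype.ext
        ext x
        exact hχ.1 x
      · apply Subtype.ext
        ext y
        exact hχ.2 y
  have hprod : ∀ (A B : Type) [Group A] [Finite A] [Group B] [Finite B] (π : A →* B),
      Function.Surjective π → ∀ (f : CH G B) (g : CH H B),
      Nat.card (Lift π f) * Nat.card (Lift π g) = Nat.card π.ker ^ n := by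
    intro A B _ _ _ _ π hπ f g
    obtain ⟨φ, hφ, hφu⟩ := hc B f g
    have hφ1 : φ.1.comp iG = f.1 := by
      ext x
      exact hφ.1 x
    have hφ2 : φ.1.comp iH = g.1 := by
      ext y
      exact hφ.2 y
    rw [← J3_card_lift ι hf π hπ φ, ← Nat.card_prod]
    symm
    apply Nat.card_congr
    let F : Lift π φ → Lift π f × Lift π g := fun ψ =>
      (⟨J3_pull iG hiG ψ.1, by
        change π.comp (ψ.1.1.comp iG) = f.1
        rw [← MonoidHom.comp_assoc, ψ.2, hφ1]⟩,
       ⟨J3_pull iH hiH ψ.1, by
        change π.comp (ψ.1.1.comp iH) = g.1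
        rw [← MonoidHom.comp_assoc, ψ.2, hφ2]⟩)
    have hF : Function.Bijective F := by
      constructor
      · intro ψ ψ' h
        apply Subtype.ext
        apply (hE A).1
        apply Prod.ext
        · exact congrArg Subtype.val (congrArg Prod.fst h)
        · exact congrArg Subtype.val (congrArg Prod.snd h)
      · rintro ⟨⟨ψ1, h1⟩, ⟨ψ2, h2⟩⟩
        obtain ⟨χ, hχ, _⟩ := hc A ψ1 ψ2
        have hcomp : (⟨π.comp χ.1, J3_comp ι hf π χ⟩ : CH P B) = φ := by
          apply hφu
          constructor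
          · intro x
            change π (χ.1 (iG x)) = _
            rw [hχ.1 x]
            exact DFunLike.congr_fun h1 x
          · intro y
            change π (χ.1 (iH y)) = _
            rw [hχ.2 y]
            exact DFunLike.congr_fun h2 y
        refine ⟨⟨χ, congrArg Subtype.val hcomp⟩, ?_⟩
        apply Prod.ext
        · apply Subtype.ext
          apply Subtype.ext
          ext x
          exact hχ.1 x
        · apply Subtype.ext
          apply Subtype.ext
          ext y
          exact hχ.2 y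
    exact Equiv.ofBijective F hF
  refine ⟨?_, ?_, ?_⟩
  · intro K _ _
    rw [← Nat.card_prod, ← Nat.card_congr (Equiv.ofBijective _ (hE K)), J3_card_hom ι hf K]
  · intro A B _ _ _ _ π hπ φ
    have h1 := hprod A B π hπ φ (J3_triv H B)
    have h2 := hprod A B π hπ (J3_triv G B) (J3_triv H B)
    have hpos : 0 < Nat.card π.ker ^ n := pow_pos Nat.card_pos n
    have h3 : Nat.card (Lift π (J3_triv H B)) ≠ 0 := by
      intro h0
      rw [h0, mul_zero] at h1
      omega
    rw [← J3_lift_triv]
    rw [← h2] at h1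
    exact Nat.eq_of_mul_eq_mul_right (Nat.pos_of_ne_zero h3) h1
  · intro A B _ _ _ _ π hπ φ
    have h1 := hprod A B π hπ (J3_triv G B) φ
    have h2 := hprod A B π hπ (J3_triv G B) (J3_triv H B)
    have hpos : 0 < Nat.card π.ker ^ n := pow_pos Nat.card_pos n
    have h3 : Nat.card (Lift π (J3_triv G B)) ≠ 0 := by
      intro h0
      rw [h0, zero_mul] at h1
      omega
    rw [← J3_lift_triv]
    rw [← h2] at h1
    exact Nat.eq_of_mul_eq_mul_left (Nat.pos_of_ne_zero h3) h1

end Pool.Agent.Helper127.FF.J3_counts
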