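import Mathlib
import Pool.Agent.Helper127.FF.Defs

set_option autoImplicit false

namespace Pool.Agent.Helper127.FF.J4_M1


/-- translation action on functions -/
def trAct (B C : Type) [Group B] [Group C] : B →* MulAut (B → C) where
  toFun b :=
    { toFun := fun f c => f (c * b)
      invFun := fun f c => f (c * b⁻¹)
      left_inv := fun f => by funext c; simp [mul_assoc]
      right_inv := fun f => by funext c; simp [mul_assoc]
      map_mul' := fun f g => rfl }
  map_one' := by ext f c; simp
  map_mul' b1 b2 := by ext f c; simp [mul_assoc]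

theorem hom_trivial_of_not_surj {G : Type} [Group G] {p : ℕ} (hp : p.Prime)
    (φ : G →* Multiplicative (ZMod p)) (h : ¬ Function.Surjective φ) (g : G) : φ g = 1 := by
  have : Fact p.Prime := ⟨hp⟩
  by_contra hg
  apply h
  rw [← MonoidHom.range_eq_top]
  have hcard : Nat.card (Multiplicative (ZMod p)) = p := by
    rw [Nat.card_congr Multiplicative.toAdd, Nat.card_zmod]
  have : Fact (Nat.card (Multiplicative (ZMod p))).Prime := ⟨by rw [hcard]; exact hp⟩
  rcases Subgroup.eq_bot_or_eq_top_of_prime_card φ.range with h1 | h1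
  · exfalso
    apply hg
    have h2 : φ g ∈ φ.range := ⟨g, rfl⟩
    rw [h1] at h2
    exact Subgroup.mem_bot.1 h2
  · exact h1

theorem exists_surj_prime
    (G : Type) [Group G] [TopologicalSpace G] [IsTopologicalGroup G] [CompactSpace G]
    [T2Space G] [TotallyDisconnectedSpace G] (hU : Unif G)
    (h0 : ∀ (K : Type) [Group K] [Finite K], Nat.card (CH G K) ≠ 0)
    (hnt : ∃ x : G, x ≠ 1) (p : ℕ) (hp : p.Prime) :
    ∃ φ : CH G (Multiplicative (ZMod p)), Function.Surjective φ.1 := by
  classical
  have : Fact p.Prime := ⟨hp⟩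
  by_contra hcon
  have htriv : ∀ φ : CH G (Multiplicative (ZMod p)), ∀ g, φ.1 g = 1 := by
    intro φ g
    exact hom_trivial_of_not_surj hp φ.1 (fun h => hcon ⟨φ, h⟩) g
  obtain ⟨x, hx⟩ := hnt
  obtain ⟨H, hH⟩ := ProfiniteGrp.exist_openNormalSubgroup_sub_open_nhds_of_one
    (G := G) (U := {x}ᶜ) isOpen_compl_singleton (by simpa using hx.symm)
  let K : Subgroup G := H.toSubgroup
  have hKn : K.Normal := H.isNormal'
  have hKo : IsOpen (K : Set G) := H.isOpen'
  have hxK : x ∉ K := fun h => hH h rfl
  have : Finite (G ⧸ K) := Subgroup.quotient_finite_of_isOpen K hKo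
  let C := Multiplicative (ZMod p)
  have : NeZero p := ⟨hp.ne_zero⟩
  let act := trAct (G ⧸ K) C
  have hfA : Finite ((G ⧸ K → C) ⋊[act] (G ⧸ K)) :=
    Finite.of_equiv _ (SemidirectProduct.equivProd (N := (G ⧸ K → C)) (G := G ⧸ K) (φ := act)).symm
  let π : (G ⧸ K → C) ⋊[act] (G ⧸ K) →* G ⧸ K := SemidirectProduct.rightHom
  have hφo : IsOpen ((QuotientGroup.mk' K).ker : Set G) := by
    rw [QuotientGroup.ker_mk']
    exact hKo
  let φ : CH G (G ⧸ K) := ⟨QuotientGroup.mk' K, hφo⟩
  have hcard := hU _ _ π SemidirectProduct.rightHom_surjective φ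
  -- all homomorphisms to the kernel are trivial
  have hker : ∀ ψ : CH G π.ker, ∀ g, ψ.1 g = 1 := by
    intro ψ g
    let ev : G ⧸ K → (π.ker →* C) := fun c =>
      { toFun := fun k => k.1.left c
        map_one' := rfl
        map_mul' := by
          intro k1 k2
          have h1 : k1.1.right = 1 := k1.2
          show (k1.1.left * act k1.1.right k2.1.left) c = _
          rw [h1, map_one]
          rfl }
    have h2 : ∀ c, (ψ.1 g).1.left c = 1 := by
      intro c
      have ho : IsOpen (((ev c).comp ψ.1).ker : Set G) := by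
        apply Subgroup.isOpen_mono (H₁ := ψ.1.ker) _ ψ.2
        intro y hy
        rw [MonoidHom.mem_ker] at hy ⊢
        rw [MonoidHom.comp_apply, hy, map_one]
      exact htriv ⟨(ev c).comp ψ.1, ho⟩ g
    have h3 : (ψ.1 g).1.right = 1 := (ψ.1 g).2
    apply Subtype.ext
    apply SemidirectProduct.ext
    · funext c
      exact h2 c
    · exact h3
  have hsub : Subsingleton (CH G π.ker) :=
    ⟨fun a b => Subtype.ext (MonoidHom.ext fun g => by rw [hker a g, hker b g])⟩
  have hle : Nat.card (Lift π φ) ≤ 1 := by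
    rw [hcard]
    exact Finite.card_le_one_iff_subsingleton.2 hsub
  -- lifts
  have hlift : ∀ v : G ⧸ K → C, IsOpen ((((MulAut.conj (SemidirectProduct.inl v :
      (G ⧸ K → C) ⋊[act] (G ⧸ K))).toMonoidHom.comp
        (SemidirectProduct.inr.comp φ.1)).ker : Subgroup G) : Set G) := by
    intro v
    apply Subgroup.isOpen_mono (H₁ := φ.1.ker) _ φ.2
    intro y hy
    rw [MonoidHom.mem_ker] at hy ⊢
    rw [MonoidHom.comp_apply, MonoidHom.comp_apply, hy, map_one, map_one]
  let lv : (G ⧸ K → C) → Lift π φ := fun v =>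
    ⟨⟨_, hlift v⟩, by
      apply MonoidHom.ext
      intro g
      show (MulAut.conj (SemidirectProduct.inl v : (G ⧸ K → C) ⋊[act] (G ⧸ K))
        (SemidirectProduct.inr (φ.1 g))).right = φ.1 g
      rw [MulAut.conj_apply]
      simp⟩
  have hfinL : Finite (Lift π φ) := by
    apply Nat.finite_of_card_ne_zero
    rw [hcard]
    exact h0 _
  have hsL : Subsingleton (Lift π φ) := Finite.card_le_one_iff_subsingleton.1 hle
  let b : G ⧸ K := QuotientGroup.mk' K x
  have hb : b ≠ 1 := by
    intro h
    exact hxK ((QuotientGroup.eq_one_iff x).1 h)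
  let v : G ⧸ K → C := Pi.mulSingle 1 (Multiplicative.ofAdd 1)
  have h4 : lv v = lv 1 := Subsingleton.elim _ _
  have h5 : (lv v).1.1 x = (lv 1).1.1 x := by rw [h4]
  have h6 : MulAut.conj (SemidirectProduct.inl v : (G ⧸ K → C) ⋊[act] (G ⧸ K))
        (SemidirectProduct.inr b) = MulAut.conj (SemidirectProduct.inl 1 :
        (G ⧸ K → C) ⋊[act] (G ⧸ K)) (SemidirectProduct.inr b) := h5
  rw [map_one, map_one, MulAut.one_apply, MulAut.conj_apply, mul_inv_eq_iff_eq_mul] at h6
  have h7 := congrArg SemidirectProduct.left h6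
  rw [SemidirectProduct.mul_left, SemidirectProduct.mul_left, SemidirectProduct.left_inl,
    SemidirectProduct.left_inr, SemidirectProduct.right_inr,
    map_one, mul_one, one_mul] at h7
  have h8 := congrFun h7 1
  have h9 : (act b) v 1 = v (1 * b) := rfl
  rw [h9, one_mul] at h8
  have h10 : v 1 = Multiplicative.ofAdd 1 := Pi.mulSingle_eq_same _ _
  have h11 : v b = 1 := Pi.mulSingle_eq_of_ne hb _
  rw [h10, h11] at h8
  have h12 : (1 : ZMod p) = 0 := h8
  exact one_ne_zero h12

end Pool.Agent.Helper127.FF.J4_M1
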