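import Mathlib
import Pool.Agent.Helper127.FF.Defs

set_option autoImplicit false

namespace Pool.Agent.Helper127.FF.J5_M2


theorem exists_surj
    (G : Type) [Group G] [TopologicalSpace G] [IsTopologicalGroup G] (hU : Unif G)
    (h0 : ∀ (K : Type) [Group K] [Finite K], Nat.card (CH G K) ≠ 0)
    (h1 : ∀ p : ℕ, p.Prime → ∃ φ : CH G (Multiplicative (ZMod p)), Function.Surjective φ.1)
    (M : ℕ) (hM : 0 < M) :
    ∃ φ : CH G (Multiplicative (ZMod M)), Function.Surjective φ.1 := by
  induction M using Nat.recOnPosPrimePosCoprime with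
  | prime_pow p n hp hn =>
    obtain ⟨φ, hφ⟩ := h1 p hp
    have : NeZero p := ⟨hp.ne_zero⟩
    have : NeZero (p ^ n) := ⟨pow_ne_zero _ hp.ne_zero⟩
    have : Finite (Multiplicative (ZMod p)) := inferInstanceAs (Finite (ZMod p))
    have : Finite (Multiplicative (ZMod (p ^ n))) := inferInstanceAs (Finite (ZMod (p ^ n)))
    have hdvd : p ∣ p ^ n := dvd_pow_self p hn.ne'
    let ρ : ZMod (p ^ n) →+* ZMod p := ZMod.castHom hdvd (ZMod p)
    let π : Multiplicative (ZMod (p ^ n)) →* Multiplicative (ZMod p) :=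
      ρ.toAddMonoidHom.toMultiplicative
    have hρ : Function.Surjective ρ := ZMod.ringHom_surjective ρ
    have hπ : Function.Surjective π := by
      intro b
      obtain ⟨a, ha⟩ := hρ (Multiplicative.toAdd b)
      exact ⟨Multiplicative.ofAdd a, ha⟩
    have hcard : Nat.card (Lift π φ) ≠ 0 := by
      rw [hU _ _ π hπ φ]
      exact h0 _
    obtain ⟨⟨ψ, hψ⟩⟩ := (Nat.card_ne_zero.1 hcard).1
    refine ⟨ψ, ?_⟩
    obtain ⟨g, hg⟩ := hφ (Multiplicative.ofAdd (1 : ZMod p))
    set u : ZMod (p ^ n) := Multiplicative.toAdd (ψ.1 g) with hu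
    have hu1 : ρ u = 1 := by
      have h2 : π (ψ.1 g) = φ.1 g := by
        rw [← hψ]
        rfl
      rw [hg] at h2
      exact h2
    have huval : ((u.val : ℕ) : ZMod (p ^ n)) = u := ZMod.natCast_zmod_val u
    have hcop : Nat.Coprime u.val (p ^ n) := by
      apply Nat.Coprime.pow_right
      apply Nat.Coprime.symm
      rw [Nat.Prime.coprime_iff_not_dvd hp]
      intro hd
      have h3 : ((u.val : ℕ) : ZMod p) = 0 := (ZMod.natCast_eq_zero_iff _ _).2 hd
      have h4 : ρ ((u.val : ℕ) : ZMod (p ^ n)) = ((u.val : ℕ) : ZMod p) := map_natCast ρ _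
      rw [huval, hu1, h3] at h4
      have : Fact p.Prime := ⟨hp⟩
      exact one_ne_zero h4
    have hinv := ZMod.coe_mul_inv_eq_one u.val hcop
    rw [huval] at hinv
    intro b
    refine ⟨g ^ ((Multiplicative.toAdd b) * u⁻¹).val, ?_⟩
    rw [map_pow]
    apply Multiplicative.toAdd.injective
    rw [toAdd_pow, ← hu, nsmul_eq_mul, ZMod.natCast_zmod_val, mul_assoc, mul_comm u⁻¹ u, hinv,
      mul_one]
  | zero => omega
  | one =>
    refine ⟨⟨1, ?_⟩, ?_⟩
    · rw [MonoidHom.ker_one]
      exact isOpen_univ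
    · intro b
      refine ⟨1, ?_⟩
      have : Subsingleton (Multiplicative (ZMod 1)) := inferInstanceAs (Subsingleton (ZMod 1))
      exact Subsingleton.elim _ _
  | coprime m n hm hn hmn ihm ihn =>
    obtain ⟨φ, hφ⟩ := ihm (by omega)
    obtain ⟨ψ, hψ⟩ := ihn (by omega)
    have : NeZero m := ⟨by omega⟩
    have : NeZero n := ⟨by omega⟩
    let e : ZMod (m * n) ≃+* ZMod m × ZMod n := ZMod.chineseRemainder hmn
    let θ : G →* Multiplicative (ZMod (m * n)) :=
      { toFun := fun g => Multiplicative.ofAdd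
          (e.symm (Multiplicative.toAdd (φ.1 g), Multiplicative.toAdd (ψ.1 g)))
        map_one' := by
          simp only [map_one, toAdd_one]
          have : e.symm ((0 : ZMod m), (0 : ZMod n)) = 0 := map_zero e.symm
          rw [this, ofAdd_zero]
        map_mul' := by
          intro x y
          simp only [map_mul, toAdd_mul]
          rw [← ofAdd_add]
          congr 1
          rw [← map_add e.symm]
          rfl }
    have hθ : ∀ g, θ g = Multiplicative.ofAdd
          (e.symm (Multiplicative.toAdd (φ.1 g), Multiplicative.toAdd (ψ.1 g))) := fun g => rfl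
    have hker : (θ.ker : Set G) = (φ.1.ker : Set G) ∩ (ψ.1.ker : Set G) := by
      ext g
      simp only [Set.mem_inter_iff, SetLike.mem_coe, MonoidHom.mem_ker, hθ]
      constructor
      · intro h
        have h2 : e.symm (Multiplicative.toAdd (φ.1 g), Multiplicative.toAdd (ψ.1 g)) = 0 := h
        have h3 := (map_eq_zero_iff e.symm e.symm.injective).1 h2
        exact ⟨congrArg Prod.fst h3, congrArg Prod.snd h3⟩
      · rintro ⟨h2, h3⟩
        rw [h2, h3, toAdd_one, toAdd_one]
        have : e.symm ((0 : ZMod m), (0 : ZMod n)) = 0 := map_zero e.symm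
        rw [this, ofAdd_zero]
    refine ⟨⟨θ, ?_⟩, ?_⟩
    · rw [hker]
      exact φ.2.inter ψ.2
    · intro b
      obtain ⟨g, hg⟩ := hφ (Multiplicative.ofAdd (1 : ZMod m))
      obtain ⟨h, hh⟩ := hψ (Multiplicative.ofAdd (1 : ZMod n))
      rcases hxy : e (Multiplicative.toAdd b) with ⟨x, y⟩
      have hn1 := ZMod.coe_mul_inv_eq_one (n := m) n hmn.symm
      have hm1 := ZMod.coe_mul_inv_eq_one (n := n) m hmn
      refine ⟨g ^ (n * (x * ((n : ZMod m))⁻¹).val) * h ^ (m * (y * ((m : ZMod n))⁻¹).val), ?_⟩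
      have e1 : Multiplicative.toAdd (φ.1 (g ^ (n * (x * ((n : ZMod m))⁻¹).val) *
          h ^ (m * (y * ((m : ZMod n))⁻¹).val))) = x := by
        rw [map_mul, map_pow, map_pow, hg, toAdd_mul, toAdd_pow, toAdd_pow, toAdd_ofAdd,
          nsmul_eq_mul, nsmul_eq_mul, Nat.cast_mul, Nat.cast_mul, ZMod.natCast_zmod_val,
          ZMod.natCast_self, zero_mul, zero_mul, add_zero, mul_one]
        calc (n : ZMod m) * (x * (n : ZMod m)⁻¹) = x * ((n : ZMod m) * (n : ZMod m)⁻¹) := by ring
          _ = x := by rw [hn1, mul_one]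
      have e2 : Multiplicative.toAdd (ψ.1 (g ^ (n * (x * ((n : ZMod m))⁻¹).val) *
          h ^ (m * (y * ((m : ZMod n))⁻¹).val))) = y := by
        rw [map_mul, map_pow, map_pow, hh, toAdd_mul, toAdd_pow, toAdd_pow, toAdd_ofAdd,
          nsmul_eq_mul, nsmul_eq_mul, Nat.cast_mul, Nat.cast_mul, ZMod.natCast_zmod_val,
          ZMod.natCast_self, zero_mul, zero_mul, zero_add, mul_one]
        calc (m : ZMod n) * (y * (m : ZMod n)⁻¹) = y * ((m : ZMod n) * (m : ZMod n)⁻¹) := by ring
          _ = y := by rw [hm1, mul_one]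
      change θ _ = b
      rw [hθ, e1, e2, ← hxy, RingEquiv.symm_apply_apply]
      rfl

end Pool.Agent.Helper127.FF.J5_M2
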