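import Mathlib
import Pool.Agent.Helper127.FF.Defs

set_option autoImplicit false

namespace Pool.Agent.Helper127.FF.R1


theorem goc_E1 {G K : Type} [Group G] [TopologicalSpace G] [Group K] (T : Subgroup K) :
    Nat.card {φ : CH G K // φ.1.range = T} = Nat.card {ψ : CH G T // ψ.1.range = ⊤} := by
  refine Nat.card_congr ⟨fun φ => ⟨⟨φ.1.1.codRestrict T (fun x => φ.2.le ⟨x, rfl⟩), ?_⟩, ?_⟩,
    fun ψ => ⟨⟨T.subtype.comp ψ.1.1, ?_⟩, ?_⟩, ?_, ?_⟩
  · have h := φ.1.2
    rw [MonoidHom.ker_codRestrict]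
    exact h
  · rw [MonoidHom.range_eq_top]
    rintro ⟨y, hy⟩
    obtain ⟨x, hx⟩ := φ.2.ge hy
    exact ⟨x, Subtype.ext hx⟩
  · have h := ψ.1.2
    have e : (T.subtype.comp ψ.1.1).ker = ψ.1.1.ker := by
      ext x; simp [MonoidHom.mem_ker]
    rw [e]; exact h
  · have h := MonoidHom.range_eq_top.mp ψ.2
    ext y
    constructor
    · rintro ⟨x, hx⟩
      rw [← hx]; exact (ψ.1.1 x).2
    · intro hy
      obtain ⟨x, hx⟩ := h ⟨y, hy⟩
      exact ⟨x, by simp [hx]⟩
  · intro φ
    apply Subtype.ext
    apply Subtype.ext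
    ext x
    rfl
  · intro ψ
    apply Subtype.ext
    apply Subtype.ext
    ext x
    rfl

theorem goc_E2 {K : Type} [Group K] (m : ℕ) (T : Subgroup K) :
    Nat.card {f : Fin m → K // Subgroup.closure (Set.range f) = T} =
      Nat.card {g : Fin m → T // Subgroup.closure (Set.range g) = ⊤} := by
  have key : ∀ g : Fin m → T, Subgroup.closure (Set.range fun i => (g i : K)) =
      (Subgroup.closure (Set.range g)).map T.subtype := by
    intro g
    rw [MonoidHom.map_closure]
    congr 1
    ext x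
    simp [Set.mem_image, Set.mem_range]
  refine Nat.card_congr ⟨fun f => ⟨fun i => ⟨f.1 i, f.2.le (Subgroup.subset_closure ⟨i, rfl⟩)⟩, ?_⟩,
    fun g => ⟨fun i => (g.1 i : K), ?_⟩, ?_, ?_⟩
  · apply Subgroup.map_injective T.subtype_injective
    rw [← key]
    rw [← MonoidHom.range_eq_map, Subgroup.range_subtype]
    exact f.2
  · rw [key, g.2, ← MonoidHom.range_eq_map, Subgroup.range_subtype]
  · intro f
    apply Subtype.ext
    rfl
  · intro g
    apply Subtype.ext
    rfl

theorem goc_main (G : Type) [Group G] [TopologicalSpace G] (m : ℕ)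
    (h : ∀ (K : Type) [Group K] [Finite K], Nat.card (CH G K) = Nat.card K ^ m) (n : ℕ) :
    ∀ (K : Type) [Group K] [Finite K], Nat.card K = n →
      Nat.card {φ : CH G K // φ.1.range = ⊤} =
        Nat.card {f : Fin m → K // Subgroup.closure (Set.range f) = ⊤} := by
  classical
  induction n using Nat.strong_induction_on with
  | _ n ih =>
    intro K _ _ hK
    have hfin : Finite (CH G K) := by
      apply Nat.finite_of_card_ne_zero
      rw [h K]
      exact pow_ne_zero _ (Nat.card_pos).ne'
    letI : Fintype (Subgroup K) := Fintype.ofFinite _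
    have h1 : ∑ T : Subgroup K, Nat.card {φ : CH G K // φ.1.range = T} = Nat.card K ^ m := by
      rw [← Nat.card_sigma, ← h K]
      exact Nat.card_congr (Equiv.sigmaFiberEquiv fun φ : CH G K => φ.1.range)
    have h2 : ∑ T : Subgroup K, Nat.card {f : Fin m → K // Subgroup.closure (Set.range f) = T}
        = Nat.card K ^ m := by
      rw [← Nat.card_sigma]
      have : Nat.card K ^ m = Nat.card (Fin m → K) := by
        rw [Nat.card_fun]; simp
      rw [this]
      exact Nat.card_congr (Equiv.sigmaFiberEquiv fun f : Fin m → K => Subgroup.closure (Set.range f))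
    have h3 : ∀ T : Subgroup K, T ≠ ⊤ → Nat.card {φ : CH G K // φ.1.range = T} =
        Nat.card {f : Fin m → K // Subgroup.closure (Set.range f) = T} := by
      intro T hT
      rw [goc_E1, goc_E2]
      refine ih (Nat.card T) ?_ T rfl
      rw [← hK]
      refine lt_of_le_of_ne (Subgroup.card_le_card_group T) fun hc => hT ?_
      exact Subgroup.eq_top_of_card_eq T hc
    rw [← Finset.add_sum_erase _ _ (Finset.mem_univ (⊤ : Subgroup K))] at h1 h2
    have h4 : ∑ T ∈ Finset.univ.erase (⊤ : Subgroup K), Nat.card {φ : CH G K // φ.1.range = T} =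
        ∑ T ∈ Finset.univ.erase (⊤ : Subgroup K),
          Nat.card {f : Fin m → K // Subgroup.closure (Set.range f) = T} :=
      Finset.sum_congr rfl fun T hT => h3 T (Finset.ne_of_mem_erase hT)
    rw [h4] at h1
    omega

theorem gen_of_count
    (G : Type) [Group G] [TopologicalSpace G] (m : ℕ)
    (h : ∀ (K : Type) [Group K] [Finite K], Nat.card (CH G K) = Nat.card K ^ m)
    (Q : Type) [Group Q] [Finite Q] (φ : CH G Q) (hφ : Function.Surjective φ.1) :
    ∃ g : Fin m → Q, Subgroup.closure (Set.range g) = ⊤ := by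
  have hfin : Finite (CH G Q) := by
    apply Nat.finite_of_card_ne_zero
    rw [h Q]
    exact pow_ne_zero _ (Nat.card_pos).ne'
  have h1 := goc_main G m h _ Q rfl
  have h2 : 0 < Nat.card {φ : CH G Q // φ.1.range = ⊤} := by
    haveI : Nonempty {φ : CH G Q // φ.1.range = ⊤} := ⟨⟨φ, MonoidHom.range_eq_top.mpr hφ⟩⟩
    exact Nat.card_pos
  rw [h1] at h2
  obtain ⟨⟨g, hg⟩⟩ := (Nat.card_pos_iff.mp h2).1
  exact ⟨g, hg⟩

end Pool.Agent.Helper127.FF.R1
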