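import Mathlib
import Pool.Agent.Helper127.FF.Defs

set_option autoImplicit false

namespace Pool.Agent.Helper127.FF.R2


theorem exists_gens
    (G : Type) [Group G] [TopologicalSpace G] [IsTopologicalGroup G] [CompactSpace G]
    [T2Space G] [TotallyDisconnectedSpace G] (m : ℕ)
    (h : ∀ (Q : Type) [Group Q] [Finite Q] (φ : CH G Q), Function.Surjective φ.1 →
      ∃ g : Fin m → Q, Subgroup.closure (Set.range g) = ⊤) :
    ∃ ι : Fin m → G, ∀ (K : Type) [Group K] [Finite K] (φ : CH G K),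
      φ.1.range ≤ Subgroup.closure (Set.range (fun i => φ.1 (ι i))) := by
  classical
  set ι := {N : Subgroup G // N.Normal ∧ IsOpen (N : Set G)} with hι
  have hne : Nonempty ι := ⟨⟨⊤, inferInstance, by simp⟩⟩
  set t : ι → Set (Fin m → G) := fun N => {x | N.1 ⊔ Subgroup.closure (Set.range x) = ⊤} with ht
  have htd : Directed (· ⊇ ·) t := by
    rintro ⟨N1, h1n, h1⟩ ⟨N2, h2n, h2⟩
    refine ⟨⟨N1 ⊓ N2, inferInstance, ?_⟩, ?_, ?_⟩
    · rw [Subgroup.coe_inf]; exact h1.inter h2
    · intro x hx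
      have hx' : N1 ⊓ N2 ⊔ Subgroup.closure (Set.range x) = ⊤ := hx
      show N1 ⊔ Subgroup.closure (Set.range x) = ⊤
      rw [eq_top_iff, ← hx']
      exact sup_le_sup_right inf_le_left _
    · intro x hx
      have hx' : N1 ⊓ N2 ⊔ Subgroup.closure (Set.range x) = ⊤ := hx
      show N2 ⊔ Subgroup.closure (Set.range x) = ⊤
      rw [eq_top_iff, ← hx']
      exact sup_le_sup_right inf_le_right _
  have hmove : ∀ (N : Subgroup G) (x y : Fin m → G), (∀ i, (y i)⁻¹ * x i ∈ N) →
      N ⊔ Subgroup.closure (Set.range x) ≤ N ⊔ Subgroup.closure (Set.range y) := by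
    intro N x y hxy
    refine sup_le le_sup_left ?_
    rw [Subgroup.closure_le]
    rintro _ ⟨i, rfl⟩
    have h1 : y i ∈ N ⊔ Subgroup.closure (Set.range y) :=
      (le_sup_right : Subgroup.closure (Set.range y) ≤ _) (Subgroup.subset_closure ⟨i, rfl⟩)
    have h2 : (y i)⁻¹ * x i ∈ N ⊔ Subgroup.closure (Set.range y) :=
      (le_sup_left : N ≤ _) (hxy i)
    have h3 := mul_mem h1 h2
    rwa [mul_inv_cancel_left] at h3
  have htcl : ∀ N, IsClosed (t N) := by
    rintro ⟨N, hNn, hN⟩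
    rw [← isOpen_compl_iff, isOpen_iff_mem_nhds]
    intro x hx
    have hopen : IsOpen {y : Fin m → G | ∀ i, (x i)⁻¹ * y i ∈ (N : Set G)} := by
      have : {y : Fin m → G | ∀ i, (x i)⁻¹ * y i ∈ (N : Set G)} =
          ⋂ i, (fun y : Fin m → G => (x i)⁻¹ * y i) ⁻¹' (N : Set G) := by
        ext y; simp
      rw [this]
      exact isOpen_iInter_of_finite fun i => hN.preimage (by fun_prop)
    refine Filter.mem_of_superset (hopen.mem_nhds (by intro i; simp [one_mem])) ?_
    intro y hy hyt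
    apply hx
    have hyt' : N ⊔ Subgroup.closure (Set.range y) = ⊤ := hyt
    show N ⊔ Subgroup.closure (Set.range x) = ⊤
    rw [eq_top_iff, ← hyt']
    exact hmove N y x hy
  have htn : ∀ N, (t N).Nonempty := by
    rintro ⟨N, hNn, hN⟩
    haveI : Finite (G ⧸ N) := Subgroup.quotient_finite_of_isOpen N hN
    have hker : IsOpen ((QuotientGroup.mk' N).ker : Set G) := by
      rw [QuotientGroup.ker_mk']; exact hN
    obtain ⟨g, hg⟩ := h (G ⧸ N) ⟨QuotientGroup.mk' N, hker⟩ (QuotientGroup.mk'_surjective N)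
    choose x hx using fun i => QuotientGroup.mk'_surjective N (g i)
    refine ⟨x, ?_⟩
    show N ⊔ Subgroup.closure (Set.range x) = ⊤
    rw [eq_top_iff]
    intro a _
    have h1 : QuotientGroup.mk' N a ∈ Subgroup.map (QuotientGroup.mk' N)
        (Subgroup.closure (Set.range x)) := by
      rw [MonoidHom.map_closure, ← Set.range_comp]
      have h2 : (⇑(QuotientGroup.mk' N) ∘ x) = g := funext hx
      rw [h2, hg]
      exact Subgroup.mem_top _
    obtain ⟨b, hb, hba⟩ := Subgroup.mem_map.1 h1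
    have h3 : b⁻¹ * a ∈ N := QuotientGroup.eq.1 hba
    have h4 : b ∈ N ⊔ Subgroup.closure (Set.range x) :=
      (le_sup_right : Subgroup.closure (Set.range x) ≤ _) hb
    have h5 : b⁻¹ * a ∈ N ⊔ Subgroup.closure (Set.range x) :=
      (le_sup_left : N ≤ _) h3
    have h6 := mul_mem h4 h5
    rwa [mul_inv_cancel_left] at h6
  obtain ⟨x, hx⟩ := IsCompact.nonempty_iInter_of_directed_nonempty_isCompact_isClosed t htd htn
    (fun N => (htcl N).isCompact) htcl
  refine ⟨x, ?_⟩
  intro K _ _ φ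
  have h1 := Set.mem_iInter.1 hx ⟨φ.1.ker, inferInstance, φ.2⟩
  have h2 : φ.1.ker ⊔ Subgroup.closure (Set.range x) = ⊤ := h1
  have h3 : φ.1.ker ⊔ Subgroup.closure (Set.range x) ≤
      Subgroup.comap φ.1 (Subgroup.closure (Set.range (fun i => φ.1 (x i)))) := by
    refine sup_le ?_ ?_
    · intro a ha
      rw [Subgroup.mem_comap, MonoidHom.mem_ker.1 ha]
      exact one_mem _
    · rw [Subgroup.closure_le]
      rintro _ ⟨i, rfl⟩
      exact Subgroup.subset_closure ⟨i, rfl⟩
  rintro _ ⟨a, rfl⟩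
  have h4 : a ∈ φ.1.ker ⊔ Subgroup.closure (Set.range x) := by rw [h2]; exact Subgroup.mem_top _
  exact h3 h4

end Pool.Agent.Helper127.FF.R2
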