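import Mathlib
import Pool.Agent.Helper127.FF.Defs

set_option autoImplicit false

namespace Pool.Agent.Helper127.FF.R4


theorem free_of_fin_sep {K : Type} [Group K] [TopologicalSpace K] [IsTopologicalGroup K]
    [CompactSpace K] [T2Space K] [TotallyDisconnectedSpace K] (y z : K)
    (h : ∀ U : OpenNormalSubgroup K, (y : K ⧸ U.toSubgroup) = (z : K ⧸ U.toSubgroup)) : y = z := by
  by_contra hne
  have hw : (1 : K) ∈ ({y⁻¹ * z} : Set K)ᶜ := by
    intro h1
    rw [Set.mem_singleton_iff] at h1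
    exact hne (inv_mul_eq_one.1 h1.symm)
  obtain ⟨H, hH⟩ := ProfiniteGrp.exist_openNormalSubgroup_sub_open_nhds_of_one
    (isOpen_compl_singleton (x := y⁻¹ * z)) hw
  have h2 := QuotientGroup.eq.1 (h H)
  exact hH h2 rfl

theorem free_of_fin
    (G : Type) [Group G] [TopologicalSpace G] [IsTopologicalGroup G] [CompactSpace G]
    [T2Space G] [TotallyDisconnectedSpace G] (m : ℕ) (ι : Fin m → G)
    (h : ∀ (K : Type) [Group K] [Finite K] (f : Fin m → K), ∃! φ : CH G K, ∀ i, φ.1 (ι i) = f i)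
    (K : Type) [Group K] [TopologicalSpace K] [IsTopologicalGroup K] [CompactSpace K]
    [T2Space K] [TotallyDisconnectedSpace K] (f : Fin m → K) :
    ∃! φ : ContinuousMonoidHom G K, ∀ i, φ (ι i) = f i := by
  classical
  have hfin : ∀ U : OpenNormalSubgroup K, Finite (K ⧸ U.toSubgroup) := fun U =>
    Subgroup.quotient_finite_of_isOpen _ U.isOpen'
  have hdisc : ∀ U : OpenNormalSubgroup K, DiscreteTopology (K ⧸ U.toSubgroup) := fun U =>
    QuotientGroup.discreteTopology U.isOpen'
  have hex : ∀ U : OpenNormalSubgroup K, ∃ φ : CH G (K ⧸ U.toSubgroup),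
      (∀ i, φ.1 (ι i) = (f i : K ⧸ U.toSubgroup)) ∧
      ∀ ψ : CH G (K ⧸ U.toSubgroup), (∀ i, ψ.1 (ι i) = (f i : K ⧸ U.toSubgroup)) → ψ = φ := by
    intro U
    haveI := hfin U
    obtain ⟨φ, h1, h2⟩ := h (K ⧸ U.toSubgroup) (fun i => (f i : K ⧸ U.toSubgroup))
    exact ⟨φ, h1, h2⟩
  choose Φ hΦ1 hΦ2 using hex
  have compat : ∀ (U V : OpenNormalSubgroup K), U.toSubgroup ≤ V.toSubgroup → ∀ (x : G) (y : K),
      (y : K ⧸ U.toSubgroup) = (Φ U).1 x → (y : K ⧸ V.toSubgroup) = (Φ V).1 x := by
    intro U V hUV x y hy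
    have hle : U.toSubgroup ≤ V.toSubgroup.comap (MonoidHom.id K) := hUV
    have hker : IsOpen (((QuotientGroup.map U.toSubgroup V.toSubgroup (MonoidHom.id K) hle).comp
        (Φ U).1).ker : Set G) := by
      apply Subgroup.isOpen_mono (H₁ := (Φ U).1.ker) _ (Φ U).2
      intro g hg
      rw [MonoidHom.mem_ker] at hg ⊢
      rw [MonoidHom.comp_apply, hg, map_one]
    have h1 := hΦ2 V ⟨_, hker⟩ (by
      intro i
      change (QuotientGroup.map U.toSubgroup V.toSubgroup (MonoidHom.id K) hle) ((Φ U).1 (ι i)) = _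
      rw [hΦ1 U]
      rfl)
    rw [← h1]
    change _ = (QuotientGroup.map U.toSubgroup V.toSubgroup (MonoidHom.id K) hle) ((Φ U).1 x)
    rw [← hy]
    rfl
  have hne : Nonempty (OpenNormalSubgroup K) := by
    obtain ⟨H, _⟩ := ProfiniteGrp.exist_openNormalSubgroup_sub_open_nhds_of_one
      (isOpen_univ (X := K)) (Set.mem_univ 1)
    exact ⟨H⟩
  have hpt : ∀ x : G, ∃ y : K, ∀ U : OpenNormalSubgroup K,
      (y : K ⧸ U.toSubgroup) = (Φ U).1 x := by
    intro x
    have hcl : ∀ U : OpenNormalSubgroup K,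
        IsClosed {y : K | (y : K ⧸ U.toSubgroup) = (Φ U).1 x} := by
      intro U
      haveI := hdisc U
      have hc : Continuous (fun y : K => (y : K ⧸ U.toSubgroup)) := continuous_quotient_mk'
      exact (isClosed_discrete {(Φ U).1 x}).preimage hc
    have := IsCompact.nonempty_iInter_of_directed_nonempty_isCompact_isClosed
      (fun U : OpenNormalSubgroup K => {y : K | (y : K ⧸ U.toSubgroup) = (Φ U).1 x})
      (by
        intro U V
        refine ⟨U ⊓ V, ?_, ?_⟩
        · intro y hy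
          exact compat (U ⊓ V) U (fun k hk => hk.1) x y hy
        · intro y hy
          exact compat (U ⊓ V) V (fun k hk => hk.2) x y hy)
      (by
        intro U
        obtain ⟨y, hy⟩ := QuotientGroup.mk_surjective ((Φ U).1 x)
        exact ⟨y, hy⟩)
      (fun U => (hcl U).isCompact) hcl
    obtain ⟨y, hy⟩ := this
    rw [Set.mem_iInter] at hy
    exact ⟨y, hy⟩
  choose F hF using hpt
  have hF1 : F 1 = 1 := by
    apply free_of_fin_sep
    intro U
    rw [hF, map_one]
    rfl
  have hFmul : ∀ x y, F (x * y) = F x * F y := by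
    intro x y
    apply free_of_fin_sep
    intro U
    rw [hF, map_mul, ← hF, ← hF]
    rfl
  let F' : G →* K := { toFun := F, map_one' := hF1, map_mul' := hFmul }
  have hcont : Continuous F' := by
    apply continuous_of_continuousAt_one F'
    rw [ContinuousAt, map_one]
    intro W hW
    obtain ⟨W', hW'W, hW'o, hW'1⟩ := mem_nhds_iff.1 hW
    obtain ⟨U, hU⟩ := ProfiniteGrp.exist_openNormalSubgroup_sub_open_nhds_of_one hW'o hW'1
    rw [Filter.mem_map]
    refine Filter.mem_of_superset ((Φ U).2.mem_nhds (one_mem (Φ U).1.ker)) ?_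
    intro x hx
    have hx' : (Φ U).1 x = 1 := hx
    apply hW'W
    apply hU
    have h1 : ((F x : K) : K ⧸ U.toSubgroup) = 1 := by rw [hF, hx']
    exact (QuotientGroup.eq_one_iff _).1 h1
  refine ⟨⟨F', hcont⟩, ?_, ?_⟩
  · intro i
    change F (ι i) = f i
    apply free_of_fin_sep
    intro U
    rw [hF, hΦ1]
  · intro ψ hψ
    apply ContinuousMonoidHom.ext
    intro x
    change ψ x = F x
    apply free_of_fin_sep
    intro U
    rw [hF]
    have hker : IsOpen (((QuotientGroup.mk' U.toSubgroup).comp ψ.toMonoidHom).ker : Set G) := by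
      have e : (((QuotientGroup.mk' U.toSubgroup).comp ψ.toMonoidHom).ker : Set G) =
          ψ ⁻¹' (U.toSubgroup : Set K) := by
        ext g
        rw [SetLike.mem_coe, MonoidHom.mem_ker]
        exact QuotientGroup.eq_one_iff _
      rw [e]
      exact U.isOpen'.preimage ψ.continuous_toFun
    have h1 := hΦ2 U ⟨_, hker⟩ (by
      intro i
      change ((ψ (ι i) : K) : K ⧸ U.toSubgroup) = _
      rw [hψ i])
    rw [← h1]
    rfl

end Pool.Agent.Helper127.FF.R4
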