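import Mathlib
import Pool.Agent.Helper127.FF.Defs

set_option autoImplicit false

namespace Pool.Agent.Helper127.FF.T1


theorem free_of_trivial_factor
    (G : Type) [Group G] [TopologicalSpace G] [IsTopologicalGroup G] [CompactSpace G]
    [T2Space G] [TotallyDisconnectedSpace G]
    (H : Type) [Group H] [TopologicalSpace H] [IsTopologicalGroup H] [CompactSpace H]
    [T2Space H] [TotallyDisconnectedSpace H]
    (P : Type) [Group P] [TopologicalSpace P] [IsTopologicalGroup P] [CompactSpace P]
    [T2Space P] [TotallyDisconnectedSpace P]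
    (iG : ContinuousMonoidHom G P) (iH : ContinuousMonoidHom H P)
    (hU : ∀ (K : Type) [Group K] [TopologicalSpace K] [IsTopologicalGroup K] [CompactSpace K]
          [T2Space K] [TotallyDisconnectedSpace K]
          (f : ContinuousMonoidHom G K) (g : ContinuousMonoidHom H K),
          ∃! φ : ContinuousMonoidHom P K, (∀ x, φ (iG x) = f x) ∧ (∀ y, φ (iH y) = g y))
    (n : ℕ) (ι : Fin n → P)
    (hF : ∀ (K : Type) [Group K] [TopologicalSpace K] [IsTopologicalGroup K] [CompactSpace K]
          [T2Space K] [TotallyDisconnectedSpace K] (f : Fin n → K),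
          ∃! φ : ContinuousMonoidHom P K, ∀ i, φ (ι i) = f i)
    (ht : ∀ y : H, y = 1) :
    (∃ ι : Fin n → G,
        ∀ (K : Type) [Group K] [TopologicalSpace K] [IsTopologicalGroup K] [CompactSpace K]
          [T2Space K] [TotallyDisconnectedSpace K] (f : Fin n → K),
          ∃! φ : ContinuousMonoidHom G K, ∀ i, φ (ι i) = f i) ∧
    (∃ ι : Fin 0 → H,
        ∀ (K : Type) [Group K] [TopologicalSpace K] [IsTopologicalGroup K] [CompactSpace K]
          [T2Space K] [TotallyDisconnectedSpace K] (f : Fin 0 → K),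
          ∃! φ : ContinuousMonoidHom H K, ∀ i, φ (ι i) = f i) := by
  obtain ⟨ρ, ⟨hρG, hρH⟩, -⟩ := hU G (ContinuousMonoidHom.id G) (1 : ContinuousMonoidHom H G)
  have hρG' : ∀ x, ρ (iG x) = x := fun x => hρG x
  have hρH' : ∀ y, ρ (iH y) = 1 := fun y => hρH y
  have hid : ∀ p, iG (ρ p) = p := by
    obtain ⟨φ, -, hφ⟩ := hU P iG iH
    have h1 : iG.comp ρ = φ := by
      apply hφ
      refine ⟨fun x => ?_, fun y => ?_⟩
      · show iG (ρ (iG x)) = iG x
        rw [hρG']
      · show iG (ρ (iH y)) = iH y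
        rw [hρH', ht y, map_one, map_one]
    have h2 : ContinuousMonoidHom.id P = φ := by
      apply hφ
      exact ⟨fun x => rfl, fun y => rfl⟩
    intro p
    have h3 : (iG.comp ρ) p = (ContinuousMonoidHom.id P) p := by rw [h1, h2]
    exact h3
  refine ⟨⟨fun i => ρ (ι i), ?_⟩, ⟨fun i => i.elim0, ?_⟩⟩
  · intro K _ _ _ _ _ _ f
    obtain ⟨φ, hφ, hφu⟩ := hF K f
    refine ⟨φ.comp iG, fun i => ?_, fun ψ hψ => ?_⟩
    · show φ (iG (ρ (ι i))) = f i
      rw [hid]
      exact hφ i
    · have h1 : ψ.comp ρ = φ := by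
        apply hφu
        intro i
        exact hψ i
      ext x
      show ψ x = φ (iG x)
      rw [← h1]
      show ψ x = ψ (ρ (iG x))
      rw [hρG']
  · intro K _ _ _ _ _ _ f
    refine ⟨1, fun i => i.elim0, fun ψ _ => ?_⟩
    ext y
    rw [ht y, map_one, map_one]

end Pool.Agent.Helper127.FF.T1
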