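import Mathlib
import Pool.Agent.Helper127.FF.Defs

set_option autoImplicit false

namespace Pool.Agent.Helper127.FF.Z1


theorem ker_comp_inj251 {G K L : Type} [Group G] [Group K] [Group L] (ι : K →* L)
    (hι : Function.Injective ι) (ψ : G →* K) : (ι.comp ψ).ker = ψ.ker := by
  ext g
  rw [MonoidHom.mem_ker, MonoidHom.mem_ker, MonoidHom.comp_apply]
  exact map_eq_one_iff ι hι

theorem card_CH_le_of_inj251 {G K L : Type} [Group G] [TopologicalSpace G] [Group K] [Group L]
    (hf : Finite (CH G L)) (ι : K →* L) (hι : Function.Injective ι) :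
    Nat.card (CH G K) ≤ Nat.card (CH G L) := by
  refine Nat.card_le_card_of_injective (β := CH G L) (fun ψ : CH G K =>
    (Subtype.mk (ι.comp ψ.1) (by rw [ker_comp_inj251 ι hι]; exact ψ.2) :
      {φ : G →* L // IsOpen (φ.ker : Set G)})) ?_
  intro a b hab
  apply Subtype.ext
  ext g
  have h1 : ι.comp a.1 = ι.comp b.1 := congrArg Subtype.val hab
  exact hι (DFunLike.congr_fun h1 g)

theorem card_C251 (p : ℕ) : Nat.card (Multiplicative (ZMod p)) = p := by
  rw [Nat.card_congr Multiplicative.toAdd, Nat.card_zmod]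

theorem hom_range_le251 {G : Type} [Group G] [TopologicalSpace G] (hU : Unif G)
    (h0 : ∀ (K : Type) [Group K] [Finite K], Nat.card (CH G K) ≠ 0)
    (p : ℕ) [Fact p.Prime]
    (hp : Nat.card (CH G (Multiplicative (ZMod p))) ≤ p)
    (B : Type) [Group B] [Finite B] (φ : CH G B) :
    Nat.card (φ.1.range →* Multiplicative (ZMod p)) ≤ p := by
  have hfinC : Finite (CH G (Multiplicative (ZMod p))) :=
    Nat.finite_of_card_ne_zero (h0 (Multiplicative (ZMod p)))
  have hs : Function.Surjective (MonoidHom.fst B (Multiplicative (ZMod p))) :=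
    fun b => ⟨(b, 1), rfl⟩
  have h1 := hU (B × Multiplicative (ZMod p)) B (MonoidHom.fst B (Multiplicative (ZMod p))) hs φ
  have hfinL : Finite (Lift (MonoidHom.fst B (Multiplicative (ZMod p))) φ) :=
    Nat.finite_of_card_ne_zero (by rw [h1]; exact h0 _)
  have h2 : Nat.card (CH G (MonoidHom.fst B (Multiplicative (ZMod p))).ker) ≤
      Nat.card (CH G (Multiplicative (ZMod p))) := by
    refine card_CH_le_of_inj251 hfinC ((MonoidHom.snd B (Multiplicative (ZMod p))).comp
      (MonoidHom.fst B (Multiplicative (ZMod p))).ker.subtype) ?_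
    intro x y hxy
    apply Subtype.ext
    apply Prod.ext
    · have hx : (x.1).1 = 1 := x.2
      have hy : (y.1).1 = 1 := y.2
      rw [hx, hy]
    · exact hxy
  have h3 : Nat.card (φ.1.range →* Multiplicative (ZMod p)) ≤
      Nat.card (Lift (MonoidHom.fst B (Multiplicative (ZMod p))) φ) := by
    have hker : ∀ χ : φ.1.range →* Multiplicative (ZMod p),
        (φ.1.prod (χ.comp φ.1.rangeRestrict)).ker = φ.1.ker := by
      intro χ
      ext g
      rw [MonoidHom.mem_ker, MonoidHom.mem_ker]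
      constructor
      · intro h
        exact congrArg Prod.fst h
      · intro h
        apply Prod.ext
        · exact h
        · show χ (φ.1.rangeRestrict g) = 1
          have : φ.1.rangeRestrict g = 1 := Subtype.ext h
          rw [this, map_one]
    let F : (φ.1.range →* Multiplicative (ZMod p)) →
        Lift (MonoidHom.fst B (Multiplicative (ZMod p))) φ := fun χ =>
      (Subtype.mk (Subtype.mk (φ.1.prod (χ.comp φ.1.rangeRestrict))
        (by rw [hker χ]; exact φ.2) :
          {φ : G →* B × Multiplicative (ZMod p) // IsOpen (φ.ker : Set G)}) rfl :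
        {ψ : CH G (B × Multiplicative (ZMod p)) //
          (MonoidHom.fst B (Multiplicative (ZMod p))).comp ψ.1 = φ.1})
    refine Nat.card_le_card_of_injective F ?_
    intro a b hab
    have h4 : φ.1.prod (a.comp φ.1.rangeRestrict) = φ.1.prod (b.comp φ.1.rangeRestrict) :=
      congrArg (fun z => z.1.1) hab
    ext ⟨k, ⟨g, hg⟩⟩
    subst hg
    have h5 := DFunLike.congr_fun h4 g
    exact congrArg Prod.snd h5
  omega

theorem card_CH_pi_le251 {G : Type} [Group G] [TopologicalSpace G] (hU : Unif G)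
    (h0 : ∀ (K : Type) [Group K] [Finite K], Nat.card (CH G K) ≠ 0)
    (p : ℕ) [Fact p.Prime]
    (hp : Nat.card (CH G (Multiplicative (ZMod p))) ≤ p)
    (X : Type) [Finite X] (K : Type) [Group K] [Finite K]
    (ι : K →* (X → Multiplicative (ZMod p))) (hι : Function.Injective ι) :
    Nat.card (CH G K) ≤ p ^ Nat.card X := by
  have hprime : p.Prime := Fact.out
  have hfinC : Finite (CH G (Multiplicative (ZMod p))) :=
    Nat.finite_of_card_ne_zero (h0 (Multiplicative (ZMod p)))
  have key : ∀ (ψ : CH G K) (x : X), IsOpen (((((Pi.evalMonoidHom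
      (fun _ : X => Multiplicative (ZMod p)) x).comp (ι.comp ψ.1)).ker : Subgroup G)) : Set G) := by
    intro ψ x
    let ev : X → (ψ.1.range →* Multiplicative (ZMod p)) := fun y =>
      (Pi.evalMonoidHom (fun _ : X => Multiplicative (ZMod p)) y).comp
        (ι.comp ψ.1.range.subtype)
    have hev : ∀ (y : X) (g : G), ev y ⟨ψ.1 g, ⟨g, rfl⟩⟩ = ι (ψ.1 g) y := fun y g => rfl
    by_cases h : ev x = 1
    · have h1 : ((Pi.evalMonoidHom (fun _ : X => Multiplicative (ZMod p)) x).comp
          (ι.comp ψ.1)).ker = ⊤ := by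
        ext g
        rw [MonoidHom.mem_ker]
        have h2 := DFunLike.congr_fun h ⟨ψ.1 g, ⟨g, rfl⟩⟩
        rw [hev] at h2
        exact ⟨fun _ => Subgroup.mem_top g, fun _ => h2⟩
      rw [h1, Subgroup.coe_top]
      exact isOpen_univ
    · have hker : ((Pi.evalMonoidHom (fun _ : X => Multiplicative (ZMod p)) x).comp
          (ι.comp ψ.1)).ker = ψ.1.ker := by
        ext g
        rw [MonoidHom.mem_ker, MonoidHom.mem_ker]
        constructor
        · intro hg
          have hg' : ev x ⟨ψ.1 g, ⟨g, rfl⟩⟩ = 1 := hg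
          have hfinH : Finite (ψ.1.range →* Multiplicative (ZMod p)) :=
            Finite.of_injective (fun f => (f : ψ.1.range → Multiplicative (ZMod p)))
              DFunLike.coe_injective
          have hord : orderOf (ev x) = p := by
            refine orderOf_eq_prime ?_ h
            ext k
            rw [MonoidHom.pow_apply, MonoidHom.one_apply]
            have h3 := pow_card_eq_one' (x := ev x k)
            rw [card_C251] at h3
            rw [h3]
          have htop : Subgroup.zpowers (ev x) = ⊤ := by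
            refine Subgroup.eq_top_of_le_card _ ?_
            rw [Nat.card_zpowers, hord]
            exact hom_range_le251 hU h0 p hp K ψ
          apply hι
          rw [map_one]
          funext y
          have hy : ev y ∈ Subgroup.zpowers (ev x) := by rw [htop]; exact Subgroup.mem_top _
          obtain ⟨k, hk⟩ := hy
          have h5 := DFunLike.congr_fun hk ⟨ψ.1 g, ⟨g, rfl⟩⟩
          have h6 : (ev x ^ k) ⟨ψ.1 g, ⟨g, rfl⟩⟩ = (ev x ⟨ψ.1 g, ⟨g, rfl⟩⟩) ^ k := rfl
          have h7 : (ev x ^ k) ⟨ψ.1 g, ⟨g, rfl⟩⟩ = ev y ⟨ψ.1 g, ⟨g, rfl⟩⟩ := h5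
          rw [h6, hg', one_zpow, hev] at h7
          exact h7.symm
        · intro hg
          show ι (ψ.1 g) x = 1
          rw [hg, map_one]
          rfl
      rw [hker]
      exact ψ.2
  have h1 : Nat.card (CH G K) ≤ Nat.card (X → CH G (Multiplicative (ZMod p))) := by
    refine Nat.card_le_card_of_injective (fun (ψ : CH G K) (x : X) =>
      (Subtype.mk ((Pi.evalMonoidHom (fun _ : X => Multiplicative (ZMod p)) x).comp
        (ι.comp ψ.1)) (key ψ x) :
        {φ : G →* Multiplicative (ZMod p) // IsOpen (φ.ker : Set G)})) ?_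
    intro a b hab
    apply Subtype.ext
    ext g
    apply hι
    funext x
    have h2 := congrArg Subtype.val (congrFun hab x)
    exact DFunLike.congr_fun h2 g
  refine h1.trans ?_
  rw [Nat.card_fun]
  exact Nat.pow_le_pow_left hp _

/-- permutation action on functions -/
def act251 (Q : Type) [Group Q] (T : Subgroup Q) (C : Type) [CommGroup C] :
    Q →* MulAut ((Q ⧸ T) → C) where
  toFun q :=
    { toFun := fun v x => v (q⁻¹ • x)
      invFun := fun v x => v (q • x)
      left_inv := fun v => by funext x; simp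
      right_inv := fun v => by funext x; simp
      map_mul' := fun v w => by funext x; rfl }
  map_one' := by ext v x; simp
  map_mul' a b := by ext v x; simp [mul_smul]

theorem act251_apply (Q : Type) [Group Q] (T : Subgroup Q) (C : Type) [CommGroup C] (q : Q)
    (v : (Q ⧸ T) → C) (x : Q ⧸ T) : act251 Q T C q v x = v (q⁻¹ • x) := rfl

theorem mem251 {Q : Type} [Group Q] (T : Subgroup Q) (g : Q) (x : Q ⧸ T) :
    (x.out)⁻¹ * (g * (g⁻¹ • x).out) ∈ T := by
  rw [← QuotientGroup.eq]
  have h1 : ((x.out : Q) : Q ⧸ T) = x := Quotient.out_eq' x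
  have h2 : (((g⁻¹ • x).out : Q) : Q ⧸ T) = g⁻¹ • x := Quotient.out_eq' _
  rw [h1]
  have h3 : ((g * (g⁻¹ • x).out : Q) : Q ⧸ T) = g • (((g⁻¹ • x).out : Q) : Q ⧸ T) := rfl
  rw [h3, h2, smul_inv_smul]

noncomputable def coc251 {Q : Type} [Group Q] (T : Subgroup Q) {C : Type} [CommGroup C]
    (χ : T →* C) (v : (Q ⧸ T) → C) (g : Q) : (Q ⧸ T) → C := fun x =>
  χ ⟨(x.out)⁻¹ * (g * (g⁻¹ • x).out), mem251 T g x⟩ * (v x / v (g⁻¹ • x))

theorem coc_mul251 {Q : Type} [Group Q] (T : Subgroup Q) {C : Type} [CommGroup C]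
    (χ : T →* C) (v : (Q ⧸ T) → C) (g h : Q) (x : Q ⧸ T) :
    coc251 T χ v (g * h) x = coc251 T χ v g x * coc251 T χ v h (g⁻¹ • x) := by
  unfold coc251
  have e0 : (g * h)⁻¹ • x = h⁻¹ • g⁻¹ • x := by rw [mul_inv_rev, mul_smul]
  have e1 : (⟨(x.out)⁻¹ * (g * h * ((g * h)⁻¹ • x).out), mem251 T (g * h) x⟩ : T) =
      ⟨(x.out)⁻¹ * (g * (g⁻¹ • x).out), mem251 T g x⟩ *
      ⟨((g⁻¹ • x).out)⁻¹ * (h * (h⁻¹ • g⁻¹ • x).out), mem251 T h (g⁻¹ • x)⟩ := by
    apply Subtype.ext
    simp only [Subgroup.coe_mul, e0]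
    group
  rw [e1, map_mul, e0]
  have e2 : v x / v (h⁻¹ • g⁻¹ • x) = (v x / v (g⁻¹ • x)) * (v (g⁻¹ • x) / v (h⁻¹ • g⁻¹ • x)) := by
    rw [div_mul_div_cancel]
  rw [e2]
  exact mul_mul_mul_comm _ _ _ _

noncomputable def sec251 {Q : Type} [Group Q] (T : Subgroup Q) {C : Type} [CommGroup C]
    (χ : T →* C) (v : (Q ⧸ T) → C) : Q →* ((Q ⧸ T) → C) ⋊[act251 Q T C] Q :=
  MonoidHom.mk' (fun g => ⟨coc251 T χ v g, g⟩) (by
    intro a b
    apply SemidirectProduct.ext
    · rw [SemidirectProduct.mul_left]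
      funext x
      exact coc_mul251 T χ v a b x
    · rfl)

theorem coc_inj251 {Q : Type} [Group Q] (T : Subgroup Q) {C : Type} [CommGroup C]
    (χ χ' : T →* C) (v v' : (Q ⧸ T) → C) (h0 : v ((1 : Q) : Q ⧸ T) = v' ((1 : Q) : Q ⧸ T))
    (h : ∀ g, coc251 T χ v g = coc251 T χ' v' g) : χ = χ' ∧ v = v' := by
  set x0 : Q ⧸ T := ((1 : Q) : Q ⧸ T) with hx0
  set r : Q := x0.out with hr
  have hrT : r ∈ T := by
    have h1 : ((r : Q) : Q ⧸ T) = x0 := Quotient.out_eq' x0
    rw [hx0, eq_comm, QuotientGroup.eq] at h1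
    simpa using h1
  have hχ : χ = χ' := by
    ext t
    set g : Q := r * t * r⁻¹ with hg
    have hgT : g ∈ T := T.mul_mem (T.mul_mem hrT t.2) (T.inv_mem hrT)
    have hgx : g⁻¹ • x0 = x0 := by
      rw [hx0]
      show ((g⁻¹ * 1 : Q) : Q ⧸ T) = ((1 : Q) : Q ⧸ T)
      rw [QuotientGroup.eq]
      simpa using hgT
    have h2 := congrFun (h g) x0
    unfold coc251 at h2
    have e1 : (⟨(x0.out)⁻¹ * (g * (g⁻¹ • x0).out), mem251 T g x0⟩ : T) = t := by
      apply Subtype.ext
      simp only [hgx]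
      rw [← hr, hg]
      group
    rw [e1, hgx, div_self', div_self', mul_one, mul_one] at h2
    exact h2
  refine ⟨hχ, ?_⟩
  subst hχ
  funext x
  set g : Q := x.out with hg
  have hgx : g⁻¹ • x = x0 := by
    have h1 : ((g : Q) : Q ⧸ T) = x := Quotient.out_eq' x
    rw [← h1, hx0]
    show ((g⁻¹ * g : Q) : Q ⧸ T) = ((1 : Q) : Q ⧸ T)
    rw [inv_mul_cancel]
  have h2 := congrFun (h g) x
  unfold coc251 at h2
  have h3 := mul_left_cancel h2
  rw [hgx, h0] at h3
  exact div_left_injective h3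

theorem sylow_hom_le
    (G : Type) [Group G] [TopologicalSpace G] (hU : Unif G)
    (h0 : ∀ (K : Type) [Group K] [Finite K], Nat.card (CH G K) ≠ 0)
    (p : ℕ) [Fact p.Prime]
    (hp : Nat.card (CH G (Multiplicative (ZMod p))) ≤ p)
    (Q : Type) [Group Q] [Finite Q] (φ : CH G Q) (hφ : Function.Surjective φ.1)
    (T : Subgroup Q) :
    Nat.card (T →* Multiplicative (ZMod p)) ≤ p := by
  have hprime : p.Prime := Fact.out
  let C := Multiplicative (ZMod p)
  let A := ((Q ⧸ T) → C) ⋊[act251 Q T C] Q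
  have hfinA : Finite A := Finite.of_equiv _ (SemidirectProduct.equivProd
    (φ := act251 Q T C)).symm
  let π : A →* Q := SemidirectProduct.rightHom
  have hs : Function.Surjective π := SemidirectProduct.rightHom_surjective
  have h1 : Nat.card (Lift π φ) = Nat.card (CH G π.ker) := hU A Q π hs φ
  have hfinL : Finite (Lift π φ) := Nat.finite_of_card_ne_zero (by rw [h1]; exact h0 _)
  have h2 : Nat.card (CH G π.ker) ≤ p ^ Nat.card (Q ⧸ T) := by
    -- injection ker π → V
    have hleft : ∀ x : π.ker, (x : A).right = 1 := fun x => x.2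
    refine card_CH_pi_le251 hU h0 p hp (Q ⧸ T) π.ker
      (MonoidHom.mk' (fun x => (x : A).left) ?_) ?_
    · intro a b
      show ((a : A) * (b : A)).left = _
      rw [SemidirectProduct.mul_left, hleft a, map_one]
      rfl
    · intro a b hab
      apply Subtype.ext
      apply SemidirectProduct.ext
      · exact hab
      · rw [hleft a, hleft b]
  have h3 : Nat.card ((T →* C) × ((Q ⧸ T) → C)) ≤ Nat.card (Lift π φ × C) := by
    have hsec : ∀ (χ : T →* C) (v : (Q ⧸ T) → C), Function.Injective (sec251 T χ v) := by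
      intro χ v a b hab
      exact congrArg SemidirectProduct.right hab
    let F : (T →* C) × ((Q ⧸ T) → C) → Lift π φ × C := fun z =>
      ((Subtype.mk (Subtype.mk ((sec251 T z.1 z.2).comp φ.1)
        (by rw [ker_comp_inj251 _ (hsec z.1 z.2)]; exact φ.2) :
          {φ : G →* A // IsOpen (φ.ker : Set G)}) (by ext g; rfl) :
        {ψ : CH G A // π.comp ψ.1 = φ.1}), z.2 ((1 : Q) : Q ⧸ T))
    refine Nat.card_le_card_of_injective F ?_
    rintro ⟨χ, v⟩ ⟨χ', v'⟩ hab
    have h4 : (sec251 T χ v).comp φ.1 = (sec251 T χ' v').comp φ.1 :=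
      congrArg (fun z => z.1.1.1) hab
    have h5 : v ((1 : Q) : Q ⧸ T) = v' ((1 : Q) : Q ⧸ T) := congrArg (fun z => z.2) hab
    have h6 : ∀ g, coc251 T χ v g = coc251 T χ' v' g := by
      intro g
      obtain ⟨k, rfl⟩ := hφ g
      exact congrArg SemidirectProduct.left (DFunLike.congr_fun h4 k)
    obtain ⟨h7, h8⟩ := coc_inj251 T χ χ' v v' h5 h6
    rw [h7, h8]
  rw [Nat.card_prod, Nat.card_prod, Nat.card_fun, card_C251] at h3
  have h4 : Nat.card (Lift π φ) ≤ p ^ Nat.card (Q ⧸ T) := h1 ▸ h2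
  have hpos : 0 < p ^ Nat.card (Q ⧸ T) := pow_pos hprime.pos _
  have h5 : Nat.card (T →* C) * p ^ Nat.card (Q ⧸ T) ≤ p * p ^ Nat.card (Q ⧸ T) := by
    calc Nat.card (T →* C) * p ^ Nat.card (Q ⧸ T) ≤ Nat.card (Lift π φ) * p := h3
      _ ≤ p ^ Nat.card (Q ⧸ T) * p := Nat.mul_le_mul_right _ h4
      _ = p * p ^ Nat.card (Q ⧸ T) := mul_comm _ _
  exact Nat.le_of_mul_le_mul_right h5 hpos

end Pool.Agent.Helper127.FF.Z1
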