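import Mathlib
import Pool.Agent.Helper127.FF.Defs

set_option autoImplicit false

namespace Pool.Agent.Helper127.FF.Z2


theorem z2_coatom (p : ℕ) [Fact p.Prime] (T : Type) [Group T] [Finite T] (hT : IsPGroup p T)
    (M : Subgroup T) (hM : IsCoatom M) :
    ∃ φ : T →* Multiplicative (ZMod p), φ.ker = M := by
  haveI := hT.isNilpotent
  haveI hn : M.Normal :=
    Subgroup.NormalizerCondition.normal_of_coatom M Group.normalizerCondition_of_isNilpotent hM
  have hq : IsPGroup p (T ⧸ M) := hT.to_quotient M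
  have hcard : p ∣ Nat.card (T ⧸ M) := by
    rcases hq.card_eq_or_dvd with h | h
    · exfalso
      apply hM.1
      rw [← Subgroup.index_eq_one]
      exact h
    · exact h
  obtain ⟨y, hy⟩ := exists_prime_orderOf_dvd_card' p hcard
  have htop : Subgroup.zpowers y = ⊤ := by
    have h1 : M ≤ (Subgroup.zpowers y).comap (QuotientGroup.mk' M) := by
      intro x hx
      rw [Subgroup.mem_comap]
      have : (QuotientGroup.mk' M) x = 1 := by
        rw [← MonoidHom.mem_ker, QuotientGroup.ker_mk']; exact hx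
      rw [this]
      exact one_mem _
    have h2 : M ≠ (Subgroup.zpowers y).comap (QuotientGroup.mk' M) := by
      intro h
      obtain ⟨z, hz⟩ := QuotientGroup.mk'_surjective M y
      have h3 : z ∈ (Subgroup.zpowers y).comap (QuotientGroup.mk' M) := by
        rw [Subgroup.mem_comap, hz]
        exact Subgroup.mem_zpowers y
      rw [← h] at h3
      have h4 : y = 1 := by
        rw [← hz, ← MonoidHom.mem_ker, QuotientGroup.ker_mk']; exact h3
      rw [h4, orderOf_one] at hy
      exact (Fact.out : p.Prime).one_lt.ne hy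
    have h3 := hM.2 _ (lt_of_le_of_ne h1 h2)
    rw [eq_top_iff]
    intro w _
    obtain ⟨z, rfl⟩ := QuotientGroup.mk'_surjective M w
    have : z ∈ (Subgroup.zpowers y).comap (QuotientGroup.mk' M) := by rw [h3]; trivial
    rwa [Subgroup.mem_comap] at this
  have hcp : Nat.card (T ⧸ M) = p := by
    rw [← hy, ← Nat.card_zpowers, htop, Subgroup.card_top]
  have hcz : Nat.card (Multiplicative (ZMod p)) = p := by
    rw [Nat.card_congr Multiplicative.toAdd, Nat.card_zmod]
  let e : (T ⧸ M) ≃* Multiplicative (ZMod p) := mulEquivOfPrimeCardEq hcp hcz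
  refine ⟨e.toMonoidHom.comp (QuotientGroup.mk' M), ?_⟩
  ext x
  rw [MonoidHom.mem_ker, MonoidHom.comp_apply]
  have : e.toMonoidHom ((QuotientGroup.mk' M) x) = 1 ↔ (QuotientGroup.mk' M) x = 1 :=
    e.map_eq_one_iff
  rw [this, ← MonoidHom.mem_ker, QuotientGroup.ker_mk']

theorem cyclic_of_hom_le (p : ℕ) [Fact p.Prime] (T : Type) [Group T] [Finite T] (hT : IsPGroup p T)
    (h : Nat.card (T →* Multiplicative (ZMod p)) ≤ p) : IsCyclic T := by
  by_contra hnc
  have hpp : p.Prime := Fact.out
  haveI : Nontrivial T := by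
    by_contra h0
    rw [not_nontrivial_iff_subsingleton] at h0
    exact hnc inferInstance
  haveI : Finite (T →* Multiplicative (ZMod p)) :=
    Finite.of_injective (fun φ : T →* Multiplicative (ZMod p) => (φ : T → Multiplicative (ZMod p)))
      DFunLike.coe_injective
  have hzne : ∀ x : T, Subgroup.zpowers x ≠ ⊤ := by
    intro x hx
    apply hnc
    refine ⟨x, fun y => ?_⟩
    have : y ∈ Subgroup.zpowers x := by rw [hx]; trivial
    exact this
  obtain ⟨M1, hM1, -⟩ := (eq_top_or_exists_le_coatom (⊥ : Subgroup T)).resolve_left bot_ne_top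
  obtain ⟨x, -, hx⟩ : ∃ x ∈ (⊤ : Subgroup T), x ∉ M1 := by
    by_contra hcon
    push Not at hcon
    exact hM1.1 (eq_top_iff.2 hcon)
  obtain ⟨M2, hM2, hxM2⟩ :=
    (eq_top_or_exists_le_coatom (Subgroup.zpowers x)).resolve_left (hzne x)
  have hx2 : x ∈ M2 := hxM2 (Subgroup.mem_zpowers x)
  obtain ⟨φ1, h1⟩ := z2_coatom p T hT M1 hM1
  obtain ⟨φ2, h2⟩ := z2_coatom p T hT M2 hM2
  have hord : orderOf φ1 = p := by
    apply orderOf_eq_prime
    · ext y
      rw [MonoidHom.pow_apply, MonoidHom.one_apply]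
      have hcz : Nat.card (Multiplicative (ZMod p)) = p := by
        rw [Nat.card_congr Multiplicative.toAdd, Nat.card_zmod]
      have := pow_card_eq_one' (x := φ1 y)
      rw [hcz] at this
      rw [this]
    · intro h0
      apply hM1.1
      rw [← h1, h0]
      ext y
      simp
  have htop : Subgroup.zpowers φ1 = ⊤ := by
    apply Subgroup.eq_top_of_card_eq
    apply le_antisymm
    · exact Subgroup.card_le_card_group _
    · rw [Nat.card_zpowers, hord]; exact h
  have h3 : φ2 ∈ Subgroup.zpowers φ1 := by rw [htop]; trivial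
  obtain ⟨k, hk⟩ := h3
  have h4 : M1 ≤ M2 := by
    intro y hy
    rw [← h1, MonoidHom.mem_ker] at hy
    rw [← h2, MonoidHom.mem_ker, ← hk]
    show (φ1 ^ k) y = 1
    have : (φ1 ^ k) y = (φ1 y) ^ k := by
      cases k with
      | ofNat n => simp [MonoidHom.pow_apply]
      | negSucc n => simp [zpow_negSucc, MonoidHom.pow_apply]
    rw [this, hy, one_zpow]
  rcases eq_or_lt_of_le h4 with h5 | h5
  · exact hx (h5 ▸ hx2)
  · exact hM2.1 (hM1.2 _ h5)

end Pool.Agent.Helper127.FF.Z2
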