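import Mathlib
import Pool.Agent.Helper127.FF.Defs

set_option autoImplicit false

namespace Pool.Agent.Helper127.FF.Z4


theorem cs_congr (G : Type) [Group G] [TopologicalSpace G] {K K' : Type} [Group K] [Group K']
    (e : K ≃* K') : Nat.card (CH G K) = Nat.card (CH G K') := by
  have hk : ∀ φ : G →* K, (e.toMonoidHom.comp φ).ker = φ.ker := by
    intro φ
    ext x
    simp [MonoidHom.mem_ker]
  have hk' : ∀ φ : G →* K', (e.symm.toMonoidHom.comp φ).ker = φ.ker := by
    intro φ
    ext x
    simp [MonoidHom.mem_ker]
  refine Nat.card_congr ⟨fun φ => ⟨e.toMonoidHom.comp φ.1, ?_⟩,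
    fun φ => ⟨e.symm.toMonoidHom.comp φ.1, ?_⟩, ?_, ?_⟩
  · rw [hk]; exact φ.2
  · rw [hk']; exact φ.2
  · intro φ
    apply Subtype.ext
    ext x
    simp
  · intro φ
    apply Subtype.ext
    ext x
    simp

theorem cs_finite (G : Type) [Group G] [TopologicalSpace G]
    (h0 : ∀ (K : Type) [Group K] [Finite K], Nat.card (CH G K) ≠ 0)
    (K : Type) [Group K] [Finite K] : Finite (CH G K) := Nat.finite_of_card_ne_zero (h0 K)

/-- composition with a homomorphism keeps the kernel open -/
theorem cs_comp (G : Type) [Group G] [TopologicalSpace G] (hU : Unif G)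
    (h0 : ∀ (K : Type) [Group K] [Finite K], Nat.card (CH G K) ≠ 0)
    {A B : Type} [Group A] [Finite A] [Group B] [Finite B] (π : A →* B) (ψ : CH G A) :
    IsOpen ((π.comp ψ.1).ker : Set G) := by
  have h1 := hU (A × B) A (MonoidHom.fst A B) Prod.fst_surjective ψ
  have e : (MonoidHom.fst A B).ker ≃* B :=
    { toFun := fun x => x.1.2
      invFun := fun b => ⟨(1, b), MonoidHom.mem_ker.mpr rfl⟩
      left_inv := by
        rintro ⟨⟨a, b⟩, h⟩
        have h' : a = 1 := MonoidHom.mem_ker.mp h
        subst h'
        rfl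
      right_inv := fun b => rfl
      map_mul' := fun x y => rfl }
  rw [cs_congr G e] at h1
  haveI : Finite (CH G B) := cs_finite G h0 B
  haveI : Finite (Lift (MonoidHom.fst A B) ψ) :=
    Nat.finite_of_card_ne_zero (by rw [h1]; exact h0 B)
  let F : CH G B → Lift (MonoidHom.fst A B) ψ := fun χ =>
    ⟨⟨ψ.1.prod χ.1, by
      have : (((ψ.1.prod χ.1).ker : Subgroup G) : Set G) = (ψ.1.ker : Set G) ∩ (χ.1.ker : Set G) := by
        ext x
        simp [MonoidHom.mem_ker, Prod.ext_iff]
      rw [this]
      exact ψ.2.inter χ.2⟩, by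
      ext x; rfl⟩
  have hF : Function.Injective F := by
    intro χ χ' h
    apply Subtype.ext
    have h2 : ψ.1.prod χ.1 = ψ.1.prod χ'.1 := congrArg (fun z => z.1.1) h
    ext x
    have h3 := congrArg (fun z => (z x).2) h2
    exact h3
  have hFb : Function.Bijective F :=
    (Nat.bijective_iff_injective_and_card F).mpr ⟨hF, h1.symm⟩
  have hop : IsOpen (((ψ.1.prod (π.comp ψ.1)).ker : Subgroup G) : Set G) := by
    have : (((ψ.1.prod (π.comp ψ.1)).ker : Subgroup G) : Set G) = (ψ.1.ker : Set G) := by
      ext x
      simp only [SetLike.mem_coe, MonoidHom.mem_ker, MonoidHom.prod_apply, Prod.mk_eq_one,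
        MonoidHom.comp_apply]
      constructor
      · exact fun h => h.1
      · intro h
        exact ⟨h, by rw [h, map_one]⟩
    rw [this]; exact ψ.2
  obtain ⟨χ, hχ⟩ := hFb.2 ⟨⟨ψ.1.prod (π.comp ψ.1), hop⟩, by ext x; rfl⟩
  have h4 : ψ.1.prod χ.1 = ψ.1.prod (π.comp ψ.1) := congrArg (fun z => z.1.1) hχ
  have h5 : χ.1 = π.comp ψ.1 := by
    ext x
    have h3 := congrArg (fun z => (z x).2) h4
    exact h3
  rw [← h5]
  exact χ.2

theorem cs_mul (G : Type) [Group G] [TopologicalSpace G] (hU : Unif G)
    (h0 : ∀ (K : Type) [Group K] [Finite K], Nat.card (CH G K) ≠ 0)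
    {A B : Type} [Group A] [Finite A] [Group B] [Finite B] (π : A →* B)
    (hπ : Function.Surjective π) :
    Nat.card (CH G A) = Nat.card (CH G B) * Nat.card (CH G π.ker) := by
  classical
  have e : CH G A ≃ Σ φ : CH G B, Lift π φ :=
    { toFun := fun ψ => ⟨⟨π.comp ψ.1, cs_comp G hU h0 π ψ⟩, ⟨ψ, rfl⟩⟩
      invFun := fun x => x.2.1
      left_inv := fun ψ => rfl
      right_inv := by
        rintro ⟨⟨φ, hφ⟩, ⟨ψ, hψ⟩⟩
        simp only at hψ
        subst hψ
        rfl }
  haveI : Finite (CH G B) := cs_finite G h0 B
  haveI : Fintype (CH G B) := Fintype.ofFinite _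
  haveI : ∀ φ : CH G B, Finite (Lift π φ) := fun φ =>
    Nat.finite_of_card_ne_zero (by rw [hU A B π hπ φ]; exact h0 _)
  rw [Nat.card_congr e, Nat.card_sigma]
  simp_rw [hU A B π hπ]
  rw [Finset.sum_const, Finset.card_univ, Nat.card_eq_fintype_card (α := CH G B), smul_eq_mul]

theorem card_solvable
    (G : Type) [Group G] [TopologicalSpace G] (hU : Unif G)
    (h0 : ∀ (K : Type) [Group K] [Finite K], Nat.card (CH G K) ≠ 0)
    (hp : ∀ p : ℕ, p.Prime → Nat.card (CH G (Multiplicative (ZMod p))) = p)
    (T : Type) [Group T] [Finite T] [Group.IsSolvable T] :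
    Nat.card (CH G T) = Nat.card T := by
  have main : ∀ n : ℕ, ∀ (T : Type) [Group T] [Finite T] [Group.IsSolvable T], Nat.card T = n →
      Nat.card (CH G T) = Nat.card T := by
    intro n
    induction n using Nat.strong_induction_on with
    | _ n ih =>
      intro T _ _ _ hn
      by_cases htr : Nontrivial T
      · by_cases hs : IsSimpleGroup T
        · have hcomm : ∀ a b : T, a * b = b * a := IsSimpleGroup.comm_iff_isSolvable.mpr inferInstance
          letI : CommGroup T := { (inferInstance : Group T) with mul_comm := hcomm }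
          have hprime : (Nat.card T).Prime := IsSimpleGroup.prime_card
          haveI : Fact (Nat.card T).Prime := ⟨hprime⟩
          have e : T ≃* Multiplicative (ZMod (Nat.card T)) :=
            mulEquivOfPrimeCardEq (p := Nat.card T) rfl (by simp)
          rw [cs_congr G e]
          exact hp _ hprime
        · have hex : ∃ N : Subgroup T, N.Normal ∧ N ≠ ⊥ ∧ N ≠ ⊤ := by
            by_contra hcon
            push_neg at hcon
            apply hs
            exact ⟨fun H hH => by
              by_cases hb : H = ⊥
              · exact Or.inl hb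
              · exact Or.inr (hcon H hH hb)⟩
          obtain ⟨N, hN, hNb, hNt⟩ := hex
          have hcard := Subgroup.card_eq_card_quotient_mul_card_subgroup N
          have hN1 : 1 < Nat.card N := by
            rw [← not_le]
            intro h
            exact hNb (N.eq_bot_of_card_le h)
          have hq1 : 1 < Nat.card (T ⧸ N) := by
            rw [← Subgroup.index_eq_card]
            have h1 : N.index ≠ 1 := fun h => hNt (Subgroup.index_eq_one.mp h)
            have h2 : N.index ≠ 0 := Subgroup.FiniteIndex.index_ne_zero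
            omega
          have hlt1 : Nat.card N < n := by
            rw [← hn, hcard]
            nlinarith
          have hlt2 : Nat.card (T ⧸ N) < n := by
            rw [← hn, hcard]
            nlinarith
          have h1 := ih _ hlt1 N rfl
          have h2 := ih _ hlt2 (T ⧸ N) rfl
          have h3 := cs_mul G hU h0 (QuotientGroup.mk' N) (QuotientGroup.mk'_surjective N)
          have h4 : Nat.card (CH G (QuotientGroup.mk' N).ker) = Nat.card (CH G N) :=
            cs_congr G (MulEquiv.subgroupCongr (QuotientGroup.ker_mk' N))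
          rw [h3, h4, h1, h2, hcard]
      · haveI : Subsingleton T := not_nontrivial_iff_subsingleton.mp htr
        have h1 : Nat.card T = 1 := Nat.card_of_subsingleton 1
        rw [h1, Nat.card_eq_one_iff_unique]
        refine ⟨⟨fun φ ψ => Subtype.ext (by ext x; exact Subsingleton.elim _ _)⟩,
          ⟨⟨1, by
            have : ((1 : G →* T).ker : Set G) = Set.univ := by
              ext x; simp
            rw [this]; exact isOpen_univ⟩⟩⟩
  exact main _ T rfl

end Pool.Agent.Helper127.FF.Z4
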