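import Mathlib
import Pool.Agent.Helper127.FF.Defs
import Pool.Agent.Helper127.FF.J3_counts
import Pool.Agent.Helper127.FF.R4
import Pool.Agent.Helper127.FF.Z1
import Pool.Agent.Helper127.FF.J4_M1
import Pool.Agent.Helper127.FF.R1
import Pool.Agent.Helper127.FF.R2
import Pool.Agent.Helper127.FF.Z2
import Pool.Agent.Helper127.FF.Z5
import Pool.Agent.Helper127.FF.Z4
import Pool.Agent.Helper127.FF.J1_coprod
import Pool.Agent.Helper127.FF.J2_free
import Pool.Agent.Helper127.FF.J5_M2
import Pool.Agent.Helper127.FF.J6_M3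
import Pool.Agent.Helper127.FF.R3
import Pool.Agent.Helper127.FF.T1

set_option autoImplicit false

namespace Pool.Agent.Helper127.FF

open J3_counts R4 Z1 J4_M1 R1 R2 Z2 Z5 Z4 J1_coprod J2_free J5_M2 J6_M3 R3 T1

theorem recog
    (G : Type) [Group G] [TopologicalSpace G] [IsTopologicalGroup G] [CompactSpace G]
    [T2Space G] [TotallyDisconnectedSpace G] (m : ℕ)
    (h : ∀ (K : Type) [Group K] [Finite K], Nat.card (CH G K) = Nat.card K ^ m) :
    ∃ ι : Fin m → G,
        ∀ (K : Type) [Group K] [TopologicalSpace K] [IsTopologicalGroup K] [CompactSpace K]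
          [T2Space K] [TotallyDisconnectedSpace K] (f : Fin m → K),
          ∃! φ : ContinuousMonoidHom G K, ∀ i, φ (ι i) = f i := by
  obtain ⟨ι, hι⟩ := exists_gens G m (fun Q _ _ φ hφ => gen_of_count G m h Q φ hφ)
  refine ⟨ι, ?_⟩
  intro K _ _ _ _ _ _ f
  exact free_of_fin G m ι (fun K _ _ f => eval_bij G m ι h hι K f) K f

theorem isSolvable_quot
    (G : Type) [Group G] [TopologicalSpace G] (hU : Unif G)
    (h0 : ∀ (K : Type) [Group K] [Finite K], Nat.card (CH G K) ≠ 0)
    (hp : ∀ p : ℕ, p.Prime → Nat.card (CH G (Multiplicative (ZMod p))) ≤ p)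
    (Q : Type) [Group Q] [Finite Q] (φ : CH G Q) (hφ : Function.Surjective φ.1) :
    Group.IsSolvable Q := by
  haveI : IsZGroup Q := by
    refine ⟨?_⟩
    intro p hpp P
    haveI : Fact p.Prime := ⟨hpp⟩
    exact cyclic_of_hom_le p P P.isPGroup'
      (sylow_hom_le G hU h0 p (hp p hpp) Q φ hφ (P : Subgroup Q))
  infer_instance

theorem main_aux
    (G : Type) [Group G] [TopologicalSpace G] [IsTopologicalGroup G] [CompactSpace G]
    [T2Space G] [TotallyDisconnectedSpace G]
    (H : Type) [Group H] [TopologicalSpace H] [IsTopologicalGroup H] [CompactSpace H]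
    [T2Space H] [TotallyDisconnectedSpace H]
    (n : ℕ)
    (hcnt : ∀ (K : Type) [Group K] [Finite K],
      Nat.card (CH G K) * Nat.card (CH H K) = Nat.card K ^ n)
    (UG : Unif G) (UH : Unif H)
    (hG : ∃ x : G, x ≠ 1) (hH : ∃ x : H, x ≠ 1)
    (hn : n ≤ 2 ∨ ∀ p : ℕ, p.Prime → Nat.card (CH G (Multiplicative (ZMod p))) ≤ p) :
    (∃ m : ℕ, ∃ ι : Fin m → G,
        ∀ (K : Type) [Group K] [TopologicalSpace K] [IsTopologicalGroup K] [CompactSpace K]
          [T2Space K] [TotallyDisconnectedSpace K] (f : Fin m → K),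
          ∃! φ : ContinuousMonoidHom G K, ∀ i, φ (ι i) = f i) ∧
    (∃ k : ℕ, ∃ ι : Fin k → H,
        ∀ (K : Type) [Group K] [TopologicalSpace K] [IsTopologicalGroup K] [CompactSpace K]
          [T2Space K] [TotallyDisconnectedSpace K] (f : Fin k → K),
          ∃! φ : ContinuousMonoidHom H K, ∀ i, φ (ι i) = f i) := by
  have hpos : ∀ (K : Type) [Group K] [Finite K], 0 < Nat.card K ^ n := by
    intro K _ _
    exact pow_pos Nat.card_pos n
  have h0G : ∀ (K : Type) [Group K] [Finite K], Nat.card (CH G K) ≠ 0 := by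
    intro K _ _ h
    have h1 := hcnt K
    rw [h, zero_mul] at h1
    exact absurd h1.symm (hpos K).ne'
  have h0H : ∀ (K : Type) [Group K] [Finite K], Nat.card (CH H K) ≠ 0 := by
    intro K _ _ h
    have h1 := hcnt K
    rw [h, mul_zero] at h1
    exact absurd h1.symm (hpos K).ne'
  have leG : ∀ (K : Type) [Group K] [Finite K], Nat.card K ≤ Nat.card (CH G K) :=
    fun K _ _ => card_le G h0G (fun M hM => exists_surj G UG h0G
      (fun p hp => exists_surj_prime G UG h0G hG p hp) M hM) K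
  have leH : ∀ (K : Type) [Group K] [Finite K], Nat.card K ≤ Nat.card (CH H K) :=
    fun K _ _ => card_le H h0H (fun M hM => exists_surj H UH h0H
      (fun p hp => exists_surj_prime H UH h0H hH p hp) M hM) K
  have cp : ∀ p : ℕ, Nat.card (Multiplicative (ZMod p)) = p := by
    intro p
    rw [Nat.card_congr Multiplicative.toAdd, Nat.card_zmod]
  have hpG : ∀ p : ℕ, p.Prime → Nat.card (CH G (Multiplicative (ZMod p))) ≤ p := by
    rcases hn with hn | hn
    · intro p hp
      haveI : NeZero p := ⟨hp.ne_zero⟩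
      have h1 := hcnt (Multiplicative (ZMod p))
      have h2 := leH (Multiplicative (ZMod p))
      rw [cp] at h1 h2
      have h3 : p ^ n ≤ p ^ 2 := Nat.pow_le_pow_right hp.pos hn
      have h4 : Nat.card (CH G (Multiplicative (ZMod p))) * p ≤ p * p := by
        calc _ ≤ Nat.card (CH G (Multiplicative (ZMod p))) *
              Nat.card (CH H (Multiplicative (ZMod p))) := Nat.mul_le_mul_left _ h2
          _ = p ^ n := h1
          _ ≤ p ^ 2 := h3
          _ = p * p := by ring
      exact Nat.le_of_mul_le_mul_right h4 hp.pos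
    · exact hn
  have hpG' : ∀ p : ℕ, p.Prime → Nat.card (CH G (Multiplicative (ZMod p))) = p := by
    intro p hp
    haveI : NeZero p := ⟨hp.ne_zero⟩
    have h2 := leG (Multiplicative (ZMod p))
    rw [cp] at h2
    exact le_antisymm (hpG p hp) h2
  have eqG : ∀ (K : Type) [Group K] [Finite K], Nat.card (CH G K) = Nat.card K := by
    intro K _ _
    refine card_eq_of_solvable G h0G ?_ ?_ K
    · intro Q _ _ φ hφ
      exact isSolvable_quot G UG h0G hpG Q φ hφ
    · intro T _ _ hT
      haveI := hT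
      exact card_solvable G UG h0G hpG' T
  have hn2 : 2 ≤ n := by
    have h1 := hcnt (Multiplicative (ZMod 2))
    have h2 := leH (Multiplicative (ZMod 2))
    have h3 := leG (Multiplicative (ZMod 2))
    rw [cp] at h1 h2 h3
    by_contra hlt
    have h4 : (2 : ℕ) ^ n ≤ 2 ^ 1 := Nat.pow_le_pow_right (by norm_num) (by omega)
    nlinarith
  have eqH : ∀ (K : Type) [Group K] [Finite K],
      Nat.card (CH H K) = Nat.card K ^ (n - 1) := by
    intro K _ _
    have h1 := hcnt K
    rw [eqG K] at h1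
    have h2 : Nat.card K ^ n = Nat.card K * Nat.card K ^ (n - 1) := by
      rw [← pow_succ']
      congr 1
      omega
    rw [h2] at h1
    exact Nat.eq_of_mul_eq_mul_left Nat.card_pos h1
  refine ⟨⟨1, recog G 1 ?_⟩, ⟨n - 1, recog H (n - 1) ?_⟩⟩
  · intro K _ _
    rw [pow_one]
    exact eqG K
  · intro K _ _
    exact eqH K

theorem main
    (G : Type) [Group G] [TopologicalSpace G] [IsTopologicalGroup G] [CompactSpace G]
    [T2Space G] [TotallyDisconnectedSpace G]
    (H : Type) [Group H] [TopologicalSpace H] [IsTopologicalGroup H] [CompactSpace H]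
    [T2Space H] [TotallyDisconnectedSpace H]
    (P : Type) [Group P] [TopologicalSpace P] [IsTopologicalGroup P] [CompactSpace P]
    [T2Space P] [TotallyDisconnectedSpace P]
    (iG : ContinuousMonoidHom G P) (iH : ContinuousMonoidHom H P)
    (hU : ∀ (K : Type) [Group K] [TopologicalSpace K] [IsTopologicalGroup K] [CompactSpace K]
          [T2Space K] [TotallyDisconnectedSpace K]
          (f : ContinuousMonoidHom G K) (g : ContinuousMonoidHom H K),
          ∃! φ : ContinuousMonoidHom P K, (∀ x, φ (iG x) = f x) ∧ (∀ y, φ (iH y) = g y))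
    (n : ℕ) (ι : Fin n → P)
    (hF : ∀ (K : Type) [Group K] [TopologicalSpace K] [IsTopologicalGroup K] [CompactSpace K]
          [T2Space K] [TotallyDisconnectedSpace K] (f : Fin n → K),
          ∃! φ : ContinuousMonoidHom P K, ∀ i, φ (ι i) = f i)
    (hn : n ≤ 2 ∨ (∀ p : ℕ, p.Prime → Nat.card (CH G (Multiplicative (ZMod p))) ≤ p) ∨
      (∀ p : ℕ, p.Prime → Nat.card (CH H (Multiplicative (ZMod p))) ≤ p)) :
    (∃ m : ℕ, ∃ ι : Fin m → G,
        ∀ (K : Type) [Group K] [TopologicalSpace K] [IsTopologicalGroup K] [CompactSpace K]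
          [T2Space K] [TotallyDisconnectedSpace K] (f : Fin m → K),
          ∃! φ : ContinuousMonoidHom G K, ∀ i, φ (ι i) = f i) ∧
    (∃ k : ℕ, ∃ ι : Fin k → H,
        ∀ (K : Type) [Group K] [TopologicalSpace K] [IsTopologicalGroup K] [CompactSpace K]
          [T2Space K] [TotallyDisconnectedSpace K] (f : Fin k → K),
          ∃! φ : ContinuousMonoidHom H K, ∀ i, φ (ι i) = f i) := by
  by_cases hH : ∀ y : H, y = 1
  · obtain ⟨h1, h2⟩ := free_of_trivial_factor G H P iG iH hU n ι hF hH
    exact ⟨⟨n, h1⟩, ⟨0, h2⟩⟩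
  by_cases hG : ∀ y : G, y = 1
  · obtain ⟨h1, h2⟩ := free_of_trivial_factor H G P iH iG (by
      intro K _ _ _ _ _ _ f g
      obtain ⟨φ, h1, h2⟩ := hU K g f
      exact ⟨φ, ⟨h1.2, h1.1⟩, fun ψ hψ => h2 ψ ⟨hψ.2, hψ.1⟩⟩) n ι hF hG
    exact ⟨⟨0, h2⟩, ⟨n, h1⟩⟩
  push Not at hG hH
  obtain ⟨hcnt, UG, UH⟩ := counts G H P n (iG : G →* P) (iH : H →* P)
    iG.continuous_toFun iH.continuous_toFun
    (fun K _ _ f g => coprod_fin G H P iG iH hU K f g) ι
    (fun K _ _ f => free_fin P n ι hF K f)
  rcases hn with hn | hn | hn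
  · exact main_aux G H n hcnt UG UH hG hH (Or.inl hn)
  · exact main_aux G H n hcnt UG UH hG hH (Or.inr hn)
  · have h := main_aux H G n (fun K _ _ => by rw [mul_comm]; exact hcnt K) UH UG hH hG
      (Or.inr hn)
    exact ⟨h.2, h.1⟩

end Pool.Agent.Helper127.FF
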