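import Mathlib
import Pool.Agent.Helper127.FF.Defs

set_option autoImplicit false

namespace Pool.Agent.Helper127.FF.N1


/-- powers of `x`, for `x ^ M = 1` -/
def w_pw (M : ℕ) [NeZero M] {H : Type} [Group H] (x : H) (hx : x ^ M = 1) :
    Multiplicative (ZMod M) →* H where
  toFun t := x ^ (Multiplicative.toAdd t).val
  map_one' := by
    show x ^ (0 : ZMod M).val = 1
    rw [ZMod.val_zero, pow_zero]
  map_mul' a b := by
    show x ^ (Multiplicative.toAdd a + Multiplicative.toAdd b).val = _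
    rw [ZMod.val_add, ← pow_eq_pow_mod _ hx, pow_add]

theorem w_pw_one (M : ℕ) [NeZero M] {H : Type} [Group H] (x : H) (hx : x ^ M = 1) :
    w_pw M x hx (Multiplicative.ofAdd 1) = x := by
  show x ^ (1 : ZMod M).val = x
  rw [ZMod.val_one_eq_one_mod, ← pow_eq_pow_mod _ hx, pow_one]

theorem w_ker_comp {G A B : Type} [Group G] [TopologicalSpace G] [IsTopologicalGroup G]
    [Group A] [Group B] (θ : G →* A) (hθ : IsOpen (θ.ker : Set G)) (f : A →* B) :
    IsOpen ((f.comp θ).ker : Set G) := by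
  refine Subgroup.isOpen_mono ?_ hθ
  intro g hg
  rw [MonoidHom.mem_ker] at hg ⊢
  rw [MonoidHom.comp_apply, hg, map_one]

theorem w_det {G H : Type} [Group G] [Group H] (M : ℕ) [NeZero M]
    (θ : G →* Multiplicative (ZMod M)) (g0 : G) (hg0 : θ g0 = Multiplicative.ofAdd 1)
    (ψ : G →* H) (hψ : ∀ g ∈ θ.ker, ψ g = 1) (g : G) :
    ψ g = ψ g0 ^ (Multiplicative.toAdd (θ g)).val := by
  have h1 : θ (g0 ^ (Multiplicative.toAdd (θ g)).val) = θ g := by
    rw [map_pow, hg0, ← ofAdd_nsmul, nsmul_eq_mul, mul_one, ZMod.natCast_zmod_val]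
    rfl
  have h2 : (g0 ^ (Multiplicative.toAdd (θ g)).val)⁻¹ * g ∈ θ.ker := by
    rw [MonoidHom.mem_ker, map_mul, map_inv, h1, inv_mul_cancel]
  have h3 := hψ _ h2
  rw [map_mul, map_inv, inv_mul_eq_one] at h3
  rw [← h3, map_pow]

theorem w_fiber_le {α β ι : Type} [Finite α] [Finite β] (f : α → ι) (g : β → ι)
    (h : ∀ i, Nat.card {a // f a = i} ≤ Nat.card {b // g b = i}) : Nat.card α ≤ Nat.card β := by
  classical
  have he : ∀ i, Nonempty ({a // f a = i} ↪ {b // g b = i}) := by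
    intro i
    haveI := Fintype.ofFinite {a // f a = i}
    haveI := Fintype.ofFinite {b // g b = i}
    refine Function.Embedding.nonempty_of_card_le ?_
    rw [← Nat.card_eq_fintype_card, ← Nat.card_eq_fintype_card]
    exact h i
  let e := fun i => (he i).some
  refine Nat.card_le_card_of_injective (fun a => (e (f a) ⟨a, rfl⟩).1) ?_
  intro a a' haa'
  have h1 : (e (f a) ⟨a, rfl⟩).1 = (e (f a') ⟨a', rfl⟩).1 := haa'
  have h2 : f a = f a' := by
    rw [← (e (f a) ⟨a, rfl⟩).2, ← (e (f a') ⟨a', rfl⟩).2, h1]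
  have h3 : ∀ (i i' : ι) (hi : f a = i) (hi' : f a' = i'), i = i' →
      (e i ⟨a, hi⟩).1 = (e i' ⟨a', hi'⟩).1 → a = a' := by
    intro i i' hi hi' hii h4
    subst hii
    have h5 := (e i).injective (Subtype.ext h4)
    exact congrArg Subtype.val h5
  exact h3 _ _ rfl rfl h2 h1

theorem w_CH_congr {G H H' : Type} [Group G] [TopologicalSpace G] [Group H] [Group H']
    (e : H ≃* H') : Nat.card (CH G H) = Nat.card (CH G H') := by
  have key : ∀ {H H' : Type} [Group H] [Group H'] (e : H ≃* H') (φ : G →* H),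
      (e.toMonoidHom.comp φ).ker = φ.ker := by
    intro H H' _ _ e φ
    ext g
    simp [MonoidHom.mem_ker]
  refine Nat.card_congr
    { toFun := fun φ => ⟨e.toMonoidHom.comp φ.1, by rw [key e φ.1]; exact φ.2⟩
      invFun := fun φ => ⟨e.symm.toMonoidHom.comp φ.1, by rw [key e.symm φ.1]; exact φ.2⟩
      left_inv := ?_
      right_inv := ?_ }
  · intro φ
    apply Subtype.ext
    ext g
    simp
  · intro φ
    apply Subtype.ext
    ext g
    simp

/-- many homomorphisms from a uniform group with rank at least 2 at `p` -/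
theorem pairs_le
    (G : Type) [Group G] [TopologicalSpace G] [IsTopologicalGroup G] (hU : Unif G)
    (h0 : ∀ (K : Type) [Group K] [Finite K], Nat.card (CH G K) ≠ 0)
    (h2 : ∀ M : ℕ, 0 < M → ∃ φ : CH G (Multiplicative (ZMod M)), Function.Surjective φ.1)
    (p : ℕ) [Fact p.Prime]
    (hp : p ^ 2 ≤ Nat.card (CH G (Multiplicative (ZMod p))))
    (K : Type) [Group K] [Finite K] :
    Nat.card {z : K × K // z.2 ^ p = 1 ∧ z.1 * z.2 * z.1⁻¹ ∈ Subgroup.zpowers z.2} ≤
      Nat.card (CH G K) := by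
  classical
  have hpp : p.Prime := Fact.out
  set M : ℕ := Nat.card K with hM
  haveI : NeZero M := ⟨Nat.card_pos.ne'⟩
  have hxM : ∀ x : K, x ^ M = 1 := fun x => pow_card_eq_one'
  obtain ⟨⟨θ, hθo⟩, hθs⟩ := h2 M (Nat.pos_of_ne_zero (NeZero.ne M))
  obtain ⟨g0, hg0⟩ := hθs (Multiplicative.ofAdd 1)
  simp only at hg0
  haveI hfinCH : ∀ (A : Type) [Group A] [Finite A], Finite (CH G A) :=
    fun A _ _ => Nat.finite_of_card_ne_zero (h0 A)
  set f : {z : K × K // z.2 ^ p = 1 ∧ z.1 * z.2 * z.1⁻¹ ∈ Subgroup.zpowers z.2} →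
      Subgroup K × Set K := fun z =>
    (Subgroup.zpowers z.1.2, (fun h => z.1.1 * h) '' (Subgroup.zpowers z.1.2 : Set K)) with hf
  set g : CH G K → Subgroup K × Set K := fun ψ =>
    (θ.ker.map ψ.1, (fun h => ψ.1 g0 * h) '' (θ.ker.map ψ.1 : Set K)) with hg
  refine w_fiber_le f g ?_
  intro i
  haveI : Finite (CH G K) := hfinCH K
  by_cases hne : Nonempty {a // f a = i}
  swap
  · rw [not_nonempty_iff] at hne
    rw [Nat.card_of_isEmpty]
    exact Nat.zero_le _
  obtain ⟨⟨⟨⟨x0, y0⟩, hy0, hxy0⟩, hi⟩⟩ := hne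
  simp only at hy0 hxy0
  subst hi
  by_cases hy1 : y0 = 1
  · -- trivial case
    subst hy1
    have hL : Nat.card {a // f a = f ⟨(x0, 1), hy0, hxy0⟩} ≤ 1 := by
      rw [Finite.card_le_one_iff_subsingleton]
      constructor
      intro a b
      have hab : ∀ a : {a // f a = f ⟨(x0, 1), hy0, hxy0⟩}, a.1.1 = (x0, 1) := by
        rintro ⟨⟨⟨x, y⟩, hy, hxy⟩, hfa⟩
        simp only [hf, Prod.mk.injEq, Subgroup.zpowers_one_eq_bot] at hfa
        obtain ⟨h3, h4⟩ := hfa
        have hy' : y = 1 := Subgroup.zpowers_eq_bot.1 h3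
        subst hy'
        simp only [Subgroup.zpowers_one_eq_bot, Subgroup.coe_bot, Set.image_singleton, mul_one,
          Set.singleton_eq_singleton_iff] at h4
        subst h4
        rfl
      apply Subtype.ext
      apply Subtype.ext
      rw [hab a, hab b]
    have hR : 0 < Nat.card {b // g b = f ⟨(x0, 1), hy0, hxy0⟩} := by
      haveI : Nonempty {b // g b = f ⟨(x0, 1), hy0, hxy0⟩} := by
        refine ⟨⟨⟨(w_pw M x0 (hxM x0)).comp θ, w_ker_comp θ hθo _⟩, ?_⟩⟩
        have e1 : θ.ker.map ((w_pw M x0 (hxM x0)).comp θ) = ⊥ := by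
          rw [eq_bot_iff]
          rintro _ ⟨g, hgk, rfl⟩
          rw [Subgroup.mem_bot, MonoidHom.comp_apply, (MonoidHom.mem_ker).1 hgk, map_one]
        have e2 : ((w_pw M x0 (hxM x0)).comp θ) g0 = x0 := by
          rw [MonoidHom.comp_apply, hg0, w_pw_one]
        simp only [hf, hg, e1, e2, Subgroup.zpowers_one_eq_bot]
      exact Nat.card_pos
    omega
  -- main case
  have hord : orderOf y0 = p := orderOf_eq_prime hy0 hy1
  set Y : Subgroup K := Subgroup.zpowers y0 with hY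
  have hYc : Nat.card Y = p := by rw [hY, Nat.card_zpowers, hord]
  set C : Set K := (fun h => x0 * h) '' (Y : Set K) with hC
  have hCc : Nat.card C = p := by
    rw [hC, Nat.card_image_of_injective (mul_right_injective x0)]
    exact hYc
  have hfi : f ⟨(x0, y0), hy0, hxy0⟩ = (Y, C) := rfl
  rw [hfi]
  have hYbot : Y ≠ ⊥ := by
    intro h
    exact hy1 (Subgroup.zpowers_eq_bot.1 h)
  -- upper bound for the number of pairs
  have hU1 : Nat.card {a // f a = (Y, C)} ≤ p * (p - 1) := by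
    have hYm : Nat.card {y : Y // y ≠ 1} = p - 1 := by
      have h3 : Nat.card Y = Nat.card {y : Y // y = 1} + Nat.card {y : Y // ¬ y = 1} := by
        rw [← Nat.card_sum]
        exact Nat.card_congr (Equiv.sumCompl (fun y : Y => y = 1)).symm
      have h4 : Nat.card {y : Y // y = 1} = 1 := Nat.card_unique
      rw [hYc, h4] at h3
      show Nat.card {y : Y // ¬ y = 1} = p - 1
      omega
    have hprod : Nat.card (C × {y : Y // y ≠ 1}) = p * (p - 1) := by
      rw [Nat.card_prod, hCc, hYm]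
    rw [← hprod]
    have hmem : ∀ a : {a // f a = (Y, C)}, a.1.1.1 ∈ C ∧ a.1.1.2 ∈ Y ∧ a.1.1.2 ≠ 1 := by
      rintro ⟨⟨⟨x, y⟩, hy, hxy⟩, hfa⟩
      simp only [hf, Prod.mk.injEq] at hfa
      obtain ⟨h3, h4⟩ := hfa
      refine ⟨?_, ?_, ?_⟩
      · show x ∈ C
        rw [← h4]
        exact ⟨1, one_mem _, mul_one x⟩
      · show y ∈ Y
        rw [← h3]
        exact Subgroup.mem_zpowers y
      · show y ≠ 1
        intro h5
        rw [h5, Subgroup.zpowers_one_eq_bot] at h3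
        exact hYbot h3.symm
    refine Nat.card_le_card_of_injective
      (fun a => (⟨a.1.1.1, (hmem a).1⟩, ⟨⟨a.1.1.2, (hmem a).2.1⟩, fun h =>
        (hmem a).2.2 (congrArg Subtype.val h)⟩)) ?_
    intro a b hab
    simp only [Prod.mk.injEq, Subtype.mk.injEq] at hab
    apply Subtype.ext
    apply Subtype.ext
    exact Prod.ext hab.1 hab.2
  refine hU1.trans ?_
  -- the normaliser
  set N : Subgroup K := Subgroup.normalizer (Y : Set K) with hN
  have hx0N : x0 ∈ N := by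
    rw [hN]
    refine Subgroup.mem_normalizer_fintype ?_
    intro n hn
    obtain ⟨k, rfl⟩ := Subgroup.mem_zpowers_iff.1 hn
    have h3 : x0 * y0 ^ k * x0⁻¹ = (x0 * y0 * x0⁻¹) ^ k := conj_zpow.symm
    rw [h3]
    exact zpow_mem hxy0 k
  have hYN : Y ≤ N := Subgroup.le_normalizer
  haveI hnorm : (Y.subgroupOf N).Normal := Subgroup.normal_in_normalizer
  set π : N →* N ⧸ (Y.subgroupOf N) := QuotientGroup.mk' (Y.subgroupOf N) with hπ
  have hπs : Function.Surjective π := QuotientGroup.mk'_surjective _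
  have hxN : (⟨x0, hx0N⟩ : N) ^ M = 1 := Subtype.ext (hxM x0)
  set φ : CH G (N ⧸ (Y.subgroupOf N)) :=
    ⟨(π.comp (w_pw M ⟨x0, hx0N⟩ hxN)).comp θ, w_ker_comp θ hθo _⟩ with hφ
  have hcard : Nat.card (Lift π φ) = Nat.card (CH G π.ker) := hU N _ π hπs φ
  have hker : Nat.card π.ker = p := by
    rw [hπ, QuotientGroup.ker_mk', Nat.card_congr (Subgroup.subgroupOfEquivOfLe hYN).toEquiv, hYc]
  have hcard2 : Nat.card (CH G π.ker) = Nat.card (CH G (Multiplicative (ZMod p))) :=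
    w_CH_congr (mulEquivOfPrimeCardEq hker (by simp))
  have hLge : p ^ 2 ≤ Nat.card (Lift π φ) := by rw [hcard, hcard2]; exact hp
  haveI hfinN : Finite (CH G N) := hfinCH N
  haveI hfinL : Finite (Lift π φ) := Subtype.finite
  -- facts on lifts
  have hkerπ : π.ker = Y.subgroupOf N := by rw [hπ, QuotientGroup.ker_mk']
  have hLk : ∀ ψ : Lift π φ, ∀ g ∈ θ.ker, ((ψ.1.1 g : N) : K) ∈ Y := by
    intro ψ g hgk
    have h3 : π (ψ.1.1 g) = 1 := by
      have h4 := DFunLike.congr_fun ψ.2 g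
      rw [MonoidHom.comp_apply] at h4
      rw [h4, hφ]
      simp only [MonoidHom.comp_apply]
      rw [(MonoidHom.mem_ker).1 hgk, map_one, map_one]
    have h5 : ψ.1.1 g ∈ Y.subgroupOf N := (SetLike.ext_iff.1 hkerπ _).1 h3
    exact (Subgroup.mem_subgroupOf).1 h5
  have hL0 : ∀ ψ : Lift π φ, ((ψ.1.1 g0 : N) : K) ∈ C := by
    intro ψ
    have h3 : π (ψ.1.1 g0) = π ⟨x0, hx0N⟩ := by
      have h4 := DFunLike.congr_fun ψ.2 g0
      rw [MonoidHom.comp_apply] at h4
      rw [h4, hφ]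
      simp only [MonoidHom.comp_apply]
      rw [hg0, w_pw_one]
    have h5 : (⟨x0, hx0N⟩ : N)⁻¹ * ψ.1.1 g0 ∈ Y.subgroupOf N := QuotientGroup.eq.1 h3.symm
    rw [Subgroup.mem_subgroupOf] at h5
    refine ⟨_, h5, ?_⟩
    simp
  -- split
  have hsplit : Nat.card (Lift π φ) =
      Nat.card {ψ : Lift π φ // ∀ g ∈ θ.ker, ψ.1.1 g = 1} +
      Nat.card {ψ : Lift π φ // ¬ ∀ g ∈ θ.ker, ψ.1.1 g = 1} := by
    rw [← Nat.card_sum]
    exact Nat.card_congr (Equiv.sumCompl (fun ψ : Lift π φ => ∀ g ∈ θ.ker, ψ.1.1 g = 1)).symm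
  have hle0 : Nat.card {ψ : Lift π φ // ∀ g ∈ θ.ker, ψ.1.1 g = 1} ≤ p := by
    rw [← hCc]
    refine Nat.card_le_card_of_injective
      (fun ψ => (⟨((ψ.1.1.1 g0 : N) : K), hL0 ψ.1⟩ : C)) ?_
    intro ψ ψ' hψ
    have h3 : ψ.1.1.1 g0 = ψ'.1.1.1 g0 := by
      simp only [Subtype.mk.injEq] at hψ
      exact Subtype.ext hψ
    apply Subtype.ext
    apply Subtype.ext
    apply Subtype.ext
    ext g
    rw [w_det M θ g0 hg0 ψ.1.1.1 ψ.2 g, w_det M θ g0 hg0 ψ'.1.1.1 ψ'.2 g, h3]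
  have hle1 : Nat.card {ψ : Lift π φ // ¬ ∀ g ∈ θ.ker, ψ.1.1 g = 1} ≤
      Nat.card {b // g b = (Y, C)} := by
    have hopen : ∀ ψ : Lift π φ, IsOpen ((N.subtype.comp ψ.1.1).ker : Set G) := by
      intro ψ
      exact w_ker_comp ψ.1.1 ψ.1.2 _
    have hgY : ∀ ψ : {ψ : Lift π φ // ¬ ∀ g ∈ θ.ker, ψ.1.1 g = 1},
        g ⟨N.subtype.comp ψ.1.1.1, hopen ψ.1⟩ = (Y, C) := by
      rintro ⟨ψ, hψ⟩
      have e1 : θ.ker.map (N.subtype.comp ψ.1.1) = Y := by
        have hle : θ.ker.map (N.subtype.comp ψ.1.1) ≤ Y := by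
          rintro _ ⟨g, hgk, rfl⟩
          exact hLk ψ g hgk
        have hdvd := Subgroup.card_dvd_of_le hle
        rw [hYc] at hdvd
        rcases (Nat.dvd_prime hpp).1 hdvd with h3 | h3
        · exfalso
          apply hψ
          intro g hgk
          have h4 := Subgroup.eq_bot_of_card_eq _ h3
          have h5 : (N.subtype.comp ψ.1.1) g ∈ θ.ker.map (N.subtype.comp ψ.1.1) :=
            ⟨g, hgk, rfl⟩
          rw [h4, Subgroup.mem_bot] at h5
          exact Subtype.ext h5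
        · exact Subgroup.eq_of_le_of_card_ge hle (by rw [h3, hYc])
      have e2 : (fun h => (N.subtype.comp ψ.1.1) g0 * h) '' (Y : Set K) = C := by
        obtain ⟨y, hyY, hy⟩ := hL0 ψ
        have hy' : x0 * y = (N.subtype.comp ψ.1.1) g0 := hy
        rw [← hy', hC]
        ext k
        constructor
        · rintro ⟨h, hh, rfl⟩
          exact ⟨y * h, mul_mem hyY hh, (mul_assoc x0 y h).symm⟩
        · rintro ⟨h, hh, rfl⟩
          refine ⟨y⁻¹ * h, mul_mem (inv_mem hyY) hh, ?_⟩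
          show x0 * y * (y⁻¹ * h) = x0 * h
          group
      simp only [hg]
      rw [e1, e2]
    refine Nat.card_le_card_of_injective
      (fun ψ => (⟨⟨N.subtype.comp ψ.1.1.1, hopen ψ.1⟩, hgY ψ⟩ : {b // g b = (Y, C)})) ?_
    intro ψ ψ' hψ
    have h4 : N.subtype.comp ψ.1.1.1 = N.subtype.comp ψ'.1.1.1 :=
      congrArg (fun b : {b // g b = (Y, C)} => b.1.1) hψ
    apply Subtype.ext
    apply Subtype.ext
    apply Subtype.ext
    ext g
    exact DFunLike.congr_fun h4 g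
  have h7 : p * (p - 1) = p ^ 2 - p := by
    rw [Nat.mul_sub, mul_one, sq]
  omega

end Pool.Agent.Helper127.FF.N1
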