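import Mathlib
import Pool.Agent.Helper127.FF.Defs

set_option autoImplicit false

namespace Pool.Agent.Helper127.FF.N2


theorem pairs_perm_conj (p : ℕ) [Fact p.Prime] (y : Equiv.Perm (Fin p)) (hy : y.IsCycle)
    (ho : orderOf y = p) (j : ℕ) (hj : 0 < j) (hjp : j < p) :
    ∃ x : Equiv.Perm (Fin p), x * y * x⁻¹ = y ^ j := by
  have hp : p.Prime := Fact.out
  have h1 : (y ^ j).IsCycle :=
    hy.isCycle_pow_pos_of_lt_prime_order (by rw [ho]; exact hp) j hj (by rw [ho]; exact hjp)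
  have h2 : orderOf (y ^ j) = p := by
    apply orderOf_eq_prime
    · have h9 : y ^ p = 1 := by
        have h8 := pow_orderOf_eq_one y
        rwa [ho] at h8
      rw [← pow_mul, mul_comm, pow_mul, h9, one_pow]
    · intro h
      exact h1.ne_one h
  have h3 : y.support.card = (y ^ j).support.card := by
    rw [← hy.orderOf, ← h1.orderOf, ho, h2]
  obtain ⟨c, hc⟩ := isConj_iff.1 (hy.isConj h1 h3)
  exact ⟨c, hc⟩

theorem pairs_perm_cyc (p : ℕ) [Fact p.Prime] (y : Equiv.Perm (Fin p))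
    (hy : y.cycleType = {p}) : y.IsCycle ∧ orderOf y = p := by
  refine ⟨?_, ?_⟩
  · rw [← Equiv.Perm.card_cycleType_eq_one, hy, Multiset.card_singleton]
  · rw [← Equiv.Perm.lcm_cycleType, hy, Multiset.lcm_singleton]
    simp

/-- counting pairs in the symmetric group of prime degree -/
theorem pairs_perm (p : ℕ) [Fact p.Prime] :
    p * Nat.factorial p ≤
      Nat.card {z : Equiv.Perm (Fin p) × Equiv.Perm (Fin p) //
        z.2 ^ p = 1 ∧ z.1 * z.2 * z.1⁻¹ ∈ Subgroup.zpowers z.2} := by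
  classical
  have hp : p.Prime := Fact.out
  have hp2 := hp.two_le
  have hx : ∀ (y : {g : Equiv.Perm (Fin p) // g.cycleType = {p}}) (j : Fin (p - 1)),
      ∃ x : Equiv.Perm (Fin p), x * y.1 * x⁻¹ = y.1 ^ ((j : ℕ) + 1) := by
    intro y j
    obtain ⟨h1, h2⟩ := pairs_perm_cyc p y.1 y.2
    exact pairs_perm_conj p y.1 h1 h2 _ (Nat.succ_pos _) (by have := j.2; omega)
  choose X hX using hx
  have hmem : ∀ (y : {g : Equiv.Perm (Fin p) // g.cycleType = {p}}) (j : Fin (p - 1)) (i : Fin p),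
      (X y j * y.1 ^ (i : ℕ)) * y.1 * (X y j * y.1 ^ (i : ℕ))⁻¹ = y.1 ^ ((j : ℕ) + 1) := by
    intro y j i
    rw [← hX y j]
    have : y.1 ^ (i : ℕ) * y.1 = y.1 * y.1 ^ (i : ℕ) := ((Commute.refl y.1).pow_left _).eq
    rw [mul_inv_rev]
    calc X y j * y.1 ^ (i : ℕ) * y.1 * ((y.1 ^ (i : ℕ))⁻¹ * (X y j)⁻¹)
        = X y j * (y.1 ^ (i : ℕ) * y.1) * (y.1 ^ (i : ℕ))⁻¹ * (X y j)⁻¹ := by group
      _ = X y j * (y.1 * y.1 ^ (i : ℕ)) * (y.1 ^ (i : ℕ))⁻¹ * (X y j)⁻¹ := by rw [this]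
      _ = X y j * y.1 * (X y j)⁻¹ := by group
  have hpow : ∀ y : {g : Equiv.Perm (Fin p) // g.cycleType = {p}}, y.1 ^ p = 1 := by
    intro y
    have h2 := (pairs_perm_cyc p y.1 y.2).2
    have h3 := pow_orderOf_eq_one y.1
    rwa [h2] at h3
  have hinjpow : ∀ (y : {g : Equiv.Perm (Fin p) // g.cycleType = {p}}) (a b : ℕ), a < p → b < p →
      y.1 ^ a = y.1 ^ b → a = b := by
    intro y a b ha hb hab
    have h2 := (pairs_perm_cyc p y.1 y.2).2
    exact pow_injOn_Iio_orderOf (by rw [h2]; exact ha) (by rw [h2]; exact hb) hab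
  let f : (Equiv.Perm (Fin p)) ⊕
      ({g : Equiv.Perm (Fin p) // g.cycleType = {p}} × Fin (p - 1) × Fin p) →
      {z : Equiv.Perm (Fin p) × Equiv.Perm (Fin p) //
        z.2 ^ p = 1 ∧ z.1 * z.2 * z.1⁻¹ ∈ Subgroup.zpowers z.2} := fun s =>
    match s with
    | Sum.inl x => ⟨(x, 1), by
        refine ⟨one_pow _, ?_⟩
        show x * 1 * x⁻¹ ∈ _
        rw [mul_one, mul_inv_cancel]
        exact Subgroup.one_mem _⟩
    | Sum.inr w => ⟨(X w.1 w.2.1 * w.1.1 ^ (w.2.2 : ℕ), w.1.1), by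
        refine ⟨hpow w.1, ?_⟩
        show (X w.1 w.2.1 * w.1.1 ^ (w.2.2 : ℕ)) * w.1.1 * (X w.1 w.2.1 * w.1.1 ^ (w.2.2 : ℕ))⁻¹ ∈ _
        rw [hmem]
        exact Subgroup.pow_mem _ (Subgroup.mem_zpowers _) _⟩
  have hf : Function.Injective f := by
    rintro (x | ⟨y, j, i⟩) (x' | ⟨y', j', i'⟩) h
    · have h1 := congrArg (fun z => z.1.1) h
      exact congrArg Sum.inl h1
    · exfalso
      have h1 : (1 : Equiv.Perm (Fin p)) = y'.1 := congrArg (fun z => z.1.2) h
      have h2 := (pairs_perm_cyc p y'.1 y'.2).1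
      exact h2.ne_one h1.symm
    · exfalso
      have h1 : y.1 = (1 : Equiv.Perm (Fin p)) := congrArg (fun z => z.1.2) h
      have h2 := (pairs_perm_cyc p y.1 y.2).1
      exact h2.ne_one h1
    · have h1 : y.1 = y'.1 := congrArg (fun z => z.1.2) h
      have h1' : y = y' := Subtype.ext h1
      subst h1'
      have h2 : X y j * y.1 ^ (i : ℕ) = X y j' * y.1 ^ (i' : ℕ) := congrArg (fun z => z.1.1) h
      have h3 := hmem y j i
      rw [h2, hmem y j' i'] at h3
      have h4 : (j' : ℕ) + 1 = (j : ℕ) + 1 :=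
        hinjpow y _ _ (by have := j'.2; omega) (by have := j.2; omega) h3
      have h5 : j = j' := Fin.ext (by omega)
      subst h5
      have h6 : y.1 ^ (i : ℕ) = y.1 ^ (i' : ℕ) := mul_left_cancel h2
      have h7 : i = i' := Fin.ext (hinjpow y _ _ i.2 i'.2 h6)
      subst h7
      rfl
  have hcard := Nat.card_le_card_of_injective f hf
  refine le_trans (le_of_eq ?_) hcard
  rw [Nat.card_sum, Nat.card_prod, Nat.card_prod]
  have hC : Nat.card {g : Equiv.Perm (Fin p) // g.cycleType = {p}} = Nat.factorial (p - 1) := by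
    have h1 := Equiv.Perm.card_of_cycleType_singleton (α := Fin p) (n := p) hp2 (by simp)
    rw [Fintype.card_fin, Nat.choose_self, mul_one] at h1
    rw [Nat.card_eq_fintype_card, Fintype.card_subtype]
    exact h1
  rw [hC]
  have hP : Nat.card (Equiv.Perm (Fin p)) = Nat.factorial p := by
    rw [Nat.card_eq_fintype_card, Fintype.card_perm, Fintype.card_fin]
  rw [hP, Nat.card_eq_fintype_card, Nat.card_eq_fintype_card, Fintype.card_fin, Fintype.card_fin]
  obtain ⟨m, rfl⟩ : ∃ m, p = m + 1 := ⟨p - 1, by omega⟩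
  rw [Nat.add_sub_cancel, Nat.factorial_succ]
  ring

end Pool.Agent.Helper127.FF.N2
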