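import Mathlib
import Pool.Agent.Helper127.FF.Defs

set_option autoImplicit false

namespace Pool.Agent.Helper127.FF.N3


/-- restriction of a homomorphism to an invariant set -/
def resHom {G X : Type} [Group G] (A : Set X) (φ : G →* Equiv.Perm X)
    (h : ∀ g x, φ g x ∈ A ↔ x ∈ A) : G →* Equiv.Perm A where
  toFun g := (φ g).subtypePerm (fun x => h g x)
  map_one' := by
    ext x
    simp
  map_mul' g k := by
    ext x
    show φ (g * k) x = φ g (φ k x)
    rw [map_mul]
    rfl

theorem resHom_apply {G X : Type} [Group G] (A : Set X) (φ : G →* Equiv.Perm X)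
    (h : ∀ g x, φ g x ∈ A ↔ x ∈ A) (g : G) (x : A) : ((resHom A φ h g x : A) : X) = φ g x := rfl

theorem resHom_open {G X : Type} [Group G] [TopologicalSpace G] [IsTopologicalGroup G] (A : Set X)
    (φ : G →* Equiv.Perm X) (h : ∀ g x, φ g x ∈ A ↔ x ∈ A) (ho : IsOpen (φ.ker : Set G)) :
    IsOpen ((resHom A φ h).ker : Set G) := by
  refine Subgroup.isOpen_mono (H₁ := φ.ker) ?_ ho
  intro g hg
  rw [MonoidHom.mem_ker] at hg ⊢
  ext x
  rw [resHom_apply, hg]
  rfl

/-- splitting off one block: homomorphisms to `Perm (α ⊕ β)` preserving the two summands -/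
theorem card_split
    (G : Type) [Group G] [TopologicalSpace G] [IsTopologicalGroup G]
    (X : Type) [Finite X] (A : Set X) :
    Nat.card {φ : CH G (Equiv.Perm X) // ∀ g x, φ.1 g x ∈ A ↔ x ∈ A} =
      Nat.card (CH G (Equiv.Perm A)) * Nat.card (CH G (Equiv.Perm (Aᶜ : Set X))) := by
  classical
  rw [← Nat.card_prod]
  have hc : ∀ (φ : {φ : CH G (Equiv.Perm X) // ∀ g x, φ.1 g x ∈ A ↔ x ∈ A}) (g : G) (x : X),
      φ.1.1 g x ∈ Aᶜ ↔ x ∈ Aᶜ := fun φ g x => not_congr (φ.2 g x)
  refine Nat.card_congr (Equiv.ofBijective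
    (fun φ : {φ : CH G (Equiv.Perm X) // ∀ g x, φ.1 g x ∈ A ↔ x ∈ A} =>
      ((⟨resHom A φ.1.1 φ.2, resHom_open A _ _ φ.1.2⟩ : CH G (Equiv.Perm A)),
       (⟨resHom Aᶜ φ.1.1 (hc φ), resHom_open Aᶜ _ _ φ.1.2⟩ : CH G (Equiv.Perm (Aᶜ : Set X)))))
    ⟨?_, ?_⟩)
  · intro φ ψ h
    have h1 := congrArg (fun p => p.1.1) h
    have h2 := congrArg (fun p => p.2.1) h
    simp only at h1 h2
    apply Subtype.ext
    apply Subtype.ext
    ext g x
    by_cases hx : x ∈ A
    · have := congrArg (fun f => ((f g ⟨x, hx⟩ : A) : X)) h1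
      simpa [resHom_apply] using this
    · have hx' : x ∈ Aᶜ := hx
      have := congrArg (fun f => ((f g ⟨x, hx'⟩ : (Aᶜ : Set X)) : X)) h2
      simpa [resHom_apply] using this
  · rintro ⟨a, b⟩
    -- the glued permutation
    let b' : G → Equiv.Perm {x // ¬ (x ∈ A)} := fun g => b.1 g
    let φ : G →* Equiv.Perm X :=
      { toFun := fun g => Equiv.Perm.subtypeCongr (p := (· ∈ A)) (a.1 g) (b' g)
        map_one' := by
          ext x
          by_cases hx : x ∈ A
          · rw [Equiv.Perm.subtypeCongr.left_apply _ _ hx, map_one]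
            rfl
          · rw [Equiv.Perm.subtypeCongr.right_apply _ _ hx]
            have : b' 1 = 1 := map_one b.1
            rw [this]
            rfl
        map_mul' := by
          intro g k
          ext x
          by_cases hx : x ∈ A
          · rw [Equiv.Perm.subtypeCongr.left_apply _ _ hx, map_mul, Equiv.Perm.mul_apply,
              Equiv.Perm.mul_apply, Equiv.Perm.subtypeCongr.left_apply _ _ hx,
              Equiv.Perm.subtypeCongr.left_apply _ _ (a.1 k ⟨x, hx⟩).2]
          · rw [Equiv.Perm.subtypeCongr.right_apply _ _ hx]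
            have : b' (g * k) = b' g * b' k := map_mul b.1 g k
            rw [this, Equiv.Perm.mul_apply, Equiv.Perm.mul_apply,
              Equiv.Perm.subtypeCongr.right_apply _ _ hx,
              Equiv.Perm.subtypeCongr.right_apply _ _ (b' k ⟨x, hx⟩).2] }
    have hl : ∀ g x (hx : x ∈ A), φ g x = a.1 g ⟨x, hx⟩ := fun g x hx =>
      Equiv.Perm.subtypeCongr.left_apply _ _ hx
    have hr : ∀ g x (hx : x ∉ A), φ g x = b' g ⟨x, hx⟩ := fun g x hx =>
      Equiv.Perm.subtypeCongr.right_apply _ _ hx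
    have hinv : ∀ g x, φ g x ∈ A ↔ x ∈ A := by
      intro g x
      by_cases hx : x ∈ A
      · rw [hl g x hx]
        exact ⟨fun _ => hx, fun _ => (a.1 g ⟨x, hx⟩).2⟩
      · rw [hr g x hx]
        exact ⟨fun h => absurd h (b' g ⟨x, hx⟩).2, fun h => absurd h hx⟩
    have hopen : IsOpen (φ.ker : Set G) := by
      have hle : a.1.ker ⊓ b.1.ker ≤ φ.ker := by
        intro g hg
        obtain ⟨h1, h2⟩ := Subgroup.mem_inf.1 hg
        rw [MonoidHom.mem_ker] at h1 h2 ⊢
        have h2' : b' g = 1 := h2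
        ext x
        by_cases hx : x ∈ A
        · rw [hl g x hx, h1]; rfl
        · rw [hr g x hx, h2']; rfl
      refine Subgroup.isOpen_mono hle ?_
      rw [Subgroup.coe_inf]
      exact a.2.inter b.2
    refine ⟨⟨⟨φ, hopen⟩, hinv⟩, ?_⟩
    refine Prod.ext ?_ ?_
    · apply Subtype.ext
      ext g x
      rw [resHom_apply]
      exact hl g x x.2
    · apply Subtype.ext
      ext g x
      rw [resHom_apply]
      exact hr g x x.2

end Pool.Agent.Helper127.FF.N3
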