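import Mathlib
import Pool.Agent.Helper127.FF.Defs

set_option autoImplicit false

namespace Pool.Agent.Helper127.FF.N5


section PerfectQuotAux

variable {Q : Type} [Group Q] {X : Type} [MulAction Q X] {C : Type} [CommGroup C]

/-- the wreath type product -/
abbrev PqWR (Q X C : Type) [Group Q] [MulAction Q X] [CommGroup C] : Type :=
  (X → C) ⋊[(mulAutArrow : Q →* MulAut (X → C))] Q

theorem pq_mul_left (a b : PqWR Q X C) (x : X) :
    (a * b).left x = a.left x * b.left (a.right⁻¹ • x) := rfl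

/-- the product of the coordinates -/
def pqProd [Fintype X] : PqWR Q X C →* C where
  toFun := fun a => ∏ x, a.left x
  map_one' := Finset.prod_eq_one fun x _ => rfl
  map_mul' := fun a b => by
    have h1 : ∏ x, (a * b).left x = ∏ x, (a.left x * b.left (a.right⁻¹ • x)) :=
      Finset.prod_congr rfl fun x _ => pq_mul_left a b x
    rw [h1, Finset.prod_mul_distrib]
    congr 1
    exact Fintype.prod_equiv (MulAction.toPerm (a.right⁻¹ : Q)) _ _ (fun _ => rfl)

/-- conjugate of the trivial section -/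
def pqConj (v : X → C) : Q →* PqWR Q X C where
  toFun := fun q => ⟨fun x => v x * (v (q⁻¹ • x))⁻¹, q⟩
  map_one' := by
    refine SemidirectProduct.ext ?_ rfl
    funext x
    show v x * (v ((1 : Q)⁻¹ • x))⁻¹ = 1
    rw [inv_one, one_smul, mul_inv_cancel]
  map_mul' := fun g h => by
    refine SemidirectProduct.ext ?_ rfl
    funext x
    show v x * (v ((g * h)⁻¹ • x))⁻¹ = (v x * (v (g⁻¹ • x))⁻¹) * (v (g⁻¹ • x) * (v (h⁻¹ • g⁻¹ • x))⁻¹)
    rw [mul_inv_rev, mul_smul, mul_assoc, inv_mul_cancel_left]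

theorem pq_mem (T : Subgroup Q) (g : Q) (x : Q ⧸ T) :
    x.out⁻¹ * (g * (g⁻¹ • x : Q ⧸ T).out) ∈ T := by
  rw [← QuotientGroup.eq, QuotientGroup.out_eq']
  have h1 : ((g * (g⁻¹ • x : Q ⧸ T).out : Q) : Q ⧸ T) = g • (((g⁻¹ • x : Q ⧸ T).out : Q) : Q ⧸ T) := rfl
  rw [h1, QuotientGroup.out_eq', smul_inv_smul]

/-- the section of the Shapiro class of `χ` -/
noncomputable def pqChi (T : Subgroup Q) (χ : T →* C) : Q →* PqWR Q (Q ⧸ T) C where
  toFun := fun g => ⟨fun x => χ ⟨x.out⁻¹ * (g * (g⁻¹ • x : Q ⧸ T).out), pq_mem T g x⟩, g⟩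
  map_one' := by
    refine SemidirectProduct.ext ?_ rfl
    funext x
    show χ ⟨x.out⁻¹ * (1 * ((1 : Q)⁻¹ • x : Q ⧸ T).out), pq_mem T 1 x⟩ = 1
    have h1 : (⟨x.out⁻¹ * (1 * ((1 : Q)⁻¹ • x : Q ⧸ T).out), pq_mem T 1 x⟩ : T) = 1 := by
      refine Subtype.ext ?_
      show x.out⁻¹ * (1 * ((1 : Q)⁻¹ • x : Q ⧸ T).out) = 1
      rw [inv_one, one_smul, one_mul, inv_mul_cancel]
    rw [h1, map_one]
  map_mul' := fun g h => by
    refine SemidirectProduct.ext ?_ rfl
    funext x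
    show χ ⟨x.out⁻¹ * ((g * h) * ((g * h)⁻¹ • x : Q ⧸ T).out), pq_mem T (g * h) x⟩ =
      χ ⟨x.out⁻¹ * (g * (g⁻¹ • x : Q ⧸ T).out), pq_mem T g x⟩ *
      χ ⟨(g⁻¹ • x : Q ⧸ T).out⁻¹ * (h * (h⁻¹ • (g⁻¹ • x) : Q ⧸ T).out), pq_mem T h (g⁻¹ • x)⟩
    rw [← map_mul]
    congr 1
    refine Subtype.ext ?_
    show x.out⁻¹ * ((g * h) * ((g * h)⁻¹ • x : Q ⧸ T).out) =
      (x.out⁻¹ * (g * (g⁻¹ • x : Q ⧸ T).out)) *
      ((g⁻¹ • x : Q ⧸ T).out⁻¹ * (h * (h⁻¹ • (g⁻¹ • x) : Q ⧸ T).out))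
    rw [mul_inv_rev, mul_smul]
    group

end PerfectQuotAux

/-- a perfect finite quotient of a uniform group of rank at most one at `p` has order prime to `p` -/
theorem perfect_quot
    (G : Type) [Group G] [TopologicalSpace G] [IsTopologicalGroup G] (hU : Unif G)
    (h0 : ∀ (K : Type) [Group K] [Finite K], Nat.card (CH G K) ≠ 0)
    (p : ℕ) [Fact p.Prime]
    (hp : Nat.card (CH G (Multiplicative (ZMod p))) ≤ p)
    (Q : Type) [Group Q] [Finite Q] (φ : CH G Q) (hφ : Function.Surjective φ.1)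
    (hQ : ∀ χ : Q →* Multiplicative (ZMod p), χ = 1) :
    ¬ p ∣ Nat.card Q := by
  classical
  intro hdvd
  obtain ⟨t, ht⟩ := exists_prime_orderOf_dvd_card' p hdvd
  let T : Subgroup Q := Subgroup.zpowers t
  have hTcard : Nat.card T = p := by
    rw [Nat.card_zpowers, ht]
  have hCcard : Nat.card (Multiplicative (ZMod p)) = p := by
    rw [Nat.card_congr Multiplicative.toAdd, Nat.card_zmod]
  let χ : T →* Multiplicative (ZMod p) := (mulEquivOfPrimeCardEq hTcard hCcard).toMonoidHom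
  have hχinj : Function.Injective χ := (mulEquivOfPrimeCardEq hTcard hCcard).injective
  have : Fintype (Q ⧸ T) := Fintype.ofFinite _
  let x0 : Q ⧸ T := ((1 : Q) : Q ⧸ T)
  let P : PqWR Q (Q ⧸ T) (Multiplicative (ZMod p)) →* Multiplicative (ZMod p) := pqProd
  have hPdef : ∀ a, P a = ∏ x, a.left x := fun a => rfl
  have finA : Finite (PqWR Q (Q ⧸ T) (Multiplicative (ZMod p))) :=
    Finite.of_injective (fun a => (a.left, a.right)) (fun a b h => by
      have h1 := congrArg Prod.fst h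
      have h2 := congrArg Prod.snd h
      exact SemidirectProduct.ext h1 h2)
  let π0 : ↥P.ker →* Q := SemidirectProduct.rightHom.comp P.ker.subtype
  have hπ0 : Function.Surjective π0 := by
    intro q
    refine ⟨⟨SemidirectProduct.inr q, ?_⟩, rfl⟩
    rw [MonoidHom.mem_ker, hPdef]
    exact Finset.prod_eq_one fun x _ => rfl
  have hcount := hU ↥P.ker Q π0 hπ0 φ
  -- upper bound
  have finC : Finite (CH G (Multiplicative (ZMod p))) := (Nat.card_ne_zero.mp (h0 _)).2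
  let ev : ∀ x : Q ⧸ T, ↥π0.ker →* Multiplicative (ZMod p) := fun x =>
    { toFun := fun a => a.1.1.left x
      map_one' := rfl
      map_mul' := fun a b => by
        have h1 : a.1.1.right = 1 := a.2
        show (a.1.1 * b.1.1).left x = _
        rw [pq_mul_left, h1, inv_one, one_smul] }
  let Ψ : CH G ↥π0.ker → ({x : Q ⧸ T // x ≠ x0} → CH G (Multiplicative (ZMod p))) := fun ψ x =>
    ⟨(ev x.1).comp ψ.1, Subgroup.isOpen_mono (fun g hg => by
      rw [MonoidHom.mem_ker] at hg ⊢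
      rw [MonoidHom.comp_apply, hg, map_one]) ψ.2⟩
  have hΨ : Function.Injective Ψ := by
    intro ψ₁ ψ₂ h
    refine Subtype.ext (MonoidHom.ext fun g => ?_)
    have hne : ∀ x : Q ⧸ T, x ≠ x0 → (ψ₁.1 g).1.1.left x = (ψ₂.1 g).1.1.left x := by
      intro x hx
      have h1 := congrArg (fun f : CH G (Multiplicative (ZMod p)) => f.1 g) (congrFun h ⟨x, hx⟩)
      exact h1
    have hr : ∀ ψ : CH G ↥π0.ker, (ψ.1 g).1.1.right = 1 := fun ψ => (ψ.1 g).2
    have hp1 : ∀ ψ : CH G ↥π0.ker, ∏ x, (ψ.1 g).1.1.left x = 1 := fun ψ => (ψ.1 g).1.2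
    have hx0 : (ψ₁.1 g).1.1.left x0 = (ψ₂.1 g).1.1.left x0 := by
      have h1 := hp1 ψ₁
      have h2 := hp1 ψ₂
      rw [← Finset.mul_prod_erase _ _ (Finset.mem_univ x0)] at h1 h2
      have h3 : ∏ x ∈ Finset.univ.erase x0, (ψ₁.1 g).1.1.left x =
          ∏ x ∈ Finset.univ.erase x0, (ψ₂.1 g).1.1.left x :=
        Finset.prod_congr rfl fun x hx => hne x (Finset.ne_of_mem_erase hx)
      rw [h3, ← h2] at h1
      exact mul_right_cancel h1
    refine Subtype.ext (Subtype.ext (SemidirectProduct.ext ?_ ?_))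
    · funext x
      by_cases hx : x = x0
      · rw [hx]
        exact hx0
      · exact hne x hx
    · rw [hr, hr]
  have hup : Nat.card (CH G ↥π0.ker) ≤ p ^ Nat.card {x : Q ⧸ T // x ≠ x0} := by
    refine (Nat.card_le_card_of_injective Ψ hΨ).trans ?_
    rw [Nat.card_fun]
    exact Nat.pow_le_pow_left hp _
  have finL : Finite (Lift π0 φ) := by
    refine (Nat.card_ne_zero.mp ?_).2
    rw [hcount]
    exact h0 _
  -- lower bound
  have hker : ∀ (s : Q →* PqWR Q (Q ⧸ T) (Multiplicative (ZMod p))) (q : Q), s q ∈ P.ker := by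
    intro s q
    rw [MonoidHom.mem_ker]
    exact DFunLike.congr_fun (hQ (P.comp s)) q
  let mkL : {s : Q →* PqWR Q (Q ⧸ T) (Multiplicative (ZMod p)) // ∀ q, (s q).right = q} →
      Lift π0 φ := fun s =>
    ⟨⟨(s.1.codRestrict P.ker (hker s.1)).comp φ.1, Subgroup.isOpen_mono (fun g hg => by
      rw [MonoidHom.mem_ker] at hg ⊢
      rw [MonoidHom.comp_apply, hg, map_one]) φ.2⟩, by
      refine MonoidHom.ext fun g => ?_
      exact s.2 (φ.1 g)⟩
  have hmkL : Function.Injective mkL := by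
    intro s₁ s₂ h
    refine Subtype.ext (MonoidHom.ext fun q => ?_)
    obtain ⟨g, rfl⟩ := hφ q
    exact congrArg (fun f : Lift π0 φ => (f.1.1 g).1) h
  let ext : ({x : Q ⧸ T // x ≠ x0} → Multiplicative (ZMod p)) → (Q ⧸ T) → Multiplicative (ZMod p) :=
    fun u x => if hx : x = x0 then 1 else u ⟨x, hx⟩
  have hext0 : ∀ u, ext u x0 = 1 := fun u => dif_pos rfl
  let Φ : Option ({x : Q ⧸ T // x ≠ x0} → Multiplicative (ZMod p)) →
      {s : Q →* PqWR Q (Q ⧸ T) (Multiplicative (ZMod p)) // ∀ q, (s q).right = q} := fun o =>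
    match o with
    | none => ⟨pqChi T χ, fun _ => rfl⟩
    | some u => ⟨pqConj (ext u), fun _ => rfl⟩
  have htT : t ∈ T := Subgroup.mem_zpowers t
  have ht0 : (t⁻¹ • x0 : Q ⧸ T) = x0 := by
    show ((t⁻¹ * 1 : Q) : Q ⧸ T) = ((1 : Q) : Q ⧸ T)
    rw [QuotientGroup.eq]
    rw [mul_one, mul_one, inv_inv]
    exact htT
  have hno : ∀ u, (pqConj (ext u) : Q →* PqWR Q (Q ⧸ T) (Multiplicative (ZMod p))) ≠ pqChi T χ := by
    intro u h
    have h1 : ((pqConj (ext u) : Q →* PqWR Q (Q ⧸ T) (Multiplicative (ZMod p))) t).left x0 = (pqChi T χ t).left x0 := by rw [h]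
    have h2 : ((pqConj (ext u) : Q →* PqWR Q (Q ⧸ T) (Multiplicative (ZMod p))) t).left x0 = 1 := by
      show ext u x0 * (ext u (t⁻¹ • x0))⁻¹ = 1
      rw [ht0, mul_inv_cancel]
    have h3 : (pqChi T χ t).left x0 = χ ⟨x0.out⁻¹ * (t * (t⁻¹ • x0 : Q ⧸ T).out), pq_mem T t x0⟩ := rfl
    rw [h2, h3] at h1
    have h4 := hχinj ((map_one χ).trans h1)
    have h5 := congrArg Subtype.val h4
    have h6 : (1 : Q) = x0.out⁻¹ * (t * (t⁻¹ • x0 : Q ⧸ T).out) := h5
    rw [ht0] at h6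
    have h7 : t = 1 := by
      have h8 := congrArg (fun z => x0.out * z * x0.out⁻¹) h6
      simp only [mul_one, mul_inv_cancel, mul_inv_cancel_left, mul_inv_cancel_right] at h8
      exact h8.symm
    rw [h7, orderOf_one] at ht
    exact (Fact.out : p.Prime).one_lt.ne ht
  have hyes : ∀ u w, (pqConj (ext u) : Q →* PqWR Q (Q ⧸ T) (Multiplicative (ZMod p))) = pqConj (ext w) → u = w := by
    intro u w h
    funext x
    obtain ⟨q, hq⟩ := QuotientGroup.mk_surjective x.1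
    have h1 : ((pqConj (ext u) : Q →* PqWR Q (Q ⧸ T) (Multiplicative (ZMod p))) q⁻¹).left x0 = ((pqConj (ext w) : Q →* PqWR Q (Q ⧸ T) (Multiplicative (ZMod p))) q⁻¹).left x0 := by rw [h]
    have h2 : ∀ u, ((pqConj (ext u) : Q →* PqWR Q (Q ⧸ T) (Multiplicative (ZMod p))) q⁻¹).left x0 = ext u x0 * (ext u (q⁻¹⁻¹ • x0))⁻¹ := fun u => rfl
    have h3 : (q⁻¹⁻¹ • x0 : Q ⧸ T) = x.1 := by
      rw [inv_inv, ← hq]
      show ((q * 1 : Q) : Q ⧸ T) = _
      rw [mul_one]
    rw [h2, h2, h3, hext0, hext0, one_mul, one_mul, inv_inj] at h1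
    have h4 : ∀ u, ext u x.1 = u x := fun u => dif_neg x.2
    rw [h4, h4] at h1
    exact h1
  have hΦ : Function.Injective Φ := by
    intro a b h
    have h' := congrArg Subtype.val h
    match a, b, h' with
    | none, none, _ => rfl
    | none, some u, h' => exact absurd h'.symm (hno u)
    | some u, none, h' => exact absurd h' (hno u)
    | some u, some w, h' => rw [hyes u w h']
  have hlow := Nat.card_le_card_of_injective (mkL ∘ Φ) (hmkL.comp hΦ)
  rw [hcount, Finite.card_option, Nat.card_fun, hCcard] at hlow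
  omega

end Pool.Agent.Helper127.FF.N5
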