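import Mathlib
import Pool.Agent.Helper127.FF.Defs

set_option autoImplicit false

namespace Pool.Agent.Helper127.FF.N6


def CHtr {G K K' : Type} [Group G] [TopologicalSpace G] [Group K] [Group K'] (e : K ≃* K') :
    CH G K ≃ CH G K' where
  toFun φ := ⟨e.toMonoidHom.comp φ.1, by
    have h : ((e.toMonoidHom.comp φ.1).ker : Set G) = (φ.1.ker : Set G) := by
      ext x
      simp [MonoidHom.mem_ker]
    rw [h]; exact φ.2⟩
  invFun φ := ⟨e.symm.toMonoidHom.comp φ.1, by
    have h : ((e.symm.toMonoidHom.comp φ.1).ker : Set G) = (φ.1.ker : Set G) := by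
      ext x
      simp [MonoidHom.mem_ker]
    rw [h]; exact φ.2⟩
  left_inv φ := by
    apply Subtype.ext
    ext x
    simp
  right_inv φ := by
    apply Subtype.ext
    ext x
    simp

def fstKer (A B : Type) [Group A] [Group B] : B ≃* (MonoidHom.fst A B).ker where
  toFun b := ⟨(1, b), by show (MonoidHom.fst A B) (1, b) = 1; rfl⟩
  invFun x := x.1.2
  left_inv b := rfl
  right_inv x := by
    apply Subtype.ext
    have h : x.1.1 = 1 := x.2
    exact Prod.ext h.symm rfl
  map_mul' a b := by
    apply Subtype.ext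
    simp

theorem comp_open34567 (G : Type) [Group G] [TopologicalSpace G] (hU : Unif G)
    (h0 : ∀ (K : Type) [Group K] [Finite K], Nat.card (CH G K) ≠ 0)
    (A B : Type) [Group A] [Finite A] [Group B] [Finite B] (φ : CH G A) (f : A →* B) :
    IsOpen ((f.comp φ.1).ker : Set G) := by
  have hs : Function.Surjective (MonoidHom.fst A B) := fun a => ⟨(a, 1), rfl⟩
  have hc := hU (A × B) A (MonoidHom.fst A B) hs φ
  rw [← Nat.card_congr (CHtr (G := G) (fstKer A B))] at hc
  have hfin : Finite (CH G B) := Nat.finite_of_card_ne_zero (h0 B)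
  have hfinL : Finite (Lift (MonoidHom.fst A B) φ) := Nat.finite_of_card_ne_zero (by rw [hc]; exact h0 B)
  let j : CH G B → Lift (MonoidHom.fst A B) φ := fun χ =>
    ⟨⟨φ.1.prod χ.1, by
      have h : ((φ.1.prod χ.1).ker : Set G) = (φ.1.ker : Set G) ∩ (χ.1.ker : Set G) := by
        ext x
        simp [MonoidHom.mem_ker]
      rw [h]; exact φ.2.inter χ.2⟩, by ext x; rfl⟩
  have hj : Function.Injective j := by
    intro χ χ' h
    apply Subtype.ext
    have h2 : φ.1.prod χ.1 = φ.1.prod χ'.1 := congrArg (fun z => z.1.1) h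
    ext x
    exact congrArg Prod.snd (DFunLike.congr_fun h2 x)
  have hbij : Function.Bijective j := by
    rw [Nat.bijective_iff_injective_and_card]
    exact ⟨hj, hc.symm⟩
  let ψ0 : Lift (MonoidHom.fst A B) φ := ⟨⟨φ.1.prod (f.comp φ.1), by
      have h : ((φ.1.prod (f.comp φ.1)).ker : Set G) = (φ.1.ker : Set G) := by
        ext x
        simp only [SetLike.mem_coe, MonoidHom.mem_ker, MonoidHom.prod_apply, MonoidHom.comp_apply,
          Prod.mk_eq_one]
        constructor
        · exact fun h => h.1
        · intro h; exact ⟨h, by rw [h, map_one]⟩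
      rw [h]; exact φ.2⟩, by ext x; rfl⟩
  obtain ⟨χ, hχ⟩ := hbij.2 ψ0
  have h2 : φ.1.prod χ.1 = φ.1.prod (f.comp φ.1) := congrArg (fun z => z.1.1) hχ
  have h3 : χ.1 = f.comp φ.1 := by
    ext x
    exact congrArg Prod.snd (DFunLike.congr_fun h2 x)
  rw [← h3]
  exact χ.2

theorem card_mul34567 (G : Type) [Group G] [TopologicalSpace G] (hU : Unif G)
    (h0 : ∀ (K : Type) [Group K] [Finite K], Nat.card (CH G K) ≠ 0)
    (A : Type) [Group A] [Finite A] (N : Subgroup A) [N.Normal] :
    Nat.card (CH G A) = Nat.card (CH G (A ⧸ N)) * Nat.card (CH G N) := by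
  have hfA : Finite (CH G A) := Nat.finite_of_card_ne_zero (h0 A)
  have hfQ : Finite (CH G (A ⧸ N)) := Nat.finite_of_card_ne_zero (h0 (A ⧸ N))
  let e : CH G A ≃ Σ φ : CH G (A ⧸ N), Lift (QuotientGroup.mk' N) φ :=
    { toFun := fun ψ => ⟨⟨(QuotientGroup.mk' N).comp ψ.1,
        comp_open34567 G hU h0 A (A ⧸ N) ψ (QuotientGroup.mk' N)⟩, ⟨ψ, rfl⟩⟩
      invFun := fun p => p.2.1
      left_inv := fun ψ => rfl
      right_inv := by
        rintro ⟨φ, ψ, hψ⟩
        have : φ = ⟨(QuotientGroup.mk' N).comp ψ.1,
          comp_open34567 G hU h0 A (A ⧸ N) ψ (QuotientGroup.mk' N)⟩ := Subtype.ext hψ.symm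
        subst this
        rfl }
  have hfL : ∀ φ : CH G (A ⧸ N), Finite (Lift (QuotientGroup.mk' N) φ) := by
    intro φ
    unfold Lift
    infer_instance
  have := Fintype.ofFinite (CH G (A ⧸ N))
  rw [Nat.card_congr e, Nat.card_sigma]
  have hk : ∀ φ : CH G (A ⧸ N), Nat.card (Lift (QuotientGroup.mk' N) φ) = Nat.card (CH G N) := by
    intro φ
    rw [hU A (A ⧸ N) (QuotientGroup.mk' N) (QuotientGroup.mk'_surjective N) φ]
    exact Nat.card_congr (CHtr (MulEquiv.subgroupCongr (QuotientGroup.ker_mk' N)))
  rw [Finset.sum_congr rfl (fun φ _ => hk φ), Finset.sum_const, Finset.card_univ, smul_eq_mul,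
    Nat.card_eq_fintype_card (α := CH G (A ⧸ N))]

theorem exists_normal34567 (T : Type) [Group T] [Finite T] [Group.IsSolvable T] [Nontrivial T]
    (hnp : ¬ (Nat.card T).Prime) : ∃ N : Subgroup T, N.Normal ∧ N ≠ ⊥ ∧ N ≠ ⊤ := by
  by_cases hc : commutator T = ⊥
  · have hz : Subgroup.center T = ⊤ := by
      rwa [commutator_eq_bot_iff_center_eq_top] at hc
    have hcard : Nat.card T ≠ 1 := by
      have := Finite.one_lt_card (α := T)
      omega
    have hp : (Nat.card T).minFac.Prime := Nat.minFac_prime hcard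
    haveI : Fact (Nat.card T).minFac.Prime := ⟨hp⟩
    obtain ⟨x, hx⟩ := exists_prime_orderOf_dvd_card' (G := T) (Nat.card T).minFac (Nat.minFac_dvd _)
    refine ⟨Subgroup.zpowers x, ?_, ?_, ?_⟩
    · constructor
      intro n hn g
      have hnc : n ∈ Subgroup.center T := by rw [hz]; trivial
      have := (Subgroup.mem_center_iff.mp hnc) g
      rw [this, mul_inv_cancel_right]
      exact hn
    · intro h
      have h1 : x = 1 := Subgroup.zpowers_eq_bot.mp h
      rw [h1, orderOf_one] at hx
      exact hp.one_lt.ne hx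
    · intro h
      have h1 : Nat.card (Subgroup.zpowers x) = Nat.card T := by rw [h]; simp
      rw [Nat.card_zpowers, hx] at h1
      rw [h1] at hp
      exact hnp hp
  · exact ⟨commutator T, inferInstance, hc, (Group.IsSolvable.commutator_lt_top_of_nontrivial T).ne⟩

/-- the number of homomorphisms to a finite solvable group -/
theorem card_solv_formula
    (G : Type) [Group G] [TopologicalSpace G] (hU : Unif G)
    (h0 : ∀ (K : Type) [Group K] [Finite K], Nat.card (CH G K) ≠ 0)
    (r : ℕ → ℕ)
    (hp : ∀ p : ℕ, p.Prime → Nat.card (CH G (Multiplicative (ZMod p))) = r p)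
    (T : Type) [Group T] [Finite T] [Group.IsSolvable T] :
    Nat.card (CH G T) = (Nat.card T).factorization.prod (fun p k => r p ^ k) := by
  suffices H : ∀ n : ℕ, ∀ (T : Type) [Group T] [Finite T] [Group.IsSolvable T], Nat.card T = n →
      Nat.card (CH G T) = (Nat.card T).factorization.prod (fun p k => r p ^ k) from H _ T rfl
  intro n
  induction n using Nat.strong_induction_on with
  | _ n ih =>
    intro T _ _ _ hT
    rcases subsingleton_or_nontrivial T with hs | hn
    · have h1 : Nat.card T = 1 := by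
        rw [Nat.card_eq_one_iff_unique]
        exact ⟨hs, ⟨1⟩⟩
      rw [h1, Nat.factorization_one, Finsupp.prod_zero_index]
      have hfin : Finite (CH G T) := Nat.finite_of_card_ne_zero (h0 T)
      rw [Nat.card_eq_one_iff_unique]
      refine ⟨⟨fun φ ψ => ?_⟩, ?_⟩
      · apply Subtype.ext
        ext x
        exact Subsingleton.elim _ _
      · by_contra hne
        rw [not_nonempty_iff] at hne
        exact h0 T Nat.card_of_isEmpty
    · by_cases hp' : (Nat.card T).Prime
      · haveI : Fact (Nat.card T).Prime := ⟨hp'⟩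
        have hcyc : IsCyclic T := isCyclic_of_prime_card (p := Nat.card T) rfl
        have e := zmodCyclicMulEquiv hcyc
        rw [← Nat.card_congr (CHtr (G := G) e), hp _ hp', hp'.factorization,
          Finsupp.prod_single_index (h := fun p k => r p ^ k) (pow_zero _), pow_one]
      · obtain ⟨N, hN, hb, ht⟩ := exists_normal34567 T hp'
        have hmul := Subgroup.card_eq_card_quotient_mul_card_subgroup N
        have hpos : 0 < Nat.card T := Nat.card_pos
        have hN1 : Nat.card N ≠ 1 := by
          intro h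
          exact hb (Subgroup.eq_bot_of_card_eq N h)
        have hNpos : 0 < Nat.card N := Nat.card_pos
        have hQpos : 0 < Nat.card (T ⧸ N) := Nat.card_pos
        have hQ1 : Nat.card (T ⧸ N) ≠ 1 := by
          intro h
          rw [h, one_mul] at hmul
          exact ht (Subgroup.eq_top_of_card_eq N hmul.symm)
        have hlt1 : Nat.card N < n := by
          rw [← hT, hmul]
          nlinarith [show 2 ≤ Nat.card (T ⧸ N) by omega]
        have hlt2 : Nat.card (T ⧸ N) < n := by
          rw [← hT, hmul]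
          nlinarith [show 2 ≤ Nat.card N by omega]
        have i1 := ih _ hlt1 N rfl
        have i2 := ih _ hlt2 (T ⧸ N) rfl
        rw [card_mul34567 G hU h0 T N, i1, i2, hmul, Nat.factorization_mul hQpos.ne' hNpos.ne',
          Finsupp.prod_add_index']
        · intro a; exact pow_zero _
        · intro a b c; exact pow_add _ _ _

end Pool.Agent.Helper127.FF.N6
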