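import Mathlib
import Pool.Agent.Helper127.FF.Defs

set_option autoImplicit false

namespace Pool.Agent.Helper127.FF.N7


theorem cgd_fibE (G K : Type) [Group G] [TopologicalSpace G] [Group K]
    (S : Subgroup K) :
    Nat.card {φ : CH G K // φ.1.range = S} = Nat.card {ψ : CH G S // Function.Surjective ψ.1} := by
  refine Nat.card_congr ⟨fun φ => ⟨⟨φ.1.1.codRestrict S (fun g => by
      have h2 : φ.1.1 g ∈ φ.1.1.range := ⟨g, rfl⟩
      exact (le_of_eq φ.2) h2), ?_⟩, ?_⟩, fun ψ => ⟨⟨S.subtype.comp ψ.1.1, ?_⟩, ?_⟩, ?_, ?_⟩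
  · rw [MonoidHom.ker_codRestrict]; exact φ.1.2
  · rintro ⟨y, hy⟩
    have h := φ.2
    rw [← h] at hy
    obtain ⟨g, hg⟩ := hy
    exact ⟨g, Subtype.ext hg⟩
  · have : (S.subtype.comp ψ.1.1).ker = ψ.1.1.ker := by
      ext g
      simp [MonoidHom.mem_ker]
    rw [this]; exact ψ.1.2
  · ext y
    constructor
    · rintro ⟨g, hg⟩
      rw [← hg]
      exact (ψ.1.1 g).2
    · intro hy
      obtain ⟨g, hg⟩ := ψ.2 ⟨y, hy⟩
      exact ⟨g, by simp [hg]⟩
  · intro φ
    apply Subtype.ext
    apply Subtype.ext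
    ext g
    rfl
  · intro ψ
    apply Subtype.ext
    apply Subtype.ext
    ext g
    rfl

theorem cgd_fibC (K : Type) [Group K] (S : Subgroup K) :
    Nat.card {x : K // Subgroup.zpowers x = S} = Nat.card {y : S // Subgroup.zpowers y = ⊤} := by
  refine Nat.card_congr ⟨fun x => ⟨⟨x.1, by
      have h2 : x.1 ∈ Subgroup.zpowers x.1 := Subgroup.mem_zpowers _
      exact (le_of_eq x.2) h2⟩, ?_⟩, fun y => ⟨y.1.1, ?_⟩, ?_, ?_⟩
  · rw [eq_top_iff]
    rintro ⟨z, hz⟩ -
    have h := x.2
    rw [← h] at hz
    obtain ⟨n, hn⟩ := Subgroup.mem_zpowers_iff.1 hz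
    exact Subgroup.mem_zpowers_iff.2 ⟨n, Subtype.ext (by simpa using hn)⟩
  · ext z
    constructor
    · intro hz
      obtain ⟨n, hn⟩ := Subgroup.mem_zpowers_iff.1 hz
      rw [← hn]
      exact S.zpow_mem y.1.2 n
    · intro hz
      have h : (⟨z, hz⟩ : S) ∈ Subgroup.zpowers y.1 := by rw [y.2]; trivial
      obtain ⟨n, hn⟩ := Subgroup.mem_zpowers_iff.1 h
      refine Subgroup.mem_zpowers_iff.2 ⟨n, ?_⟩
      have := congrArg Subtype.val hn
      simpa using this
  · intro x
    rfl
  · intro y
    rfl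

theorem cgd_sumE (G K : Type) [Group G] [TopologicalSpace G] [Group K] [Finite K]
    (h0 : Nat.card (CH G K) ≠ 0) [Fintype (Subgroup K)] :
    Nat.card (CH G K) = ∑ S : Subgroup K, Nat.card {ψ : CH G S // Function.Surjective ψ.1} := by
  haveI : Finite (CH G K) := Nat.finite_of_card_ne_zero h0
  rw [← Nat.card_congr (Equiv.sigmaFiberEquiv (fun φ : CH G K => φ.1.range)), Nat.card_sigma]
  exact Finset.sum_congr rfl (fun S _ => cgd_fibE G K S)

theorem cgd_sumC (K : Type) [Group K] [Finite K] [Fintype (Subgroup K)] :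
    Nat.card K = ∑ S : Subgroup K, Nat.card {y : S // Subgroup.zpowers y = ⊤} := by
  rw [← Nat.card_congr (Equiv.sigmaFiberEquiv (fun x : K => Subgroup.zpowers x)), Nat.card_sigma]
  exact Finset.sum_congr rfl (fun S _ => cgd_fibC K S)

theorem cgd_topE (G K : Type) [Group G] [TopologicalSpace G] [Group K] :
    Nat.card {ψ : CH G (⊤ : Subgroup K) // Function.Surjective ψ.1}
      = Nat.card {ψ : CH G K // Function.Surjective ψ.1} := by
  rw [← cgd_fibE G K ⊤]
  exact Nat.card_congr (Equiv.subtypeEquivRight (fun φ => MonoidHom.range_eq_top))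

theorem cgd_topC (K : Type) [Group K] :
    Nat.card {y : (⊤ : Subgroup K) // Subgroup.zpowers y = ⊤}
      = Nat.card {x : K // Subgroup.zpowers x = ⊤} := by
  rw [← cgd_fibC K ⊤]

theorem cgd_main
    (G : Type) [Group G] [TopologicalSpace G]
    (h0 : ∀ (K : Type) [Group K] [Finite K], Nat.card (CH G K) ≠ 0)
    (M : ℕ)
    (hs : ∀ (Q : Type) [Group Q] [Finite Q] (φ : CH G Q), Nat.card Q ∣ M →
      Function.Surjective φ.1 → Group.IsSolvable Q)
    (hc : ∀ (T : Type) [Group T] [Finite T], Nat.card T ∣ M → Group.IsSolvable T →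
      Nat.card (CH G T) = Nat.card T)
    (n : ℕ) : ∀ (T : Type) [Group T] [Finite T], Nat.card T ∣ M → Nat.card T = n →
      Nat.card {ψ : CH G T // Function.Surjective ψ.1}
        = Nat.card {x : T // Subgroup.zpowers x = ⊤} := by
  induction n using Nat.strong_induction_on with
  | _ n ih =>
    intro T _ _ hTM hT
    classical
    by_cases hsol : Group.IsSolvable T
    · haveI : Fintype (Subgroup T) := Fintype.ofFinite _
      have h1 := cgd_sumE G T (h0 T)
      have h2 := cgd_sumC T
      have h3 := hc T hTM hsol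
      rw [h1, h2] at h3
      rw [← Finset.add_sum_erase _ _ (Finset.mem_univ (⊤ : Subgroup T)),
        ← Finset.add_sum_erase _ _ (Finset.mem_univ (⊤ : Subgroup T))] at h3
      have h4 : ∑ S ∈ Finset.univ.erase (⊤ : Subgroup T),
            Nat.card {ψ : CH G S // Function.Surjective ψ.1}
          = ∑ S ∈ Finset.univ.erase (⊤ : Subgroup T),
            Nat.card {y : S // Subgroup.zpowers y = ⊤} := by
        refine Finset.sum_congr rfl (fun S hS => ?_)
        have hne : S ≠ ⊤ := Finset.ne_of_mem_erase hS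
        have hlt : Nat.card S < n := by
          rw [← hT]
          refine lt_of_le_of_ne (Subgroup.card_le_card_group S) ?_
          intro h
          exact hne (Subgroup.eq_top_of_card_eq S h)
        exact ih _ hlt S ((Subgroup.card_subgroup_dvd_card S).trans hTM) rfl
      rw [h4] at h3
      have h5 := Nat.add_right_cancel h3
      rw [cgd_topE, cgd_topC] at h5
      exact h5
    · have h1 : Nat.card {ψ : CH G T // Function.Surjective ψ.1} = 0 := by
        haveI : IsEmpty {ψ : CH G T // Function.Surjective ψ.1} :=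
          ⟨fun ψ => hsol (hs T ψ.1 hTM ψ.2)⟩
        exact Nat.card_of_isEmpty
      have h2 : Nat.card {x : T // Subgroup.zpowers x = ⊤} = 0 := by
        haveI : IsEmpty {x : T // Subgroup.zpowers x = ⊤} := by
          refine ⟨fun x => hsol ?_⟩
          have hcomm : ∀ a b : T, a * b = b * a := by
            intro a b
            have ha : a ∈ Subgroup.zpowers x.1 := by rw [x.2]; trivial
            have hb : b ∈ Subgroup.zpowers x.1 := by rw [x.2]; trivial
            obtain ⟨m, rfl⟩ := Subgroup.mem_zpowers_iff.1 ha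
            obtain ⟨l, rfl⟩ := Subgroup.mem_zpowers_iff.1 hb
            rw [← zpow_add, ← zpow_add, add_comm]
          exact isSolvable_of_comm hcomm
        exact Nat.card_of_isEmpty
      rw [h1, h2]

/-- if all primes dividing the order of `K` have rank one then the number of homomorphisms to `K`
is the order of `K` -/
theorem card_of_good
    (G : Type) [Group G] [TopologicalSpace G]
    (h0 : ∀ (K : Type) [Group K] [Finite K], Nat.card (CH G K) ≠ 0)
    (K : Type) [Group K] [Finite K]
    (hs : ∀ (Q : Type) [Group Q] [Finite Q] (φ : CH G Q), Nat.card Q ∣ Nat.card K →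
      Function.Surjective φ.1 → Group.IsSolvable Q)
    (hc : ∀ (T : Type) [Group T] [Finite T], Nat.card T ∣ Nat.card K → Group.IsSolvable T →
      Nat.card (CH G T) = Nat.card T) :
    Nat.card (CH G K) = Nat.card K := by
  classical
  haveI : Fintype (Subgroup K) := Fintype.ofFinite _
  rw [cgd_sumE G K (h0 K), cgd_sumC K]
  exact Finset.sum_congr rfl (fun S _ =>
    cgd_main G h0 (Nat.card K) hs hc _ S (Subgroup.card_subgroup_dvd_card S) rfl)

end Pool.Agent.Helper127.FF.N7
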