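import Mathlib
import Pool.Agent.Helper127.FF.Core
import Pool.Agent.Helper127.FF.N1
import Pool.Agent.Helper127.FF.N5
import Pool.Agent.Helper127.FF.A5n4
import Pool.Agent.Helper127.FF.A5a
import Pool.Agent.Helper127.FF.A5n2
import Pool.Agent.Helper127.FF.A5c
import Pool.Agent.Helper127.FF.A5u
import Pool.Agent.Helper127.FF.N2
import Pool.Agent.Helper127.FF.N3
import Pool.Agent.Helper127.FF.N6
import Pool.Agent.Helper127.FF.N7
import Pool.Agent.Helper127.FF.A5n3
import Pool.Agent.Helper127.FF.A5n1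

set_option autoImplicit false

namespace Pool.Agent.Helper127.FF

open J3_counts R4 Z1 J4_M1 R1 R2 Z2 Z5 Z4 J1_coprod J2_free J5_M2 J6_M3 R3 T1 N1 N5 A5n4 A5a A5n2 A5c A5u N2 N3 N6 N7 A5n3 A5n1

/-- small image -/
def SmallIm (k : ℕ) : Prop := k = 1 ∨ k = 2 ∨ k = 3

theorem cnt_one (G : Type) [Group G] [TopologicalSpace G] (K : Type) [Group K] [Finite K] :
    Nat.card {φ : CH G K // Nat.card φ.1.range = 1} = 1 := by
  haveI : Unique {φ : CH G K // Nat.card φ.1.range = 1} :=
    { default := ⟨⟨1, by rw [MonoidHom.ker_one]; exact isOpen_univ⟩, by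
        show Nat.card ((1 : G →* K).range) = 1
        rw [MonoidHom.range_one]
        exact Subgroup.card_bot⟩
      uniq := by
        rintro ⟨⟨φ, h1⟩, h2⟩
        apply Subtype.ext
        apply Subtype.ext
        show φ = 1
        rw [Subgroup.card_eq_one] at h2
        exact MonoidHom.range_eq_bot_iff.mp h2 }
  exact Nat.card_unique

theorem cnt_small (G : Type) [Group G] [TopologicalSpace G]
    (h0 : ∀ (K : Type) [Group K] [Finite K], Nat.card (CH G K) ≠ 0)
    (K : Type) [Group K] [Finite K] (s2 s3 r2 r3 : ℕ)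
    (hs2 : Nat.card {S : Subgroup K // Nat.card S = 2} = s2)
    (hs3 : Nat.card {S : Subgroup K // Nat.card S = 3} = s3)
    (h2 : Nat.card (CH G (Multiplicative (ZMod 2))) = r2)
    (h3 : Nat.card (CH G (Multiplicative (ZMod 3))) = r3) :
    Nat.card {φ : CH G K // SmallIm (Nat.card φ.1.range)} =
      1 + (s2 * (r2 - 1) + s3 * (r3 - 1)) := by
  haveI : Finite (CH G K) := Nat.finite_of_card_ne_zero (h0 K)
  have e1 : {φ : CH G K // SmallIm (Nat.card φ.1.range)} ≃
      {φ : CH G K // Nat.card φ.1.range = 1} ⊕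
        {φ : CH G K // Nat.card φ.1.range = 2 ∨ Nat.card φ.1.range = 3} := by
    refine subtypeOrEquiv (fun φ : CH G K => Nat.card φ.1.range = 1)
      (fun φ : CH G K => Nat.card φ.1.range = 2 ∨ Nat.card φ.1.range = 3) ?_
    rw [Pi.disjoint_iff]
    intro φ
    rw [Prop.disjoint_iff]
    rintro ⟨h, h' | h'⟩ <;> omega
  have e2 : {φ : CH G K // Nat.card φ.1.range = 2 ∨ Nat.card φ.1.range = 3} ≃
      {φ : CH G K // Nat.card φ.1.range = 2} ⊕ {φ : CH G K // Nat.card φ.1.range = 3} := by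
    refine subtypeOrEquiv (fun φ : CH G K => Nat.card φ.1.range = 2)
      (fun φ : CH G K => Nat.card φ.1.range = 3) ?_
    rw [Pi.disjoint_iff]
    intro φ
    rw [Prop.disjoint_iff]
    rintro ⟨h, h'⟩
    omega
  rw [Nat.card_congr e1, Nat.card_sum, Nat.card_congr e2, Nat.card_sum, cnt_one,
    card_prime_image G h0 2 Nat.prime_two K, card_prime_image G h0 3 Nat.prime_three K,
    hs2, hs3, h2, h3]

theorem cnt_large (G : Type) [Group G] [TopologicalSpace G]
    (h0 : ∀ (K : Type) [Group K] [Finite K], Nat.card (CH G K) ≠ 0)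
    (K : Type) [Group K] [Finite K] (s2 s3 r2 r3 f : ℕ)
    (hs2 : Nat.card {S : Subgroup K // Nat.card S = 2} = s2)
    (hs3 : Nat.card {S : Subgroup K // Nat.card S = 3} = s3)
    (h2 : Nat.card (CH G (Multiplicative (ZMod 2))) = r2)
    (h3 : Nat.card (CH G (Multiplicative (ZMod 3))) = r3)
    (hf : Nat.card (CH G K) = f) :
    Nat.card {φ : CH G K // ¬ SmallIm (Nat.card φ.1.range)} =
      f - (1 + (s2 * (r2 - 1) + s3 * (r3 - 1))) := by
  classical
  haveI : Finite (CH G K) := Nat.finite_of_card_ne_zero (h0 K)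
  have e := Nat.card_congr (Equiv.sumCompl (fun φ : CH G K => SmallIm (Nat.card φ.1.range)))
  rw [Nat.card_sum, cnt_small G h0 K s2 s3 r2 r3 hs2 hs3 h2 h3, hf] at e
  omega

/-- stabiliser of a pair -/
def pairStab (i j : Fin 5) : Subgroup (alternatingGroup (Fin 5)) where
  carrier := {g | ((g : Equiv.Perm (Fin 5)) i = i ∧ (g : Equiv.Perm (Fin 5)) j = j) ∨
      ((g : Equiv.Perm (Fin 5)) i = j ∧ (g : Equiv.Perm (Fin 5)) j = i)}
  mul_mem' := by
    rintro a b (⟨h1, h2⟩ | ⟨h1, h2⟩) (⟨h3, h4⟩ | ⟨h3, h4⟩) <;>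
      simp [Equiv.Perm.mul_apply, h1, h2, h3, h4]
  one_mem' := by
    left
    simp
  inv_mem' := by
    rintro a (⟨h1, h2⟩ | ⟨h1, h2⟩)
    · left
      constructor
      · rw [InvMemClass.coe_inv, Equiv.Perm.inv_eq_iff_eq, h1]
      · rw [InvMemClass.coe_inv, Equiv.Perm.inv_eq_iff_eq, h2]
    · right
      constructor
      · rw [InvMemClass.coe_inv, Equiv.Perm.inv_eq_iff_eq, h2]
      · rw [InvMemClass.coe_inv, Equiv.Perm.inv_eq_iff_eq, h1]

/-- stabiliser of a point -/
def ptStab (i : Fin 5) : Subgroup (alternatingGroup (Fin 5)) where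
  carrier := {g | (g : Equiv.Perm (Fin 5)) i = i}
  mul_mem' := by
    intro a b h1 h2
    simp only [Set.mem_ofPred_eq] at h1 h2 ⊢
    rw [Subgroup.coe_mul, Equiv.Perm.mul_apply, h2, h1]
  one_mem' := by simp
  inv_mem' := by
    intro a h1
    simp only [Set.mem_ofPred_eq] at h1 ⊢
    rw [InvMemClass.coe_inv, Equiv.Perm.inv_eq_iff_eq, h1]

/-- the family of subgroups -/
def famA5 : Fin 5 ⊕ ({q : Fin 5 × Fin 5 // q.1 < q.2} ⊕ Sylow 5 (alternatingGroup (Fin 5))) →
    Subgroup (alternatingGroup (Fin 5))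
  | Sum.inl i => ptStab i
  | Sum.inr (Sum.inl q) => pairStab q.1.1 q.1.2
  | Sum.inr (Sum.inr P) =>
      Subgroup.normalizer ((P : Subgroup (alternatingGroup (Fin 5))) : Set _)

theorem famA5_max (S : Subgroup (alternatingGroup (Fin 5))) (hS : S ≠ ⊤) :
    ∃ i, S ≤ famA5 i := by
  rcases a5_max S hS with ⟨i, hi⟩ | ⟨i, j, hij, h⟩ | ⟨P, hP⟩
  · exact ⟨Sum.inl i, fun g hg => hi g hg⟩
  · rcases lt_or_gt_of_ne hij with h1 | h1
    · exact ⟨Sum.inr (Sum.inl ⟨(i, j), h1⟩), fun g hg => h g hg⟩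
    · refine ⟨Sum.inr (Sum.inl ⟨(j, i), h1⟩), fun g hg => ?_⟩
      rcases h g hg with ⟨h2, h3⟩ | ⟨h2, h3⟩
      · exact Or.inl ⟨h3, h2⟩
      · exact Or.inr ⟨h3, h2⟩
  · exact ⟨Sum.inr (Sum.inr P), hP⟩

theorem a5_ub (G : Type) [Group G] [TopologicalSpace G] (hU : Unif G)
    (h0 : ∀ (K : Type) [Group K] [Finite K], Nat.card (CH G K) ≠ 0)
    (hns : ∀ φ : CH G (alternatingGroup (Fin 5)), ¬ Function.Surjective φ.1)
    (r2 r3 r5 : ℕ)
    (h2 : Nat.card (CH G (Multiplicative (ZMod 2))) = r2)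
    (h3 : Nat.card (CH G (Multiplicative (ZMod 3))) = r3)
    (h5 : Nat.card (CH G (Multiplicative (ZMod 5))) = r5) :
    Nat.card (CH G (alternatingGroup (Fin 5))) ≤
      (1 + (15 * (r2 - 1) + 10 * (r3 - 1))) +
      (5 * (r2 ^ 2 * r3 - (1 + (3 * (r2 - 1) + 4 * (r3 - 1)))) +
      (10 * (r2 * r3 - (1 + (3 * (r2 - 1) + 1 * (r3 - 1)))) +
       6 * (r2 * r5 - (1 + (5 * (r2 - 1) + 0 * (r3 - 1)))))) := by
  classical
  haveI : Fintype (Sylow 5 (alternatingGroup (Fin 5))) := Fintype.ofFinite _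
  have hform : ∀ (T : Type) [Group T] [Finite T] [Group.IsSolvable T],
      Nat.card (CH G T) = (Nat.card T).factorization.prod
        (fun p k => Nat.card (CH G (Multiplicative (ZMod p))) ^ k) := by
    intro T _ _ _
    exact card_solv_formula G hU h0 (fun p => Nat.card (CH G (Multiplicative (ZMod p))))
      (fun p _ => rfl) T
  have f12 : (12 : ℕ).factorization.prod
      (fun p k => Nat.card (CH G (Multiplicative (ZMod p))) ^ k) = r2 ^ 2 * r3 := by
    have : (12 : ℕ) = 2 ^ 2 * 3 := by norm_num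
    rw [this, Nat.factorization_mul (by norm_num) (by norm_num), Nat.factorization_pow,
      Nat.Prime.factorization Nat.prime_two, Nat.Prime.factorization Nat.prime_three]
    rw [Finsupp.prod_add_index_of_disjoint, Finsupp.smul_single, Finsupp.prod_single_index,
      Finsupp.prod_single_index, h2, h3]
    · simp
    · simp
    · simp
    · rw [Finsupp.smul_single]
      refine Finset.disjoint_of_subset_left Finsupp.support_single_subset
        (Finset.disjoint_of_subset_right Finsupp.support_single_subset ?_)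
      simp
  have f6 : (6 : ℕ).factorization.prod
      (fun p k => Nat.card (CH G (Multiplicative (ZMod p))) ^ k) = r2 * r3 := by
    have : (6 : ℕ) = 2 * 3 := by norm_num
    rw [this, Nat.factorization_mul (by norm_num) (by norm_num),
      Nat.Prime.factorization Nat.prime_two, Nat.Prime.factorization Nat.prime_three]
    rw [Finsupp.prod_add_index_of_disjoint, Finsupp.prod_single_index,
      Finsupp.prod_single_index, h2, h3]
    · simp
    · simp
    · simp
    · refine Finset.disjoint_of_subset_left Finsupp.support_single_subset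
        (Finset.disjoint_of_subset_right Finsupp.support_single_subset ?_)
      simp
  have f10 : (10 : ℕ).factorization.prod
      (fun p k => Nat.card (CH G (Multiplicative (ZMod p))) ^ k) = r2 * r5 := by
    have : (10 : ℕ) = 2 * 5 := by norm_num
    rw [this, Nat.factorization_mul (by norm_num) (by norm_num),
      Nat.Prime.factorization Nat.prime_two, Nat.Prime.factorization Nat.prime_five]
    rw [Finsupp.prod_add_index_of_disjoint, Finsupp.prod_single_index,
      Finsupp.prod_single_index, h2, h5]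
    · simp
    · simp
    · simp
    · refine Finset.disjoint_of_subset_left Finsupp.support_single_subset
        (Finset.disjoint_of_subset_right Finsupp.support_single_subset ?_)
      simp
  refine (card_le_sum G h0 (alternatingGroup (Fin 5)) hns _ famA5 famA5_max SmallIm).trans ?_
  rw [cnt_small G h0 (alternatingGroup (Fin 5)) 15 10 r2 r3 a5_subgroups.1 a5_subgroups.2 h2 h3]
  refine Nat.add_le_add_left ?_ _
  rw [Fintype.sum_sum_type, Fintype.sum_sum_type]
  have hA : ∀ i : Fin 5, Nat.card {φ : CH G (famA5 (Sum.inl i)) //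
      ¬ SmallIm (Nat.card φ.1.range)} = r2 ^ 2 * r3 - (1 + (3 * (r2 - 1) + 4 * (r3 - 1))) := by
    intro i
    obtain ⟨c1, c2, c3, c4⟩ := a5_point i (famA5 (Sum.inl i)) (fun g => Iff.rfl)
    haveI := c4
    refine cnt_large G h0 _ 3 4 r2 r3 _ c2 c3 h2 h3 ?_
    rw [hform, c1, f12]
  have hB : ∀ q : {q : Fin 5 × Fin 5 // q.1 < q.2},
      Nat.card {φ : CH G (famA5 (Sum.inr (Sum.inl q))) //
      ¬ SmallIm (Nat.card φ.1.range)} = r2 * r3 - (1 + (3 * (r2 - 1) + 1 * (r3 - 1))) := by
    intro q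
    obtain ⟨c1, c2, c3, c4⟩ := a5_pair q.1.1 q.1.2 q.2.ne (famA5 (Sum.inr (Sum.inl q)))
      (fun g => Iff.rfl)
    haveI := c4
    refine cnt_large G h0 _ 3 1 r2 r3 _ c2 c3 h2 h3 ?_
    rw [hform, c1, f6]
  have hC : ∀ P : Sylow 5 (alternatingGroup (Fin 5)),
      Nat.card {φ : CH G (famA5 (Sum.inr (Sum.inr P))) //
      ¬ SmallIm (Nat.card φ.1.range)} = r2 * r5 - (1 + (5 * (r2 - 1) + 0 * (r3 - 1))) := by
    intro P
    obtain ⟨c1, c2, c3, c4⟩ := a5_sylow.2 P (famA5 (Sum.inr (Sum.inr P))) rfl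
    haveI := c4
    refine cnt_large G h0 _ 5 0 r2 r3 _ c2 c3 h2 h3 ?_
    rw [hform, c1, f10]
  rw [Finset.sum_congr rfl (fun i _ => hA i), Finset.sum_congr rfl (fun q _ => hB q),
    Finset.sum_congr rfl (fun P _ => hC P)]
  rw [Finset.sum_const, Finset.sum_const, Finset.sum_const, Finset.card_univ, Finset.card_univ,
    Finset.card_univ]
  have k1 : Fintype.card (Fin 5) = 5 := Fintype.card_fin 5
  have k2 : Fintype.card {q : Fin 5 × Fin 5 // q.1 < q.2} = 10 := by decide
  have k3 : Fintype.card (Sylow 5 (alternatingGroup (Fin 5))) = 6 := by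
    rw [← Nat.card_eq_fintype_card]
    exact a5_sylow.1
  rw [k1, k2, k3]
  simp only [smul_eq_mul]
  exact le_rfl

end Pool.Agent.Helper127.FF
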