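import Mathlib
import Pool.Agent.Helper127.FF.Defs

set_option autoImplicit false

namespace Pool.Agent.Helper127.FF.N4


/-- transport along an isomorphism -/
def chCongr {G K K' : Type} [Group G] [TopologicalSpace G] [Group K] [Group K'] (e : K ≃* K') :
    CH G K ≃ CH G K' where
  toFun φ := ⟨(e : K →* K').comp φ.1, by rw [MonoidHom.ker_mulEquiv_comp]; exact φ.2⟩
  invFun φ := ⟨(e.symm : K' →* K).comp φ.1, by rw [MonoidHom.ker_mulEquiv_comp]; exact φ.2⟩
  left_inv φ := by
    apply Subtype.ext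
    ext g
    simp
  right_inv φ := by
    apply Subtype.ext
    ext g
    simp

/-- restriction to an invariant subset -/
noncomputable def res1 {G : Type} [Group G] [TopologicalSpace G] [IsTopologicalGroup G] {X : Type}
    (A : Set X) (φ : CH G (Equiv.Perm X)) (h : ∀ g x, φ.1 g x ∈ A ↔ x ∈ A) :
    CH G (Equiv.Perm A) :=
  ⟨MonoidHom.mk' (fun g => Equiv.Perm.subtypePerm (φ.1 g) (p := fun x => x ∈ A) (h g)) (by
      intro a b
      ext x
      simp), by
      refine Subgroup.isOpen_mono ?_ φ.2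
      intro g hg
      rw [MonoidHom.mem_ker] at hg ⊢
      ext x
      simp [hg]⟩

theorem res1_apply {G : Type} [Group G] [TopologicalSpace G] [IsTopologicalGroup G] {X : Type}
    (A : Set X) (φ : CH G (Equiv.Perm X)) (h : ∀ g x, φ.1 g x ∈ A ↔ x ∈ A) (g : G) (a : A) :
    (((res1 A φ h).1 g a : A) : X) = φ.1 g a := rfl

theorem compl_inv {G : Type} [Group G] [TopologicalSpace G] {X : Type}
    (A : Set X) (φ : CH G (Equiv.Perm X)) (h : ∀ g x, φ.1 g x ∈ A ↔ x ∈ A) :
    ∀ g x, φ.1 g x ∈ Aᶜ ↔ x ∈ Aᶜ := fun g x => not_congr (h g x)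

/-- restriction to an invariant subset and its complement -/
noncomputable def res {G : Type} [Group G] [TopologicalSpace G] [IsTopologicalGroup G] {X : Type}
    (A : Set X) (φ : {φ : CH G (Equiv.Perm X) // ∀ g x, φ.1 g x ∈ A ↔ x ∈ A}) :
    CH G (Equiv.Perm A) × CH G (Equiv.Perm (Aᶜ : Set X)) :=
  (res1 A φ.1 φ.2, res1 Aᶜ φ.1 (compl_inv A φ.1 φ.2))

theorem res_inj {G : Type} [Group G] [TopologicalSpace G] [IsTopologicalGroup G] {X : Type}
    (A : Set X) : Function.Injective (res (G := G) A) := by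
  intro φ ψ h
  have h1 := congrArg Prod.fst h
  have h2 := congrArg Prod.snd h
  apply Subtype.ext
  apply Subtype.ext
  ext g x
  by_cases hx : x ∈ A
  · have := congrArg (fun t : CH G (Equiv.Perm A) => ((t.1 g ⟨x, hx⟩ : A) : X)) h1
    exact this
  · have := congrArg (fun t : CH G (Equiv.Perm (Aᶜ : Set X)) => ((t.1 g ⟨x, hx⟩ : (Aᶜ : Set X)) : X)) h2
    exact this

theorem res_bij {G : Type} [Group G] [TopologicalSpace G] [IsTopologicalGroup G]
    (h0 : ∀ (K : Type) [Group K] [Finite K], Nat.card (CH G K) ≠ 0)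
    (hsplit : ∀ (X : Type) [Finite X] (A : Set X),
      Nat.card {φ : CH G (Equiv.Perm X) // ∀ g x, φ.1 g x ∈ A ↔ x ∈ A} =
      Nat.card (CH G (Equiv.Perm A)) * Nat.card (CH G (Equiv.Perm (Aᶜ : Set X))))
    {X : Type} [Finite X] (A : Set X) : Function.Bijective (res (G := G) A) := by
  have : Finite (CH G (Equiv.Perm A)) := Nat.finite_of_card_ne_zero (h0 _)
  have : Finite (CH G (Equiv.Perm (Aᶜ : Set X))) := Nat.finite_of_card_ne_zero (h0 _)
  apply Function.Injective.bijective_of_nat_card_le (res_inj A)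
  rw [Nat.card_prod, hsplit X A]

theorem card_perm {G : Type} [Group G] [TopologicalSpace G] {p : ℕ}
    (hk : ∀ k : ℕ, k < p → Nat.card (CH G (Equiv.Perm (Fin k))) = (Nat.factorial k) ^ 2)
    (Y : Type) [Finite Y] (k : ℕ) (hY : Nat.card Y = k) (hkp : k < p) :
    Nat.card (CH G (Equiv.Perm Y)) = (Nat.factorial k) ^ 2 := by
  rw [← hk k hkp]
  have e : Y ≃ Fin k := (Finite.equivFinOfCardEq hY)
  exact Nat.card_congr (chCongr e.permCongrHom)

theorem fact_aux (k j : ℕ) (hk : 1 ≤ k) : k.factorial * (j + 1).factorial ≤ (k + j).factorial := by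
  induction j with
  | zero => simp
  | succ j ih =>
    rw [Nat.factorial_succ (j + 1), show k + (j + 1) = (k + j) + 1 by ring, Nat.factorial_succ (k + j)]
    calc k.factorial * ((j + 1 + 1) * (j + 1).factorial)
        = (j + 1 + 1) * (k.factorial * (j + 1).factorial) := by ring
      _ ≤ (k + j + 1) * (k + j).factorial := Nat.mul_le_mul (by omega) ih

theorem sum_fact (m : ℕ) (hm : 1 ≤ m) :
    ∑ k ∈ Finset.range (m + 1), k.factorial * (m - k).factorial < 3 * m.factorial := by
  obtain ⟨n, rfl⟩ : ∃ n, m = n + 1 := ⟨m - 1, by omega⟩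
  rw [Finset.sum_range_succ, Finset.sum_range_succ']
  have h1 : ∑ k ∈ Finset.range n, (k + 1).factorial * (n + 1 - (k + 1)).factorial ≤ n * n.factorial := by
    calc ∑ k ∈ Finset.range n, (k + 1).factorial * (n + 1 - (k + 1)).factorial
        ≤ ∑ k ∈ Finset.range n, n.factorial := by
          apply Finset.sum_le_sum
          intro k hk
          have hk' := Finset.mem_range.mp hk
          have := fact_aux (k + 1) (n - k - 1) (by omega)
          rw [show n - k - 1 + 1 = n + 1 - (k + 1) by omega, show k + 1 + (n - k - 1) = n by omega] at this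
          exact this
      _ = n * n.factorial := by simp
  have h2 : n * n.factorial < (n + 1).factorial := by
    rw [Nat.factorial_succ]
    have := Nat.factorial_pos n
    nlinarith
  simp only [Nat.factorial_zero, Nat.sub_zero, one_mul, Nat.sub_self, mul_one]
  omega

theorem trans_lower {G : Type} [Group G] [TopologicalSpace G] [IsTopologicalGroup G]
    (h0 : ∀ (K : Type) [Group K] [Finite K], Nat.card (CH G K) ≠ 0)
    (hsplit : ∀ (X : Type) [Finite X] (A : Set X),
      Nat.card {φ : CH G (Equiv.Perm X) // ∀ g x, φ.1 g x ∈ A ↔ x ∈ A} =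
      Nat.card (CH G (Equiv.Perm A)) * Nat.card (CH G (Equiv.Perm (Aᶜ : Set X))))
    (p : ℕ)
    (hk : ∀ k : ℕ, k < p → Nat.card (CH G (Equiv.Perm (Fin k))) = (Nat.factorial k) ^ 2)
    (Y : Type) [Finite Y] (m : ℕ) (hm : 1 ≤ m) (hmp : m < p) (hY : Nat.card Y = m) :
    (m.factorial) ^ 2 <
      2 * Nat.card {ψ : CH G (Equiv.Perm Y) // ∀ u v : Y, ∃ g, ψ.1 g u = v} := by
  classical
  have := Fintype.ofFinite Y
  have hfin : Finite (CH G (Equiv.Perm Y)) := Nat.finite_of_card_ne_zero (h0 _)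
  have := Fintype.ofFinite (CH G (Equiv.Perm Y))
  have hcY : Fintype.card Y = m := by rw [← Nat.card_eq_fintype_card]; exact hY
  have hdc := Finset.sum_card_bipartiteAbove_eq_sum_card_bipartiteBelow
    (fun (ψ : CH G (Equiv.Perm Y)) (B : Finset Y) => ∀ g x, ψ.1 g x ∈ (B : Set Y) ↔ x ∈ (B : Set Y))
    (s := Finset.univ) (t := Finset.univ)
  have hB : ∀ B : Finset Y, (Finset.bipartiteBelow (fun (ψ : CH G (Equiv.Perm Y)) (B : Finset Y) =>
      ∀ g x, ψ.1 g x ∈ (B : Set Y) ↔ x ∈ (B : Set Y)) Finset.univ B).card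
      = (B.card.factorial) ^ 2 * ((m - B.card).factorial) ^ 2 := by
    intro B
    have e1 : (Finset.bipartiteBelow (fun (ψ : CH G (Equiv.Perm Y)) (B : Finset Y) =>
      ∀ g x, ψ.1 g x ∈ (B : Set Y) ↔ x ∈ (B : Set Y)) Finset.univ B).card
      = Nat.card {φ : CH G (Equiv.Perm Y) // ∀ g x, φ.1 g x ∈ (B : Set Y) ↔ x ∈ (B : Set Y)} := by
      rw [Nat.card_eq_fintype_card, Fintype.card_subtype]
      rfl
    have hle : B.card ≤ m := by rw [← hcY]; exact Finset.card_le_univ B
    rw [e1, hsplit]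
    rw [card_perm hk (↥(B : Set Y)) B.card (by simp) (by omega)]
    rw [card_perm hk (↥((B : Set Y)ᶜ)) (m - B.card) (by
      rw [← Finset.coe_compl, Nat.card_coe_set_eq, Set.ncard_coe_finset, Finset.card_compl, hcY])
      (by omega)]
  have hsumB : ∑ B : Finset Y, (B.card.factorial) ^ 2 * ((m - B.card).factorial) ^ 2
      = m.factorial * ∑ k ∈ Finset.range (m + 1), k.factorial * (m - k).factorial := by
    have := Finset.sum_powerset_apply_card (fun k => (k.factorial) ^ 2 * ((m - k).factorial) ^ 2)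
      (x := (Finset.univ : Finset Y))
    rw [Finset.powerset_univ] at this
    rw [this, Finset.card_univ, hcY, Finset.mul_sum]
    apply Finset.sum_congr rfl
    intro k hk'
    have hk'' : k ≤ m := by have := Finset.mem_range.mp hk'; omega
    rw [← Nat.choose_mul_factorial_mul_factorial hk'', smul_eq_mul]
    ring
  have hΩ : Fintype.card (CH G (Equiv.Perm Y)) = (m.factorial) ^ 2 := by
    rw [← Nat.card_eq_fintype_card]
    exact card_perm hk Y m hY hmp
  have hpt : ∀ ψ : CH G (Equiv.Perm Y), (if (∀ u v : Y, ∃ g, ψ.1 g u = v) then 2 else 4) ≤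
      (Finset.bipartiteAbove (fun (ψ : CH G (Equiv.Perm Y)) (B : Finset Y) =>
      ∀ g x, ψ.1 g x ∈ (B : Set Y) ↔ x ∈ (B : Set Y)) Finset.univ ψ).card := by
    intro ψ
    have hne : Nonempty Y := by
      rw [← Fintype.card_pos_iff, hcY]; omega
    split_ifs with ht
    · obtain ⟨y⟩ := hne
      have hsub : ({∅, Finset.univ} : Finset (Finset Y)) ⊆
          (Finset.bipartiteAbove (fun (ψ : CH G (Equiv.Perm Y)) (B : Finset Y) =>
          ∀ g x, ψ.1 g x ∈ (B : Set Y) ↔ x ∈ (B : Set Y)) Finset.univ ψ) := by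
        intro B hB
        simp only [Finset.mem_insert, Finset.mem_singleton] at hB
        rw [Finset.mem_bipartiteAbove]
        refine ⟨Finset.mem_univ _, ?_⟩
        rcases hB with rfl | rfl <;> simp
      have hne2 : (∅ : Finset Y) ≠ Finset.univ := by
        intro h
        have := Finset.mem_univ y
        rw [← h] at this
        simp at this
      have := Finset.card_le_card hsub
      rw [Finset.card_pair hne2] at this
      exact this
    · push Not at ht
      obtain ⟨u, v, huv⟩ := ht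
      obtain ⟨O, hO⟩ : ∃ O : Finset Y, ∀ x, x ∈ O ↔ ∃ g, ψ.1 g u = x :=
        ⟨Finset.univ.filter (fun x => ∃ g, ψ.1 g u = x), by simp⟩
      have huO : u ∈ O := (hO u).mpr ⟨1, by simp⟩
      have hvO : v ∉ O := fun h => by
        obtain ⟨g, hg⟩ := (hO v).mp h
        exact huv g hg
      have hinv : ∀ g x, ψ.1 g x ∈ O ↔ x ∈ O := by
        intro g x
        rw [hO, hO]
        constructor
        · rintro ⟨a, ha⟩
          refine ⟨g⁻¹ * a, ?_⟩
          rw [map_mul, Equiv.Perm.mul_apply, ha, map_inv]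
          exact Equiv.symm_apply_apply _ _
        · rintro ⟨a, ha⟩
          refine ⟨g * a, ?_⟩
          rw [map_mul, Equiv.Perm.mul_apply, ha]
      have hsub : ({∅, Finset.univ, O, Oᶜ} : Finset (Finset Y)) ⊆
          (Finset.bipartiteAbove (fun (ψ : CH G (Equiv.Perm Y)) (B : Finset Y) =>
          ∀ g x, ψ.1 g x ∈ (B : Set Y) ↔ x ∈ (B : Set Y)) Finset.univ ψ) := by
        intro B hB
        simp only [Finset.mem_insert, Finset.mem_singleton] at hB
        rw [Finset.mem_bipartiteAbove]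
        refine ⟨Finset.mem_univ _, ?_⟩
        rcases hB with rfl | rfl | rfl | rfl
        · simp
        · simp
        · intro g x
          exact hinv g x
        · intro g x
          simp only [Finset.coe_compl, Set.mem_compl_iff, Finset.mem_coe]
          exact not_congr (hinv g x)
      have a1 : (∅ : Finset Y) ≠ Finset.univ := fun h => by
        have := Finset.mem_univ u
        rw [← h] at this
        simp at this
      have a2 : (∅ : Finset Y) ≠ O := fun h => by rw [← h] at huO; simp at huO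
      have a3 : (∅ : Finset Y) ≠ Oᶜ := fun h => by
        have : v ∈ Oᶜ := Finset.mem_compl.mpr hvO
        rw [← h] at this; simp at this
      have a4 : (Finset.univ : Finset Y) ≠ O := fun h => by rw [← h] at hvO; simp at hvO
      have a5 : (Finset.univ : Finset Y) ≠ Oᶜ := fun h => by
        have := Finset.mem_univ u
        rw [h] at this
        exact Finset.mem_compl.mp this huO
      have a6 : O ≠ Oᶜ := fun h => by
        have := huO
        rw [h] at this
        exact Finset.mem_compl.mp this huO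
      have h4 : ({∅, Finset.univ, O, Oᶜ} : Finset (Finset Y)).card = 4 := by
        rw [Finset.card_insert_of_notMem (by simp only [Finset.mem_insert, Finset.mem_singleton]; tauto),
          Finset.card_insert_of_notMem (by simp only [Finset.mem_insert, Finset.mem_singleton]; tauto),
          Finset.card_pair a6]
      have := Finset.card_le_card hsub
      rw [h4] at this
      exact this
  have hT : Nat.card {ψ : CH G (Equiv.Perm Y) // ∀ u v : Y, ∃ g, ψ.1 g u = v}
      = (Finset.univ.filter (fun ψ : CH G (Equiv.Perm Y) => ∀ u v : Y, ∃ g, ψ.1 g u = v)).card := by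
    rw [Nat.card_eq_fintype_card, Fintype.card_subtype]
  have hsum1 : ∑ ψ : CH G (Equiv.Perm Y), (if (∀ u v : Y, ∃ g, ψ.1 g u = v) then 2 else 4)
      ≤ m.factorial * ∑ k ∈ Finset.range (m + 1), k.factorial * (m - k).factorial := by
    rw [← hsumB]
    calc ∑ ψ : CH G (Equiv.Perm Y), (if (∀ u v : Y, ∃ g, ψ.1 g u = v) then 2 else 4)
        ≤ _ := Finset.sum_le_sum (fun ψ _ => hpt ψ)
      _ = _ := hdc
      _ = _ := Finset.sum_congr rfl (fun B _ => hB B)
  have hsum2 : ∑ ψ : CH G (Equiv.Perm Y), (if (∀ u v : Y, ∃ g, ψ.1 g u = v) then 2 else 4)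
      + 2 * Nat.card {ψ : CH G (Equiv.Perm Y) // ∀ u v : Y, ∃ g, ψ.1 g u = v}
      = 4 * (m.factorial) ^ 2 := by
    rw [hT, ← hΩ, Finset.card_filter, Finset.mul_sum, ← Finset.sum_add_distrib]
    rw [← Finset.card_univ, Finset.card_eq_sum_ones, Finset.mul_sum]
    apply Finset.sum_congr rfl
    intro ψ _
    split_ifs <;> rfl
  have hs3 := sum_fact m hm
  have hs4 : m.factorial * ∑ k ∈ Finset.range (m + 1), k.factorial * (m - k).factorial
      < m.factorial * (3 * m.factorial) := Nat.mul_lt_mul_of_pos_left hs3 (Nat.factorial_pos m)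
  have hs5 : m.factorial * (3 * m.factorial) = 3 * (m.factorial) ^ 2 := by ring
  omega

theorem exists_ne4 {p : ℕ} (hp5 : 5 ≤ p) (a b c d : Fin p) : ∃ w, w ≠ a ∧ w ≠ b ∧ w ≠ c ∧ w ≠ d := by
  classical
  by_contra h
  push Not at h
  have hsub : (Finset.univ : Finset (Fin p)) ⊆ {a, b, c, d} := by
    intro w _
    simp only [Finset.mem_insert, Finset.mem_singleton]
    by_contra hc
    push Not at hc
    exact hc.2.2.2 (h w hc.1 hc.2.1 hc.2.2.1)
  have h1 := Finset.card_le_card hsub
  have h2 : ({a, b, c, d} : Finset (Fin p)).card ≤ 4 := Finset.card_le_four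
  rw [Finset.card_univ, Fintype.card_fin] at h1
  omega

/-- common fixed point -/
def Fx {G : Type} [Group G] [TopologicalSpace G] {X : Type} (φ : CH G (Equiv.Perm X)) (x : X) : Prop :=
  ∀ g, φ.1 g x = x

/-- `{x, y}` is an orbit, its complement too -/
def Sw {G : Type} [Group G] [TopologicalSpace G] {X : Type} (φ : CH G (Equiv.Perm X)) (x y : X) : Prop :=
  x ≠ y ∧ (∀ g z, φ.1 g z ∈ ({x, y} : Set X) ↔ z ∈ ({x, y} : Set X)) ∧ ¬ Fx φ x ∧
    ∀ u v, u ∉ ({x, y} : Set X) → v ∉ ({x, y} : Set X) → ∃ g, φ.1 g u = v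

theorem Sw_nofix {G : Type} [Group G] [TopologicalSpace G] {p : ℕ} (hp5 : 5 ≤ p)
    (φ : CH G (Equiv.Perm (Fin p))) (x y z : Fin p) (h : Sw φ x y) : ¬ Fx φ z := by
  obtain ⟨hxy, hinv, hnf, ht⟩ := h
  intro hz
  by_cases h1 : z = x
  · rw [h1] at hz; exact hnf hz
  by_cases h2 : z = y
  · rw [h2] at hz
    apply hnf
    intro g
    have hm : φ.1 g x ∈ ({x, y} : Set (Fin p)) := (hinv g x).mpr (by simp)
    simp only [Set.mem_insert_iff, Set.mem_singleton_iff] at hm
    rcases hm with hm | hm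
    · exact hm
    · have := hz g
      rw [← this] at hm
      exact absurd ((φ.1 g).injective hm) hxy
  · obtain ⟨w, w1, w2, w3, w4⟩ := exists_ne4 hp5 x y z z
    obtain ⟨g, hg⟩ := ht z w (by simp [h1, h2]) (by simp [w1, w2])
    rw [hz g] at hg
    exact w3 hg.symm

theorem Sw_uniq {G : Type} [Group G] [TopologicalSpace G] {p : ℕ} (hp5 : 5 ≤ p)
    (φ : CH G (Equiv.Perm (Fin p))) (x y x' y' : Fin p) (h : Sw φ x y) (h' : Sw φ x' y') :
    (x' = x ∧ y' = y) ∨ (x' = y ∧ y' = x) := by
  obtain ⟨hxy, hinv, hnf, ht⟩ := h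
  obtain ⟨hxy', hinv', hnf', ht'⟩ := h'
  obtain ⟨w, w1, w2, w3, w4⟩ := exists_ne4 hp5 x y x' y'
  have key : ∀ z, z ∈ ({x', y'} : Set (Fin p)) → z ∈ ({x, y} : Set (Fin p)) := by
    intro z hz
    by_contra hc
    obtain ⟨g, hg⟩ := ht z w hc (by simp [w1, w2])
    have := (hinv' g z).mpr hz
    rw [hg] at this
    simp [w3, w4] at this
  have k1 := key x' (by simp)
  have k2 := key y' (by simp)
  simp only [Set.mem_insert_iff, Set.mem_singleton_iff] at k1 k2
  rcases k1 with k1 | k1 <;> rcases k2 with k2 | k2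
  · exact absurd (k1.trans k2.symm) hxy'
  · exact Or.inl ⟨k1, k2⟩
  · exact Or.inr ⟨k1, k2⟩
  · exact absurd (k1.trans k2.symm) hxy'

/-- the trivial homomorphism -/
def triv (G K : Type) [Group G] [TopologicalSpace G] [Group K] : CH G K :=
  ⟨1, by
    have : ((1 : G →* K).ker : Set G) = Set.univ := by
      ext g
      simp [MonoidHom.mem_ker]
    rw [this]
    exact isOpen_univ⟩

theorem card_Fx {G : Type} [Group G] [TopologicalSpace G] [IsTopologicalGroup G]
    (hsplit : ∀ (X : Type) [Finite X] (A : Set X),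
      Nat.card {φ : CH G (Equiv.Perm X) // ∀ g x, φ.1 g x ∈ A ↔ x ∈ A} =
      Nat.card (CH G (Equiv.Perm A)) * Nat.card (CH G (Equiv.Perm (Aᶜ : Set X))))
    (p : ℕ) (hp5 : 5 ≤ p)
    (hk : ∀ k : ℕ, k < p → Nat.card (CH G (Equiv.Perm (Fin k))) = (Nat.factorial k) ^ 2)
    (x : Fin p) : Nat.card {φ : CH G (Equiv.Perm (Fin p)) // Fx φ x} = ((p - 1).factorial) ^ 2 := by
  classical
  have e : {φ : CH G (Equiv.Perm (Fin p)) // Fx φ x} ≃
      {φ : CH G (Equiv.Perm (Fin p)) // ∀ g z, φ.1 g z ∈ ({x} : Set (Fin p)) ↔ z ∈ ({x} : Set (Fin p))} := by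
    apply Equiv.subtypeEquivRight
    intro φ
    simp only [Set.mem_singleton_iff]
    constructor
    · intro h g z
      constructor
      · intro hz
        rw [← h g] at hz
        exact (φ.1 g).injective hz
      · rintro rfl
        exact h g
    · intro h g
      exact (h g x).mpr rfl
  rw [Nat.card_congr e, hsplit]
  rw [card_perm hk (↥({x} : Set (Fin p))) 1 (by simp) (by omega)]
  rw [card_perm hk (↥(({x} : Set (Fin p))ᶜ)) (p - 1) (by
    have : (({x} : Set (Fin p))ᶜ) = ((({x} : Finset (Fin p))ᶜ : Finset (Fin p)) : Set (Fin p)) := by simp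
    rw [this, Nat.card_coe_set_eq, Set.ncard_coe_finset, Finset.card_compl]
    simp) (by omega)]
  simp

theorem card_Fx2 {G : Type} [Group G] [TopologicalSpace G] [IsTopologicalGroup G]
    (h0 : ∀ (K : Type) [Group K] [Finite K], Nat.card (CH G K) ≠ 0)
    (p : ℕ) (hp5 : 5 ≤ p)
    (hk : ∀ k : ℕ, k < p → Nat.card (CH G (Equiv.Perm (Fin k))) = (Nat.factorial k) ^ 2)
    (x y : Fin p) (hxy : x ≠ y) :
    Nat.card {φ : CH G (Equiv.Perm (Fin p)) // x ≠ y ∧ Fx φ x ∧ Fx φ y} ≤ ((p - 2).factorial) ^ 2 := by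
  classical
  have hfin : Finite (CH G (Equiv.Perm (({x, y} : Set (Fin p))ᶜ : Set (Fin p)))) :=
    Nat.finite_of_card_ne_zero (h0 _)
  rw [← card_perm hk (↥(({x, y} : Set (Fin p))ᶜ)) (p - 2) (by
    have : (({x, y} : Set (Fin p))ᶜ) = ((({x, y} : Finset (Fin p))ᶜ : Finset (Fin p)) : Set (Fin p)) := by
      rw [Finset.coe_compl, Finset.coe_pair]
    rw [this, Nat.card_coe_set_eq, Set.ncard_coe_finset, Finset.card_compl, Finset.card_pair hxy]
    simp) (by omega)]
  have hinv : ∀ φ : {φ : CH G (Equiv.Perm (Fin p)) // x ≠ y ∧ Fx φ x ∧ Fx φ y},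
      ∀ g z, φ.1.1 g z ∈ (({x, y} : Set (Fin p))ᶜ) ↔ z ∈ (({x, y} : Set (Fin p))ᶜ) := by
    intro φ g z
    obtain ⟨_, hx, hy⟩ := φ.2
    simp only [Set.mem_compl_iff, Set.mem_insert_iff, Set.mem_singleton_iff]
    apply not_congr
    constructor
    · rintro (h | h)
      · left
        exact (φ.1.1 g).injective (h.trans (hx g).symm)
      · right
        exact (φ.1.1 g).injective (h.trans (hy g).symm)
    · rintro (h | h)
      · left; rw [h]; exact hx g
      · right; rw [h]; exact hy g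
  apply Nat.card_le_card_of_injective (fun φ => res1 (({x, y} : Set (Fin p))ᶜ) φ.1 (hinv φ))
  intro φ ψ h
  apply Subtype.ext
  apply Subtype.ext
  ext g z
  congr 1
  by_cases hz : z ∈ (({x, y} : Set (Fin p))ᶜ)
  · have := congrArg (fun t : CH G (Equiv.Perm (({x, y} : Set (Fin p))ᶜ : Set (Fin p))) =>
      ((t.1 g ⟨z, hz⟩ : (({x, y} : Set (Fin p))ᶜ : Set (Fin p))) : Fin p)) h
    exact this
  · simp only [Set.mem_compl_iff, Set.mem_insert_iff, Set.mem_singleton_iff, not_not] at hz
    rcases hz with rfl | rfl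
    · rw [φ.2.2.1 g, ψ.2.2.1 g]
    · rw [φ.2.2.2 g, ψ.2.2.2 g]

theorem card_Sw {G : Type} [Group G] [TopologicalSpace G] [IsTopologicalGroup G]
    (h0 : ∀ (K : Type) [Group K] [Finite K], Nat.card (CH G K) ≠ 0)
    (hsplit : ∀ (X : Type) [Finite X] (A : Set X),
      Nat.card {φ : CH G (Equiv.Perm X) // ∀ g x, φ.1 g x ∈ A ↔ x ∈ A} =
      Nat.card (CH G (Equiv.Perm A)) * Nat.card (CH G (Equiv.Perm (Aᶜ : Set X))))
    (p : ℕ) (hp5 : 5 ≤ p)
    (hk : ∀ k : ℕ, k < p → Nat.card (CH G (Equiv.Perm (Fin k))) = (Nat.factorial k) ^ 2)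
    (x y : Fin p) (hxy : x ≠ y) :
    ((p - 2).factorial) ^ 2 < Nat.card {φ : CH G (Equiv.Perm (Fin p)) // Sw φ x y} := by
  classical
  obtain ⟨A, hA⟩ : ∃ A : Set (Fin p), A = {x, y} := ⟨_, rfl⟩
  have hcA : Nat.card A = 2 := by
    rw [hA, Nat.card_coe_set_eq, Set.ncard_pair hxy]
  have hcAc : Nat.card (Aᶜ : Set (Fin p)) = p - 2 := by
    have : (({x, y} : Set (Fin p))ᶜ) = ((({x, y} : Finset (Fin p))ᶜ : Finset (Fin p)) : Set (Fin p)) := by
      rw [Finset.coe_compl, Finset.coe_pair]
    rw [hA, this, Nat.card_coe_set_eq, Set.ncard_coe_finset, Finset.card_compl, Finset.card_pair hxy]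
    simp
  have hf1 : Finite (CH G (Equiv.Perm A)) := Nat.finite_of_card_ne_zero (h0 _)
  have hf2 : Finite (CH G (Equiv.Perm (Aᶜ : Set (Fin p)))) := Nat.finite_of_card_ne_zero (h0 _)
  have hf3 : Finite (CH G (Equiv.Perm (Fin p))) := Nat.finite_of_card_ne_zero (h0 _)
  have h3 : Nat.card {α : CH G (Equiv.Perm A) // α ≠ triv G _} = 3 := by
    have := Fintype.ofFinite (CH G (Equiv.Perm A))
    have h4 : Nat.card (CH G (Equiv.Perm A)) = 4 := by
      rw [card_perm hk A 2 hcA (by omega)]
      rfl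
    rw [Nat.card_eq_fintype_card] at h4
    rw [Nat.card_eq_fintype_card, Fintype.card_subtype, Finset.filter_ne',
      Finset.card_erase_of_mem (Finset.mem_univ _), Finset.card_univ, h4]
  have htr := trans_lower h0 hsplit p hk (↥(Aᶜ : Set (Fin p))) (p - 2) (by omega) (by omega) hcAc
  let e := Equiv.ofBijective (res (G := G) A) (res_bij h0 hsplit A)
  let F : {α : CH G (Equiv.Perm A) // α ≠ triv G _} ×
      {ψ : CH G (Equiv.Perm (Aᶜ : Set (Fin p))) // ∀ u v, ∃ g, ψ.1 g u = v} →
      {φ : CH G (Equiv.Perm (Fin p)) // Sw φ x y} := fun t =>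
    ⟨(e.symm (t.1.1, t.2.1)).1, by
      obtain ⟨φ, hφ⟩ : ∃ φ, φ = e.symm (t.1.1, t.2.1) := ⟨_, rfl⟩
      have he : res (G := G) A φ = (t.1.1, t.2.1) := by
        rw [hφ]
        exact e.apply_symm_apply (t.1.1, t.2.1)
      rw [← hφ]
      have e1 : res1 A φ.1 φ.2 = t.1.1 := congrArg Prod.fst he
      have e2 : res1 Aᶜ φ.1 (compl_inv A φ.1 φ.2) = t.2.1 := congrArg Prod.snd he
      have hinv := φ.2
      refine ⟨hxy, fun g z => by
        have := hinv g z
        rw [Set.ext_iff.mp hA, Set.ext_iff.mp hA z] at this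
        exact this, ?_, ?_⟩
      · intro hx
        apply t.1.2
        rw [← e1]
        apply Subtype.ext
        ext g a
        rw [res1_apply]
        show ((φ.1.1 g a : Fin p) : ℕ) = ((a : Fin p) : ℕ)
        congr 1
        have ha : (a : Fin p) ∈ ({x, y} : Set (Fin p)) := (Set.ext_iff.mp hA _).mp a.2
        simp only [Set.mem_insert_iff, Set.mem_singleton_iff] at ha
        rcases ha with ha | ha
        · rw [ha]; exact hx g
        · rw [ha]
          have hy : φ.1.1 g y ∈ ({x, y} : Set (Fin p)) :=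
            (Set.ext_iff.mp hA _).mp ((hinv g y).mpr ((Set.ext_iff.mp hA _).mpr (by simp)))
          simp only [Set.mem_insert_iff, Set.mem_singleton_iff] at hy
          rcases hy with hy | hy
          · exact absurd ((φ.1.1 g).injective (hy.trans (hx g).symm)).symm hxy
          · exact hy
      · intro u v hu hv
        have hu' : u ∈ Aᶜ := fun h => hu ((Set.ext_iff.mp hA _).mp h)
        have hv' : v ∈ Aᶜ := fun h => hv ((Set.ext_iff.mp hA _).mp h)
        obtain ⟨g, hg⟩ := t.2.2 ⟨u, hu'⟩ ⟨v, hv'⟩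
        refine ⟨g, ?_⟩
        rw [← e2] at hg
        exact congrArg Subtype.val hg⟩
  have hFinj : Function.Injective F := by
    intro s t hst
    have h1 : (e.symm (s.1.1, s.2.1)).1 = (e.symm (t.1.1, t.2.1)).1 :=
      congrArg (fun t : {φ : CH G (Equiv.Perm (Fin p)) // Sw φ x y} => t.1) hst
    have h2 : e.symm (s.1.1, s.2.1) = e.symm (t.1.1, t.2.1) := Subtype.ext h1
    have h3 := e.symm.injective h2
    have h4 := congrArg Prod.fst h3
    have h5 := congrArg Prod.snd h3
    exact Prod.ext (Subtype.ext h4) (Subtype.ext h5)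
  have hle := Nat.card_le_card_of_injective F hFinj
  rw [Nat.card_prod, h3] at hle
  omega

/-- lower bound for homomorphisms to the symmetric group of prime degree, from values in smaller
degrees -/
theorem perm_lower
    (G : Type) [Group G] [TopologicalSpace G] [IsTopologicalGroup G]
    (h0 : ∀ (K : Type) [Group K] [Finite K], Nat.card (CH G K) ≠ 0)
    (hsplit : ∀ (X : Type) [Finite X] (A : Set X),
      Nat.card {φ : CH G (Equiv.Perm X) // ∀ g x, φ.1 g x ∈ A ↔ x ∈ A} =
      Nat.card (CH G (Equiv.Perm A)) * Nat.card (CH G (Equiv.Perm (Aᶜ : Set X))))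
    (p : ℕ) (hp5 : 5 ≤ p)
    (hk : ∀ k : ℕ, k < p → Nat.card (CH G (Equiv.Perm (Fin k))) = (Nat.factorial k) ^ 2) :
    p * (Nat.factorial (p - 1)) ^ 2 < Nat.card (CH G (Equiv.Perm (Fin p))) := by
  classical
  have hfin : Finite (CH G (Equiv.Perm (Fin p))) := Nat.finite_of_card_ne_zero (h0 _)
  have := Fintype.ofFinite (CH G (Equiv.Perm (Fin p)))
  -- double counts
  have d1 := Finset.sum_card_bipartiteAbove_eq_sum_card_bipartiteBelow
    (fun (φ : CH G (Equiv.Perm (Fin p))) (x : Fin p) => Fx φ x)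
    (s := Finset.univ) (t := Finset.univ)
  have d2 := Finset.sum_card_bipartiteAbove_eq_sum_card_bipartiteBelow
    (fun (φ : CH G (Equiv.Perm (Fin p))) (t : Fin p × Fin p) => t.1 ≠ t.2 ∧ Fx φ t.1 ∧ Fx φ t.2)
    (s := Finset.univ) (t := Finset.univ)
  have d3 := Finset.sum_card_bipartiteAbove_eq_sum_card_bipartiteBelow
    (fun (φ : CH G (Equiv.Perm (Fin p))) (t : Fin p × Fin p) => Sw φ t.1 t.2)
    (s := Finset.univ) (t := Finset.univ)
  have c1 : ∑ x : Fin p, (Finset.bipartiteBelow
      (fun (φ : CH G (Equiv.Perm (Fin p))) (x : Fin p) => Fx φ x) Finset.univ x).card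
      = p * (Nat.factorial (p - 1)) ^ 2 := by
    rw [Finset.sum_congr rfl (g := fun _ => (Nat.factorial (p - 1)) ^ 2)]
    · simp
    · intro x _
      rw [← card_Fx hsplit p hp5 hk x, Nat.card_eq_fintype_card, Fintype.card_subtype]
      rfl
  have c23 : ∑ t : Fin p × Fin p, (Finset.bipartiteBelow
      (fun (φ : CH G (Equiv.Perm (Fin p))) (t : Fin p × Fin p) => t.1 ≠ t.2 ∧ Fx φ t.1 ∧ Fx φ t.2)
        Finset.univ t).card < ∑ t : Fin p × Fin p, (Finset.bipartiteBelow
      (fun (φ : CH G (Equiv.Perm (Fin p))) (t : Fin p × Fin p) => Sw φ t.1 t.2)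
        Finset.univ t).card := by
    have hlt : ∀ t : Fin p × Fin p, t.1 ≠ t.2 → (Finset.bipartiteBelow
      (fun (φ : CH G (Equiv.Perm (Fin p))) (t : Fin p × Fin p) => t.1 ≠ t.2 ∧ Fx φ t.1 ∧ Fx φ t.2)
        Finset.univ t).card < (Finset.bipartiteBelow
      (fun (φ : CH G (Equiv.Perm (Fin p))) (t : Fin p × Fin p) => Sw φ t.1 t.2)
        Finset.univ t).card := by
      intro t ht
      have a1 := card_Fx2 h0 p hp5 hk t.1 t.2 ht
      have a2 := card_Sw h0 hsplit p hp5 hk t.1 t.2 ht
      rw [Nat.card_eq_fintype_card, Fintype.card_subtype] at a1 a2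
      exact lt_of_le_of_lt a1 a2
    apply Finset.sum_lt_sum
    · intro t _
      by_cases ht : t.1 = t.2
      · have : (Finset.bipartiteBelow
          (fun (φ : CH G (Equiv.Perm (Fin p))) (t : Fin p × Fin p) => t.1 ≠ t.2 ∧ Fx φ t.1 ∧ Fx φ t.2)
            Finset.univ t) = ∅ := by
          ext φ
          simp [Finset.mem_bipartiteBelow, ht]
        rw [this]
        simp
      · exact (hlt t ht).le
    · exact ⟨(⟨0, by omega⟩, ⟨1, by omega⟩), Finset.mem_univ _, hlt _ (by simp)⟩
  have hpt : ∀ φ : CH G (Equiv.Perm (Fin p)),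
      2 * (Finset.bipartiteAbove
        (fun (φ : CH G (Equiv.Perm (Fin p))) (x : Fin p) => Fx φ x) Finset.univ φ).card
      + (Finset.bipartiteAbove
        (fun (φ : CH G (Equiv.Perm (Fin p))) (t : Fin p × Fin p) => Sw φ t.1 t.2)
          Finset.univ φ).card
      ≤ 2 + (Finset.bipartiteAbove
        (fun (φ : CH G (Equiv.Perm (Fin p))) (t : Fin p × Fin p) => t.1 ≠ t.2 ∧ Fx φ t.1 ∧ Fx φ t.2)
          Finset.univ φ).card := by
    intro φ
    by_cases hs : ∃ x y, Sw φ x y
    · obtain ⟨x, y, hxy⟩ := hs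
      have b1 : (Finset.bipartiteAbove
        (fun (φ : CH G (Equiv.Perm (Fin p))) (x : Fin p) => Fx φ x) Finset.univ φ) = ∅ := by
        ext z
        simp only [Finset.mem_bipartiteAbove, Finset.mem_univ, true_and, Finset.notMem_empty, iff_false]
        exact Sw_nofix hp5 φ x y z hxy
      have b2 : (Finset.bipartiteAbove
        (fun (φ : CH G (Equiv.Perm (Fin p))) (t : Fin p × Fin p) => Sw φ t.1 t.2)
          Finset.univ φ) ⊆ {(x, y), (y, x)} := by
        intro t ht
        simp only [Finset.mem_bipartiteAbove, Finset.mem_univ, true_and] at ht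
        simp only [Finset.mem_insert, Finset.mem_singleton]
        rcases Sw_uniq hp5 φ x y t.1 t.2 hxy ht with ⟨h1, h2⟩ | ⟨h1, h2⟩
        · left; exact Prod.ext h1 h2
        · right; exact Prod.ext h1 h2
      have b3 := Finset.card_le_card b2
      have b4 : ({(x, y), (y, x)} : Finset (Fin p × Fin p)).card ≤ 2 := Finset.card_le_two
      rw [b1, Finset.card_empty]
      omega
    · push Not at hs
      have b1 : (Finset.bipartiteAbove
        (fun (φ : CH G (Equiv.Perm (Fin p))) (t : Fin p × Fin p) => Sw φ t.1 t.2)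
          Finset.univ φ) = ∅ := by
        ext t
        simp only [Finset.mem_bipartiteAbove, Finset.mem_univ, true_and, Finset.notMem_empty, iff_false]
        exact hs t.1 t.2
      rw [b1, Finset.card_empty]
      obtain ⟨S, hS⟩ : ∃ S, S = (Finset.bipartiteAbove
        (fun (φ : CH G (Equiv.Perm (Fin p))) (x : Fin p) => Fx φ x) Finset.univ φ) := ⟨_, rfl⟩
      have b2 : (Finset.bipartiteAbove
        (fun (φ : CH G (Equiv.Perm (Fin p))) (t : Fin p × Fin p) => t.1 ≠ t.2 ∧ Fx φ t.1 ∧ Fx φ t.2)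
          Finset.univ φ) = S.offDiag := by
        ext t
        rw [hS]
        simp only [Finset.mem_bipartiteAbove, Finset.mem_univ, true_and, Finset.mem_offDiag]
        tauto
      rw [b2, ← hS, Finset.offDiag_card]
      have : ∀ n : ℕ, 2 * n + 0 ≤ 2 + (n * n - n) := by
        intro n
        rcases n with _ | _ | n
        · simp
        · simp
        · have : (n + 1 + 1) * (n + 1 + 1) - (n + 1 + 1) = (n + 1 + 1) * (n + 1) := by
            rw [Nat.mul_succ (n + 1 + 1) (n + 1)]
            omega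
          rw [this]
          nlinarith
      exact this _
  have hsum := Finset.sum_le_sum (fun φ (_ : φ ∈ (Finset.univ : Finset (CH G (Equiv.Perm (Fin p))))) => hpt φ)
  rw [Finset.sum_add_distrib, Finset.sum_add_distrib, ← Finset.mul_sum, d1, d2, d3, c1] at hsum
  simp only [Finset.sum_const, Finset.card_univ, smul_eq_mul] at hsum
  rw [← Nat.card_eq_fintype_card] at hsum
  omega

end Pool.Agent.Helper127.FF.N4
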