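import Mathlib
import Pool.Agent.Helper127.FF.Core3
import Pool.Agent.Helper127.FF.N4

set_option autoImplicit false

namespace Pool.Agent.Helper127.FF

open J3_counts R4 Z1 J4_M1 R1 R2 Z2 Z5 Z4 J1_coprod J2_free J5_M2 J6_M3 R3 T1 N1 N4 N5 A5n4 A5a A5n2 A5c A5u N2 N3 N6 N7 A5n3 A5n1

theorem lower_bounds
    (G : Type) [Group G] [TopologicalSpace G] [IsTopologicalGroup G] [CompactSpace G]
    [T2Space G] [TotallyDisconnectedSpace G] (UG : Unif G)
    (h0G : ∀ (K : Type) [Group K] [Finite K], Nat.card (CH G K) ≠ 0)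
    (hG : ∃ x : G, x ≠ 1) (K : Type) [Group K] [Finite K] :
    Nat.card K ≤ Nat.card (CH G K) :=
  card_le G h0G (fun M hM => exists_surj G UG h0G
      (fun p hp => exists_surj_prime G UG h0G hG p hp) M hM) K

theorem card_cp (p : ℕ) : Nat.card (Multiplicative (ZMod p)) = p := by
  rw [Nat.card_congr Multiplicative.toAdd, Nat.card_zmod]

theorem split3 (p a b : ℕ) (hp : p.Prime) (hab : a * b = p ^ 3) (ha : p ≤ a) (hb : p ≤ b) :
    (a = p ∧ b = p ^ 2) ∨ (a = p ^ 2 ∧ b = p) := by
  have hd : a ∣ p ^ 3 := ⟨b, hab.symm⟩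
  obtain ⟨j, hj, rfl⟩ := (Nat.dvd_prime_pow hp).mp hd
  have hb' : b = p ^ (3 - j) := by
    have h1 : p ^ j * b = p ^ j * p ^ (3 - j) := by
      rw [hab, ← pow_add]
      congr 1
      omega
    exact Nat.eq_of_mul_eq_mul_left (pow_pos hp.pos j) h1
  subst hb'
  have h1 : j ≠ 0 := by
    rintro rfl
    have := hp.one_lt
    simp at ha
    omega
  have h2 : j ≠ 3 := by
    rintro rfl
    have := hp.one_lt
    simp at hb
    omega
  have h3 : j = 1 ∨ j = 2 := by omega
  rcases h3 with rfl | rfl
  · left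
    simp
  · right
    simp

theorem perm_eq_factorial
    (G : Type) [Group G] [TopologicalSpace G] (UG : Unif G)
    (h0G : ∀ (K : Type) [Group K] [Finite K], Nat.card (CH G K) ≠ 0)
    (p : ℕ) (hgood : ∀ q : ℕ, q < p → q.Prime → Nat.card (CH G (Multiplicative (ZMod q))) = q)
    (k : ℕ) (hk : k < p) :
    Nat.card (CH G (Equiv.Perm (Fin k))) = Nat.factorial k := by
  have hc : Nat.card (Equiv.Perm (Fin k)) = Nat.factorial k := by
    rw [Nat.card_eq_fintype_card, Fintype.card_perm, Fintype.card_fin]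
  rw [← hc]
  refine card_of_good G h0G (Equiv.Perm (Fin k)) ?_ ?_
  · intro Q _ _ φ hQ hφ
    rw [hc] at hQ
    have hZ : IsZGroup Q := by
      refine ⟨?_⟩
      intro q hq P
      haveI : Fact q.Prime := ⟨hq⟩
      by_cases hd : q ∣ Nat.card Q
      · have hqk : q ≤ k := (hq.dvd_factorial).mp (hd.trans hQ)
        exact cyclic_of_hom_le q P P.isPGroup'
          (sylow_hom_le G UG h0G q (hgood q (lt_of_le_of_lt hqk hk) hq).le Q φ hφ
            (P : Subgroup Q))
      · have h1 : Nat.card P = 1 := by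
          rw [P.card_eq_multiplicity, Nat.factorization_eq_zero_of_not_dvd hd, pow_zero]
        haveI : Subsingleton P := (Nat.card_eq_one_iff_unique.mp h1).1
        infer_instance
    infer_instance
  · intro T _ _ hT hsol
    haveI := hsol
    rw [hc] at hT
    rw [card_solv_formula G UG h0G (fun p => Nat.card (CH G (Multiplicative (ZMod p))))
      (fun p _ => rfl) T]
    have h1 : (Nat.card T).factorization.prod
        (fun p k => Nat.card (CH G (Multiplicative (ZMod p))) ^ k) =
        (Nat.card T).factorization.prod (fun p k => p ^ k) := by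
      refine Finsupp.prod_congr ?_
      intro q hq
      have hq' : q ∈ (Nat.card T).primeFactors := by
        rwa [← Nat.support_factorization]
      have hqp : q.Prime := Nat.prime_of_mem_primeFactors hq'
      have hqd : q ∣ Nat.card T := Nat.dvd_of_mem_primeFactors hq'
      have hqk : q ≤ k := (hqp.dvd_factorial).mp (hqd.trans hT)
      rw [hgood q (lt_of_le_of_lt hqk hk) hqp]
    rw [h1]
    exact Nat.prod_factorization_pow_eq_self Nat.card_pos.ne'

theorem a5_card : Nat.card (alternatingGroup (Fin 5)) = 60 := by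
  rw [Nat.card_eq_fintype_card]
  have h := two_mul_card_alternatingGroup (α := Fin 5)
  rw [Fintype.card_perm, Fintype.card_fin] at h
  have : Nat.factorial 5 = 120 := rfl
  omega

theorem a5_perfect (p : ℕ) (hp : p.Prime) (hp5 : p < 60)
    (χ : alternatingGroup (Fin 5) →* Multiplicative (ZMod p)) : χ = 1 := by
  haveI : NeZero p := ⟨hp.ne_zero⟩
  haveI : IsSimpleGroup (alternatingGroup (Fin 5)) := alternatingGroup.isSimpleGroup_five
  rcases (inferInstance : χ.ker.Normal).eq_bot_or_eq_top with h | h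
  · exfalso
    have hinj : Function.Injective χ := (MonoidHom.ker_eq_bot_iff χ).mp h
    have := Nat.card_le_card_of_injective χ hinj
    rw [a5_card, card_cp] at this
    omega
  · exact (MonoidHom.ker_eq_top_iff).mp h

theorem no_a5
    (G : Type) [Group G] [TopologicalSpace G] [IsTopologicalGroup G] (UG : Unif G)
    (h0G : ∀ (K : Type) [Group K] [Finite K], Nat.card (CH G K) ≠ 0)
    (p : ℕ) (hp : p.Prime) (hd : p ∣ 60) (hp60 : p < 60)
    (h : Nat.card (CH G (Multiplicative (ZMod p))) ≤ p)
    (φ : CH G (alternatingGroup (Fin 5))) : ¬ Function.Surjective φ.1 := by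
  intro hφ
  haveI : Fact p.Prime := ⟨hp⟩
  exact perfect_quot G UG h0G p h (alternatingGroup (Fin 5)) φ hφ
    (fun χ => a5_perfect p hp hp60 χ) (by rw [a5_card]; exact hd)

theorem good_all
    (G : Type) [Group G] [TopologicalSpace G] [IsTopologicalGroup G] [CompactSpace G]
    [T2Space G] [TotallyDisconnectedSpace G]
    (H : Type) [Group H] [TopologicalSpace H] [IsTopologicalGroup H] [CompactSpace H]
    [T2Space H] [TotallyDisconnectedSpace H]
    (hcnt : ∀ (K : Type) [Group K] [Finite K],
      Nat.card (CH G K) * Nat.card (CH H K) = Nat.card K ^ 3)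
    (UG : Unif G) (UH : Unif H)
    (hG : ∃ x : G, x ≠ 1) (hH : ∃ x : H, x ≠ 1)
    (h0G : ∀ (K : Type) [Group K] [Finite K], Nat.card (CH G K) ≠ 0)
    (h0H : ∀ (K : Type) [Group K] [Finite K], Nat.card (CH H K) ≠ 0)
    (h2 : Nat.card (CH G (Multiplicative (ZMod 2))) = 2) :
    ∀ p : ℕ, p.Prime → Nat.card (CH G (Multiplicative (ZMod p))) = p := by
  have key : ∀ p : ℕ, p.Prime →
      (Nat.card (CH G (Multiplicative (ZMod p))) = p ∧
        Nat.card (CH H (Multiplicative (ZMod p))) = p ^ 2) ∨
      (Nat.card (CH G (Multiplicative (ZMod p))) = p ^ 2 ∧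
        Nat.card (CH H (Multiplicative (ZMod p))) = p) := by
    intro p hp
    haveI : NeZero p := ⟨hp.ne_zero⟩
    have h1 := hcnt (Multiplicative (ZMod p))
    have hg := lower_bounds G UG h0G hG (Multiplicative (ZMod p))
    have hh := lower_bounds H UH h0H hH (Multiplicative (ZMod p))
    rw [card_cp] at h1 hg hh
    exact split3 p _ _ hp h1 hg hh
  intro p
  induction p using Nat.strong_induction_on with
  | _ p ih =>
    intro hp
    rcases key p hp with ⟨hg, -⟩ | ⟨hg, hh⟩
    · exact hg
    exfalso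
    haveI : Fact p.Prime := ⟨hp⟩
    have hp2 : p ≠ 2 := by
      rintro rfl
      rw [h2] at hg
      norm_num at hg
    have hp4 : p ≠ 4 := by
      rintro rfl
      exact absurd hp (by norm_num)
    have hp2' := hp.two_le
    by_cases hp3 : p = 3
    · subst hp3
      have h2H : Nat.card (CH H (Multiplicative (ZMod 2))) = 4 := by
        rcases key 2 Nat.prime_two with ⟨-, h⟩ | ⟨h, -⟩
        · rw [h]; norm_num
        · rw [h2] at h; norm_num at h
      have nG := fun φ => no_a5 G UG h0G 2 Nat.prime_two (by norm_num) (by norm_num) h2.le φ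
      have nH := fun φ => no_a5 H UH h0H 3 Nat.prime_three (by norm_num) (by norm_num) hh.le φ
      have hprod := hcnt (alternatingGroup (Fin 5))
      rw [a5_card] at hprod
      have hg9 : Nat.card (CH G (Multiplicative (ZMod 3))) = 9 := by rw [hg]; norm_num
      rcases key 5 Nat.prime_five with ⟨h5G, h5H⟩ | ⟨h5G, h5H⟩
      · have u1 := a5_ub G UG h0G nG 2 9 5 h2 hg9 h5G
        have u2 := a5_ub H UH h0H nH 4 3 25 h2H hh (by rw [h5H]; norm_num)
        norm_num at u1 u2 hprod
        have : Nat.card (CH G (alternatingGroup (Fin 5))) *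
            Nat.card (CH H (alternatingGroup (Fin 5))) ≤ 180 * 720 := Nat.mul_le_mul u1 u2
        omega
      · have u1 := a5_ub G UG h0G nG 2 9 25 h2 hg9 (by rw [h5G]; norm_num)
        have u2 := a5_ub H UH h0H nH 4 3 5 h2H hh h5H
        norm_num at u1 u2 hprod
        have : Nat.card (CH G (alternatingGroup (Fin 5))) *
            Nat.card (CH H (alternatingGroup (Fin 5))) ≤ 420 * 240 := Nat.mul_le_mul u1 u2
        omega
    · have hp5 : 5 ≤ p := by omega
      have hcS : ∀ k : ℕ, Nat.card (Equiv.Perm (Fin k)) = Nat.factorial k := by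
        intro k
        rw [Nat.card_eq_fintype_card, Fintype.card_perm, Fintype.card_fin]
      have hkH : ∀ k : ℕ, k < p →
          Nat.card (CH H (Equiv.Perm (Fin k))) = (Nat.factorial k) ^ 2 := by
        intro k hk
        have e1 := perm_eq_factorial G UG h0G p (fun q hq hqp => ih q hq hqp) k hk
        have e2 := hcnt (Equiv.Perm (Fin k))
        rw [e1, hcS] at e2
        have e3 : Nat.factorial k * Nat.card (CH H (Equiv.Perm (Fin k))) =
            Nat.factorial k * (Nat.factorial k) ^ 2 := by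
          rw [e2]; ring
        exact Nat.eq_of_mul_eq_mul_left (Nat.factorial_pos k) e3
      have lH := perm_lower H h0H (fun X _ A => card_split H X A) p hp5 hkH
      have lG : p * Nat.factorial p ≤ Nat.card (CH G (Equiv.Perm (Fin p))) :=
        (pairs_perm p).trans (pairs_le G UG h0G (fun M hM => exists_surj G UG h0G
          (fun p hp => exists_surj_prime G UG h0G hG p hp) M hM) p hg.ge
          (Equiv.Perm (Fin p)))
      have hprod := hcnt (Equiv.Perm (Fin p))
      rw [hcS] at hprod
      have hfac : Nat.factorial p = p * Nat.factorial (p - 1) := by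
        obtain ⟨m, rfl⟩ : ∃ m, p = m + 1 := ⟨p - 1, by omega⟩
        simp [Nat.factorial_succ]
      have hpos : 0 < p * Nat.factorial p := Nat.mul_pos hp.pos (Nat.factorial_pos p)
      have h1 : (p * Nat.factorial p) * (p * (Nat.factorial (p - 1)) ^ 2) <
          Nat.card (CH G (Equiv.Perm (Fin p))) * Nat.card (CH H (Equiv.Perm (Fin p))) := by
        calc (p * Nat.factorial p) * (p * (Nat.factorial (p - 1)) ^ 2)
            < (p * Nat.factorial p) * Nat.card (CH H (Equiv.Perm (Fin p))) :=
              Nat.mul_lt_mul_of_pos_left lH hpos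
          _ ≤ _ := Nat.mul_le_mul_right _ lG
      rw [hprod, hfac] at h1
      have h3 : (p * (p * Nat.factorial (p - 1))) * (p * (Nat.factorial (p - 1)) ^ 2) =
          (p * Nat.factorial (p - 1)) ^ 3 := by ring
      rw [h3] at h1
      exact lt_irrefl _ h1

theorem main3
    (G : Type) [Group G] [TopologicalSpace G] [IsTopologicalGroup G] [CompactSpace G]
    [T2Space G] [TotallyDisconnectedSpace G]
    (H : Type) [Group H] [TopologicalSpace H] [IsTopologicalGroup H] [CompactSpace H]
    [T2Space H] [TotallyDisconnectedSpace H]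
    (P : Type) [Group P] [TopologicalSpace P] [IsTopologicalGroup P] [CompactSpace P]
    [T2Space P] [TotallyDisconnectedSpace P]
    (iG : ContinuousMonoidHom G P) (iH : ContinuousMonoidHom H P)
    (hU : ∀ (K : Type) [Group K] [TopologicalSpace K] [IsTopologicalGroup K] [CompactSpace K]
          [T2Space K] [TotallyDisconnectedSpace K]
          (f : ContinuousMonoidHom G K) (g : ContinuousMonoidHom H K),
          ∃! φ : ContinuousMonoidHom P K, (∀ x, φ (iG x) = f x) ∧ (∀ y, φ (iH y) = g y))
    (n : ℕ) (ι : Fin n → P)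
    (hF : ∀ (K : Type) [Group K] [TopologicalSpace K] [IsTopologicalGroup K] [CompactSpace K]
          [T2Space K] [TotallyDisconnectedSpace K] (f : Fin n → K),
          ∃! φ : ContinuousMonoidHom P K, ∀ i, φ (ι i) = f i)
    (hn : n ≤ 3) :
    (∃ m : ℕ, ∃ ι : Fin m → G,
        ∀ (K : Type) [Group K] [TopologicalSpace K] [IsTopologicalGroup K] [CompactSpace K]
          [T2Space K] [TotallyDisconnectedSpace K] (f : Fin m → K),
          ∃! φ : ContinuousMonoidHom G K, ∀ i, φ (ι i) = f i) ∧
    (∃ k : ℕ, ∃ ι : Fin k → H,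
        ∀ (K : Type) [Group K] [TopologicalSpace K] [IsTopologicalGroup K] [CompactSpace K]
          [T2Space K] [TotallyDisconnectedSpace K] (f : Fin k → K),
          ∃! φ : ContinuousMonoidHom H K, ∀ i, φ (ι i) = f i) := by
  by_cases hn2 : n ≤ 2
  · exact main G H P iG iH hU n ι hF (Or.inl hn2)
  have hn3 : n = 3 := by omega
  subst hn3
  by_cases hH : ∀ y : H, y = 1
  · obtain ⟨h1, h2⟩ := free_of_trivial_factor G H P iG iH hU 3 ι hF hH
    exact ⟨⟨3, h1⟩, ⟨0, h2⟩⟩
  by_cases hG : ∀ y : G, y = 1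
  · obtain ⟨h1, h2⟩ := free_of_trivial_factor H G P iH iG (by
      intro K _ _ _ _ _ _ f g
      obtain ⟨φ, h1, h2⟩ := hU K g f
      exact ⟨φ, ⟨h1.2, h1.1⟩, fun ψ hψ => h2 ψ ⟨hψ.2, hψ.1⟩⟩) 3 ι hF hG
    exact ⟨⟨0, h2⟩, ⟨3, h1⟩⟩
  push Not at hG hH
  obtain ⟨hcnt, UG, UH⟩ := counts G H P 3 (iG : G →* P) (iH : H →* P)
    iG.continuous_toFun iH.continuous_toFun
    (fun K _ _ f g => coprod_fin G H P iG iH hU K f g) ι
    (fun K _ _ f => free_fin P 3 ι hF K f)
  have hpos : ∀ (K : Type) [Group K] [Finite K], 0 < Nat.card K ^ 3 := by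
    intro K _ _
    exact pow_pos Nat.card_pos 3
  have h0G : ∀ (K : Type) [Group K] [Finite K], Nat.card (CH G K) ≠ 0 := by
    intro K _ _ h
    have h1 := hcnt K
    rw [h, zero_mul] at h1
    exact absurd h1.symm (hpos K).ne'
  have h0H : ∀ (K : Type) [Group K] [Finite K], Nat.card (CH H K) ≠ 0 := by
    intro K _ _ h
    have h1 := hcnt K
    rw [h, mul_zero] at h1
    exact absurd h1.symm (hpos K).ne'
  have hcnt' : ∀ (K : Type) [Group K] [Finite K],
      Nat.card (CH H K) * Nat.card (CH G K) = Nat.card K ^ 3 := by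
    intro K _ _
    rw [mul_comm]
    exact hcnt K
  have h1 := hcnt (Multiplicative (ZMod 2))
  have hg := lower_bounds G UG h0G hG (Multiplicative (ZMod 2))
  have hh := lower_bounds H UH h0H hH (Multiplicative (ZMod 2))
  rw [card_cp] at h1 hg hh
  rcases split3 2 _ _ Nat.prime_two h1 hg hh with ⟨h2, -⟩ | ⟨-, h2⟩
  · exact main_aux G H 3 hcnt UG UH hG hH
      (Or.inr (fun p hp => (good_all G H hcnt UG UH hG hH h0G h0H h2 p hp).le))
  · have h := main_aux H G 3 hcnt' UH UG hH hG
      (Or.inr (fun p hp => (good_all H G hcnt' UH UG hH hG h0H h0G h2 p hp).le))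
    exact ⟨h.2, h.1⟩

end Pool.Agent.Helper127.FF
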