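import Mathlib
import Pool.Agent.Helper127.FF.Core4
import Pool.Agent.Helper127.FF.BB
import Pool.Agent.Helper127.FF.C1
import Pool.Agent.Helper127.FF.C2
import Pool.Agent.Helper127.FF.C4

set_option autoImplicit false

namespace Pool.Agent.Helper127.FF

open J3_counts R4 Z1 J4_M1 R1 R2 Z2 Z5 Z4 J1_coprod J2_free J5_M2 J6_M3 R3 T1 N5 A5n4 A5a A5n2 A5c A5u N3 N6 N7 A5n3 A5n1

theorem split_gen (p m a b : ℕ) (hp : p.Prime) (hab : a * b = p ^ (m + 1)) (ha : p ≤ a)
    (hb : p ≤ b) (h : a ≤ p ∨ b ≤ p) :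
    (a = p ∧ b = p ^ m) ∨ (a = p ^ m ∧ b = p) := by
  rcases h with h | h
  · left
    have h1 : a = p := le_antisymm h ha
    refine ⟨h1, ?_⟩
    rw [h1, pow_succ'] at hab
    exact Nat.eq_of_mul_eq_mul_left hp.pos hab
  · right
    have h1 : b = p := le_antisymm h hb
    refine ⟨?_, h1⟩
    rw [h1, pow_succ] at hab
    exact Nat.eq_of_mul_eq_mul_right hp.pos hab

theorem good_all_gen
    (G : Type) [Group G] [TopologicalSpace G] [IsTopologicalGroup G] [CompactSpace G]
    [T2Space G] [TotallyDisconnectedSpace G]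
    (H : Type) [Group H] [TopologicalSpace H] [IsTopologicalGroup H] [CompactSpace H]
    [T2Space H] [TotallyDisconnectedSpace H] (m : ℕ) (hm : 2 ≤ m)
    (hcnt : ∀ (K : Type) [Group K] [Finite K],
      Nat.card (CH G K) * Nat.card (CH H K) = Nat.card K ^ (m + 1))
    (UG : Unif G) (UH : Unif H)
    (hG : ∃ x : G, x ≠ 1) (hH : ∃ x : H, x ≠ 1)
    (h0G : ∀ (K : Type) [Group K] [Finite K], Nat.card (CH G K) ≠ 0)
    (h0H : ∀ (K : Type) [Group K] [Finite K], Nat.card (CH H K) ≠ 0)
    (hmin : ∀ p : ℕ, p.Prime → (Nat.card (CH G (Multiplicative (ZMod p))) ≤ p ∨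
      Nat.card (CH H (Multiplicative (ZMod p))) ≤ p))
    (h2 : Nat.card (CH G (Multiplicative (ZMod 2))) = 2) :
    ∀ p : ℕ, p.Prime → Nat.card (CH G (Multiplicative (ZMod p))) = p := by
  have key : ∀ p : ℕ, p.Prime →
      (Nat.card (CH G (Multiplicative (ZMod p))) = p ∧
        Nat.card (CH H (Multiplicative (ZMod p))) = p ^ m) ∨
      (Nat.card (CH G (Multiplicative (ZMod p))) = p ^ m ∧
        Nat.card (CH H (Multiplicative (ZMod p))) = p) := by
    intro p hp
    have : NeZero p := ⟨hp.ne_zero⟩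
    have h1 := hcnt (Multiplicative (ZMod p))
    have hg := lower_bounds G UG h0G hG (Multiplicative (ZMod p))
    have hh := lower_bounds H UH h0H hH (Multiplicative (ZMod p))
    rw [card_cp] at h1 hg hh
    exact split_gen p m _ _ hp h1 hg hh (hmin p hp)
  intro p
  induction p using Nat.strong_induction_on with
  | _ p ih =>
    intro hp
    rcases key p hp with ⟨hg, -⟩ | ⟨hg, hh⟩
    · exact hg
    exfalso
    have : Fact p.Prime := ⟨hp⟩
    have h2m : 2 < 2 ^ m := by
      calc 2 < 2 ^ 2 := by norm_num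
        _ ≤ 2 ^ m := Nat.pow_le_pow_right (by norm_num) hm
    have hp2 : p ≠ 2 := by
      rintro rfl
      rw [h2] at hg
      omega
    have hp4 : p ≠ 4 := by
      rintro rfl
      exact absurd hp (by norm_num)
    have hp2' := hp.two_le
    by_cases hp3 : p = 3
    · subst hp3
      have h2H : Nat.card (CH H (Multiplicative (ZMod 2))) = 2 ^ m := by
        rcases key 2 Nat.prime_two with ⟨-, h⟩ | ⟨h, -⟩
        · exact h
        · rw [h2] at h; omega
      have nG := fun φ => no_a5 G UG h0G 2 Nat.prime_two (by norm_num) (by norm_num) h2.le φ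
      have nH := fun φ => no_a5 H UH h0H 3 Nat.prime_three (by norm_num) (by norm_num) hh.le φ
      have hprod := hcnt (alternatingGroup (Fin 5))
      rw [a5_card] at hprod
      rcases key 5 Nat.prime_five with ⟨h5G, h5H⟩ | ⟨h5G, h5H⟩
      · have u1 := a5_ub G UG h0G nG 2 (3 ^ m) 5 h2 hg h5G
        have u2 := a5_ub H UH h0H nH (2 ^ m) 3 (5 ^ m) h2H hh h5H
        exact C4.a5_num1 m hm _ _ u1 u2 hprod
      · have u1 := a5_ub G UG h0G nG 2 (3 ^ m) (5 ^ m) h2 hg h5G
        have u2 := a5_ub H UH h0H nH (2 ^ m) 3 5 h2H hh h5H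
        exact C4.a5_num2 m hm _ _ u1 u2 hprod
    · have hp5 : 5 ≤ p := by omega
      have hcS : ∀ k : ℕ, Nat.card (Equiv.Perm (Fin k)) = Nat.factorial k := by
        intro k
        rw [Nat.card_eq_fintype_card, Fintype.card_perm, Fintype.card_fin]
      have hkH : ∀ k : ℕ, k < p →
          Nat.card (CH H (Equiv.Perm (Fin k))) = (Nat.factorial k) ^ m := by
        intro k hk
        have e1 := perm_eq_factorial G UG h0G p (fun q hq hqp => ih q hq hqp) k hk
        have e2 := hcnt (Equiv.Perm (Fin k))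
        rw [e1, hcS] at e2
        have e3 : Nat.factorial k * Nat.card (CH H (Equiv.Perm (Fin k))) =
            Nat.factorial k * (Nat.factorial k) ^ m := by
          rw [e2]; ring
        exact Nat.eq_of_mul_eq_mul_left (Nat.factorial_pos k) e3
      have lH := BB.perm_lower_gen H h0H (fun X _ A => card_split H X A) p m hp5 hm hkH
      obtain ⟨l, hl⟩ : ∃ l, m = l + 1 := ⟨m - 1, by omega⟩
      have lG : p ^ l * Nat.factorial p ≤ Nat.card (CH G (Equiv.Perm (Fin p))) := by
        have e1 := C1.many_homs G UG h0G (fun M hM => exists_surj G UG h0G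
          (fun p hp => exists_surj_prime G UG h0G hG p hp) M hM) p l (by rw [← hl]; exact hg.ge)
          (Equiv.Perm (Fin p))
        have e2 := C2.pairs_sylow p (Equiv.Perm (Fin p)) (C2.perm_sylow p)
        rw [hcS] at e1 e2
        have e3 := Nat.mul_le_mul_right (p ^ l - 1) e2
        have e4 : p ^ l * Nat.factorial p =
            Nat.factorial p + Nat.factorial p * (p ^ l - 1) := by
          have : 1 ≤ p ^ l := Nat.one_le_pow _ _ hp.pos
          obtain ⟨t, ht⟩ : ∃ t, p ^ l = t + 1 := ⟨p ^ l - 1, by omega⟩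
          rw [ht, Nat.add_sub_cancel]
          ring
        rw [e4]
        exact (Nat.add_le_add_left e3 _).trans e1
      have hprod := hcnt (Equiv.Perm (Fin p))
      rw [hcS] at hprod
      have hfac : Nat.factorial p = p * Nat.factorial (p - 1) := by
        obtain ⟨m, rfl⟩ : ∃ m, p = m + 1 := ⟨p - 1, by omega⟩
        simp [Nat.factorial_succ]
      have hpos : 0 < p ^ l * Nat.factorial p :=
        Nat.mul_pos (pow_pos hp.pos l) (Nat.factorial_pos p)
      have h1 : (p ^ l * Nat.factorial p) * (p * (Nat.factorial (p - 1)) ^ m) <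
          Nat.card (CH G (Equiv.Perm (Fin p))) * Nat.card (CH H (Equiv.Perm (Fin p))) := by
        calc (p ^ l * Nat.factorial p) * (p * (Nat.factorial (p - 1)) ^ m)
            < (p ^ l * Nat.factorial p) * Nat.card (CH H (Equiv.Perm (Fin p))) :=
              Nat.mul_lt_mul_of_pos_left lH hpos
          _ ≤ _ := Nat.mul_le_mul_right _ lG
      rw [hprod, hfac, hl] at h1
      have h3 : (p ^ l * (p * Nat.factorial (p - 1))) *
          (p * (Nat.factorial (p - 1)) ^ (l + 1)) =
          (p * Nat.factorial (p - 1)) ^ (l + 1 + 1) := by ring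
      rw [h3] at h1
      exact lt_irrefl _ h1

theorem main5
    (G : Type) [Group G] [TopologicalSpace G] [IsTopologicalGroup G] [CompactSpace G]
    [T2Space G] [TotallyDisconnectedSpace G]
    (H : Type) [Group H] [TopologicalSpace H] [IsTopologicalGroup H] [CompactSpace H]
    [T2Space H] [TotallyDisconnectedSpace H]
    (P : Type) [Group P] [TopologicalSpace P] [IsTopologicalGroup P] [CompactSpace P]
    [T2Space P] [TotallyDisconnectedSpace P]
    (iG : ContinuousMonoidHom G P) (iH : ContinuousMonoidHom H P)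
    (hU : ∀ (K : Type) [Group K] [TopologicalSpace K] [IsTopologicalGroup K] [CompactSpace K]
          [T2Space K] [TotallyDisconnectedSpace K]
          (f : ContinuousMonoidHom G K) (g : ContinuousMonoidHom H K),
          ∃! φ : ContinuousMonoidHom P K, (∀ x, φ (iG x) = f x) ∧ (∀ y, φ (iH y) = g y))
    (n : ℕ) (ι : Fin n → P)
    (hF : ∀ (K : Type) [Group K] [TopologicalSpace K] [IsTopologicalGroup K] [CompactSpace K]
          [T2Space K] [TotallyDisconnectedSpace K] (f : Fin n → K),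
          ∃! φ : ContinuousMonoidHom P K, ∀ i, φ (ι i) = f i)
    (hmin : ∀ p : ℕ, p.Prime → (Nat.card (CH G (Multiplicative (ZMod p))) ≤ p ∨
      Nat.card (CH H (Multiplicative (ZMod p))) ≤ p)) :
    (∃ m : ℕ, ∃ ι : Fin m → G,
        ∀ (K : Type) [Group K] [TopologicalSpace K] [IsTopologicalGroup K] [CompactSpace K]
          [T2Space K] [TotallyDisconnectedSpace K] (f : Fin m → K),
          ∃! φ : ContinuousMonoidHom G K, ∀ i, φ (ι i) = f i) ∧
    (∃ k : ℕ, ∃ ι : Fin k → H,
        ∀ (K : Type) [Group K] [TopologicalSpace K] [IsTopologicalGroup K] [CompactSpace K]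
          [T2Space K] [TotallyDisconnectedSpace K] (f : Fin k → K),
          ∃! φ : ContinuousMonoidHom H K, ∀ i, φ (ι i) = f i) := by
  by_cases hn2 : n ≤ 2
  · exact main G H P iG iH hU n ι hF (Or.inl hn2)
  obtain ⟨m, hm, rfl⟩ : ∃ m, 2 ≤ m ∧ n = m + 1 := ⟨n - 1, by omega, by omega⟩
  by_cases hH : ∀ y : H, y = 1
  · obtain ⟨h1, h2⟩ := free_of_trivial_factor G H P iG iH hU (m + 1) ι hF hH
    exact ⟨⟨m + 1, h1⟩, ⟨0, h2⟩⟩
  by_cases hG : ∀ y : G, y = 1
  · obtain ⟨h1, h2⟩ := free_of_trivial_factor H G P iH iG (by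
      intro K _ _ _ _ _ _ f g
      obtain ⟨φ, h1, h2⟩ := hU K g f
      exact ⟨φ, ⟨h1.2, h1.1⟩, fun ψ hψ => h2 ψ ⟨hψ.2, hψ.1⟩⟩) (m + 1) ι hF hG
    exact ⟨⟨0, h2⟩, ⟨m + 1, h1⟩⟩
  push Not at hG hH
  obtain ⟨hcnt, UG, UH⟩ := counts G H P (m + 1) (iG : G →* P) (iH : H →* P)
    iG.continuous_toFun iH.continuous_toFun
    (fun K _ _ f g => coprod_fin G H P iG iH hU K f g) ι
    (fun K _ _ f => free_fin P (m + 1) ι hF K f)
  have hpos : ∀ (K : Type) [Group K] [Finite K], 0 < Nat.card K ^ (m + 1) := by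
    intro K _ _
    exact pow_pos Nat.card_pos (m + 1)
  have h0G : ∀ (K : Type) [Group K] [Finite K], Nat.card (CH G K) ≠ 0 := by
    intro K _ _ h
    have h1 := hcnt K
    rw [h, zero_mul] at h1
    exact absurd h1.symm (hpos K).ne'
  have h0H : ∀ (K : Type) [Group K] [Finite K], Nat.card (CH H K) ≠ 0 := by
    intro K _ _ h
    have h1 := hcnt K
    rw [h, mul_zero] at h1
    exact absurd h1.symm (hpos K).ne'
  have hcnt' : ∀ (K : Type) [Group K] [Finite K],
      Nat.card (CH H K) * Nat.card (CH G K) = Nat.card K ^ (m + 1) := by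
    intro K _ _
    rw [mul_comm]
    exact hcnt K
  have h1 := hcnt (Multiplicative (ZMod 2))
  have hg := lower_bounds G UG h0G hG (Multiplicative (ZMod 2))
  have hh := lower_bounds H UH h0H hH (Multiplicative (ZMod 2))
  rw [card_cp] at h1 hg hh
  rcases split_gen 2 m _ _ Nat.prime_two h1 hg hh (hmin 2 Nat.prime_two) with ⟨h2, -⟩ | ⟨-, h2⟩
  · exact main_aux G H (m + 1) hcnt UG UH hG hH
      (Or.inr (fun p hp => (good_all_gen G H m hm hcnt UG UH hG hH h0G h0H hmin h2 p hp).le))
  · have h := main_aux H G (m + 1) hcnt' UH UG hH hG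
      (Or.inr (fun p hp => (good_all_gen H G m hm hcnt' UH UG hH hG h0H h0G
        (fun p hp => (hmin p hp).symm) h2 p hp).le))
    exact ⟨h.2, h.1⟩

end Pool.Agent.Helper127.FF
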