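import Mathlib
import Pool.Agent.Helper127.FF.Core5

set_option autoImplicit false

namespace Pool.Agent.Helper127.FF

open J3_counts R4 Z1 J4_M1 R1 R2 Z2 Z5 Z4 J1_coprod J2_free J5_M2 J6_M3 R3 T1 N5 A5n4 A5a A5n2 A5c A5u N3 N6 N7 A5n3 A5n1

/-- the numbers of homomorphisms to finite simple groups determine all numbers -/
theorem card_of_simple
    (G : Type) [Group G] [TopologicalSpace G] (hU : Unif G)
    (h0 : ∀ (K : Type) [Group K] [Finite K], Nat.card (CH G K) ≠ 0) (m : ℕ)
    (hS : ∀ (S : Type) [Group S] [Finite S] [IsSimpleGroup S],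
      Nat.card (CH G S) = Nat.card S ^ m)
    (K : Type) [Group K] [Finite K] : Nat.card (CH G K) = Nat.card K ^ m := by
  suffices H : ∀ n : ℕ, ∀ (K : Type) [Group K] [Finite K], Nat.card K = n →
      Nat.card (CH G K) = Nat.card K ^ m from H _ K rfl
  intro n
  induction n using Nat.strong_induction_on with
  | _ n ih =>
    intro K _ _ hK
    rcases subsingleton_or_nontrivial K with hs | hnt
    · have h1 : Nat.card K = 1 := Nat.card_unique
      rw [h1, one_pow]
      have : Subsingleton (CH G K) := by
        constructor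
        intro a b
        apply Subtype.ext
        ext g
        exact Subsingleton.elim _ _
      have hne : Nonempty (CH G K) := by
        by_contra h
        rw [not_nonempty_iff] at h
        exact h0 K Nat.card_of_isEmpty
      exact Nat.card_eq_one_iff_unique.mpr ⟨this, hne⟩
    · by_cases hsim : ∀ N : Subgroup K, N.Normal → N = ⊥ ∨ N = ⊤
      · have : IsSimpleGroup K := ⟨fun N hN => hsim N hN⟩
        exact hS K
      · push Not at hsim
        obtain ⟨N, hN, hb, ht⟩ := hsim
        have := hN
        have e := Subgroup.card_eq_card_quotient_mul_card_subgroup N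
        have hN1 : 1 < Nat.card N := by
          have : Nontrivial N := (Subgroup.nontrivial_iff_ne_bot N).mpr hb
          exact Finite.one_lt_card
        have hQ1 : 1 < Nat.card (K ⧸ N) := by
          have : 0 < Nat.card (K ⧸ N) := Nat.card_pos
          have h2 : Nat.card (K ⧸ N) ≠ 1 := by
            intro h
            exact ht (Subgroup.index_eq_one.mp h)
          omega
        rw [N6.card_mul34567 G hU h0 K N, ih (Nat.card (K ⧸ N)) ?_ (K ⧸ N) rfl,
          ih (Nat.card N) ?_ N rfl, ← mul_pow, ← e]
        · rw [← hK, e]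
          nlinarith
        · rw [← hK, e]
          nlinarith

theorem main_simple
    (G : Type) [Group G] [TopologicalSpace G] [IsTopologicalGroup G] [CompactSpace G]
    [T2Space G] [TotallyDisconnectedSpace G]
    (H : Type) [Group H] [TopologicalSpace H] [IsTopologicalGroup H] [CompactSpace H]
    [T2Space H] [TotallyDisconnectedSpace H]
    (P : Type) [Group P] [TopologicalSpace P] [IsTopologicalGroup P] [CompactSpace P]
    [T2Space P] [TotallyDisconnectedSpace P]
    (iG : ContinuousMonoidHom G P) (iH : ContinuousMonoidHom H P)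
    (hU : ∀ (K : Type) [Group K] [TopologicalSpace K] [IsTopologicalGroup K] [CompactSpace K]
          [T2Space K] [TotallyDisconnectedSpace K]
          (f : ContinuousMonoidHom G K) (g : ContinuousMonoidHom H K),
          ∃! φ : ContinuousMonoidHom P K, (∀ x, φ (iG x) = f x) ∧ (∀ y, φ (iH y) = g y))
    (n : ℕ) (ι : Fin n → P)
    (hF : ∀ (K : Type) [Group K] [TopologicalSpace K] [IsTopologicalGroup K] [CompactSpace K]
          [T2Space K] [TotallyDisconnectedSpace K] (f : Fin n → K),
          ∃! φ : ContinuousMonoidHom P K, ∀ i, φ (ι i) = f i)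
    (m : ℕ)
    (hS : ∀ (S : Type) [Group S] [Finite S] [IsSimpleGroup S],
      Nat.card (CH G S) = Nat.card S ^ m) :
    (∃ m : ℕ, ∃ ι : Fin m → G,
        ∀ (K : Type) [Group K] [TopologicalSpace K] [IsTopologicalGroup K] [CompactSpace K]
          [T2Space K] [TotallyDisconnectedSpace K] (f : Fin m → K),
          ∃! φ : ContinuousMonoidHom G K, ∀ i, φ (ι i) = f i) ∧
    (∃ k : ℕ, ∃ ι : Fin k → H,
        ∀ (K : Type) [Group K] [TopologicalSpace K] [IsTopologicalGroup K] [CompactSpace K]
          [T2Space K] [TotallyDisconnectedSpace K] (f : Fin k → K),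
          ∃! φ : ContinuousMonoidHom H K, ∀ i, φ (ι i) = f i) := by
  obtain ⟨hcnt, UG, UH⟩ := counts G H P n (iG : G →* P) (iH : H →* P)
    iG.continuous_toFun iH.continuous_toFun
    (fun K _ _ f g => coprod_fin G H P iG iH hU K f g) ι
    (fun K _ _ f => free_fin P n ι hF K f)
  have hpos : ∀ (K : Type) [Group K] [Finite K], 0 < Nat.card K ^ n := by
    intro K _ _
    exact pow_pos Nat.card_pos n
  have h0G : ∀ (K : Type) [Group K] [Finite K], Nat.card (CH G K) ≠ 0 := by
    intro K _ _ h
    have h1 := hcnt K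
    rw [h, zero_mul] at h1
    exact absurd h1.symm (hpos K).ne'
  have eqG := fun (K : Type) [Group K] [Finite K] => card_of_simple G UG h0G m hS K
  have hmn : m ≤ n := by
    have h1 := hcnt (Multiplicative (ZMod 2))
    have : NeZero 2 := ⟨two_ne_zero⟩
    rw [eqG, card_cp] at h1
    exact (Nat.pow_dvd_pow_iff_le_right (by norm_num)).mp ⟨_, h1.symm⟩
  have eqH : ∀ (K : Type) [Group K] [Finite K],
      Nat.card (CH H K) = Nat.card K ^ (n - m) := by
    intro K _ _
    have h1 := hcnt K
    rw [eqG K] at h1
    have h2 : Nat.card K ^ n = Nat.card K ^ m * Nat.card K ^ (n - m) := by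
      rw [← pow_add]
      congr 1
      omega
    rw [h2] at h1
    exact Nat.eq_of_mul_eq_mul_left (pow_pos Nat.card_pos m) h1
  exact ⟨⟨m, recog G m (fun K _ _ => eqG K)⟩, ⟨n - m, recog H (n - m) (fun K _ _ => eqH K)⟩⟩

theorem main_rel
    (G : Type) [Group G] [TopologicalSpace G] [IsTopologicalGroup G] [CompactSpace G]
    [T2Space G] [TotallyDisconnectedSpace G]
    (H : Type) [Group H] [TopologicalSpace H] [IsTopologicalGroup H] [CompactSpace H]
    [T2Space H] [TotallyDisconnectedSpace H]
    (P : Type) [Group P] [TopologicalSpace P] [IsTopologicalGroup P] [CompactSpace P]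
    [T2Space P] [TotallyDisconnectedSpace P]
    (iG : ContinuousMonoidHom G P) (iH : ContinuousMonoidHom H P)
    (hU : ∀ (K : Type) [Group K] [TopologicalSpace K] [IsTopologicalGroup K] [CompactSpace K]
          [T2Space K] [TotallyDisconnectedSpace K]
          (f : ContinuousMonoidHom G K) (g : ContinuousMonoidHom H K),
          ∃! φ : ContinuousMonoidHom P K, (∀ x, φ (iG x) = f x) ∧ (∀ y, φ (iH y) = g y))
    (n : ℕ) (ι : Fin n → P)
    (hF : ∀ (K : Type) [Group K] [TopologicalSpace K] [IsTopologicalGroup K] [CompactSpace K]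
          [T2Space K] [TotallyDisconnectedSpace K] (f : Fin n → K),
          ∃! φ : ContinuousMonoidHom P K, ∀ i, φ (ι i) = f i)
    (a b : ℕ) (hab : 0 < a + b)
    (hS : ∀ (S : Type) [Group S] [Finite S] [IsSimpleGroup S],
      Nat.card (CH G S) ^ a = Nat.card (CH H S) ^ b) :
    (∃ m : ℕ, ∃ ι : Fin m → G,
        ∀ (K : Type) [Group K] [TopologicalSpace K] [IsTopologicalGroup K] [CompactSpace K]
          [T2Space K] [TotallyDisconnectedSpace K] (f : Fin m → K),
          ∃! φ : ContinuousMonoidHom G K, ∀ i, φ (ι i) = f i) ∧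
    (∃ k : ℕ, ∃ ι : Fin k → H,
        ∀ (K : Type) [Group K] [TopologicalSpace K] [IsTopologicalGroup K] [CompactSpace K]
          [T2Space K] [TotallyDisconnectedSpace K] (f : Fin k → K),
          ∃! φ : ContinuousMonoidHom H K, ∀ i, φ (ι i) = f i) := by
  obtain ⟨hcnt, UG, UH⟩ := counts G H P n (iG : G →* P) (iH : H →* P)
    iG.continuous_toFun iH.continuous_toFun
    (fun K _ _ f g => coprod_fin G H P iG iH hU K f g) ι
    (fun K _ _ f => free_fin P n ι hF K f)
  have key : ∀ (S : Type) [Group S] [Finite S] [IsSimpleGroup S],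
      Nat.card (CH G S) ^ (a + b) = Nat.card S ^ (n * b) := by
    intro S _ _ _
    rw [pow_add, hS S, ← mul_pow, mul_comm (Nat.card (CH H S)), hcnt S, ← pow_mul]
  have : Fact (Nat.Prime 2) := ⟨Nat.prime_two⟩
  have : NeZero 2 := ⟨two_ne_zero⟩
  have hsimp : IsSimpleGroup (Multiplicative (ZMod 2)) :=
    isSimpleGroup_of_prime_card (p := 2) (card_cp 2)
  have h1 := hcnt (Multiplicative (ZMod 2))
  rw [card_cp] at h1
  obtain ⟨j, hj, hj2⟩ := (Nat.dvd_prime_pow Nat.prime_two).mp ⟨_, h1.symm⟩
  have h2 := key (Multiplicative (ZMod 2))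
  rw [hj2, card_cp, ← pow_mul] at h2
  have h3 : j * (a + b) = n * b := Nat.pow_right_injective (le_refl 2) h2
  refine main_simple G H P iG iH hU n ι hF j ?_
  intro S _ _ _
  have h4 := key S
  rw [← h3, pow_mul] at h4
  exact Nat.pow_left_injective (by omega) h4

theorem main_iso
    (G : Type) [Group G] [TopologicalSpace G] [IsTopologicalGroup G] [CompactSpace G]
    [T2Space G] [TotallyDisconnectedSpace G]
    (H : Type) [Group H] [TopologicalSpace H] [IsTopologicalGroup H] [CompactSpace H]
    [T2Space H] [TotallyDisconnectedSpace H]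
    (P : Type) [Group P] [TopologicalSpace P] [IsTopologicalGroup P] [CompactSpace P]
    [T2Space P] [TotallyDisconnectedSpace P]
    (iG : ContinuousMonoidHom G P) (iH : ContinuousMonoidHom H P)
    (hU : ∀ (K : Type) [Group K] [TopologicalSpace K] [IsTopologicalGroup K] [CompactSpace K]
          [T2Space K] [TotallyDisconnectedSpace K]
          (f : ContinuousMonoidHom G K) (g : ContinuousMonoidHom H K),
          ∃! φ : ContinuousMonoidHom P K, (∀ x, φ (iG x) = f x) ∧ (∀ y, φ (iH y) = g y))
    (n : ℕ) (ι : Fin n → P)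
    (hF : ∀ (K : Type) [Group K] [TopologicalSpace K] [IsTopologicalGroup K] [CompactSpace K]
          [T2Space K] [TotallyDisconnectedSpace K] (f : Fin n → K),
          ∃! φ : ContinuousMonoidHom P K, ∀ i, φ (ι i) = f i)
    (e : G ≃ₜ* H) :
    (∃ m : ℕ, ∃ ι : Fin m → G,
        ∀ (K : Type) [Group K] [TopologicalSpace K] [IsTopologicalGroup K] [CompactSpace K]
          [T2Space K] [TotallyDisconnectedSpace K] (f : Fin m → K),
          ∃! φ : ContinuousMonoidHom G K, ∀ i, φ (ι i) = f i) ∧
    (∃ k : ℕ, ∃ ι : Fin k → H,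
        ∀ (K : Type) [Group K] [TopologicalSpace K] [IsTopologicalGroup K] [CompactSpace K]
          [T2Space K] [TotallyDisconnectedSpace K] (f : Fin k → K),
          ∃! φ : ContinuousMonoidHom H K, ∀ i, φ (ι i) = f i) := by
  refine main_rel G H P iG iH hU n ι hF 1 1 (by norm_num) ?_
  intro S _ _ _
  rw [pow_one, pow_one]
  refine Nat.card_congr
    { toFun := fun φ => ⟨φ.1.comp (e.symm.toMulEquiv.toMonoidHom), ?_⟩
      invFun := fun φ => ⟨φ.1.comp (e.toMulEquiv.toMonoidHom), ?_⟩
      left_inv := ?_
      right_inv := ?_ }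
  · have h := φ.2.preimage e.symm.toHomeomorph.continuous
    exact h
  · have h := φ.2.preimage e.toHomeomorph.continuous
    exact h
  · intro φ
    apply Subtype.ext
    ext g
    show φ.1 (e.symm (e g)) = φ.1 g
    rw [ContinuousMulEquiv.symm_apply_apply]
  · intro φ
    apply Subtype.ext
    ext g
    show φ.1 (e (e.symm g)) = φ.1 g
    rw [ContinuousMulEquiv.apply_symm_apply]

end Pool.Agent.Helper127.FF
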