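import Mathlib
import Pool.Agent.Helper127.FF.Defs

set_option autoImplicit false

namespace Pool.Agent.Helper127.FF.DD

/-- crossed homomorphisms of `G` to the functions on `X` -/
def ZC (G X K : Type) [Group G] [TopologicalSpace G] [MulAction G X] [Group K] : Type :=
  {c : G → X → K // (∀ g h x, c (g * h) x = c g x * c h (g⁻¹ • x)) ∧
    ∃ V : Subgroup G, IsOpen (V : Set G) ∧ ∀ g ∈ V, ∀ x, c g x = 1 ∧ g • x = x}




section sh
variable {G : Type} [Group G] [TopologicalSpace G] [IsTopologicalGroup G] (U : Subgroup G)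

open Classical in
/-- representatives -/
noncomputable def shr (x : G ⧸ U) : G := if x = ((1 : G) : G ⧸ U) then 1 else Quotient.out x

omit [TopologicalSpace G] [IsTopologicalGroup G] in
theorem shr_one : shr U ((1 : G) : G ⧸ U) = 1 := if_pos rfl

omit [TopologicalSpace G] [IsTopologicalGroup G] in
theorem shr_mk (x : G ⧸ U) : ((shr U x : G) : G ⧸ U) = x := by
  unfold shr
  split_ifs with h
  · exact h.symm
  · exact QuotientGroup.out_eq' x

omit [TopologicalSpace G] [IsTopologicalGroup G] in
theorem sh_smul (g h : G) : g • ((h : G) : G ⧸ U) = ((g * h : G) : G ⧸ U) := rfl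

omit [TopologicalSpace G] [IsTopologicalGroup G] in
theorem shr_smul (x : G ⧸ U) : (shr U x) • ((1 : G) : G ⧸ U) = x := by
  rw [sh_smul, mul_one, shr_mk]

omit [TopologicalSpace G] [IsTopologicalGroup G] in
theorem shr_inv_smul (x : G ⧸ U) : (shr U x)⁻¹ • x = ((1 : G) : G ⧸ U) := by
  rw [inv_smul_eq_iff, shr_smul]

omit [TopologicalSpace G] [IsTopologicalGroup G] in
theorem sh_mem_smul (u : G) (hu : u ∈ U) : u • ((1 : G) : G ⧸ U) = ((1 : G) : G ⧸ U) := by
  rw [sh_smul, mul_one]
  exact QuotientGroup.eq.mpr (by simpa using U.inv_mem hu)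

omit [TopologicalSpace G] [IsTopologicalGroup G] in
theorem sh_rho_mem (g : G) (x : G ⧸ U) : (shr U x)⁻¹ * g * shr U (g⁻¹ • x) ∈ U := by
  have h : ((shr U x : G) : G ⧸ U) = ((g * shr U (g⁻¹ • x) : G) : G ⧸ U) := by
    rw [shr_mk, ← sh_smul, shr_mk, smul_inv_smul]
  have := QuotientGroup.eq.mp h
  rwa [← mul_assoc] at this

/-- the cocycle into `U` -/
noncomputable def rho (g : G) (x : G ⧸ U) : U := ⟨_, sh_rho_mem U g x⟩

omit [TopologicalSpace G] [IsTopologicalGroup G] in
theorem rho_mul (g h : G) (x : G ⧸ U) : rho U (g * h) x = rho U g x * rho U h (g⁻¹ • x) := by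
  apply Subtype.ext
  show (shr U x)⁻¹ * (g * h) * shr U ((g * h)⁻¹ • x) =
    ((shr U x)⁻¹ * g * shr U (g⁻¹ • x)) * ((shr U (g⁻¹ • x))⁻¹ * h * shr U (h⁻¹ • g⁻¹ • x))
  rw [mul_inv_rev, mul_smul]
  group

omit [TopologicalSpace G] [IsTopologicalGroup G] in
theorem rho_u (u : U) : rho U (u : G) ((1 : G) : G ⧸ U) = u := by
  apply Subtype.ext
  show (shr U ((1 : G) : G ⧸ U))⁻¹ * (u : G) * shr U ((u : G)⁻¹ • ((1 : G) : G ⧸ U)) = u
  rw [sh_mem_smul U _ (U.inv_mem u.2), shr_one]
  group

omit [TopologicalSpace G] [IsTopologicalGroup G] in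
theorem rho_r (x : G ⧸ U) : rho U (shr U x) x = 1 := by
  apply Subtype.ext
  show (shr U x)⁻¹ * (shr U x) * shr U ((shr U x)⁻¹ • x) = 1
  rw [shr_inv_smul, shr_one]
  group

variable {K : Type} [Group K]

open Classical in
/-- extension by one -/
noncomputable def ev (v : {x : G ⧸ U // x ≠ ((1 : G) : G ⧸ U)} → K) (x : G ⧸ U) : K :=
  if h : x = ((1 : G) : G ⧸ U) then 1 else v ⟨x, h⟩

omit [TopologicalSpace G] [IsTopologicalGroup G] in
theorem ev_one (v : {x : G ⧸ U // x ≠ ((1 : G) : G ⧸ U)} → K) : ev U v ((1 : G) : G ⧸ U) = 1 :=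
  dif_pos rfl

omit [TopologicalSpace G] [IsTopologicalGroup G] in
theorem ev_ne (v : {x : G ⧸ U // x ≠ ((1 : G) : G ⧸ U)} → K) (x : G ⧸ U)
    (h : x ≠ ((1 : G) : G ⧸ U)) : ev U v x = v ⟨x, h⟩ := dif_neg h

/-- the cocycle of a pair -/
noncomputable def shc (ψ : U →* K) (v : G ⧸ U → K) (g : G) (x : G ⧸ U) : K :=
  v x * ψ (rho U g x) * (v (g⁻¹ • x))⁻¹

omit [TopologicalSpace G] [IsTopologicalGroup G] in
theorem shc_mul (ψ : U →* K) (v : G ⧸ U → K) (g h : G) (x : G ⧸ U) :
    shc U ψ v (g * h) x = shc U ψ v g x * shc U ψ v h (g⁻¹ • x) := by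
  unfold shc
  rw [rho_mul, map_mul, mul_inv_rev, mul_smul]
  group

theorem shc_open (hU : IsOpen (U : Set G)) (hf : Finite (G ⧸ U)) (ψ : U →* K)
    (hψ : IsOpen (ψ.ker : Set U)) (v : G ⧸ U → K) :
    ∃ V : Subgroup G, IsOpen (V : Set G) ∧ ∀ g ∈ V, ∀ x, shc U ψ v g x = 1 ∧ g • x = x := by
  refine ⟨⨅ x : G ⧸ U, (ψ.ker.map U.subtype).comap (MulAut.conj (shr U x)⁻¹).toMonoidHom, ?_, ?_⟩
  · rw [Subgroup.coe_iInf]
    apply isOpen_iInter_of_finite
    intro x
    have h1 : IsOpen ((ψ.ker.map U.subtype : Subgroup G) : Set G) := by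
      rw [Subgroup.coe_map]
      exact hU.isOpenMap_subtype_val _ hψ
    have h2 : Continuous (fun g : G => (shr U x)⁻¹ * g * ((shr U x)⁻¹)⁻¹) := by fun_prop
    exact h1.preimage h2
  · intro g hg x
    rw [Subgroup.mem_iInf] at hg
    have h1 := hg x
    rw [Subgroup.mem_comap, Subgroup.mem_map] at h1
    obtain ⟨u, hu, hu2⟩ := h1
    have h2 : (u : G) = (shr U x)⁻¹ * g * shr U x := by
      have : (u : G) = (shr U x)⁻¹ * g * ((shr U x)⁻¹)⁻¹ := hu2
      rwa [inv_inv] at this
    have h3 : g • x = x := by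
      have h4 : ((shr U x : G) : G ⧸ U) = ((g * shr U x : G) : G ⧸ U) := by
        apply QuotientGroup.eq.mpr
        rw [← mul_assoc, ← h2]
        exact u.2
      rw [← sh_smul, shr_mk] at h4
      exact h4.symm
    refine ⟨?_, h3⟩
    have h5 : g⁻¹ • x = x := by rw [inv_smul_eq_iff, h3]
    have h6 : rho U g x = u := by
      apply Subtype.ext
      show (shr U x)⁻¹ * g * shr U (g⁻¹ • x) = u
      rw [h5, h2]
    unfold shc
    rw [h6, h5, MonoidHom.mem_ker.mp hu, mul_one, mul_inv_cancel]

omit [IsTopologicalGroup G] in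
theorem zc_one (c : ZC G (G ⧸ U) K) (x : G ⧸ U) : c.1 1 x = 1 := by
  have h := c.2.1 1 1 x
  rw [mul_one, inv_one, one_smul] at h
  exact (mul_eq_left.mp h.symm)

omit [IsTopologicalGroup G] in
theorem zc_inv (c : ZC G (G ⧸ U) K) (ψ : U →* K) (hψ : ∀ u : U, ψ u = c.1 (u : G) ((1 : G) : G ⧸ U))
    (g : G) (x : G ⧸ U) :
    c.1 (shr U x) x * ψ (rho U g x) * (c.1 (shr U (g⁻¹ • x)) (g⁻¹ • x))⁻¹ = c.1 g x := by
  have h1 := c.2.1 g (shr U (g⁻¹ • x)) x
  have h2 := c.2.1 (shr U x) (rho U g x : G) x
  have h3 : shr U x * (rho U g x : G) = g * shr U (g⁻¹ • x) := by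
    show shr U x * ((shr U x)⁻¹ * g * shr U (g⁻¹ • x)) = g * shr U (g⁻¹ • x)
    group
  rw [h3, shr_inv_smul, ← hψ, h1] at h2
  rw [← h2]
  group

end sh

/-- Shapiro lemma for open subgroups -/
theorem shapiro_count
    (G : Type) [Group G] [TopologicalSpace G] [IsTopologicalGroup G]
    (U : Subgroup G) (hU : IsOpen (U : Set G)) (hUi : U.index ≠ 0)
    (K : Type) [Group K] [Finite K] :
    Nat.card (ZC G (G ⧸ U) K) = Nat.card (CH U K) * Nat.card K ^ (U.index - 1) := by
  classical
  have hf : Finite (G ⧸ U) := Nat.finite_of_card_ne_zero hUi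
  have hco : Nat.card {x : G ⧸ U // x ≠ ((1 : G) : G ⧸ U)} = U.index - 1 := by
    have := Fintype.ofFinite (G ⧸ U)
    rw [Nat.card_eq_fintype_card]
    have h1 : U.index = Fintype.card (G ⧸ U) := by
      rw [← Nat.card_eq_fintype_card]; rfl
    rw [h1]
    have h2 := Fintype.card_subtype_compl (fun x : G ⧸ U => x = ((1 : G) : G ⧸ U))
    rw [Fintype.card_subtype_eq] at h2
    exact h2
  rw [← hco, ← Nat.card_fun, ← Nat.card_prod]
  apply Nat.card_congr
  refine
    { toFun := fun c => (⟨{ toFun := fun u => c.1 (u : G) ((1 : G) : G ⧸ U), map_one' := ?_, map_mul' := ?_ }, ?_⟩, fun x => c.1 (shr U x.1) x.1)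
      invFun := fun p => ⟨shc U p.1.1 (ev U p.2), ?_, ?_⟩
      left_inv := ?_
      right_inv := ?_ }
  · exact zc_one U c _
  · intro a b
    have h := c.2.1 (a : G) (b : G) ((1 : G) : G ⧸ U)
    rw [sh_mem_smul U _ (U.inv_mem a.2)] at h
    exact h
  · obtain ⟨V, hV, hV2⟩ := c.2.2
    apply Subgroup.isOpen_mono (H₁ := V.comap U.subtype)
    · intro u hu
      rw [MonoidHom.mem_ker]
      exact (hV2 (u : G) hu _).1
    · exact hV.preimage continuous_subtype_val
  · intro g h x
    exact shc_mul U _ _ g h x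
  · exact shc_open U hU hf p.1.1 p.1.2 _
  · intro c
    apply Subtype.ext
    funext g x
    have hev : ∀ x, ev U (fun x : {x : G ⧸ U // x ≠ ((1 : G) : G ⧸ U)} => c.1 (shr U x.1) x.1) x =
        c.1 (shr U x) x := by
      intro x
      by_cases hx : x = ((1 : G) : G ⧸ U)
      · rw [hx, ev_one, shr_one, zc_one]
      · rw [ev_ne U _ x hx]
    show ev U _ x * _ * (ev U _ (g⁻¹ • x))⁻¹ = c.1 g x
    rw [hev, hev]
    exact zc_inv U c _ (fun u => rfl) g x
  · rintro ⟨⟨ψ, hψ⟩, v⟩
    apply Prod.ext
    · apply Subtype.ext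
      apply MonoidHom.ext
      intro u
      show shc U ψ (ev U v) (u : G) ((1 : G) : G ⧸ U) = ψ u
      unfold shc
      rw [rho_u, sh_mem_smul U _ (U.inv_mem u.2), ev_one]
      group
    · funext x
      show shc U ψ (ev U v) (shr U x.1) x.1 = v x
      unfold shc
      rw [rho_r, map_one, shr_inv_smul, ev_one, ev_ne U v x.1 x.2]
      group




/-- the permutation action on functions -/
def lift_count_act (X K : Type) [Group K] : Equiv.Perm X →* MulAut (X → K) where
  toFun σ :=
    { toFun := fun f x => f (σ⁻¹ x)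
      invFun := fun f x => f (σ x)
      left_inv := fun f => by ext x; simp
      right_inv := fun f => by ext x; simp
      map_mul' := fun f g => rfl }
  map_one' := by ext f x; rfl
  map_mul' := fun σ τ => by
    ext f x
    simp

theorem lift_count_act_apply (X K : Type) [Group K] (σ : Equiv.Perm X) (f : X → K) (x : X) :
    lift_count_act X K σ f x = f (σ⁻¹ x) := rfl

/-- change of the coefficient group -/
def lift_count_congr (G : Type) [Group G] [TopologicalSpace G] {K L : Type} [Group K] [Group L]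
    (e : K ≃* L) : CH G K ≃ CH G L where
  toFun φ := ⟨e.toMonoidHom.comp φ.1, by
    have : (e.toMonoidHom.comp φ.1).ker = φ.1.ker := by
      ext g; simp [MonoidHom.mem_ker]
    rw [this]; exact φ.2⟩
  invFun φ := ⟨e.symm.toMonoidHom.comp φ.1, by
    have : (e.symm.toMonoidHom.comp φ.1).ker = φ.1.ker := by
      ext g; simp [MonoidHom.mem_ker]
    rw [this]; exact φ.2⟩
  left_inv φ := by
    apply Subtype.ext; ext g; simp
  right_inv φ := by
    apply Subtype.ext; ext g; simp

/-- counting crossed homomorphisms into permutation modules -/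
theorem lift_count
    (G : Type) [Group G] [TopologicalSpace G] [IsTopologicalGroup G] (hUnif : Unif G)
    (X : Type) [Finite X] [MulAction G X]
    (hX : IsOpen ((MulAction.toPermHom G X).ker : Set G))
    (K : Type) [Group K] [Finite K] :
    Nat.card (ZC G X K) = Nat.card (CH G K) ^ (Nat.card X) := by
  classical
  let A : Type := (X → K) ⋊[lift_count_act X K] (Equiv.Perm X)
  let π : A →* Equiv.Perm X := SemidirectProduct.rightHom
  let φ : CH G (Equiv.Perm X) := ⟨MulAction.toPermHom G X, hX⟩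
  have : Finite A := Finite.of_equiv _ (SemidirectProduct.equivProd (φ := lift_count_act X K)).symm
  have hπ : Function.Surjective π := SemidirectProduct.rightHom_surjective
  have h2 := hUnif A (Equiv.Perm X) π hπ φ
  -- (1)
  have hright : ∀ (ψ : Lift π φ) (g : G), (ψ.1.1 g).right = MulAction.toPermHom G X g := by
    intro ψ g
    have := DFunLike.congr_fun ψ.2 g
    exact this
  let E : ZC G X K ≃ Lift π φ :=
    { toFun := fun c => ⟨⟨MonoidHom.mk' (fun g => (⟨c.1 g, MulAction.toPermHom G X g⟩ : A)) (by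
          intro g h
          refine SemidirectProduct.ext ?_ ?_
          · funext x
            rw [SemidirectProduct.mul_left]
            exact c.2.1 g h x
          · rw [SemidirectProduct.mul_right]
            exact map_mul _ _ _), by
          obtain ⟨V, hV, hV2⟩ := c.2.2
          refine Subgroup.isOpen_mono (H₁ := V) ?_ hV
          intro g hg
          rw [MonoidHom.mem_ker]
          refine SemidirectProduct.ext ?_ ?_
          · funext x; exact (hV2 g hg x).1
          · ext x; exact (hV2 g hg x).2⟩, by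
          ext g; rfl⟩
      invFun := fun ψ => ⟨fun g => (ψ.1.1 g).left, by
          intro g h x
          have h3 : ψ.1.1 (g * h) = ψ.1.1 g * ψ.1.1 h := map_mul ψ.1.1 g h
          have h4 : (ψ.1.1 (g * h)).left = (ψ.1.1 g * ψ.1.1 h).left :=
            congrArg SemidirectProduct.left h3
          have h5 : (ψ.1.1 (g * h)).left x = (ψ.1.1 g).left x *
              (lift_count_act X K (ψ.1.1 g).right (ψ.1.1 h).left) x := congrFun h4 x
          have h6 : lift_count_act X K (ψ.1.1 g).right =
              lift_count_act X K (MulAction.toPermHom G X g) :=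
            congrArg (fun σ => lift_count_act X K σ) (hright ψ g)
          have h7 : (lift_count_act X K (ψ.1.1 g).right (ψ.1.1 h).left) x =
              (lift_count_act X K (MulAction.toPermHom G X g) (ψ.1.1 h).left) x :=
            congrFun (DFunLike.congr_fun h6 (ψ.1.1 h).left) x
          exact h5.trans (congrArg (fun y => (ψ.1.1 g).left x * y) h7), ψ.1.1.ker, ψ.1.2, by
          intro g hg x
          have hg' : ψ.1.1 g = 1 := hg
          have h1 := hright ψ g
          constructor
          · exact congrFun (congrArg SemidirectProduct.left hg') x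
          · have h3 : (MulAction.toPermHom G X g) = 1 :=
              h1.symm.trans (congrArg SemidirectProduct.right hg')
            exact DFunLike.congr_fun h3 x⟩
      left_inv := fun c => rfl
      right_inv := fun ψ => by
        apply Subtype.ext
        apply Subtype.ext
        ext g : 1
        refine SemidirectProduct.ext rfl ?_
        exact (hright ψ g).symm }
  rw [Nat.card_congr E, h2]
  -- (3)
  let e1 : (X → K) ≃* (SemidirectProduct.inl : (X → K) →* A).range :=
    MonoidHom.ofInjective SemidirectProduct.inl_injective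
  let e2 : (SemidirectProduct.inl : (X → K) →* A).range ≃* π.ker :=
    MulEquiv.subgroupCongr SemidirectProduct.range_inl_eq_ker_rightHom
  rw [Nat.card_congr (lift_count_congr G (e1.trans e2)).symm]
  -- (4)
  let F : CH G (X → K) ≃ (X → CH G K) :=
    { toFun := fun ψ x => ⟨(Pi.evalMonoidHom (fun _ => K) x).comp ψ.1, by
          refine Subgroup.isOpen_mono (H₁ := ψ.1.ker) ?_ ψ.2
          intro g hg
          rw [MonoidHom.mem_ker] at hg ⊢
          simp [hg]⟩
      invFun := fun f => ⟨MonoidHom.pi (fun x => (f x).1), by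
          have : ((MonoidHom.pi (fun x => (f x).1)).ker : Set G) = ⋂ x, ((f x).1.ker : Set G) := by
            ext g
            simp [MonoidHom.mem_ker, funext_iff]
          rw [this]
          exact isOpen_iInter_of_finite fun x => (f x).2⟩
      left_inv := fun ψ => rfl
      right_inv := fun f => rfl }
  rw [Nat.card_congr F, Nat.card_fun]


end Pool.Agent.Helper127.FF.DD
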