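import Mathlib
import Pool.Agent.Helper127.FF.Core6
import Pool.Agent.Helper127.FF.DD

set_option autoImplicit false

namespace Pool.Agent.Helper127.FF

open J3_counts R4 Z1 J4_M1 R1 R2 Z2 Z5 Z4 J1_coprod J2_free J5_M2 J6_M3 R3 T1 N5 A5n4 A5a A5n2 A5c A5u N3 N6 N7 A5n3 A5n1

theorem index_ne_zero (G : Type) [Group G] [TopologicalSpace G] [IsTopologicalGroup G]
    [CompactSpace G] (U : Subgroup G) (hU : IsOpen (U : Set G)) : U.index ≠ 0 := by
  have : Finite (G ⧸ U) := Subgroup.quotient_finite_of_isOpen U hU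
  exact Nat.card_pos.ne'

theorem open_count (G : Type) [Group G] [TopologicalSpace G] [IsTopologicalGroup G]
    [CompactSpace G] (UG : Unif G) (U : Subgroup G) (hU : IsOpen (U : Set G))
    (K : Type) [Group K] [Finite K] :
    Nat.card (CH U K) * Nat.card K ^ (U.index - 1) = Nat.card (CH G K) ^ U.index := by
  have : Finite (G ⧸ U) := Subgroup.quotient_finite_of_isOpen U hU
  have hi := index_ne_zero G U hU
  have : U.FiniteIndex := ⟨hi⟩
  have hX : IsOpen ((MulAction.toPermHom G (G ⧸ U)).ker : Set G) := by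
    rw [← Subgroup.normalCore_eq_ker]
    have hc : IsClosed (U : Set G) := U.isClosed_of_isOpen hU
    have h2 : IsClosed (U.normalCore : Set G) := Subgroup.normalCore_isClosed U hc
    exact Subgroup.isOpen_of_isClosed_of_finiteIndex _ h2
  have h1 := DD.shapiro_count G U hU hi K
  have h2 := DD.lift_count G UG (G ⧸ U) hX K
  rw [h2] at h1
  exact h1.symm

theorem card_CH_iso (A B : Type) [Group A] [TopologicalSpace A] [Group B] [TopologicalSpace B]
    (e : A ≃ₜ* B) (S : Type) [Group S] : Nat.card (CH A S) = Nat.card (CH B S) := by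
  refine Nat.card_congr
    { toFun := fun φ => ⟨φ.1.comp (e.symm.toMulEquiv.toMonoidHom), ?_⟩
      invFun := fun φ => ⟨φ.1.comp (e.toMulEquiv.toMonoidHom), ?_⟩
      left_inv := ?_
      right_inv := ?_ }
  · have h := φ.2.preimage e.symm.toHomeomorph.continuous
    exact h
  · have h := φ.2.preimage e.toHomeomorph.continuous
    exact h
  · intro φ
    apply Subtype.ext
    ext g
    show φ.1 (e.symm (e g)) = φ.1 g
    rw [ContinuousMulEquiv.symm_apply_apply]
  · intro φ
    apply Subtype.ext
    ext g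
    show φ.1 (e (e.symm g)) = φ.1 g
    rw [ContinuousMulEquiv.apply_symm_apply]

theorem main_rel2
    (G : Type) [Group G] [TopologicalSpace G] [IsTopologicalGroup G] [CompactSpace G]
    [T2Space G] [TotallyDisconnectedSpace G]
    (H : Type) [Group H] [TopologicalSpace H] [IsTopologicalGroup H] [CompactSpace H]
    [T2Space H] [TotallyDisconnectedSpace H]
    (P : Type) [Group P] [TopologicalSpace P] [IsTopologicalGroup P] [CompactSpace P]
    [T2Space P] [TotallyDisconnectedSpace P]
    (iG : ContinuousMonoidHom G P) (iH : ContinuousMonoidHom H P)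
    (hU : ∀ (K : Type) [Group K] [TopologicalSpace K] [IsTopologicalGroup K] [CompactSpace K]
          [T2Space K] [TotallyDisconnectedSpace K]
          (f : ContinuousMonoidHom G K) (g : ContinuousMonoidHom H K),
          ∃! φ : ContinuousMonoidHom P K, (∀ x, φ (iG x) = f x) ∧ (∀ y, φ (iH y) = g y))
    (n : ℕ) (ι : Fin n → P)
    (hF : ∀ (K : Type) [Group K] [TopologicalSpace K] [IsTopologicalGroup K] [CompactSpace K]
          [T2Space K] [TotallyDisconnectedSpace K] (f : Fin n → K),
          ∃! φ : ContinuousMonoidHom P K, ∀ i, φ (ι i) = f i)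
    (a b c d : ℕ) (hab : 0 < a + b)
    (hS : ∀ (S : Type) [Group S] [Finite S] [IsSimpleGroup S],
      Nat.card (CH G S) ^ a * Nat.card S ^ c = Nat.card (CH H S) ^ b * Nat.card S ^ d) :
    (∃ m : ℕ, ∃ ι : Fin m → G,
        ∀ (K : Type) [Group K] [TopologicalSpace K] [IsTopologicalGroup K] [CompactSpace K]
          [T2Space K] [TotallyDisconnectedSpace K] (f : Fin m → K),
          ∃! φ : ContinuousMonoidHom G K, ∀ i, φ (ι i) = f i) ∧
    (∃ k : ℕ, ∃ ι : Fin k → H,
        ∀ (K : Type) [Group K] [TopologicalSpace K] [IsTopologicalGroup K] [CompactSpace K]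
          [T2Space K] [TotallyDisconnectedSpace K] (f : Fin k → K),
          ∃! φ : ContinuousMonoidHom H K, ∀ i, φ (ι i) = f i) := by
  obtain ⟨hcnt, UG, UH⟩ := counts G H P n (iG : G →* P) (iH : H →* P)
    iG.continuous_toFun iH.continuous_toFun
    (fun K _ _ f g => coprod_fin G H P iG iH hU K f g) ι
    (fun K _ _ f => free_fin P n ι hF K f)
  have key : ∀ (S : Type) [Group S] [Finite S] [IsSimpleGroup S],
      Nat.card (CH G S) ^ (a + b) * Nat.card S ^ c = Nat.card S ^ (n * b + d) := by
    intro S _ _ _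
    have e1 : Nat.card (CH G S) ^ (a + b) * Nat.card S ^ c =
        Nat.card (CH G S) ^ b * (Nat.card (CH G S) ^ a * Nat.card S ^ c) := by
      rw [pow_add]; ring
    rw [e1, hS S, ← mul_assoc, ← mul_pow, hcnt S, ← pow_mul, ← pow_add]
  have : Fact (Nat.Prime 2) := ⟨Nat.prime_two⟩
  have : NeZero 2 := ⟨two_ne_zero⟩
  have hsimp : IsSimpleGroup (Multiplicative (ZMod 2)) :=
    isSimpleGroup_of_prime_card (p := 2) (card_cp 2)
  have h1 := hcnt (Multiplicative (ZMod 2))
  rw [card_cp] at h1
  obtain ⟨j, hj, hj2⟩ := (Nat.dvd_prime_pow Nat.prime_two).mp ⟨_, h1.symm⟩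
  have h2 := key (Multiplicative (ZMod 2))
  rw [hj2, card_cp, ← pow_mul, ← pow_add] at h2
  have h3 : j * (a + b) + c = n * b + d := Nat.pow_right_injective (le_refl 2) h2
  refine main_simple G H P iG iH hU n ι hF j ?_
  intro S _ _ _
  have h4 := key S
  rw [← h3, pow_add (Nat.card S) (j * (a + b)) c, pow_mul (Nat.card S) j (a + b)] at h4
  have h5 := Nat.eq_of_mul_eq_mul_right (pow_pos Nat.card_pos c) h4
  exact Nat.pow_left_injective (by omega) h5

theorem main_comm
    (G : Type) [Group G] [TopologicalSpace G] [IsTopologicalGroup G] [CompactSpace G]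
    [T2Space G] [TotallyDisconnectedSpace G]
    (H : Type) [Group H] [TopologicalSpace H] [IsTopologicalGroup H] [CompactSpace H]
    [T2Space H] [TotallyDisconnectedSpace H]
    (P : Type) [Group P] [TopologicalSpace P] [IsTopologicalGroup P] [CompactSpace P]
    [T2Space P] [TotallyDisconnectedSpace P]
    (iG : ContinuousMonoidHom G P) (iH : ContinuousMonoidHom H P)
    (hU : ∀ (K : Type) [Group K] [TopologicalSpace K] [IsTopologicalGroup K] [CompactSpace K]
          [T2Space K] [TotallyDisconnectedSpace K]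
          (f : ContinuousMonoidHom G K) (g : ContinuousMonoidHom H K),
          ∃! φ : ContinuousMonoidHom P K, (∀ x, φ (iG x) = f x) ∧ (∀ y, φ (iH y) = g y))
    (n : ℕ) (ι : Fin n → P)
    (hF : ∀ (K : Type) [Group K] [TopologicalSpace K] [IsTopologicalGroup K] [CompactSpace K]
          [T2Space K] [TotallyDisconnectedSpace K] (f : Fin n → K),
          ∃! φ : ContinuousMonoidHom P K, ∀ i, φ (ι i) = f i)
    (U : Subgroup G) (V : Subgroup H) (hUo : IsOpen (U : Set G)) (hVo : IsOpen (V : Set H))
    (e : U ≃ₜ* V) :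
    (∃ m : ℕ, ∃ ι : Fin m → G,
        ∀ (K : Type) [Group K] [TopologicalSpace K] [IsTopologicalGroup K] [CompactSpace K]
          [T2Space K] [TotallyDisconnectedSpace K] (f : Fin m → K),
          ∃! φ : ContinuousMonoidHom G K, ∀ i, φ (ι i) = f i) ∧
    (∃ k : ℕ, ∃ ι : Fin k → H,
        ∀ (K : Type) [Group K] [TopologicalSpace K] [IsTopologicalGroup K] [CompactSpace K]
          [T2Space K] [TotallyDisconnectedSpace K] (f : Fin k → K),
          ∃! φ : ContinuousMonoidHom H K, ∀ i, φ (ι i) = f i) := by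
  obtain ⟨hcnt, UG, UH⟩ := counts G H P n (iG : G →* P) (iH : H →* P)
    iG.continuous_toFun iH.continuous_toFun
    (fun K _ _ f g => coprod_fin G H P iG iH hU K f g) ι
    (fun K _ _ f => free_fin P n ι hF K f)
  have hiU : U.index ≠ 0 := index_ne_zero G U hUo
  have hiV : V.index ≠ 0 := index_ne_zero H V hVo
  have e1 := fun (K : Type) [Group K] [Finite K] => open_count G UG U hUo K
  have e2 := fun (K : Type) [Group K] [Finite K] => open_count H UH V hVo K
  have e3 : ∀ (K : Type) [Group K] [Finite K], Nat.card (CH U K) = Nat.card (CH V K) :=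
    fun K _ _ => card_CH_iso U V e K
  refine main_rel2 G H P iG iH hU n ι hF U.index V.index (V.index - 1) (U.index - 1)
    (by omega) ?_
  intro S _ _ _
  rw [← e1 S, ← e2 S, e3 S]
  ring

theorem main_virt
    (G : Type) [Group G] [TopologicalSpace G] [IsTopologicalGroup G] [CompactSpace G]
    [T2Space G] [TotallyDisconnectedSpace G]
    (H : Type) [Group H] [TopologicalSpace H] [IsTopologicalGroup H] [CompactSpace H]
    [T2Space H] [TotallyDisconnectedSpace H]
    (P : Type) [Group P] [TopologicalSpace P] [IsTopologicalGroup P] [CompactSpace P]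
    [T2Space P] [TotallyDisconnectedSpace P]
    (iG : ContinuousMonoidHom G P) (iH : ContinuousMonoidHom H P)
    (hU : ∀ (K : Type) [Group K] [TopologicalSpace K] [IsTopologicalGroup K] [CompactSpace K]
          [T2Space K] [TotallyDisconnectedSpace K]
          (f : ContinuousMonoidHom G K) (g : ContinuousMonoidHom H K),
          ∃! φ : ContinuousMonoidHom P K, (∀ x, φ (iG x) = f x) ∧ (∀ y, φ (iH y) = g y))
    (n : ℕ) (ι : Fin n → P)
    (hF : ∀ (K : Type) [Group K] [TopologicalSpace K] [IsTopologicalGroup K] [CompactSpace K]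
          [T2Space K] [TotallyDisconnectedSpace K] (f : Fin n → K),
          ∃! φ : ContinuousMonoidHom P K, ∀ i, φ (ι i) = f i)
    (U : Subgroup G) (hUo : IsOpen (U : Set G)) (r : ℕ) (κ : Fin r → U)
    (hUF : ∀ (K : Type) [Group K] [TopologicalSpace K] [IsTopologicalGroup K] [CompactSpace K]
          [T2Space K] [TotallyDisconnectedSpace K] (f : Fin r → K),
          ∃! φ : ContinuousMonoidHom U K, ∀ i, φ (κ i) = f i) :
    (∃ m : ℕ, ∃ ι : Fin m → G,
        ∀ (K : Type) [Group K] [TopologicalSpace K] [IsTopologicalGroup K] [CompactSpace K]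
          [T2Space K] [TotallyDisconnectedSpace K] (f : Fin m → K),
          ∃! φ : ContinuousMonoidHom G K, ∀ i, φ (ι i) = f i) ∧
    (∃ k : ℕ, ∃ ι : Fin k → H,
        ∀ (K : Type) [Group K] [TopologicalSpace K] [IsTopologicalGroup K] [CompactSpace K]
          [T2Space K] [TotallyDisconnectedSpace K] (f : Fin k → K),
          ∃! φ : ContinuousMonoidHom H K, ∀ i, φ (ι i) = f i) := by
  obtain ⟨hcnt, UG, UH⟩ := counts G H P n (iG : G →* P) (iH : H →* P)
    iG.continuous_toFun iH.continuous_toFun
    (fun K _ _ f g => coprod_fin G H P iG iH hU K f g) ι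
    (fun K _ _ f => free_fin P n ι hF K f)
  have hc : IsClosed (U : Set G) := U.isClosed_of_isOpen hUo
  have : CompactSpace U := isCompact_iff_compactSpace.mp hc.isCompact
  have hiU : U.index ≠ 0 := index_ne_zero G U hUo
  have e1 := fun (K : Type) [Group K] [Finite K] => open_count G UG U hUo K
  have e2 : ∀ (K : Type) [Group K] [Finite K], Nat.card (CH U K) = Nat.card K ^ r := by
    intro K _ _
    have hb : Function.Bijective (fun (φ : CH U K) (i : Fin r) => φ.1 (κ i)) := by
      constructor
      · intro φ ψ h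
        obtain ⟨χ, -, hχ⟩ := free_fin U r κ hUF K (fun i => φ.1 (κ i))
        rw [hχ φ (fun i => rfl), hχ ψ (fun i => (congrFun h i).symm)]
      · intro f
        obtain ⟨χ, h, -⟩ := free_fin U r κ hUF K f
        exact ⟨χ, funext h⟩
    rw [Nat.card_congr (Equiv.ofBijective _ hb), Nat.card_fun, Nat.card_eq_fintype_card (α := Fin r),
      Fintype.card_fin]
  refine main_rel2 G H P iG iH hU n ι hF U.index 0 0 (r + (U.index - 1)) (by omega) ?_
  intro S _ _ _
  rw [← e1 S, e2 S, pow_zero, pow_zero, mul_one, one_mul, pow_add]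

end Pool.Agent.Helper127.FF
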