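import Mathlib
import Pool.Agent.Helper127.FF.Core7

set_option autoImplicit false

namespace Pool.Agent.Helper127.FF.EE







set_option maxRecDepth 100000 in
theorem aux_pt_pt : ∀ i j : Fin 5, i ≠ j →
    Fintype.card {g : alternatingGroup (Fin 5) // (g : Equiv.Perm (Fin 5)) i = i ∧
      (g : Equiv.Perm (Fin 5)) j = j} ≤ 3 := by decide +kernel

set_option maxRecDepth 100000 in
theorem aux_pt_pair : ∀ i a b : Fin 5, a < b →
    Fintype.card {g : alternatingGroup (Fin 5) // (g : Equiv.Perm (Fin 5)) i = i ∧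
      (((g : Equiv.Perm (Fin 5)) a = a ∧ (g : Equiv.Perm (Fin 5)) b = b) ∨
        ((g : Equiv.Perm (Fin 5)) a = b ∧ (g : Equiv.Perm (Fin 5)) b = a))} ≤ 3 := by
  decide +kernel

set_option maxRecDepth 100000 in
theorem aux_pair_pair : ∀ a b : Fin 5, a < b → ∀ c d : Fin 5, c < d → (a ≠ c ∨ b ≠ d) →
    Fintype.card {g : alternatingGroup (Fin 5) //
      (((g : Equiv.Perm (Fin 5)) a = a ∧ (g : Equiv.Perm (Fin 5)) b = b) ∨
        ((g : Equiv.Perm (Fin 5)) a = b ∧ (g : Equiv.Perm (Fin 5)) b = a)) ∧
      (((g : Equiv.Perm (Fin 5)) c = c ∧ (g : Equiv.Perm (Fin 5)) d = d) ∨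
        ((g : Equiv.Perm (Fin 5)) c = d ∧ (g : Equiv.Perm (Fin 5)) d = c))} ≤ 3 := by
  decide +kernel

theorem aux_small {c : ℕ} (h0 : 0 < c) (h3 : c ≤ 3) : SmallIm c := by
  unfold SmallIm; omega

theorem aux_card_pos (H : Subgroup (alternatingGroup (Fin 5))) : 0 < Nat.card H := Nat.card_pos

theorem aux_sylow (P P' : Sylow 5 (alternatingGroup (Fin 5)))
    (hP : Nat.card (Subgroup.normalizer ((P : Subgroup (alternatingGroup (Fin 5))) : Set (alternatingGroup (Fin 5)))) = 10)
    (hP' : Nat.card (Subgroup.normalizer ((P' : Subgroup (alternatingGroup (Fin 5))) : Set (alternatingGroup (Fin 5)))) = 10)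
    (hne : P ≠ P') :
    SmallIm (Nat.card (Subgroup.normalizer ((P : Subgroup (alternatingGroup (Fin 5))) : Set (alternatingGroup (Fin 5))) ⊓
      Subgroup.normalizer ((P' : Subgroup (alternatingGroup (Fin 5))) : Set (alternatingGroup (Fin 5))) :
        Subgroup (alternatingGroup (Fin 5)))) := by
  have : Fact (Nat.Prime 5) := ⟨by norm_num⟩
  set H : Subgroup (alternatingGroup (Fin 5)) :=
    Subgroup.normalizer ((P : Subgroup (alternatingGroup (Fin 5))) : Set (alternatingGroup (Fin 5))) ⊓
      Subgroup.normalizer ((P' : Subgroup (alternatingGroup (Fin 5))) : Set (alternatingGroup (Fin 5))) with hH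
  have hdvd : Nat.card H ∣ 10 := by
    rw [← hP]; exact Subgroup.card_dvd_of_le inf_le_left
  by_cases h5 : 5 ∣ Nat.card H
  · exfalso
    obtain ⟨x, hx⟩ := exists_prime_orderOf_dvd_card' 5 h5
    have hx' : orderOf (x : alternatingGroup (Fin 5)) = 5 := by
      rw [Subgroup.orderOf_coe, hx]
    have hcz : Nat.card (Subgroup.zpowers (x : alternatingGroup (Fin 5))) = 5 := by
      rw [Nat.card_zpowers, hx']
    have hpz : IsPGroup 5 (Subgroup.zpowers (x : alternatingGroup (Fin 5))) :=
      IsPGroup.of_card (n := 1) (by rw [hcz]; norm_num)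
    have key : ∀ R : Sylow 5 (alternatingGroup (Fin 5)),
        Nat.card (Subgroup.normalizer ((R : Subgroup (alternatingGroup (Fin 5))) : Set (alternatingGroup (Fin 5)))) = 10 →
        (x : alternatingGroup (Fin 5)) ∈
          Subgroup.normalizer ((R : Subgroup (alternatingGroup (Fin 5))) : Set (alternatingGroup (Fin 5))) →
        Subgroup.zpowers (x : alternatingGroup (Fin 5)) = (R : Subgroup _) := by
      intro R hR hxR
      have h1 := hpz.inf_normalizer_sylow R
      have h2 : Subgroup.zpowers (x : alternatingGroup (Fin 5)) ≤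
          Subgroup.normalizer ((R : Subgroup (alternatingGroup (Fin 5))) : Set (alternatingGroup (Fin 5))) := by
        rw [Subgroup.zpowers_le]; exact hxR
      have h2' := inf_eq_left.2 h2
      have h3 : Subgroup.zpowers (x : alternatingGroup (Fin 5)) ≤ (R : Subgroup _) := by
        have h4 : Subgroup.zpowers (x : alternatingGroup (Fin 5)) ⊓ (R : Subgroup _) =
          Subgroup.zpowers (x : alternatingGroup (Fin 5)) := h1.symm.trans h2'
        exact inf_eq_left.1 h4
      -- card R
      obtain ⟨n, hn⟩ := (IsPGroup.iff_card (p := 5)).1 R.isPGroup'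
      have hRd : Nat.card (R : Subgroup (alternatingGroup (Fin 5))) ∣ 10 := by
        rw [← hR]
        exact Subgroup.card_dvd_of_le Subgroup.le_normalizer
      have hRc : Nat.card (R : Subgroup (alternatingGroup (Fin 5))) = 5 := by
        have h5R : 5 ∣ Nat.card (R : Subgroup (alternatingGroup (Fin 5))) := by
          have h6 := Subgroup.card_dvd_of_le h3
          rwa [hcz] at h6
        have hle := Nat.le_of_dvd (by norm_num) hRd
        rcases n with _ | _ | n
        · rw [hn] at h5R; norm_num at h5R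
        · rw [hn]; norm_num
        · rw [hn] at hle
          have : 5 ^ (n + 1 + 1) ≥ 25 := by
            calc 5 ^ (n + 1 + 1) = 5 ^ n * 25 := by ring
              _ ≥ 1 * 25 := Nat.mul_le_mul_right _ (Nat.one_le_pow _ _ (by norm_num))
              _ = 25 := by norm_num
          omega
      exact Subgroup.eq_of_le_of_card_ge h3 (by rw [hRc, hcz])
    have h1 := key P hP (x.2).1
    have h2 := key P' hP' (x.2).2
    exact hne (Sylow.ext (h1.symm.trans h2))
  · have hcop : Nat.Coprime (Nat.card H) 5 := ((Nat.Prime.coprime_iff_not_dvd (by norm_num)).2 h5).symm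
    have h2 : Nat.card H ∣ 2 := by
      have : Nat.card H ∣ 2 * 5 := by simpa using hdvd
      exact hcop.dvd_of_dvd_mul_right this
    have := Nat.le_of_dvd (by norm_num) h2
    exact aux_small (aux_card_pos H) (by omega)

theorem aux_dvd {c a b : ℕ} (h1 : c ∣ a) (h2 : c ∣ b) (h : Nat.gcd a b ≤ 3) (hg : 0 < Nat.gcd a b)
    (h0 : 0 < c) : SmallIm c :=
  aux_small h0 ((Nat.le_of_dvd hg (Nat.dvd_gcd h1 h2)).trans h)

theorem aux_bound (H : Subgroup (alternatingGroup (Fin 5))) (p : alternatingGroup (Fin 5) → Prop)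
    [DecidablePred p] (hp : ∀ g, g ∈ H → p g)
    (h3 : Fintype.card {g : alternatingGroup (Fin 5) // p g} ≤ 3) : SmallIm (Nat.card H) := by
  refine aux_small (aux_card_pos H) (le_trans ?_ h3)
  rw [← Nat.card_eq_fintype_card]
  exact Nat.card_le_card_of_injective (fun g : H => (⟨g.1, hp _ g.2⟩ : {g // p g}))
    (fun a b hab => Subtype.ext (congrArg (fun z => z.1) hab))

/-- different members of the family have small intersection -/
theorem fam_inter (h12 : ∀ i, Nat.card (famA5 (Sum.inl i)) = 12)
    (h6 : ∀ q, Nat.card (famA5 (Sum.inr (Sum.inl q))) = 6)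
    (h10 : ∀ P, Nat.card (famA5 (Sum.inr (Sum.inr P))) = 10)
    (s t : Fin 5 ⊕ ({q : Fin 5 × Fin 5 // q.1 < q.2} ⊕ Sylow 5 (alternatingGroup (Fin 5))))
    (h : s ≠ t) :
    SmallIm (Nat.card (famA5 s ⊓ famA5 t : Subgroup (alternatingGroup (Fin 5)))) := by
  have hd1 : Nat.card (famA5 s ⊓ famA5 t : Subgroup (alternatingGroup (Fin 5))) ∣
      Nat.card (famA5 s) := Subgroup.card_dvd_of_le inf_le_left
  have hd2 : Nat.card (famA5 s ⊓ famA5 t : Subgroup (alternatingGroup (Fin 5))) ∣
      Nat.card (famA5 t) := Subgroup.card_dvd_of_le inf_le_right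
  have hpos := aux_card_pos (famA5 s ⊓ famA5 t)
  rcases s with i | q | P <;> rcases t with j | q' | P'
  · have hij : i ≠ j := fun hh => h (by rw [hh])
    exact aux_bound _ _ (fun g hg => ⟨hg.1, hg.2⟩) (aux_pt_pt i j hij)
  · exact aux_bound _ _ (fun g hg => ⟨hg.1, hg.2⟩) (aux_pt_pair i q'.1.1 q'.1.2 q'.2)
  · rw [h12] at hd1; rw [h10] at hd2
    exact aux_dvd hd1 hd2 (by decide) (by decide) hpos
  · exact aux_bound _ _ (fun g hg => ⟨hg.2, hg.1⟩) (aux_pt_pair j q.1.1 q.1.2 q.2)
  · have hqq : q.1.1 ≠ q'.1.1 ∨ q.1.2 ≠ q'.1.2 := by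
      by_contra hcon
      push Not at hcon
      exact h (by rw [Subtype.ext (Prod.ext hcon.1 hcon.2)])
    exact aux_bound _ _ (fun g hg => ⟨hg.1, hg.2⟩)
      (aux_pair_pair q.1.1 q.1.2 q.2 q'.1.1 q'.1.2 q'.2 hqq)
  · rw [h6] at hd1; rw [h10] at hd2
    exact aux_dvd hd1 hd2 (by decide) (by decide) hpos
  · rw [h10] at hd1; rw [h12] at hd2
    exact aux_dvd hd1 hd2 (by decide) (by decide) hpos
  · rw [h10] at hd1; rw [h6] at hd2
    exact aux_dvd hd1 hd2 (by decide) (by decide) hpos
  · have hne : P ≠ P' := fun hh => h (by rw [hh])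
    exact aux_sylow P P' (h10 P) (h10 P') hne



/-- lower bound by disjoint contributions of subgroups with small intersections -/
theorem sum_le_card
    (G : Type) [Group G] [TopologicalSpace G]
    (h0 : ∀ (K : Type) [Group K] [Finite K], Nat.card (CH G K) ≠ 0)
    (K : Type) [Group K] [Finite K]
    (I : Type) [Fintype I] (M : I → Subgroup K) (P : ℕ → Prop) [DecidablePred P]
    (hM : ∀ i j, i ≠ j → ∀ S : Subgroup K, S ≤ M i → S ≤ M j → P (Nat.card S)) :
    Nat.card {φ : CH G K // P (Nat.card φ.1.range)} +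
      ∑ i, Nat.card {φ : CH G (M i) // ¬ P (Nat.card φ.1.range)} ≤ Nat.card (CH G K) := by
  classical
  have hfin : ∀ (L : Type) [Group L] [Finite L], Finite (CH G L) := fun L _ _ =>
    Nat.finite_of_card_ne_zero (h0 L)
  have _i1 : Finite (CH G K) := hfin K
  have _i2 : ∀ i, Finite (CH G (M i)) := fun i => hfin (M i)
  have hker : ∀ i (φ : CH G (M i)), IsOpen (((M i).subtype.comp φ.1).ker : Set G) := by
    intro i φ
    have e : ((M i).subtype.comp φ.1).ker = φ.1.ker := by
      ext g
      simp only [MonoidHom.mem_ker, MonoidHom.comp_apply, Subgroup.subtype_apply]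
      constructor
      · intro h; exact Subtype.ext h
      · intro h; rw [h]; rfl
    rw [e]; exact φ.2
  let ex : ∀ i, CH G (M i) → CH G K := fun i φ => ⟨(M i).subtype.comp φ.1, hker i φ⟩
  have hcard : ∀ i (φ : CH G (M i)), Nat.card (ex i φ).1.range = Nat.card φ.1.range := by
    intro i φ
    have e : (ex i φ).1.range = φ.1.range.map (M i).subtype := (MonoidHom.map_range _ _).symm
    rw [e]
    exact Subgroup.card_map_of_injective (M i).subtype_injective
  have hle : ∀ i (φ : CH G (M i)), (ex i φ).1.range ≤ M i := by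
    rintro i φ _ ⟨g, rfl⟩
    exact (φ.1 g).2
  let F : {φ : CH G K // P (Nat.card φ.1.range)} ⊕
      (Σ i, {φ : CH G (M i) // ¬ P (Nat.card φ.1.range)}) → CH G K :=
    fun s => match s with
    | Sum.inl φ => φ.1
    | Sum.inr ⟨i, φ⟩ => ex i φ.1
  have hF : Function.Injective F := by
    rintro (φ | ⟨i, φ⟩) (ψ | ⟨j, ψ⟩) h
    · have h' : φ.1 = ψ.1 := h
      rw [Subtype.ext h']
    · have h' : φ.1 = ex j ψ.1 := h
      have h1 := φ.2
      rw [h', hcard] at h1
      exact (ψ.2 h1).elim
    · have h' : ex i φ.1 = ψ.1 := h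
      have h1 := ψ.2
      rw [← h', hcard] at h1
      exact (φ.2 h1).elim
    · have h' : ex i φ.1 = ex j ψ.1 := h
      by_cases hij : i = j
      · subst hij
        have h2 : φ.1 = ψ.1 := by
          apply Subtype.ext
          apply MonoidHom.ext
          intro g
          have h3 := congrArg (fun χ : CH G K => χ.1 g) h'
          exact Subtype.ext h3
        rw [Subtype.ext h2]
      · have h1 := hM i j hij (ex i φ.1).1.range (hle i φ.1) (by rw [h']; exact hle j ψ.1)
        rw [hcard] at h1
        exact (φ.2 h1).elim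
  have hmain := Nat.card_le_card_of_injective F hF
  rw [Nat.card_sum, Nat.card_sigma] at hmain
  exact hmain



/-- open subgroups of a prosolvable group do not map onto a finite nonsolvable group -/
theorem open_solv
    (G : Type) [Group G] [TopologicalSpace G] [IsTopologicalGroup G] [CompactSpace G]
    (hs : ∀ (Q : Type) [Group Q] [Finite Q] (φ : CH G Q), Function.Surjective φ.1 →
      Group.IsSolvable Q)
    (U : Subgroup G) (hU : IsOpen (U : Set G))
    (Q : Type) [Group Q] [Finite Q] (φ : CH U Q) (hφ : Function.Surjective φ.1) :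
    Group.IsSolvable Q := by
  set W : Subgroup G := φ.1.ker.map U.subtype with hW
  have hWo : IsOpen (W : Set G) := by
    have h1 : (W : Set G) = Subtype.val '' (φ.1.ker : Set U) := by
      rw [hW, Subgroup.coe_map]
      rfl
    rw [h1]
    exact hU.isOpenMap_subtype_val _ φ.2
  have hWfi : Finite (G ⧸ W) := Subgroup.quotient_finite_of_isOpen W hWo
  have : W.FiniteIndex := Subgroup.finiteIndex_of_finite_quotient
  have hNc : IsClosed (W.normalCore : Set G) :=
    W.normalCore_isClosed (Subgroup.isClosed_of_isOpen W hWo)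
  have hNo : IsOpen (W.normalCore : Set G) := Subgroup.isOpen_of_isClosed_of_finiteIndex _ hNc
  have : Finite (G ⧸ W.normalCore) := Subgroup.finite_quotient_of_finiteIndex
  have hsolv : Group.IsSolvable (G ⧸ W.normalCore) := by
    refine hs (G ⧸ W.normalCore) ⟨QuotientGroup.mk' W.normalCore, ?_⟩
      (QuotientGroup.mk'_surjective _)
    rw [QuotientGroup.ker_mk']
    exact hNo
  let f : U →* U.map (QuotientGroup.mk' W.normalCore) :=
    (QuotientGroup.mk' W.normalCore).subgroupMap U
  have hf : Function.Surjective f := (QuotientGroup.mk' W.normalCore).subgroupMap_surjective U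
  have hker : f.ker ≤ φ.1.ker := by
    intro u hu
    have h1 : QuotientGroup.mk' W.normalCore (u : G) = 1 := congrArg Subtype.val hu
    have h2 : (u : G) ∈ W.normalCore := by
      rw [← QuotientGroup.ker_mk' W.normalCore]
      exact h1
    obtain ⟨v, hv, hvu⟩ := Subgroup.mem_map.1 (W.normalCore_le h2)
    have : v = u := Subtype.ext hvu
    rw [← this]
    exact hv
  let g := f.liftOfSurjective hf ⟨φ.1, hker⟩
  have hg : Function.Surjective g := by
    intro q
    obtain ⟨u, hu⟩ := hφ q
    refine ⟨f u, ?_⟩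
    rw [← hu]
    exact MonoidHom.liftOfRightInverse_comp_apply f _ _ ⟨φ.1, hker⟩ u
  have := hsolv
  exact Group.isSolvable_of_surjective hg


end Pool.Agent.Helper127.FF.EE
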