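import Mathlib
import Pool.Agent.Helper127.FF.EE

set_option autoImplicit false

namespace Pool.Agent.Helper127.FF

open J3_counts R4 Z1 J4_M1 R1 R2 Z2 Z5 Z4 J1_coprod J2_free J5_M2 J6_M3 R3 T1 N5 A5n4 A5a A5n2 A5c A5u N3 N6 N7 A5n3 A5n1

theorem fam_sum (G : Type) [Group G] [TopologicalSpace G]
    (h0 : ∀ (K : Type) [Group K] [Finite K], Nat.card (CH G K) ≠ 0)
    (r2 r3 f12 f6 f10 : ℕ)
    (h2 : Nat.card (CH G (Multiplicative (ZMod 2))) = r2)
    (h3 : Nat.card (CH G (Multiplicative (ZMod 3))) = r3)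
    (h12 : ∀ (T : Type) [Group T] [Finite T] [Group.IsSolvable T],
      Nat.card T = 12 → Nat.card (CH G T) = f12)
    (h6 : ∀ (T : Type) [Group T] [Finite T] [Group.IsSolvable T],
      Nat.card T = 6 → Nat.card (CH G T) = f6)
    (h10 : ∀ (T : Type) [Group T] [Finite T] [Group.IsSolvable T],
      Nat.card T = 10 → Nat.card (CH G T) = f10)
    [Fintype (Sylow 5 (alternatingGroup (Fin 5)))] :
    ∑ i, Nat.card {φ : CH G (famA5 i) // ¬ SmallIm (Nat.card φ.1.range)} =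
      (5 * (f12 - (1 + (3 * (r2 - 1) + 4 * (r3 - 1)))) +
      (10 * (f6 - (1 + (3 * (r2 - 1) + 1 * (r3 - 1)))) +
       6 * (f10 - (1 + (5 * (r2 - 1) + 0 * (r3 - 1)))))) := by
  classical
  rw [Fintype.sum_sum_type, Fintype.sum_sum_type]
  have hA : ∀ i : Fin 5, Nat.card {φ : CH G (famA5 (Sum.inl i)) //
      ¬ SmallIm (Nat.card φ.1.range)} = f12 - (1 + (3 * (r2 - 1) + 4 * (r3 - 1))) := by
    intro i
    obtain ⟨c1, c2, c3, c4⟩ := a5_point i (famA5 (Sum.inl i)) (fun g => Iff.rfl)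
    have := c4
    exact cnt_large G h0 _ 3 4 r2 r3 _ c2 c3 h2 h3 (h12 _ c1)
  have hB : ∀ q : {q : Fin 5 × Fin 5 // q.1 < q.2},
      Nat.card {φ : CH G (famA5 (Sum.inr (Sum.inl q))) //
      ¬ SmallIm (Nat.card φ.1.range)} = f6 - (1 + (3 * (r2 - 1) + 1 * (r3 - 1))) := by
    intro q
    obtain ⟨c1, c2, c3, c4⟩ := a5_pair q.1.1 q.1.2 q.2.ne (famA5 (Sum.inr (Sum.inl q)))
      (fun g => Iff.rfl)
    have := c4
    exact cnt_large G h0 _ 3 1 r2 r3 _ c2 c3 h2 h3 (h6 _ c1)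
  have hC : ∀ P : Sylow 5 (alternatingGroup (Fin 5)),
      Nat.card {φ : CH G (famA5 (Sum.inr (Sum.inr P))) //
      ¬ SmallIm (Nat.card φ.1.range)} = f10 - (1 + (5 * (r2 - 1) + 0 * (r3 - 1))) := by
    intro P
    obtain ⟨c1, c2, c3, c4⟩ := a5_sylow.2 P (famA5 (Sum.inr (Sum.inr P))) rfl
    have := c4
    exact cnt_large G h0 _ 5 0 r2 r3 _ c2 c3 h2 h3 (h10 _ c1)
  rw [Finset.sum_congr rfl (fun i _ => hA i), Finset.sum_congr rfl (fun q _ => hB q),
    Finset.sum_congr rfl (fun P _ => hC P)]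
  rw [Finset.sum_const, Finset.sum_const, Finset.sum_const, Finset.card_univ, Finset.card_univ,
    Finset.card_univ]
  have k1 : Fintype.card (Fin 5) = 5 := Fintype.card_fin 5
  have k2 : Fintype.card {q : Fin 5 × Fin 5 // q.1 < q.2} = 10 := by decide
  have k3 : Fintype.card (Sylow 5 (alternatingGroup (Fin 5))) = 6 := by
    rw [← Nat.card_eq_fintype_card]
    exact a5_sylow.1
  rw [k1, k2, k3]
  simp only [smul_eq_mul]

theorem a5_exact (G : Type) [Group G] [TopologicalSpace G]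
    (h0 : ∀ (K : Type) [Group K] [Finite K], Nat.card (CH G K) ≠ 0)
    (hns : ∀ φ : CH G (alternatingGroup (Fin 5)), ¬ Function.Surjective φ.1)
    (r2 r3 f12 f6 f10 : ℕ)
    (h2 : Nat.card (CH G (Multiplicative (ZMod 2))) = r2)
    (h3 : Nat.card (CH G (Multiplicative (ZMod 3))) = r3)
    (h12 : ∀ (T : Type) [Group T] [Finite T] [Group.IsSolvable T],
      Nat.card T = 12 → Nat.card (CH G T) = f12)
    (h6 : ∀ (T : Type) [Group T] [Finite T] [Group.IsSolvable T],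
      Nat.card T = 6 → Nat.card (CH G T) = f6)
    (h10 : ∀ (T : Type) [Group T] [Finite T] [Group.IsSolvable T],
      Nat.card T = 10 → Nat.card (CH G T) = f10) :
    Nat.card (CH G (alternatingGroup (Fin 5))) =
      (1 + (15 * (r2 - 1) + 10 * (r3 - 1))) +
      (5 * (f12 - (1 + (3 * (r2 - 1) + 4 * (r3 - 1)))) +
      (10 * (f6 - (1 + (3 * (r2 - 1) + 1 * (r3 - 1)))) +
       6 * (f10 - (1 + (5 * (r2 - 1) + 0 * (r3 - 1)))))) := by
  classical
  let _ : Fintype (Sylow 5 (alternatingGroup (Fin 5))) := Fintype.ofFinite _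
  have hs := fam_sum G h0 r2 r3 f12 f6 f10 h2 h3 h12 h6 h10
  apply le_antisymm
  · refine (card_le_sum G h0 (alternatingGroup (Fin 5)) hns _ famA5 famA5_max SmallIm).trans ?_
    rw [cnt_small G h0 (alternatingGroup (Fin 5)) 15 10 r2 r3 a5_subgroups.1 a5_subgroups.2 h2 h3,
      hs]
  · refine le_trans ?_ (EE.sum_le_card G h0 (alternatingGroup (Fin 5)) _ famA5 SmallIm ?_)
    · rw [cnt_small G h0 (alternatingGroup (Fin 5)) 15 10 r2 r3 a5_subgroups.1 a5_subgroups.2 h2 h3,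
        hs]
    · intro i j hij S hi hj
      have h := EE.fam_inter
        (fun i => (a5_point i (famA5 (Sum.inl i)) (fun g => Iff.rfl)).1)
        (fun q => (a5_pair q.1.1 q.1.2 q.2.ne (famA5 (Sum.inr (Sum.inl q)))
          (fun g => Iff.rfl)).1)
        (fun P => (a5_sylow.2 P (famA5 (Sum.inr (Sum.inr P))) rfl).1) i j hij
      have hd : Nat.card S ∣ Nat.card (famA5 i ⊓ famA5 j : Subgroup (alternatingGroup (Fin 5))) :=
        Subgroup.card_dvd_of_le (le_inf hi hj)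
      have hpos : 0 < Nat.card S := Nat.card_pos
      have hle := Nat.le_of_dvd (by rcases h with h | h | h <;> omega) hd
      have h3 : Nat.card S ≤ 3 := by rcases h with h | h | h <;> omega
      unfold SmallIm
      omega

theorem form60 (X Y Z : ℕ) :
    (1 + (15 * (2 * (X + 1) - 1) + 10 * (3 * (Y + 1) - 1))) +
      (5 * (12 * ((X + 1) ^ 2 * (Y + 1)) - (1 + (3 * (2 * (X + 1) - 1) + 4 * (3 * (Y + 1) - 1)))) +
      (10 * (6 * ((X + 1) * (Y + 1)) - (1 + (3 * (2 * (X + 1) - 1) + 1 * (3 * (Y + 1) - 1)))) +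
       6 * (10 * ((X + 1) * (Z + 1)) - (1 + (5 * (2 * (X + 1) - 1) + 0 * (3 * (Y + 1) - 1)))))) =
    60 * (1 + 2 * X + Y + X ^ 2 * Y + X ^ 2 + 3 * X * Y + X * Z + Z) := by
  have e1 : 2 * (X + 1) - 1 = 2 * X + 1 := by omega
  have e2 : 3 * (Y + 1) - 1 = 3 * Y + 2 := by omega
  rw [e1, e2]
  have e3 : 12 * ((X + 1) ^ 2 * (Y + 1)) - (1 + (3 * (2 * X + 1) + 4 * (3 * Y + 2))) =
      12 * X ^ 2 * Y + 12 * X ^ 2 + 24 * X * Y + 18 * X := by
    apply Nat.sub_eq_of_eq_add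
    ring
  have e4 : 6 * ((X + 1) * (Y + 1)) - (1 + (3 * (2 * X + 1) + 1 * (3 * Y + 2))) =
      6 * X * Y + 3 * Y := by
    apply Nat.sub_eq_of_eq_add
    ring
  have e5 : 10 * ((X + 1) * (Z + 1)) - (1 + (5 * (2 * X + 1) + 0 * (3 * Y + 2))) =
      10 * X * Z + 10 * Z + 4 := by
    apply Nat.sub_eq_of_eq_add
    ring
  rw [e3, e4, e5]
  ring

theorem num_ineq (x y z : ℕ) (hx : 1 ≤ x) (hy : 1 ≤ y) (hz : 1 ≤ z)
    (h : (2 ≤ x ∧ 2 ≤ y) ∨ (2 ≤ x ∧ 2 ≤ z) ∨ (2 ≤ y ∧ 2 ≤ z)) (f g : ℕ)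
    (hf : f = (1 + (15 * (2 * x - 1) + 10 * (3 * y - 1))) +
      (5 * (12 * (x ^ 2 * y) - (1 + (3 * (2 * x - 1) + 4 * (3 * y - 1)))) +
      (10 * (6 * (x * y) - (1 + (3 * (2 * x - 1) + 1 * (3 * y - 1)))) +
       6 * (10 * (x * z) - (1 + (5 * (2 * x - 1) + 0 * (3 * y - 1)))))))
    (hg : g = (1 + (15 * (2 * x ^ 2 - 1) + 10 * (3 * y ^ 2 - 1))) +
      (5 * (12 * ((x ^ 2) ^ 2 * y ^ 2) - (1 + (3 * (2 * x ^ 2 - 1) + 4 * (3 * y ^ 2 - 1)))) +
      (10 * (6 * (x ^ 2 * y ^ 2) - (1 + (3 * (2 * x ^ 2 - 1) + 1 * (3 * y ^ 2 - 1)))) +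
       6 * (10 * (x ^ 2 * z ^ 2) - (1 + (5 * (2 * x ^ 2 - 1) + 0 * (3 * y ^ 2 - 1)))))))
    (hfg : g * 60 = f ^ 2) : False := by
  obtain ⟨X, rfl⟩ : ∃ X, x = X + 1 := ⟨x - 1, by omega⟩
  obtain ⟨Y, rfl⟩ : ∃ Y, y = Y + 1 := ⟨y - 1, by omega⟩
  obtain ⟨Z, rfl⟩ : ∃ Z, z = Z + 1 := ⟨z - 1, by omega⟩
  have a1 : (X + 1) ^ 2 = (X ^ 2 + 2 * X) + 1 := by ring
  have a2 : (Y + 1) ^ 2 = (Y ^ 2 + 2 * Y) + 1 := by ring
  have a3 : (Z + 1) ^ 2 = (Z ^ 2 + 2 * Z) + 1 := by ring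
  rw [form60] at hf
  rw [a1, a2, a3, form60] at hg
  rw [hf, hg] at hfg
  have h1 : (1 + 2 * X + Y + X ^ 2 * Y + X ^ 2 + 3 * X * Y + X * Z + Z) ^ 2 =
      1 + 2 * (X ^ 2 + 2 * X) + (Y ^ 2 + 2 * Y) + (X ^ 2 + 2 * X) ^ 2 * (Y ^ 2 + 2 * Y) +
        (X ^ 2 + 2 * X) ^ 2 + 3 * (X ^ 2 + 2 * X) * (Y ^ 2 + 2 * Y) +
        (X ^ 2 + 2 * X) * (Z ^ 2 + 2 * Z) + (Z ^ 2 + 2 * Z) := by
    have : 3600 * (1 + 2 * X + Y + X ^ 2 * Y + X ^ 2 + 3 * X * Y + X * Z + Z) ^ 2 =
      3600 * (1 + 2 * (X ^ 2 + 2 * X) + (Y ^ 2 + 2 * Y) + (X ^ 2 + 2 * X) ^ 2 * (Y ^ 2 + 2 * Y) +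
        (X ^ 2 + 2 * X) ^ 2 + 3 * (X ^ 2 + 2 * X) * (Y ^ 2 + 2 * Y) +
        (X ^ 2 + 2 * X) * (Z ^ 2 + 2 * Z) + (Z ^ 2 + 2 * Z)) := by
      linarith
    omega
  zify at h1
  have h2 : (2 * (X : ℤ) ^ 3 * Y ^ 2 + 2 * X ^ 3 * Y + 4 * X ^ 2 * Y ^ 2 + 2 * X ^ 2 * Y +
      2 * X ^ 3 * Y * Z + 8 * X ^ 2 * Y * Z + 2 * X ^ 3 * Z + 4 * X ^ 2 * Z + 8 * X * Y * Z +
      2 * X * Z + 2 * Y * Z) - 2 * X * Y = 0 := by
    linear_combination h1
  rcases h with ⟨h3, h4⟩ | ⟨h3, h4⟩ | ⟨h3, h4⟩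
  · obtain ⟨u, rfl⟩ : ∃ u, X = u + 1 := ⟨X - 1, by omega⟩
    obtain ⟨v, rfl⟩ : ∃ v, Y = v + 1 := ⟨Y - 1, by omega⟩
    push_cast at h2
    ring_nf at h2
    have hu : (0 : ℤ) ≤ u := Int.natCast_nonneg u
    have hv : (0 : ℤ) ≤ v := Int.natCast_nonneg v
    have hw : (0 : ℤ) ≤ Z := Int.natCast_nonneg Z
    generalize (u : ℤ) = u at *
    generalize (v : ℤ) = v at *
    generalize (Z : ℤ) = w at *
    revert h2
    apply ne_of_gt
    positivity
  · obtain ⟨u, rfl⟩ : ∃ u, X = u + 1 := ⟨X - 1, by omega⟩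
    obtain ⟨v, rfl⟩ : ∃ v, Z = v + 1 := ⟨Z - 1, by omega⟩
    push_cast at h2
    ring_nf at h2
    have hu : (0 : ℤ) ≤ u := Int.natCast_nonneg u
    have hv : (0 : ℤ) ≤ v := Int.natCast_nonneg v
    have hw : (0 : ℤ) ≤ Y := Int.natCast_nonneg Y
    generalize (u : ℤ) = u at *
    generalize (v : ℤ) = v at *
    generalize (Y : ℤ) = w at *
    revert h2
    apply ne_of_gt
    positivity
  · rcases Nat.eq_zero_or_pos X with rfl | hX
    · have hv : (1 : ℤ) ≤ Y := by exact_mod_cast (by omega : 1 ≤ Y)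
      have hw : (1 : ℤ) ≤ Z := by exact_mod_cast (by omega : 1 ≤ Z)
      push_cast at h2
      nlinarith
    · obtain ⟨u, rfl⟩ : ∃ u, X = u + 1 := ⟨X - 1, by omega⟩
      obtain ⟨v, rfl⟩ : ∃ v, Y = v + 1 := ⟨Y - 1, by omega⟩
      push_cast at h2
      ring_nf at h2
      have hu : (0 : ℤ) ≤ u := Int.natCast_nonneg u
      have hv : (0 : ℤ) ≤ v := Int.natCast_nonneg v
      have hw : (0 : ℤ) ≤ Z := Int.natCast_nonneg Z
      generalize (u : ℤ) = u at *
      generalize (v : ℤ) = v at *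
      generalize (Z : ℤ) = w at *
      revert h2
      apply ne_of_gt
      positivity


/-- values at solvable groups of small order -/
theorem solv_vals (G : Type) [Group G] [TopologicalSpace G] (hU : Unif G)
    (h0 : ∀ (K : Type) [Group K] [Finite K], Nat.card (CH G K) ≠ 0)
    (r2 r3 r5 : ℕ)
    (h2 : Nat.card (CH G (Multiplicative (ZMod 2))) = r2)
    (h3 : Nat.card (CH G (Multiplicative (ZMod 3))) = r3)
    (h5 : Nat.card (CH G (Multiplicative (ZMod 5))) = r5) :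
    (∀ (T : Type) [Group T] [Finite T] [Group.IsSolvable T],
      Nat.card T = 12 → Nat.card (CH G T) = r2 ^ 2 * r3) ∧
    (∀ (T : Type) [Group T] [Finite T] [Group.IsSolvable T],
      Nat.card T = 6 → Nat.card (CH G T) = r2 * r3) ∧
    (∀ (T : Type) [Group T] [Finite T] [Group.IsSolvable T],
      Nat.card T = 10 → Nat.card (CH G T) = r2 * r5) := by
  have hform : ∀ (T : Type) [Group T] [Finite T] [Group.IsSolvable T],
      Nat.card (CH G T) = (Nat.card T).factorization.prod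
        (fun p k => Nat.card (CH G (Multiplicative (ZMod p))) ^ k) := by
    intro T _ _ _
    exact card_solv_formula G hU h0 (fun p => Nat.card (CH G (Multiplicative (ZMod p))))
      (fun p _ => rfl) T
  have f12 : (12 : ℕ).factorization.prod
      (fun p k => Nat.card (CH G (Multiplicative (ZMod p))) ^ k) = r2 ^ 2 * r3 := by
    have : (12 : ℕ) = 2 ^ 2 * 3 := by norm_num
    rw [this, Nat.factorization_mul (by norm_num) (by norm_num), Nat.factorization_pow,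
      Nat.Prime.factorization Nat.prime_two, Nat.Prime.factorization Nat.prime_three]
    rw [Finsupp.prod_add_index_of_disjoint, Finsupp.smul_single, Finsupp.prod_single_index,
      Finsupp.prod_single_index, h2, h3]
    · simp
    · simp
    · simp
    · rw [Finsupp.smul_single]
      refine Finset.disjoint_of_subset_left Finsupp.support_single_subset
        (Finset.disjoint_of_subset_right Finsupp.support_single_subset ?_)
      simp
  have f6 : (6 : ℕ).factorization.prod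
      (fun p k => Nat.card (CH G (Multiplicative (ZMod p))) ^ k) = r2 * r3 := by
    have : (6 : ℕ) = 2 * 3 := by norm_num
    rw [this, Nat.factorization_mul (by norm_num) (by norm_num),
      Nat.Prime.factorization Nat.prime_two, Nat.Prime.factorization Nat.prime_three]
    rw [Finsupp.prod_add_index_of_disjoint, Finsupp.prod_single_index,
      Finsupp.prod_single_index, h2, h3]
    · simp
    · simp
    · simp
    · refine Finset.disjoint_of_subset_left Finsupp.support_single_subset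
        (Finset.disjoint_of_subset_right Finsupp.support_single_subset ?_)
      simp
  have f10 : (10 : ℕ).factorization.prod
      (fun p k => Nat.card (CH G (Multiplicative (ZMod p))) ^ k) = r2 * r5 := by
    have : (10 : ℕ) = 2 * 5 := by norm_num
    rw [this, Nat.factorization_mul (by norm_num) (by norm_num),
      Nat.Prime.factorization Nat.prime_two, Nat.Prime.factorization Nat.prime_five]
    rw [Finsupp.prod_add_index_of_disjoint, Finsupp.prod_single_index,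
      Finsupp.prod_single_index, h2, h5]
    · simp
    · simp
    · simp
    · refine Finset.disjoint_of_subset_left Finsupp.support_single_subset
        (Finset.disjoint_of_subset_right Finsupp.support_single_subset ?_)
      simp
  refine ⟨?_, ?_, ?_⟩
  · intro T _ _ _ hT
    rw [hform, hT, f12]
  · intro T _ _ _ hT
    rw [hform, hT, f6]
  · intro T _ _ _ hT
    rw [hform, hT, f10]

/-- a factor without quotients `A5` for subgroups of index at most two has at most one of the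
ranks at 2, 3, 5 larger than one -/
theorem one_rank (G : Type) [Group G] [TopologicalSpace G] [IsTopologicalGroup G] [CompactSpace G]
    (UG : Unif G) (h0 : ∀ (K : Type) [Group K] [Finite K], Nat.card (CH G K) ≠ 0)
    (hns : ∀ (U : Subgroup G), IsOpen (U : Set G) →
      ∀ φ : CH U (alternatingGroup (Fin 5)), ¬ Function.Surjective φ.1)
    (hs : ∃ φ : CH G (Multiplicative (ZMod 2)), Function.Surjective φ.1)
    (x y z : ℕ) (hx : 1 ≤ x) (hy : 1 ≤ y) (hz : 1 ≤ z)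
    (h2 : Nat.card (CH G (Multiplicative (ZMod 2))) = 2 * x)
    (h3 : Nat.card (CH G (Multiplicative (ZMod 3))) = 3 * y)
    (h5 : Nat.card (CH G (Multiplicative (ZMod 5))) = 5 * z) :
    ¬ ((2 ≤ x ∧ 2 ≤ y) ∨ (2 ≤ x ∧ 2 ≤ z) ∨ (2 ≤ y ∧ 2 ≤ z)) := by
  intro hxyz
  have : NeZero 2 := ⟨two_ne_zero⟩
  have : NeZero 3 := ⟨three_ne_zero⟩
  have : NeZero 5 := ⟨by norm_num⟩
  obtain ⟨χ, hχ⟩ := hs
  have hUo : IsOpen (χ.1.ker : Set G) := χ.2
  have hidx : χ.1.ker.index = 2 := by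
    have e := Nat.card_congr (QuotientGroup.quotientKerEquivOfSurjective χ.1 hχ).toEquiv
    rw [card_cp] at e
    exact e
  have cnt : ∀ (K : Type) [Group K] [Finite K],
      Nat.card (CH χ.1.ker K) * Nat.card K = Nat.card (CH G K) ^ 2 := by
    intro K _ _
    have h := open_count G UG χ.1.ker hUo K
    rw [hidx] at h
    simpa using h
  have h0U : ∀ (K : Type) [Group K] [Finite K], Nat.card (CH χ.1.ker K) ≠ 0 := by
    intro K _ _ h
    have h1 := cnt K
    rw [h, zero_mul] at h1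
    exact (pow_ne_zero 2 (h0 K)) h1.symm
  obtain ⟨v12, v6, v10⟩ := solv_vals G UG h0 (2 * x) (3 * y) (5 * z) h2 h3 h5
  have hnsG : ∀ φ : CH G (alternatingGroup (Fin 5)), ¬ Function.Surjective φ.1 := by
    intro φ hφ
    have hopen : IsOpen ((φ.1.comp (⊤ : Subgroup G).subtype).ker : Set (⊤ : Subgroup G)) :=
      φ.2.preimage continuous_subtype_val
    refine hns ⊤ isOpen_univ ⟨φ.1.comp (⊤ : Subgroup G).subtype, hopen⟩ ?_
    intro k
    obtain ⟨g, hg⟩ := hφ k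
    exact ⟨⟨g, trivial⟩, hg⟩
  have eG := a5_exact G h0 hnsG (2 * x) (3 * y) (12 * (x ^ 2 * y)) (6 * (x * y)) (10 * (x * z))
    h2 h3 (fun T _ _ _ hT => by rw [v12 T hT]; ring) (fun T _ _ _ hT => by rw [v6 T hT]; ring)
    (fun T _ _ _ hT => by rw [v10 T hT]; ring)
  have u2 : Nat.card (CH χ.1.ker (Multiplicative (ZMod 2))) = 2 * x ^ 2 := by
    have h := cnt (Multiplicative (ZMod 2))
    rw [card_cp, h2] at h
    have h' : (2 * x) ^ 2 = 2 * x ^ 2 * 2 := by ring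
    rw [h'] at h
    exact Nat.eq_of_mul_eq_mul_right (by norm_num) h
  have u3 : Nat.card (CH χ.1.ker (Multiplicative (ZMod 3))) = 3 * y ^ 2 := by
    have h := cnt (Multiplicative (ZMod 3))
    rw [card_cp, h3] at h
    have h' : (3 * y) ^ 2 = 3 * y ^ 2 * 3 := by ring
    rw [h'] at h
    exact Nat.eq_of_mul_eq_mul_right (by norm_num) h
  have eU := a5_exact χ.1.ker h0U (hns _ hUo) (2 * x ^ 2) (3 * y ^ 2)
    (12 * ((x ^ 2) ^ 2 * y ^ 2)) (6 * (x ^ 2 * y ^ 2)) (10 * (x ^ 2 * z ^ 2)) u2 u3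
    (fun T _ _ _ hT => by
      have h := cnt T
      rw [v12 T hT, hT] at h
      have h' : ((2 * x) ^ 2 * (3 * y)) ^ 2 = 12 * ((x ^ 2) ^ 2 * y ^ 2) * 12 := by ring
      rw [h'] at h
      exact Nat.eq_of_mul_eq_mul_right (by norm_num) h)
    (fun T _ _ _ hT => by
      have h := cnt T
      rw [v6 T hT, hT] at h
      have h' : (2 * x * (3 * y)) ^ 2 = 6 * (x ^ 2 * y ^ 2) * 6 := by ring
      rw [h'] at h
      exact Nat.eq_of_mul_eq_mul_right (by norm_num) h)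
    (fun T _ _ _ hT => by
      have h := cnt T
      rw [v10 T hT, hT] at h
      have h' : (2 * x * (5 * z)) ^ 2 = 10 * (x ^ 2 * z ^ 2) * 10 := by ring
      rw [h'] at h
      exact Nat.eq_of_mul_eq_mul_right (by norm_num) h)
  have hfin := cnt (alternatingGroup (Fin 5))
  rw [a5_card] at hfin
  exact num_ineq x y z hx hy hz hxyz _ _ eG eU hfin

end Pool.Agent.Helper127.FF
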