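import Mathlib
import Pool.Agent.Helper127.FF.Core8

set_option autoImplicit false

namespace Pool.Agent.Helper127.FF

open J3_counts R4 Z1 J4_M1 R1 R2 Z2 Z5 Z4 J1_coprod J2_free J5_M2 J6_M3 R3 T1 N5 A5n4 A5a A5n2 A5c A5u N3 N6 N7 A5n3 A5n1

theorem split_pos (p n a b : ℕ) (hp : p.Prime) (hab : a * b = p ^ n) (ha : p ≤ a)
    (hb : p ≤ b) (hn : 3 ≤ n) :
    ∃ i j, a = p * p ^ i ∧ b = p * p ^ j ∧ (1 ≤ i ∨ 1 ≤ j) := by
  have hd : a ∣ p ^ n := ⟨b, hab.symm⟩
  obtain ⟨s, hs, rfl⟩ := (Nat.dvd_prime_pow hp).mp hd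
  have hb' : b = p ^ (n - s) := by
    have h1 : p ^ s * b = p ^ s * p ^ (n - s) := by
      rw [hab, ← pow_add]
      congr 1
      omega
    exact Nat.eq_of_mul_eq_mul_left (pow_pos hp.pos s) h1
  subst hb'
  have hlt := hp.one_lt
  have h1 : s ≠ 0 := by
    rintro rfl
    simp at ha
    omega
  have h2 : n - s ≠ 0 := by
    intro h
    rw [h] at hb
    simp at hb
    omega
  refine ⟨s - 1, n - s - 1, ?_, ?_, by omega⟩
  · rw [← pow_succ']
    congr 1
    omega
  · rw [← pow_succ']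
    congr 1
    omega

theorem two_le_pow (p i : ℕ) (hp : 2 ≤ p) (hi : 1 ≤ i) : 2 ≤ p ^ i := by
  calc 2 ≤ p := hp
    _ = p ^ 1 := (pow_one p).symm
    _ ≤ p ^ i := Nat.pow_le_pow_right (by omega) hi

theorem main_a5free
    (G : Type) [Group G] [TopologicalSpace G] [IsTopologicalGroup G] [CompactSpace G]
    [T2Space G] [TotallyDisconnectedSpace G]
    (H : Type) [Group H] [TopologicalSpace H] [IsTopologicalGroup H] [CompactSpace H]
    [T2Space H] [TotallyDisconnectedSpace H]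
    (P : Type) [Group P] [TopologicalSpace P] [IsTopologicalGroup P] [CompactSpace P]
    [T2Space P] [TotallyDisconnectedSpace P]
    (iG : ContinuousMonoidHom G P) (iH : ContinuousMonoidHom H P)
    (hU : ∀ (K : Type) [Group K] [TopologicalSpace K] [IsTopologicalGroup K] [CompactSpace K]
          [T2Space K] [TotallyDisconnectedSpace K]
          (f : ContinuousMonoidHom G K) (g : ContinuousMonoidHom H K),
          ∃! φ : ContinuousMonoidHom P K, (∀ x, φ (iG x) = f x) ∧ (∀ y, φ (iH y) = g y))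
    (n : ℕ) (ι : Fin n → P)
    (hF : ∀ (K : Type) [Group K] [TopologicalSpace K] [IsTopologicalGroup K] [CompactSpace K]
          [T2Space K] [TotallyDisconnectedSpace K] (f : Fin n → K),
          ∃! φ : ContinuousMonoidHom P K, ∀ i, φ (ι i) = f i)
    (hnG : ∀ (U : Subgroup G), IsOpen (U : Set G) →
      ∀ φ : CH U (alternatingGroup (Fin 5)), ¬ Function.Surjective φ.1)
    (hnH : ∀ (U : Subgroup H), IsOpen (U : Set H) →
      ∀ φ : CH U (alternatingGroup (Fin 5)), ¬ Function.Surjective φ.1) :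
    (∃ m : ℕ, ∃ ι : Fin m → G,
        ∀ (K : Type) [Group K] [TopologicalSpace K] [IsTopologicalGroup K] [CompactSpace K]
          [T2Space K] [TotallyDisconnectedSpace K] (f : Fin m → K),
          ∃! φ : ContinuousMonoidHom G K, ∀ i, φ (ι i) = f i) ∧
    (∃ k : ℕ, ∃ ι : Fin k → H,
        ∀ (K : Type) [Group K] [TopologicalSpace K] [IsTopologicalGroup K] [CompactSpace K]
          [T2Space K] [TotallyDisconnectedSpace K] (f : Fin k → K),
          ∃! φ : ContinuousMonoidHom H K, ∀ i, φ (ι i) = f i) := by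
  by_cases hn2 : n ≤ 2
  · exact main G H P iG iH hU n ι hF (Or.inl hn2)
  by_cases hH : ∀ y : H, y = 1
  · obtain ⟨h1, h2⟩ := free_of_trivial_factor G H P iG iH hU n ι hF hH
    exact ⟨⟨n, h1⟩, ⟨0, h2⟩⟩
  by_cases hG : ∀ y : G, y = 1
  · obtain ⟨h1, h2⟩ := free_of_trivial_factor H G P iH iG (by
      intro K _ _ _ _ _ _ f g
      obtain ⟨φ, h1, h2⟩ := hU K g f
      exact ⟨φ, ⟨h1.2, h1.1⟩, fun ψ hψ => h2 ψ ⟨hψ.2, hψ.1⟩⟩) n ι hF hG
    exact ⟨⟨0, h2⟩, ⟨n, h1⟩⟩
  exfalso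
  push Not at hG hH
  obtain ⟨hcnt, UG, UH⟩ := counts G H P n (iG : G →* P) (iH : H →* P)
    iG.continuous_toFun iH.continuous_toFun
    (fun K _ _ f g => coprod_fin G H P iG iH hU K f g) ι
    (fun K _ _ f => free_fin P n ι hF K f)
  have hpos : ∀ (K : Type) [Group K] [Finite K], 0 < Nat.card K ^ n := by
    intro K _ _
    exact pow_pos Nat.card_pos n
  have h0G : ∀ (K : Type) [Group K] [Finite K], Nat.card (CH G K) ≠ 0 := by
    intro K _ _ h
    have h1 := hcnt K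
    rw [h, zero_mul] at h1
    exact absurd h1.symm (hpos K).ne'
  have h0H : ∀ (K : Type) [Group K] [Finite K], Nat.card (CH H K) ≠ 0 := by
    intro K _ _ h
    have h1 := hcnt K
    rw [h, mul_zero] at h1
    exact absurd h1.symm (hpos K).ne'
  have key : ∀ p : ℕ, p.Prime → ∃ i j, Nat.card (CH G (Multiplicative (ZMod p))) = p * p ^ i ∧
      Nat.card (CH H (Multiplicative (ZMod p))) = p * p ^ j ∧ (1 ≤ i ∨ 1 ≤ j) := by
    intro p hp
    have : NeZero p := ⟨hp.ne_zero⟩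
    have h1 := hcnt (Multiplicative (ZMod p))
    have hg := lower_bounds G UG h0G hG (Multiplicative (ZMod p))
    have hh := lower_bounds H UH h0H hH (Multiplicative (ZMod p))
    rw [card_cp] at h1 hg hh
    exact split_pos p n _ _ hp h1 hg hh (by omega)
  obtain ⟨i2, j2, g2, k2, o2⟩ := key 2 Nat.prime_two
  obtain ⟨i3, j3, g3, k3, o3⟩ := key 3 Nat.prime_three
  obtain ⟨i5, j5, g5, k5, o5⟩ := key 5 Nat.prime_five
  have rG := one_rank G UG h0G hnG (exists_surj_prime G UG h0G hG 2 Nat.prime_two)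
    (2 ^ i2) (3 ^ i3) (5 ^ i5) (Nat.one_le_pow _ _ (by norm_num)) (Nat.one_le_pow _ _ (by norm_num))
    (Nat.one_le_pow _ _ (by norm_num)) g2 g3 g5
  have rH := one_rank H UH h0H hnH (exists_surj_prime H UH h0H hH 2 Nat.prime_two)
    (2 ^ j2) (3 ^ j3) (5 ^ j5) (Nat.one_le_pow _ _ (by norm_num)) (Nat.one_le_pow _ _ (by norm_num))
    (Nat.one_le_pow _ _ (by norm_num)) k2 k3 k5
  rcases o2 with a2 | a2 <;> rcases o3 with a3 | a3 <;> rcases o5 with a5 | a5
  · exact rG (Or.inl ⟨two_le_pow 2 i2 (by norm_num) a2, two_le_pow 3 i3 (by norm_num) a3⟩)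
  · exact rG (Or.inl ⟨two_le_pow 2 i2 (by norm_num) a2, two_le_pow 3 i3 (by norm_num) a3⟩)
  · exact rG (Or.inr (Or.inl ⟨two_le_pow 2 i2 (by norm_num) a2, two_le_pow 5 i5 (by norm_num) a5⟩))
  · exact rH (Or.inr (Or.inr ⟨two_le_pow 3 j3 (by norm_num) a3, two_le_pow 5 j5 (by norm_num) a5⟩))
  · exact rG (Or.inr (Or.inr ⟨two_le_pow 3 i3 (by norm_num) a3, two_le_pow 5 i5 (by norm_num) a5⟩))
  · exact rH (Or.inr (Or.inl ⟨two_le_pow 2 j2 (by norm_num) a2, two_le_pow 5 j5 (by norm_num) a5⟩))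
  · exact rH (Or.inl ⟨two_le_pow 2 j2 (by norm_num) a2, two_le_pow 3 j3 (by norm_num) a3⟩)
  · exact rH (Or.inl ⟨two_le_pow 2 j2 (by norm_num) a2, two_le_pow 3 j3 (by norm_num) a3⟩)

/-- the alternating group of degree five is not solvable -/
theorem a5_not_solvable : ¬ Group.IsSolvable (alternatingGroup (Fin 5)) := by
  intro h
  apply Equiv.Perm.not_isSolvable_fin_5
  refine Group.isSolvable_of_ker_le_range (alternatingGroup (Fin 5)).subtype
    (Equiv.Perm.sign (α := Fin 5)) ?_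
  intro x hx
  exact ⟨⟨x, hx⟩, rfl⟩

end Pool.Agent.Helper127.FF
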