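import Mathlib
import Pool.Agent.Helper127.FF.Defs

set_option autoImplicit false

namespace Pool.Agent.Helper127.FF.J6_M3


theorem card_le_aux (K : Type) [Group K] [Finite K] (x : K) :
    ∃ f : Multiplicative (ZMod (Nat.card K)) →* K, f (Multiplicative.ofAdd 1) = x := by
  have h : (zmultiplesHom (Additive K) (Additive.ofMul x)) ((Nat.card K : ℕ) : ℤ) = 0 := by
    rw [zmultiplesHom_apply, natCast_zsmul, ← ofMul_pow, pow_card_eq_one']
    rfl
  let F : ZMod (Nat.card K) →+ Additive K :=
    ZMod.lift (Nat.card K) ⟨zmultiplesHom (Additive K) (Additive.ofMul x), h⟩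
  have hF : F 1 = Additive.ofMul x := by
    have := ZMod.lift_coe (Nat.card K)
      (⟨zmultiplesHom (Additive K) (Additive.ofMul x), h⟩ :
        {f : ℤ →+ Additive K // f (Nat.card K) = 0}) 1
    simp only [Int.cast_one] at this
    show ZMod.lift (Nat.card K) ⟨zmultiplesHom (Additive K) (Additive.ofMul x), h⟩ 1 = _
    rw [this, zmultiplesHom_apply, one_zsmul]
  refine ⟨AddMonoidHom.toMultiplicativeLeft F, ?_⟩
  show (F 1).toMul = x
  rw [hF]
  rfl

theorem card_le
    (G : Type) [Group G] [TopologicalSpace G] [IsTopologicalGroup G]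
    (h0 : ∀ (K : Type) [Group K] [Finite K], Nat.card (CH G K) ≠ 0)
    (h2 : ∀ M : ℕ, 0 < M → ∃ φ : CH G (Multiplicative (ZMod M)), Function.Surjective φ.1)
    (K : Type) [Group K] [Finite K] :
    Nat.card K ≤ Nat.card (CH G K) := by
  classical
  obtain ⟨θ, hθ⟩ := h2 (Nat.card K) Nat.card_pos
  choose f hf using card_le_aux K
  haveI : Finite (CH G K) := Nat.finite_of_card_ne_zero (h0 K)
  let F : K → CH G K := fun x => ⟨(f x).comp θ.1, by
    refine Subgroup.isOpen_mono ?_ θ.2
    intro g hg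
    rw [MonoidHom.mem_ker] at hg ⊢
    rw [MonoidHom.comp_apply, hg, map_one]⟩
  apply Nat.card_le_card_of_injective F
  intro x y hxy
  obtain ⟨g, hg⟩ := hθ (Multiplicative.ofAdd 1)
  have h1 : ((f x).comp θ.1) g = ((f y).comp θ.1) g := by
    have := congrArg Subtype.val hxy
    exact DFunLike.congr_fun this g
  rw [MonoidHom.comp_apply, MonoidHom.comp_apply, hg, hf, hf] at h1
  exact h1

end Pool.Agent.Helper127.FF.J6_M3
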